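import Mathlib

/-!
Definitions for the Robin problem on Lipschitz domains: Lipschitz boundary, surface measure,
the Sobolev space H1, traces, weak solutions and the Schwarz rearrangement.
-/

namespace Pool.Agent.Lib.MP_54d1f6_an

open MeasureTheory Metric Set Filter Topology
open scoped RealInnerProductSpace ContDiff NNReal

/-- Euclidean space of dimension `N`. -/
abbrev E (N : ℕ) : Type := EuclideanSpace ℝ (Fin N)

variable {N : ℕ}

/-- A bounded open set with Lipschitz boundary (not necessarily connected): near every boundary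
point, the set is the region below the graph of a Lipschitz function `γ` over the hyperplane
orthogonal to a unit vector `e` (so `γ` does not depend on the `e` coordinate). -/
def IsLipschitzDomain (Ω : Set (E N)) : Prop :=
  IsOpen Ω ∧ Bornology.IsBounded Ω ∧
    ∀ x₀ ∈ frontier Ω, ∃ (r : ℝ) (e : E N) (γ : E N → ℝ) (L : ℝ≥0), 0 < r ∧ ‖e‖ = 1 ∧
      LipschitzWith L γ ∧ (∀ (x : E N) (t : ℝ), γ (x + t • e) = γ x) ∧
        ∀ x ∈ ball x₀ r, (x ∈ Ω ↔ ⟪x, e⟫ < γ x)

/-- Surface measure: the `(N-1)`-dimensional Hausdorff measure, normalised so that it is Lebesgue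
measure on hyperplanes, restricted to the boundary. -/
noncomputable def surf (Ω : Set (E N)) : Measure (E N) :=
  (μHE[N - 1] : Measure (E N)).restrict (frontier Ω)

/-- `u` lies in `H1(Ω)` and `G` is its weak gradient. -/
structure IsH1 (Ω : Set (E N)) (u : E N → ℝ) (G : E N → E N) : Prop where
  memL2 : MemLp u 2 (volume.restrict Ω)
  gradL2 : MemLp G 2 (volume.restrict Ω)
  weak : ∀ ψ : E N → ℝ, ContDiff ℝ ∞ ψ → HasCompactSupport ψ → tsupport ψ ⊆ Ω → ∀ v : E N,
    ∫ x in Ω, u x * fderiv ℝ ψ x v = -∫ x in Ω, ψ x * ⟪G x, v⟫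

/-- `g` is the trace on the boundary of the function `u` with weak gradient `G`: there are `C1`
functions on the whole space converging to `u` in `H1(Ω)` whose restrictions to the boundary
converge to `g` in `L2` of the surface measure. -/
structure IsTrace (Ω : Set (E N)) (u : E N → ℝ) (G : E N → E N) (g : E N → ℝ) : Prop where
  memL2 : MemLp g 2 (surf Ω)
  approx : ∃ φ : ℕ → E N → ℝ, (∀ n, ContDiff ℝ 1 (φ n)) ∧
    Tendsto (fun n => eLpNorm (fun x => φ n x - u x) 2 (volume.restrict Ω)) atTop (𝓝 0) ∧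
    Tendsto (fun n => eLpNorm (fun x => gradient (φ n) x - G x) 2 (volume.restrict Ω))
      atTop (𝓝 0) ∧
    Tendsto (fun n => eLpNorm (fun x => φ n x - g x) 2 (surf Ω)) atTop (𝓝 0)

/-- Weak solution together with a trace (auxiliary form used in the proof). -/
def IsRobinSolution (β : ℝ) (Ω : Set (E N)) (f u : E N → ℝ) : Prop :=
  ∃ (G : E N → E N) (g : E N → ℝ), IsH1 Ω u G ∧ IsTrace Ω u G g ∧
    ∀ (φ : E N → ℝ) (Gφ : E N → E N) (gφ : E N → ℝ), IsH1 Ω φ Gφ → IsTrace Ω φ Gφ gφ →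
      (∫ x in Ω, ⟪G x, Gφ x⟫) + β * ∫ x, g x * gφ x ∂(surf Ω) = ∫ x in Ω, f x * φ x

/-- `u` is a weak solution of `-Δ u = f` in `Ω`, `∂u/∂ν + β u = 0` on the boundary: `u` lies in
`H1(Ω)` and, with `g` the trace of `u`, the weak identity holds for every test function `φ` in
`H1(Ω)` with trace `gφ`. -/
def IsWeakSolution (β : ℝ) (Ω : Set (E N)) (f u : E N → ℝ) : Prop :=
  ∃ G : E N → E N, IsH1 Ω u G ∧ ∀ g : E N → ℝ, IsTrace Ω u G g →
    ∀ (φ : E N → ℝ) (Gφ : E N → E N) (gφ : E N → ℝ), IsH1 Ω φ Gφ → IsTrace Ω φ Gφ gφ →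
      (∫ x in Ω, ⟪G x, Gφ x⟫) + β * ∫ x, g x * gφ x ∂(surf Ω) = ∫ x in Ω, f x * φ x

/-- The decreasing rearrangement `f*(s) = inf {t ≥ 0 : |{f > t}| < s}`. -/
noncomputable def rearr (Ω : Set (E N)) (f : E N → ℝ) (s : ℝ) : ℝ :=
  sInf {t : ℝ | 0 ≤ t ∧ volume {x | x ∈ Ω ∧ t < f x} < ENNReal.ofReal s}

/-- The Schwarz rearrangement `f♯(x) = f*(ω_N |x|^N)`, `ω_N` the volume of the unit ball. -/
noncomputable def schwarz (Ω : Set (E N)) (f : E N → ℝ) (x : E N) : ℝ :=
  rearr Ω f ((volume (ball (0 : E N) 1)).toReal * ‖x‖ ^ N)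

end Pool.Agent.Lib.MP_54d1f6_an
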