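import Pool.Agent.Lib.MP_54d1f6_an.Main

-- part Pool.Agent.Lib.MP_54d1f6_an.Adm
section

/-!
Admissible triples (function, weak gradient, trace): construction from the approximation
property, smooth functions, linear combinations and the chain rule.
-/

namespace Pool.Agent.Lib.MP_54d1f6_an

open MeasureTheory Metric Set Filter Topology
open scoped RealInnerProductSpace ContDiff NNReal ENNReal

variable {N : ℕ}

theorem adm_fin_vol {Ω : Set (E N)} (hΩ : Nice Ω) : IsFiniteMeasure (volume.restrict Ω) :=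
  ⟨by
    rw [Measure.restrict_apply_univ]
    exact hΩ.2.1.measure_lt_top⟩

theorem adm_fin_surf {Ω : Set (E N)} (hΩ : Nice Ω) : IsFiniteMeasure (surf Ω) :=
  ⟨by
    unfold surf
    rw [Measure.restrict_apply_univ]
    exact hΩ.2.2⟩

theorem adm_ae_vol {Ω : Set (E N)} (hΩ : Nice Ω) :
    ∀ᵐ x ∂(volume.restrict Ω), x ∈ closure Ω := by
  filter_upwards [ae_restrict_mem hΩ.1.measurableSet] with x hx using subset_closure hx

theorem adm_ae_surf (Ω : Set (E N)) : ∀ᵐ x ∂(surf Ω), x ∈ closure Ω := by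
  unfold surf
  filter_upwards [ae_restrict_mem isClosed_frontier.measurableSet] with x hx
    using frontier_subset_closure hx

theorem adm_memLp_cont {V : Type} [NormedAddCommGroup V] {K : Set (E N)} (hK : IsCompact K)
    (μ : Measure (E N)) [IsFiniteMeasure μ] (hμ : ∀ᵐ x ∂μ, x ∈ K) {F : E N → V}
    (hF : Continuous F) : MemLp F 2 μ := by
  obtain ⟨C, hC⟩ := hK.exists_bound_of_continuousOn hF.continuousOn
  refine MemLp.of_bound hF.aestronglyMeasurable C ?_
  filter_upwards [hμ] with x hx using hC x hx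

theorem adm_cont_grad {φ : E N → ℝ} (hφ : ContDiff ℝ 1 φ) : Continuous (gradient φ) := by
  unfold gradient
  exact (InnerProductSpace.toDual ℝ (E N)).symm.continuous.comp
    (hφ.continuous_fderiv (by norm_num))

theorem adm_inner_grad (φ : E N → ℝ) (x v : E N) : ⟪gradient φ x, v⟫ = fderiv ℝ φ x v := by
  unfold gradient
  exact InnerProductSpace.toDual_symm_apply

theorem adm_tendsto_mul {α V W : Type} [MeasurableSpace α] [NormedAddCommGroup V]
    [NormedAddCommGroup W] {μ : Measure α} {D : ℕ → α → V} {F : ℕ → α → W} (C : ℝ)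
    (hD : Tendsto (fun n => eLpNorm (D n) 2 μ) atTop (𝓝 0))
    (hb : ∀ n, ∀ᵐ x ∂μ, ‖F n x‖ ≤ C * ‖D n x‖) :
    Tendsto (fun n => eLpNorm (F n) 2 μ) atTop (𝓝 0) := by
  have h1 : Tendsto (fun n => ENNReal.ofReal C * eLpNorm (D n) 2 μ) atTop (𝓝 0) := by
    have := ENNReal.Tendsto.const_mul (a := ENNReal.ofReal C) hD (Or.inr ENNReal.ofReal_ne_top)
    simpa using this
  exact tendsto_of_tendsto_of_tendsto_of_le_of_le tendsto_const_nhds h1 (fun _ => zero_le)
    (fun n => eLpNorm_le_mul_eLpNorm_of_ae_le_mul (hb n) 2)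

theorem adm_tendsto_add {α V : Type} [MeasurableSpace α] [NormedAddCommGroup V]
    {μ : Measure α} {A B F : ℕ → α → V}
    (hA : Tendsto (fun n => eLpNorm (A n) 2 μ) atTop (𝓝 0))
    (hB : Tendsto (fun n => eLpNorm (B n) 2 μ) atTop (𝓝 0))
    (hAm : ∀ n, AEStronglyMeasurable (A n) μ) (hBm : ∀ n, AEStronglyMeasurable (B n) μ)
    (hF : ∀ n x, F n x = A n x + B n x) :
    Tendsto (fun n => eLpNorm (F n) 2 μ) atTop (𝓝 0) := by
  have h1 : Tendsto (fun n => eLpNorm (A n) 2 μ + eLpNorm (B n) 2 μ) atTop (𝓝 0) := by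
    simpa using hA.add hB
  refine tendsto_of_tendsto_of_tendsto_of_le_of_le tendsto_const_nhds h1 (fun _ => zero_le)
    (fun n => ?_)
  have : F n = A n + B n := funext fun x => hF n x
  show eLpNorm (F n) 2 μ ≤ _
  rw [this]
  exact eLpNorm_add_le (hAm n) (hBm n) (by norm_num)

theorem adm_tendsto_int {α V : Type} [MeasurableSpace α] [NormedAddCommGroup V]
    {μ : Measure α} [IsFiniteMeasure μ] {D : ℕ → α → V} {F : ℕ → α → ℝ} {F₀ : α → ℝ} (C : ℝ)
    (hD : Tendsto (fun n => eLpNorm (D n) 2 μ) atTop (𝓝 0))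
    (hF : ∀ n, Integrable (F n) μ) (hF₀ : AEStronglyMeasurable F₀ μ)
    (hb : ∀ n, ∀ᵐ x ∂μ, ‖F n x - F₀ x‖ ≤ C * ‖D n x‖) :
    Tendsto (fun n => ∫ x, F n x ∂μ) atTop (𝓝 (∫ x, F₀ x ∂μ)) := by
  refine tendsto_integral_of_L1' F₀ hF₀ (Eventually.of_forall hF) ?_
  have h2 : Tendsto (fun n => eLpNorm (F n - F₀) 2 μ) atTop (𝓝 0) :=
    adm_tendsto_mul (F := fun n => F n - F₀) C hD hb
  have hfin : μ univ ^ (1 / (1 : ℝ≥0∞).toReal - 1 / (2 : ℝ≥0∞).toReal) ≠ ⊤ := by
    refine ENNReal.rpow_ne_top_of_nonneg ?_ (measure_ne_top μ univ)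
    norm_num
  have h1 : Tendsto (fun n => eLpNorm (F n - F₀) 2 μ *
      μ univ ^ (1 / (1 : ℝ≥0∞).toReal - 1 / (2 : ℝ≥0∞).toReal)) atTop (𝓝 0) := by
    have := ENNReal.Tendsto.mul_const h2 (Or.inr hfin)
    simpa using this
  exact tendsto_of_tendsto_of_tendsto_of_le_of_le tendsto_const_nhds h1 (fun _ => zero_le)
    (fun n => eLpNorm_le_eLpNorm_mul_rpow_measure_univ (by norm_num)
      ((hF n).aestronglyMeasurable.sub hF₀))

theorem adm_dct {α V W : Type} [MeasurableSpace α] [NormedAddCommGroup V]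
    [NormedAddCommGroup W] {μ : Measure α} [IsFiniteMeasure μ] {H : ℕ → α → V} {B : α → W}
    (C : ℝ) (hB : MemLp B 2 μ) (hH : ∀ n, AEStronglyMeasurable (H n) μ)
    (hb : ∀ n x, ‖H n x‖ ≤ C * ‖B x‖)
    (h0 : ∀ᵐ x ∂μ, Tendsto (fun n => H n x) atTop (𝓝 0)) :
    Tendsto (fun n => eLpNorm (H n) 2 μ) atTop (𝓝 0) := by
  have hB' : MemLp (fun x => C * ‖B x‖) 2 μ := hB.norm.const_mul C
  have hui : UnifIntegrable H 2 μ := by
    intro ε hε
    obtain ⟨δ, hδ, hgδ⟩ := hB'.eLpNorm_indicator_le (by norm_num) (by norm_num) hε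
    refine ⟨δ, hδ, fun n s hs hμs => le_trans ?_ (hgδ s hs hμs)⟩
    refine eLpNorm_mono fun x => ?_
    by_cases hx : x ∈ s
    · simp only [indicator_of_mem hx]
      exact (hb n x).trans (le_abs_self _)
    · simp [indicator_of_notMem hx]
  have := tendsto_Lp_finite_of_tendsto_ae (g := fun _ => (0 : V)) (by norm_num) (by norm_num) hH
    (MemLp.zero) hui h0
  refine this.congr fun n => ?_
  congr 1
  funext x
  simp

theorem adm_ibp {Ω : Set (E N)} {φ ψ : E N → ℝ} (hφ : ContDiff ℝ 1 φ) (hψ : ContDiff ℝ ∞ ψ)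
    (hc : HasCompactSupport ψ) (hs : tsupport ψ ⊆ Ω) (v : E N) :
    ∫ x in Ω, φ x * fderiv ℝ ψ x v = -∫ x in Ω, ψ x * ⟪gradient φ x, v⟫ := by
  have hψ1 : ContDiff ℝ 1 ψ := hψ.of_le (by exact_mod_cast le_top)
  have hcφ' : Continuous fun x => fderiv ℝ φ x v :=
    (hφ.continuous_fderiv (by norm_num)).clm_apply continuous_const
  have hcψ' : Continuous fun x => fderiv ℝ ψ x v :=
    (hψ1.continuous_fderiv (by norm_num)).clm_apply continuous_const
  have hsψ' : HasCompactSupport fun x => fderiv ℝ ψ x v := hc.fderiv_apply (𝕜 := ℝ) v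
  have h0 : ∀ x, x ∉ Ω → ψ x = 0 := fun x hx => image_eq_zero_of_notMem_tsupport fun h => hx (hs h)
  have h0' : ∀ x, x ∉ Ω → fderiv ℝ ψ x v = 0 := by
    intro x hx
    have : fderiv ℝ ψ x = 0 := by
      by_contra h
      exact hx (hs (support_fderiv_subset ℝ h))
    simp [this]
  have key := integral_mul_fderiv_eq_neg_fderiv_mul_of_integrable (μ := (volume : Measure (E N)))
    (f := φ) (g := ψ) (v := v)
    ((hcφ'.mul hψ1.continuous).integrable_of_hasCompactSupport hc.mul_left)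
    ((hφ.continuous.mul hcψ').integrable_of_hasCompactSupport hsψ'.mul_left)
    ((hφ.continuous.mul hψ1.continuous).integrable_of_hasCompactSupport hc.mul_left)
    (fun x _ => (hφ.differentiable (by norm_num)) x)
    (fun x _ => (hψ1.differentiable (by norm_num)) x)
  rw [setIntegral_eq_integral_of_forall_compl_eq_zero (fun x hx => by simp [h0' x hx]),
    setIntegral_eq_integral_of_forall_compl_eq_zero (fun x hx => by simp [h0 x hx]), key]
  congr 1
  refine integral_congr_ae (Eventually.of_forall fun x => ?_)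
  simp only [adm_inner_grad]
  ring

theorem admMk (hN : 0 < N) : AdmMkStmt N := by
  intro Ω u G g hΩ hu hG htr
  refine ⟨hu, hG, fun ψ hψ hc hs v => ?_⟩
  obtain ⟨φ, hφ, h1, h2, -⟩ := htr.approx
  have := adm_fin_vol hΩ
  have hK : IsCompact (closure Ω) := hΩ.2.1.isCompact_closure
  have hψ1 : ContDiff ℝ 1 ψ := hψ.of_le (by exact_mod_cast le_top)
  have hcψ' : Continuous fun x => fderiv ℝ ψ x v :=
    (hψ1.continuous_fderiv (by norm_num)).clm_apply continuous_const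
  obtain ⟨C₁, hC₁⟩ := hK.exists_bound_of_continuousOn hcψ'.continuousOn
  obtain ⟨C₂, hC₂⟩ := hK.exists_bound_of_continuousOn hψ1.continuous.continuousOn
  have hint : ∀ F : E N → ℝ, Continuous F → Integrable F (volume.restrict Ω) := fun F hF =>
    (adm_memLp_cont hK _ (adm_ae_vol hΩ) hF).integrable (by norm_num)
  have t1 : Tendsto (fun n => ∫ x in Ω, φ n x * fderiv ℝ ψ x v) atTop
      (𝓝 (∫ x in Ω, u x * fderiv ℝ ψ x v)) := by
    refine adm_tendsto_int C₁ h1 (fun n => hint _ ((hφ n).continuous.mul hcψ'))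
      (hu.1.mul hcψ'.aestronglyMeasurable) fun n => ?_
    filter_upwards [adm_ae_vol hΩ] with x hx
    rw [← sub_mul, norm_mul, mul_comm]
    exact mul_le_mul_of_nonneg_right (hC₁ x hx) (norm_nonneg _)
  have t2 : Tendsto (fun n => ∫ x in Ω, ψ x * ⟪gradient (φ n) x, v⟫) atTop
      (𝓝 (∫ x in Ω, ψ x * ⟪G x, v⟫)) := by
    refine adm_tendsto_int (C₂ * ‖v‖) h2 (fun n => hint _ (hψ1.continuous.mul
      ((adm_cont_grad (hφ n)).inner continuous_const)))
      (hψ1.continuous.aestronglyMeasurable.mul (hG.1.inner aestronglyMeasurable_const))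
      fun n => ?_
    filter_upwards [adm_ae_vol hΩ] with x hx
    rw [← mul_sub, ← inner_sub_left, norm_mul]
    calc ‖ψ x‖ * ‖⟪gradient (φ n) x - G x, v⟫‖
        ≤ C₂ * (‖gradient (φ n) x - G x‖ * ‖v‖) :=
          mul_le_mul (hC₂ x hx) (norm_inner_le_norm _ _) (norm_nonneg _)
            ((norm_nonneg _).trans (hC₂ x hx))
      _ = C₂ * ‖v‖ * ‖gradient (φ n) x - G x‖ := by ring
  have t3 : Tendsto (fun n => ∫ x in Ω, φ n x * fderiv ℝ ψ x v) atTop
      (𝓝 (-∫ x in Ω, ψ x * ⟪G x, v⟫)) :=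
    t2.neg.congr fun n => (adm_ibp (hφ n) hψ hc hs v).symm
  exact tendsto_nhds_unique t1 t3

theorem admSmooth (hN : 0 < N) : AdmSmoothStmt N := by
  intro Ω φ hΩ hφ
  have := adm_fin_vol hΩ
  have := adm_fin_surf hΩ
  have hK : IsCompact (closure Ω) := hΩ.2.1.isCompact_closure
  have htr : IsTrace Ω φ (gradient φ) φ :=
    ⟨adm_memLp_cont hK _ (adm_ae_surf Ω) hφ.continuous, fun _ => φ, fun _ => hφ,
      by simp, by simp, by simp⟩
  exact ⟨admMk hN Ω φ _ φ hΩ (adm_memLp_cont hK _ (adm_ae_vol hΩ) hφ.continuous)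
    (adm_memLp_cont hK _ (adm_ae_vol hΩ) (adm_cont_grad hφ)) htr, htr⟩

theorem adm_grad_lin {φ φ' : E N → ℝ} (hφ : ContDiff ℝ 1 φ) (hφ' : ContDiff ℝ 1 φ') (a a' : ℝ)
    (x : E N) : gradient (fun y => a * φ y + a' * φ' y) x =
      a • gradient φ x + a' • gradient φ' x := by
  have h1 := ((hφ.differentiable (by norm_num)) x).hasFDerivAt
  have h2 := ((hφ'.differentiable (by norm_num)) x).hasFDerivAt
  have h3 := (h1.const_mul a).add (h2.const_mul a')
  refine ext_inner_right ℝ fun v => ?_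
  have h4 : fderiv ℝ (fun y => a * φ y + a' * φ' y) x =
      a • fderiv ℝ φ x + a' • fderiv ℝ φ' x := h3.fderiv
  rw [inner_add_left, real_inner_smul_left, real_inner_smul_left, adm_inner_grad, adm_inner_grad,
    adm_inner_grad, h4]
  simp

theorem adm_tendsto_lin {α V : Type} [MeasurableSpace α] [NormedAddCommGroup V] [NormedSpace ℝ V]
    {μ : Measure α} {A B F : ℕ → α → V} (a a' : ℝ)
    (hA : Tendsto (fun n => eLpNorm (A n) 2 μ) atTop (𝓝 0))
    (hB : Tendsto (fun n => eLpNorm (B n) 2 μ) atTop (𝓝 0))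
    (hAm : ∀ n, AEStronglyMeasurable (A n) μ) (hBm : ∀ n, AEStronglyMeasurable (B n) μ)
    (hF : ∀ n x, F n x = a • A n x + a' • B n x) :
    Tendsto (fun n => eLpNorm (F n) 2 μ) atTop (𝓝 0) := by
  refine adm_tendsto_add (A := fun n x => a • A n x) (B := fun n x => a' • B n x)
    (adm_tendsto_mul ‖a‖ hA fun n => Eventually.of_forall fun x => (norm_smul _ _).le)
    (adm_tendsto_mul ‖a'‖ hB fun n => Eventually.of_forall fun x => (norm_smul _ _).le)
    (fun n => (hAm n).const_smul a) (fun n => (hBm n).const_smul a') hF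

theorem admLin (hN : 0 < N) : AdmLinStmt N := by
  intro Ω u u' G G' g g' a a' hΩ h h'
  obtain ⟨φ, hφ, h1, h2, h3⟩ := h.2.approx
  obtain ⟨φ', hφ', h1', h2', h3'⟩ := h'.2.approx
  have htr : IsTrace Ω (fun x => a * u x + a' * u' x) (fun x => a • G x + a' • G' x)
      (fun x => a * g x + a' * g' x) := by
    refine ⟨(h.2.memL2.const_mul a).add (h'.2.memL2.const_mul a'),
      fun n y => a * φ n y + a' * φ' n y,
      fun n => (contDiff_const.mul (hφ n)).add (contDiff_const.mul (hφ' n)), ?_, ?_, ?_⟩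
    · refine adm_tendsto_lin a a' h1 h1'
        (fun n => (hφ n).continuous.aestronglyMeasurable.sub h.1.memL2.1)
        (fun n => (hφ' n).continuous.aestronglyMeasurable.sub h'.1.memL2.1) fun n x => ?_
      simp only [smul_eq_mul]
      ring
    · refine adm_tendsto_lin a a' h2 h2'
        (fun n => (adm_cont_grad (hφ n)).aestronglyMeasurable.sub h.1.gradL2.1)
        (fun n => (adm_cont_grad (hφ' n)).aestronglyMeasurable.sub h'.1.gradL2.1) fun n x => ?_
      rw [adm_grad_lin (hφ n) (hφ' n), smul_sub, smul_sub]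
      abel
    · refine adm_tendsto_lin a a' h3 h3'
        (fun n => (hφ n).continuous.aestronglyMeasurable.sub h.2.memL2.1)
        (fun n => (hφ' n).continuous.aestronglyMeasurable.sub h'.2.memL2.1) fun n x => ?_
      simp only [smul_eq_mul]
      ring
  exact ⟨admMk hN Ω _ _ _ hΩ ((h.1.memL2.const_mul a).add (h'.1.memL2.const_mul a'))
    ((h.1.gradL2.const_smul a).add (h'.1.gradL2.const_smul a')) htr, htr⟩

theorem adm_lip {θ : ℝ → ℝ} {M : ℝ} (hθ : ContDiff ℝ 1 θ) (hM : ∀ t, |deriv θ t| ≤ M)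
    (s t : ℝ) : ‖θ s - θ t‖ ≤ M * ‖s - t‖ :=
  convex_univ.norm_image_sub_le_of_norm_deriv_le
    (fun x _ => (hθ.differentiable (by norm_num)) x) (fun x _ => hM x) (mem_univ t) (mem_univ s)

theorem adm_memLp_comp {α : Type} [MeasurableSpace α] {μ : Measure α} [IsFiniteMeasure μ]
    {θ : ℝ → ℝ} {M : ℝ} (hθ : ContDiff ℝ 1 θ) (hM : ∀ t, |deriv θ t| ≤ M) {u : α → ℝ}
    (hu : MemLp u 2 μ) : MemLp (fun x => θ (u x)) 2 μ := by
  have h1 : MemLp (fun x => θ (u x) - θ 0) 2 μ := by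
    refine MemLp.of_le_mul (c := M) hu
      ((hθ.continuous.comp_aestronglyMeasurable hu.1).sub aestronglyMeasurable_const)
      (Eventually.of_forall fun x => ?_)
    simpa using adm_lip hθ hM (u x) 0
  have h2 := h1.add (memLp_const (θ 0))
  refine h2.ae_eq (Eventually.of_forall fun x => ?_)
  simp

theorem adm_grad_comp {φ : E N → ℝ} (hφ : ContDiff ℝ 1 φ) {θ : ℝ → ℝ} (hθ : ContDiff ℝ 1 θ)
    (x : E N) : gradient (fun y => θ (φ y)) x = deriv θ (φ x) • gradient φ x := by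
  have h1 := ((hφ.differentiable (by norm_num)) x).hasFDerivAt
  have h2 := ((hθ.differentiable (by norm_num)) (φ x)).hasDerivAt
  have h3 : fderiv ℝ (fun y => θ (φ y)) x = deriv θ (φ x) • fderiv ℝ φ x :=
    (h2.comp_hasFDerivAt x h1).fderiv
  refine ext_inner_right ℝ fun v => ?_
  rw [real_inner_smul_left, adm_inner_grad, adm_inner_grad, h3]
  simp

theorem admComp (hN : 0 < N) : AdmCompStmt N := by
  intro Ω u G g θ M hΩ h hθ hM
  have := adm_fin_vol hΩ
  have := adm_fin_surf hΩ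
  obtain ⟨φ, hφ, h1, h2, h3⟩ := h.2.approx
  have hθ' : Continuous (deriv θ) := hθ.continuous_deriv le_rfl
  obtain ⟨ns, hns, hae⟩ := (tendstoInMeasure_of_tendsto_eLpNorm (p := 2) (f := φ) (g := u)
    (by norm_num) (fun n => (hφ n).continuous.aestronglyMeasurable) h.1.memL2.1
    h1).exists_seq_tendsto_ae
  have hm0 : AEStronglyMeasurable (fun x => deriv θ (u x)) (volume.restrict Ω) :=
    hθ'.comp_aestronglyMeasurable h.1.memL2.1
  have htr : IsTrace Ω (fun x => θ (u x)) (fun x => deriv θ (u x) • G x) (fun x => θ (g x)) := by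
    refine ⟨adm_memLp_comp hθ hM h.2.memL2, fun n y => θ (φ (ns n) y),
      fun n => hθ.comp (hφ (ns n)), ?_, ?_, ?_⟩
    · exact adm_tendsto_mul M (h1.comp hns.tendsto_atTop) fun n =>
        Eventually.of_forall fun x => adm_lip hθ hM _ _
    · have hmn : ∀ n, AEStronglyMeasurable (fun x => deriv θ (φ (ns n) x)) (volume.restrict Ω) :=
        fun n => (hθ'.comp (hφ (ns n)).continuous).aestronglyMeasurable
      refine adm_tendsto_add
        (A := fun n x => deriv θ (φ (ns n) x) • (gradient (φ (ns n)) x - G x))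
        (B := fun n x => (deriv θ (φ (ns n) x) - deriv θ (u x)) • G x) ?_ ?_
        (fun n => (hmn n).smul
          ((adm_cont_grad (hφ (ns n))).aestronglyMeasurable.sub h.1.gradL2.1))
        (fun n => ((hmn n).sub hm0).smul h.1.gradL2.1) fun n x => ?_
      · refine adm_tendsto_mul M (h2.comp hns.tendsto_atTop) fun n =>
          Eventually.of_forall fun x => ?_
        rw [norm_smul]
        exact mul_le_mul_of_nonneg_right (hM _) (norm_nonneg _)
      · refine adm_dct (2 * M) h.1.gradL2 (fun n => ((hmn n).sub hm0).smul h.1.gradL2.1)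
          (fun n x => ?_) ?_
        · rw [norm_smul]
          refine mul_le_mul_of_nonneg_right ?_ (norm_nonneg _)
          have e1 := hM (φ (ns n) x)
          have e2 := hM (u x)
          rw [Real.norm_eq_abs]
          exact (abs_sub _ _).trans (by linarith)
        · filter_upwards [hae] with x hx
          have := (((hθ'.tendsto (u x)).comp hx).sub_const (deriv θ (u x))).smul_const (G x)
          simpa using this
      · rw [adm_grad_comp (hφ (ns n)) hθ, smul_sub, sub_smul]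
        abel
    · exact adm_tendsto_mul M (h3.comp hns.tendsto_atTop) fun n =>
        Eventually.of_forall fun x => adm_lip hθ hM _ _
  refine ⟨admMk hN Ω _ _ _ hΩ (adm_memLp_comp hθ hM h.1.memL2) ?_ htr, htr⟩
  refine MemLp.of_le_mul (c := M) h.1.gradL2 (hm0.smul h.1.gradL2.1)
    (Eventually.of_forall fun x => ?_)
  rw [norm_smul]
  exact mul_le_mul_of_nonneg_right (hM _) (norm_nonneg _)

end Pool.Agent.Lib.MP_54d1f6_an
end

-- part Pool.Agent.Lib.MP_54d1f6_an.Cmp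
section

/-!
Divergence inequalities for admissible functions and the weak comparison principle.
-/

namespace Pool.Agent.Lib.MP_54d1f6_an

open MeasureTheory Metric Set Filter Topology
open scoped RealInnerProductSpace ContDiff NNReal

variable {N : ℕ}

theorem cmp_fin {Ω : Set (E N)} (h : Nice Ω) :
    IsFiniteMeasure (volume.restrict Ω) ∧ IsFiniteMeasure (surf Ω) :=
  ⟨isFiniteMeasure_restrict.2 h.2.1.measure_lt_top.ne, isFiniteMeasure_restrict.2 h.2.2.ne⟩

theorem cmp_bdd {Ω : Set (E N)} (h : Nice Ω) {F : Type*} [NormedAddCommGroup F] {a : E N → F}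
    (ha : Continuous a) :
    ∃ K : ℝ, (∀ᵐ x ∂(volume.restrict Ω), ‖a x‖ ≤ K) ∧ ∀ᵐ x ∂(surf Ω), ‖a x‖ ≤ K := by
  obtain ⟨K, hK⟩ := h.2.1.isCompact_closure.exists_bound_of_continuousOn ha.continuousOn
  exact ⟨K, ae_restrict_of_forall_mem h.1.measurableSet fun x hx => hK x (subset_closure hx),
    ae_restrict_of_forall_mem isClosed_frontier.measurableSet
      fun x hx => hK x (frontier_subset_closure hx)⟩

theorem cmp_memLp {Ω : Set (E N)} (h : Nice Ω) {F : Type*} [NormedAddCommGroup F] {a : E N → F}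
    (ha : Continuous a) : MemLp a 2 (volume.restrict Ω) ∧ MemLp a 2 (surf Ω) := by
  obtain ⟨h1, h2⟩ := cmp_fin h
  obtain ⟨K, h3, h4⟩ := cmp_bdd h ha
  exact ⟨MemLp.of_bound ha.aestronglyMeasurable K h3, MemLp.of_bound ha.aestronglyMeasurable K h4⟩

theorem cmp_inner {μ : Measure (E N)} {F : Type*} [NormedAddCommGroup F] [InnerProductSpace ℝ F]
    {a b : E N → F} (ha : MemLp a 2 μ) (hb : MemLp b 2 μ) : Integrable (fun x => ⟪a x, b x⟫) μ :=
  (ha.norm.integrable_mul hb.norm).mono' (ha.1.inner hb.1)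
    (Eventually.of_forall fun _ => norm_inner_le_norm _ _)

theorem cmp_mul {μ : Measure (E N)} {a b : E N → ℝ} (ha : MemLp a 2 μ) (hb : MemLp b 2 μ) :
    Integrable (fun x => a x * b x) μ := ha.integrable_mul hb

theorem cmp_abs {μ : Measure (E N)} {a : E N → ℝ} {b : E N → E N} (ha : MemLp a 2 μ)
    (hb : MemLp b 2 μ) : Integrable (fun x => |a x| * ‖b x‖) μ := ha.abs.integrable_mul hb.norm

theorem cmp_lim {μ : Measure (E N)} [IsFiniteMeasure μ] {F : Type*} [NormedAddCommGroup F]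
    {a : ℕ → E N → F} {b : E N → F} (ha : ∀ n, MemLp (a n) 2 μ) (hb : MemLp b 2 μ)
    (hl : Tendsto (fun n => eLpNorm (fun x => a n x - b x) 2 μ) atTop (𝓝 0))
    {A : ℕ → E N → ℝ} {B : E N → ℝ} (hA : ∀ n, Integrable (A n) μ) (hB : Integrable B μ) {K : ℝ}
    (hK : ∀ n, ∀ᵐ x ∂μ, ‖A n x - B x‖ ≤ K * ‖a n x - b x‖) :
    Tendsto (fun n => ∫ x, A n x ∂μ) atTop (𝓝 (∫ x, B x ∂μ)) := by
  refine tendsto_integral_of_L1' B hB.1 (Eventually.of_forall hA) ?_
  have h1 := ENNReal.Tendsto.const_mul (a := ENNReal.ofReal K) (ENNReal.Tendsto.mul_const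
    (b := μ univ ^ (1 / (1 : ENNReal).toReal - 1 / (2 : ENNReal).toReal)) hl
      (Or.inr (ENNReal.rpow_ne_top_of_nonneg (by norm_num) (measure_ne_top _ _))))
    (Or.inr ENNReal.ofReal_ne_top)
  rw [zero_mul, mul_zero] at h1
  refine tendsto_of_tendsto_of_tendsto_of_le_of_le tendsto_const_nhds h1 (fun _ => zero_le)
    fun n => (eLpNorm_le_mul_eLpNorm_of_ae_le_mul (hK n) 1).trans ?_
  gcongr
  exact eLpNorm_le_eLpNorm_mul_rpow_measure_univ (by norm_num) ((ha n).1.sub hb.1)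

theorem cmp_grad {φ : E N → ℝ} {n : ℕ} (h : ContDiff ℝ (n + 1 : ℕ) φ) :
    ContDiff ℝ n (gradient φ) :=
  (InnerProductSpace.toDual ℝ (E N)).symm.contDiff.comp (h.fderiv_right (by simp))

theorem cmp_divg {Y : E N → E N} (h : ContDiff ℝ 1 Y) : Continuous (divg Y) := by
  have := h.continuous_fderiv (by norm_num)
  unfold divg
  fun_prop

theorem admDiv (_hN : 0 < N) (hdiv : DivStmt N) : AdmDivStmt N := by
  rintro Ω u G g Y hΩ ⟨⟨hu, hG, -⟩, hg, φ, hφ, l1, l2, l3⟩ hY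
  obtain ⟨f1, f2⟩ := cmp_fin hΩ
  have m1 := fun n => cmp_memLp hΩ (hφ n).continuous
  have m2 := fun n => (cmp_memLp hΩ (cmp_grad (n := 0) (hφ n)).continuous).1
  have m3 := cmp_memLp hΩ hY.continuous
  have m4 := (cmp_memLp hΩ (cmp_divg hY)).1
  obtain ⟨K, k1, k2⟩ := cmp_bdd hΩ hY.continuous
  obtain ⟨K', k3, -⟩ := cmp_bdd hΩ (cmp_divg hY)
  have t1 := cmp_lim m2 hG l2 (fun n => cmp_inner (m2 n) m3.1) (cmp_inner hG m3.1) (K := K)
    fun n => k1.mono fun x hx => by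
      rw [← inner_sub_left, mul_comm]
      exact (norm_inner_le_norm _ _).trans (by gcongr)
  have t2 := cmp_lim (fun n => (m1 n).1) hu l1 (fun n => cmp_mul (m1 n).1 m4)
    (cmp_mul hu m4) (K := K') fun n => k3.mono fun x hx => by
      rw [← sub_mul, norm_mul, mul_comm]
      gcongr
  have t3 := cmp_lim (fun n => (m1 n).2) hg l3 (fun n => cmp_abs (m1 n).2 m3.2)
    (cmp_abs hg m3.2) (K := K) fun n => k2.mono fun x hx => by
      rw [← sub_mul, norm_mul, mul_comm, norm_norm]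
      exact mul_le_mul hx (abs_abs_sub_abs_le (φ n x) (g x)) (norm_nonneg _)
        ((norm_nonneg _).trans hx)
  rw [integral_add (cmp_inner hG m3.1) (cmp_mul hu m4)]
  refine le_of_tendsto_of_tendsto' (t1.add t2) t3 fun n => ?_
  rw [← integral_add (cmp_inner (m2 n) m3.1) (cmp_mul (m1 n).1 m4)]
  exact hdiv Ω (φ n) Y hΩ (hφ n) hY

theorem cmp_nice (hsph : SphStmt N) {R : ℝ} (hR : 0 < R) : Nice (ball (0 : E N) R) := by
  refine ⟨isOpen_ball, isBounded_ball, ?_⟩
  rw [frontier_ball _ hR.ne']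
  refine lt_top_iff_ne_top.2 fun h => ?_
  have := hsph R hR
  rw [h, ENNReal.mul_top (by simpa using hR), top_le_iff] at this
  exact ENNReal.mul_ne_top (ENNReal.natCast_ne_top N) measure_ball_lt_top.ne this

theorem cmp_ball (hdiv : DivStmt N) (hsph : SphStmt N) {R : ℝ} (hR : 0 < R) {φ : E N → ℝ}
    (hφ : ContDiff ℝ 1 φ) : R * ∫ x, φ x ∂(surf (ball (0 : E N) R)) ≤
      (∫ x in ball (0 : E N) R, ⟪gradient φ x, x⟫) + ∫ x in ball (0 : E N) R, N * φ x := by
  have hΩ := cmp_nice hsph hR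
  obtain ⟨f1, f2⟩ := cmp_fin hΩ
  obtain ⟨M, -, hM⟩ := cmp_bdd hΩ hφ.continuous
  have m1 := cmp_memLp hΩ hφ.continuous
  have m2 := (cmp_memLp hΩ (cmp_grad (n := 0) hφ).continuous).1
  have m3 := (cmp_memLp hΩ (continuous_id (X := E N))).1
  have h := hdiv _ (fun x => |M| - φ x) id hΩ (contDiff_const.sub hφ) contDiff_id
  have e1 : ∀ x, ⟪gradient (fun x => |M| - φ x) x, id x⟫ + (|M| - φ x) * divg id x =
      N * |M| - (⟪gradient φ x, x⟫ + N * φ x) := by
    intro x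
    rw [inner_gradient_left, inner_gradient_left, fderiv_const_sub]
    simp [divg, bas]
    ring
  have e2 : ∫ x, |(|M| - φ x)| * ‖id x‖ ∂(surf (ball (0 : E N) R)) =
      ∫ x, R * (|M| - φ x) ∂(surf (ball (0 : E N) R)) := by
    refine integral_congr_ae ?_
    have : ∀ᵐ x ∂(surf (ball (0 : E N) R)), ‖x‖ = R :=
      ae_restrict_of_forall_mem isClosed_frontier.measurableSet fun x hx => by
        rwa [frontier_ball _ hR.ne', mem_sphere_zero_iff_norm] at hx
    filter_upwards [this, hM] with x h1 h2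
    have h3 : φ x ≤ |M| := (le_abs_self _).trans (h2.trans (le_abs_self _))
    rw [id, h1, abs_of_nonneg (sub_nonneg.2 h3), mul_comm]
  have i1 : Integrable (fun x => ⟪gradient φ x, x⟫) _ := cmp_inner m2 m3
  have i2 := (m1.1.integrable one_le_two).const_mul (N : ℝ)
  have i3 : Integrable (fun x => ⟪gradient φ x, x⟫ + N * φ x) _ := i1.add i2
  simp only [e1, e2] at h
  rw [integral_sub (integrable_const _) i3, integral_add i1 i2, integral_const_mul,
    integral_const_mul R, integral_sub (integrable_const _) (m1.2.integrable one_le_two)] at h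
  have h1 : R * (surf (ball (0 : E N) R)).real univ ≤
      N * (volume.restrict (ball (0 : E N) R)).real univ := by
    have := ENNReal.toReal_mono
      (ENNReal.mul_ne_top (ENNReal.natCast_ne_top N) measure_ball_lt_top.ne) (hsph R hR)
    rw [ENNReal.toReal_mul, ENNReal.toReal_mul, ENNReal.toReal_ofReal hR.le] at this
    simpa [surf, Measure.real, frontier_ball _ hR.ne'] using this
  simp only [integral_const, smul_eq_mul] at h
  nlinarith [mul_le_mul_of_nonneg_right h1 (abs_nonneg M)]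

theorem ballIneq (_hN : 0 < N) (hdiv : DivStmt N) (hsph : SphStmt N) : BallStmt N := by
  rintro R u G g hR ⟨⟨hu, hG, -⟩, hg, φ, hφ, l1, l2, l3⟩
  have hΩ := cmp_nice hsph hR
  obtain ⟨f1, f2⟩ := cmp_fin hΩ
  have m1 := fun n => cmp_memLp hΩ (hφ n).continuous
  have m2 := fun n => (cmp_memLp hΩ (cmp_grad (n := 0) (hφ n)).continuous).1
  have m3 := (cmp_memLp hΩ (continuous_id (X := E N))).1
  obtain ⟨K, k1, -⟩ := cmp_bdd hΩ (continuous_id (X := E N))
  have t1 := cmp_lim m2 hG l2 (fun n => cmp_inner (m2 n) m3) (cmp_inner hG m3) (K := K)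
    fun n => k1.mono fun x hx => by
      rw [← inner_sub_left, mul_comm]
      exact (norm_inner_le_norm _ _).trans (by gcongr)
  have t2 := cmp_lim (fun n => (m1 n).1) hu l1
    (fun n => ((m1 n).1.integrable one_le_two).const_mul (N : ℝ))
    ((hu.integrable one_le_two).const_mul (N : ℝ)) (K := N) fun n =>
      Eventually.of_forall fun x => by rw [← mul_sub, norm_mul, Real.norm_natCast]
  have t3 := cmp_lim (fun n => (m1 n).2) hg l3 (fun n => (m1 n).2.integrable one_le_two)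
    (hg.integrable one_le_two) (K := 1) fun n => Eventually.of_forall fun x => (one_mul _).ge
  have e := integral_add (cmp_inner hG m3) ((hu.integrable one_le_two).const_mul (N : ℝ))
  exact (le_of_tendsto_of_tendsto' (t3.const_mul R) (t1.add t2) fun n =>
    cmp_ball hdiv hsph hR (hφ n)).trans e.ge

theorem cmp_theta : ∃ M : ℝ, ∀ t, |deriv Real.smoothTransition t| ≤ M := by
  refine HasCompactSupport.exists_bound_of_continuous
    (HasCompactSupport.intro (isCompact_Icc (a := (0 : ℝ)) (b := 1)) fun t ht => ?_)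
    ((Real.smoothTransition.contDiff (n := 1)).continuous_deriv le_rfl)
  rcases not_and_or.1 ht with h | h
  · have : Real.smoothTransition =ᶠ[𝓝 t] fun _ => 0 :=
      (eventually_lt_nhds (not_le.1 h)).mono fun s hs => Real.smoothTransition.zero_of_nonpos hs.le
    rw [this.deriv_eq, deriv_const]
  · have : Real.smoothTransition =ᶠ[𝓝 t] fun _ => 1 :=
      (eventually_gt_nhds (not_le.1 h)).mono fun s hs => Real.smoothTransition.one_of_one_le hs.le
    rw [this.deriv_eq, deriv_const]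

theorem cmp_divg_grad {Φ : E N → ℝ} (h : ContDiff ℝ 2 Φ) (x : E N) :
    divg (fun y => -gradient Φ y) x = -lap Φ x := by
  unfold divg lap
  rw [← Finset.sum_neg_distrib]
  refine Finset.sum_congr rfl fun i _ => ?_
  have h1 := ((cmp_grad (n := 1) h).differentiable (by norm_num) x).hasFDerivAt
  have h2 := (EuclideanSpace.proj (𝕜 := ℝ) i).hasFDerivAt.comp x h1
  have e : (fun y => fderiv ℝ Φ y (bas i)) = EuclideanSpace.proj (𝕜 := ℝ) i ∘ gradient Φ := by
    funext y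
    rw [← inner_gradient_left, bas, EuclideanSpace.inner_single_right]
    simp
  rw [e, h2.fderiv, fderiv_fun_neg]
  simp

theorem compare (_hN : 0 < N) (h1 : AdmSmoothStmt N) (h2 : AdmLinStmt N) (h3 : AdmCompStmt N)
    (h4 : AdmDivStmt N) : CompareStmt N := by
  rintro Ω β f u Φ hΩ hβ hf ⟨G, g, hH, hT, heq⟩ hΦ hbd hsup
  obtain ⟨M, hM⟩ := cmp_theta
  obtain ⟨f1, f2⟩ := cmp_fin hΩ
  have hY : ContDiff ℝ 1 (gradient Φ) := cmp_grad (n := 1) hΦ
  have a1 := h3 Ω _ _ _ _ M hΩ (h2 Ω u Φ G _ g Φ 1 (-1) hΩ ⟨hH, hT⟩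
    (h1 Ω Φ hΩ (hΦ.of_le (by norm_num)))) Real.smoothTransition.contDiff hM
  simp only [one_mul, neg_mul, one_smul, neg_smul, ← sub_eq_add_neg] at a1
  have e1 := heq _ _ _ a1.1 a1.2
  have e2 := h4 Ω _ _ _ _ hΩ a1 hY.neg
  simp only [cmp_divg_grad hΦ, norm_neg] at e2
  have m1 := a1.1.memL2
  have m2 := a1.1.gradL2
  have m3 := a1.2.memL2
  have m4 := cmp_memLp hΩ hY.continuous
  have m5 : MemLp (fun x => -lap Φ x) 2 (volume.restrict Ω) := by
    simpa only [funext (cmp_divg_grad hΦ)] using (cmp_memLp hΩ (cmp_divg hY.neg)).1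
  have i1 := cmp_inner hH.gradL2 m2
  have i2 := cmp_inner (b := fun x => -gradient Φ x) m2 m4.1.neg
  have i3 := cmp_mul m1 m5
  have i4 := cmp_mul hf m1
  rw [integral_add i2 i3] at e2
  have p1 : 0 ≤ (∫ x in Ω, ⟪G x, deriv Real.smoothTransition (u x - Φ x) • (G x - gradient Φ x)⟫) +
      ∫ x in Ω, ⟪deriv Real.smoothTransition (u x - Φ x) • (G x - gradient Φ x), -gradient Φ x⟫ := by
    rw [← integral_add i1 i2]
    refine integral_nonneg fun x => ?_
    rw [real_inner_comm, ← inner_add_right, ← sub_eq_add_neg, real_inner_smul_left]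
    exact mul_nonneg Real.smoothTransition.monotone.deriv_nonneg real_inner_self_nonneg
  have p2 : ∫ x, |Real.smoothTransition (g x - Φ x)| * ‖gradient Φ x‖ ∂(surf Ω) ≤
      β * ∫ x, g x * Real.smoothTransition (g x - Φ x) ∂(surf Ω) := by
    rw [← integral_const_mul]
    refine integral_mono_ae (cmp_abs m3 m4.2) ((cmp_mul hT.memL2 m3).const_mul β)
      (ae_restrict_of_forall_mem isClosed_frontier.measurableSet fun x hx => ?_)
    rcases le_or_gt (g x - Φ x) 0 with h | h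
    · simp [Real.smoothTransition.zero_of_nonpos h]
    · have h5 : ‖gradient Φ x‖ ≤ β * g x := by
        rw [gradient, LinearIsometryEquiv.norm_map]
        exact (hbd x hx).trans (mul_le_mul_of_nonneg_left (by linarith) hβ.le)
      have h6 := Real.smoothTransition.nonneg (g x - Φ x)
      dsimp only
      rw [abs_of_nonneg h6]
      nlinarith
  have p3 : 0 ≤ᵐ[volume.restrict Ω] fun x => Real.smoothTransition (u x - Φ x) * -lap Φ x -
      f x * Real.smoothTransition (u x - Φ x) := hsup.mono fun x hx => by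
    rcases le_or_gt (u x - Φ x) 0 with h | h
    · simp [Real.smoothTransition.zero_of_nonpos h]
    · have := hx (by linarith)
      have := Real.smoothTransition.nonneg (u x - Φ x)
      dsimp only [Pi.zero_apply]
      nlinarith
  have p4 := (integral_eq_zero_iff_of_nonneg_ae p3 (i3.sub i4)).1
    (le_antisymm (by rw [integral_sub i3 i4]; linarith) (integral_nonneg_of_ae p3))
  filter_upwards [p4, hsup] with x a b
  by_contra h
  have := b (not_le.1 h)
  have := Real.smoothTransition.pos_of_pos (sub_pos.2 (not_le.1 h))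
  dsimp only [Pi.zero_apply] at a
  nlinarith

end Pool.Agent.Lib.MP_54d1f6_an
end

-- part Pool.Agent.Lib.MP_54d1f6_an.Exist
section

/-!
Existence of weak solutions of the Robin problem: Friedrichs inequality and Lax-Milgram in the
closure of the space of triples (function, gradient, boundary values) of `C1` functions.
-/

namespace Pool.Agent.Lib.MP_54d1f6_an

open MeasureTheory Metric Set Filter Topology
open scoped RealInnerProductSpace ContDiff NNReal

variable {N : ℕ}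

/-- Lax-Milgram on a closed subspace of a triple product. -/
theorem exist_abs {A B C : Type*} [NormedAddCommGroup A] [InnerProductSpace ℝ A] [CompleteSpace A]
    [NormedAddCommGroup B] [InnerProductSpace ℝ B] [CompleteSpace B]
    [NormedAddCommGroup C] [InnerProductSpace ℝ C] [CompleteSpace C]
    (S : Submodule ℝ (A × B × C)) (hS : IsClosed (S : Set (A × B × C))) (β K : ℝ) (hβ : 0 < β)
    (hK : 0 ≤ K) (hF : ∀ h ∈ S, ‖h.1‖ ^ 2 ≤ K * (‖h.2.1‖ ^ 2 + ‖h.2.2‖ ^ 2)) (f : A) :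
    ∃ v ∈ S, ∀ w ∈ S, ⟪v.2.1, w.2.1⟫ + β * ⟪v.2.2, w.2.2⟫ = ⟪f, w.1⟫ := by
  let H := WithLp 2 (A × WithLp 2 (B × C))
  let p1 : H →L[ℝ] A := WithLp.fstL 2 ℝ A (WithLp 2 (B × C))
  let p2 : H →L[ℝ] B := (WithLp.fstL 2 ℝ B C).comp (WithLp.sndL 2 ℝ A (WithLp 2 (B × C)))
  let p3 : H →L[ℝ] C := (WithLp.sndL 2 ℝ B C).comp (WithLp.sndL 2 ℝ A (WithLp 2 (B × C)))
  let P : H →L[ℝ] A × B × C := p1.prod (p2.prod p3)
  let V : Submodule ℝ H := S.comap P.toLinearMap
  have hV : IsClosed (V : Set H) := hS.preimage P.continuous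
  have : CompleteSpace V := hV.completeSpace_coe
  let q1 : V →L[ℝ] A := p1.comp V.subtypeL
  let q2 : V →L[ℝ] B := p2.comp V.subtypeL
  let q3 : V →L[ℝ] C := p3.comp V.subtypeL
  let Bf : V →L[ℝ] V →L[ℝ] ℝ :=
    (innerSL ℝ : B →L[ℝ] B →L[ℝ] ℝ).bilinearComp q2 q2 +
      β • (innerSL ℝ : C →L[ℝ] C →L[ℝ] ℝ).bilinearComp q3 q3
  have hBf : ∀ v w : V, Bf v w = ⟪q2 v, q2 w⟫ + β * ⟪q3 v, q3 w⟫ := fun v w => rfl
  have hnorm : ∀ v : V, ‖v‖ ^ 2 = ‖q1 v‖ ^ 2 + (‖q2 v‖ ^ 2 + ‖q3 v‖ ^ 2) := by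
    intro v
    have h1 : ‖v‖ = ‖(v : H)‖ := rfl
    rw [h1, WithLp.prod_norm_sq_eq_of_L2, WithLp.prod_norm_sq_eq_of_L2]
    rfl
  have hco : IsCoercive Bf := by
    refine ⟨min 1 β / (K + 1), by positivity, fun v => ?_⟩
    have h1 : ‖q1 v‖ ^ 2 ≤ K * (‖q2 v‖ ^ 2 + ‖q3 v‖ ^ 2) := hF (P v) v.2
    have h2 : ‖v‖ ^ 2 ≤ (K + 1) * (‖q2 v‖ ^ 2 + ‖q3 v‖ ^ 2) := by rw [hnorm]; linarith
    rw [hBf, real_inner_self_eq_norm_sq, real_inner_self_eq_norm_sq]
    have h3 : min 1 β ≤ 1 := min_le_left _ _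
    have h4 : min 1 β ≤ β := min_le_right _ _
    have h5 : 0 < min 1 β := by positivity
    have h6 : min 1 β / (K + 1) * ‖v‖ * ‖v‖ = min 1 β * (‖v‖ ^ 2 / (K + 1)) := by ring
    have h7 : ‖v‖ ^ 2 / (K + 1) ≤ ‖q2 v‖ ^ 2 + ‖q3 v‖ ^ 2 := by
      rw [div_le_iff₀ (by positivity)]; linarith
    rw [h6]
    nlinarith [sq_nonneg ‖q2 v‖, sq_nonneg ‖q3 v‖, mul_le_mul_of_nonneg_left h7 h5.le]
  let l : V →L[ℝ] ℝ := (innerSL ℝ f).comp q1
  let F : V := (InnerProductSpace.toDual ℝ V).symm l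
  let v : V := hco.continuousLinearEquivOfBilin.symm F
  refine ⟨P v, v.2, fun w hw => ?_⟩
  let w' : V := ⟨WithLp.toLp 2 (w.1, WithLp.toLp 2 (w.2.1, w.2.2)), hw⟩
  have h1 := hco.continuousLinearEquivOfBilin_apply v w'
  have h2 : hco.continuousLinearEquivOfBilin v = F :=
    hco.continuousLinearEquivOfBilin.apply_symm_apply F
  rw [h2, hBf] at h1
  have h3 : ⟪F, w'⟫ = l w' := InnerProductSpace.toDual_symm_apply
  rw [h3] at h1
  exact h1.symm

theorem exist_gradient_sq (φ : E N → ℝ) (hφ : ContDiff ℝ 1 φ) (x : E N) :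
    gradient (fun y => φ y ^ 2) x = (2 * φ x) • gradient φ x := by
  have hd : DifferentiableAt ℝ φ x := (hφ.differentiable (by norm_num)) x
  have h := (hd.hasFDerivAt.pow 2).fderiv
  unfold gradient
  rw [h]
  simp

theorem exist_divg_id (x : E N) : divg (fun y : E N => y) x = N := by
  unfold divg bas
  simp

theorem exist_norm_sq {α F : Type*} [MeasurableSpace α] {μ : Measure α} [NormedAddCommGroup F]
    [InnerProductSpace ℝ F] (a : Lp F 2 μ) (φ : α → F) (h : a =ᵐ[μ] φ) :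
    ‖a‖ ^ 2 = ∫ x, ‖φ x‖ ^ 2 ∂μ := by
  rw [← real_inner_self_eq_norm_sq, L2.inner_def]
  refine integral_congr_ae ?_
  filter_upwards [h] with x hx
  rw [hx, real_inner_self_eq_norm_sq]

theorem exist_inner {α F : Type*} [MeasurableSpace α] {μ : Measure α} [NormedAddCommGroup F]
    [InnerProductSpace ℝ F] (a b : Lp F 2 μ) (φ ψ : α → F) (h : a =ᵐ[μ] φ) (h' : b =ᵐ[μ] ψ) :
    ⟪a, b⟫ = ∫ x, ⟪φ x, ψ x⟫ ∂μ := by
  rw [L2.inner_def]
  refine integral_congr_ae ?_
  filter_upwards [h, h'] with x hx hx'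
  rw [hx, hx']

/-- Friedrichs inequality for `C1` functions. -/
theorem exist_friedrichs (hN : 0 < N) (hdiv : DivStmt N) (hsm : AdmSmoothStmt N)
    (Ω : Set (E N)) (hΩ : Nice Ω) (D : ℝ) (hD0 : 0 ≤ D) (hD : ∀ x ∈ closure Ω, ‖x‖ ≤ D)
    (φ : E N → ℝ) (hφ : ContDiff ℝ 1 φ) :
    ∫ x in Ω, ‖φ x‖ ^ 2 ≤ (4 * D ^ 2 + 2 * D) *
      ((∫ x in Ω, ‖gradient φ x‖ ^ 2) + ∫ x, ‖φ x‖ ^ 2 ∂(surf Ω)) := by
  obtain ⟨h1, h2⟩ := hsm Ω φ hΩ hφ
  have i1 : Integrable (fun x => ‖φ x‖ ^ 2) (volume.restrict Ω) :=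
    (memLp_two_iff_integrable_sq_norm h1.memL2.1).1 h1.memL2
  have i2 : Integrable (fun x => ‖gradient φ x‖ ^ 2) (volume.restrict Ω) :=
    (memLp_two_iff_integrable_sq_norm h1.gradL2.1).1 h1.gradL2
  have i3 : Integrable (fun x => ‖φ x‖ ^ 2) (surf Ω) :=
    (memLp_two_iff_integrable_sq_norm h2.memL2.1).1 h2.memL2
  have key := hdiv Ω (fun y => φ y ^ 2) (fun y => y) hΩ (hφ.pow 2) contDiff_id
  have hN1 : (1 : ℝ) ≤ N := by exact_mod_cast hN
  have hmeas : MeasurableSet Ω := hΩ.1.measurableSet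
  have hpt : ∀ x ∈ Ω, |⟪(2 * φ x) • gradient φ x, x⟫| ≤
      ‖φ x‖ ^ 2 / 2 + 2 * D ^ 2 * ‖gradient φ x‖ ^ 2 := by
    intro x hx
    have a1 := abs_real_inner_le_norm ((2 * φ x) • gradient φ x) x
    have a2 : ‖(2 * φ x) • gradient φ x‖ = 2 * ‖φ x‖ * ‖gradient φ x‖ := by
      rw [norm_smul, norm_mul]; simp
    have a3 := hD x (subset_closure hx)
    have a4 : 2 * ‖φ x‖ * ‖gradient φ x‖ * ‖x‖ ≤ 2 * ‖φ x‖ * ‖gradient φ x‖ * D :=
      mul_le_mul_of_nonneg_left a3 (by positivity)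
    rw [a2] at a1
    nlinarith [sq_nonneg (‖φ x‖ - 2 * D * ‖gradient φ x‖)]
  have hgc : Continuous (gradient φ) := by
    unfold gradient
    exact (InnerProductSpace.toDual ℝ (E N)).symm.continuous.comp
      (hφ.continuous_fderiv (by norm_num))
  have i4 : Integrable (fun x => ⟪(2 * φ x) • gradient φ x, x⟫) (volume.restrict Ω) := by
    refine Integrable.mono' ((i1.div_const 2).add (i2.const_mul (2 * D ^ 2))) ?_ ?_
    · have := hφ.continuous
      exact (Continuous.inner (by fun_prop) continuous_id).aestronglyMeasurable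
    · refine (ae_restrict_iff' hmeas).2 (Eventually.of_forall fun x hx => ?_)
      exact hpt x hx
  have lhs : (∫ x in Ω, ‖φ x‖ ^ 2) / 2 - 2 * D ^ 2 * ∫ x in Ω, ‖gradient φ x‖ ^ 2 ≤
      ∫ x in Ω, (⟪gradient (fun y => φ y ^ 2) x, x⟫ + φ x ^ 2 * divg (fun y : E N => y) x) := by
    rw [← integral_div, ← integral_const_mul, ← integral_sub (i1.div_const 2) (i2.const_mul _)]
    simp only [exist_gradient_sq φ hφ, exist_divg_id]
    refine setIntegral_mono_on ((i1.div_const 2).sub (i2.const_mul _)) ?_ hmeas fun x hx => ?_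
    · refine i4.add ?_
      have := i1.mul_const (N : ℝ)
      simpa using this
    · have a1 := hpt x hx
      have a2 := neg_abs_le ⟪(2 * φ x) • gradient φ x, x⟫
      have a3 : ‖φ x‖ ^ 2 = φ x ^ 2 := by simp
      rw [a3] at a1 ⊢
      nlinarith [sq_nonneg (φ x)]
  have rhs : ∫ x, |φ x ^ 2| * ‖x‖ ∂(surf Ω) ≤ D * ∫ x, ‖φ x‖ ^ 2 ∂(surf Ω) := by
    rw [← integral_const_mul]
    refine integral_mono_of_nonneg (Eventually.of_forall fun x => by positivity) (i3.const_mul D) ?_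
    unfold surf
    refine (ae_restrict_iff' isClosed_frontier.measurableSet).2
      (Eventually.of_forall fun x hx => ?_)
    have a3 := hD x (frontier_subset_closure hx)
    have a4 : |φ x ^ 2| = ‖φ x‖ ^ 2 := by simp
    show |φ x ^ 2| * ‖x‖ ≤ D * ‖φ x‖ ^ 2
    rw [a4, mul_comm D]
    exact mul_le_mul_of_nonneg_left a3 (by positivity)
  have n2 : 0 ≤ ∫ x in Ω, ‖gradient φ x‖ ^ 2 := integral_nonneg fun x => by positivity
  have n3 : 0 ≤ ∫ x, ‖φ x‖ ^ 2 ∂(surf Ω) := integral_nonneg fun x => by positivity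
  have k2 := lhs.trans (key.trans rhs)
  nlinarith [mul_nonneg hD0 n2, mul_nonneg (sq_nonneg D) n3]

/-- triples coming from `C1` functions -/
def exist_sub (Ω : Set (E N)) : Submodule ℝ
    (Lp ℝ 2 (volume.restrict Ω) × Lp (E N) 2 (volume.restrict Ω) × Lp ℝ 2 (surf Ω)) where
  carrier := {h | ∃ φ : E N → ℝ, ContDiff ℝ 1 φ ∧ h.1 =ᵐ[volume.restrict Ω] φ ∧
    h.2.1 =ᵐ[volume.restrict Ω] gradient φ ∧ h.2.2 =ᵐ[surf Ω] φ}
  zero_mem' := ⟨fun _ => 0, contDiff_const, Lp.coeFn_zero _ _ _, by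
    have : gradient (fun _ : E N => (0 : ℝ)) = fun _ => 0 := by
      funext x; exact gradient_fun_const x 0
    rw [this]; exact Lp.coeFn_zero _ _ _, Lp.coeFn_zero _ _ _⟩
  add_mem' := by
    rintro a b ⟨φ, hφ, a1, a2, a3⟩ ⟨ψ, hψ, b1, b2, b3⟩
    refine ⟨fun x => φ x + ψ x, hφ.add hψ, ?_, ?_, ?_⟩
    · filter_upwards [Lp.coeFn_add a.1 b.1, a1, b1] with x h1 h2 h3
      rw [Prod.fst_add, h1, Pi.add_apply, h2, h3]
    · filter_upwards [Lp.coeFn_add a.2.1 b.2.1, a2, b2] with x h1 h2 h3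
      rw [Prod.snd_add, Prod.fst_add, h1, Pi.add_apply, h2, h3]
      unfold gradient
      rw [fderiv_fun_add ((hφ.differentiable (by norm_num)) x)
        ((hψ.differentiable (by norm_num)) x), map_add]
    · filter_upwards [Lp.coeFn_add a.2.2 b.2.2, a3, b3] with x h1 h2 h3
      rw [Prod.snd_add, Prod.snd_add, h1, Pi.add_apply, h2, h3]
  smul_mem' := by
    rintro c a ⟨φ, hφ, a1, a2, a3⟩
    refine ⟨fun x => c • φ x, hφ.const_smul c, ?_, ?_, ?_⟩
    · filter_upwards [Lp.coeFn_smul c a.1, a1] with x h1 h2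
      rw [Prod.smul_fst, h1, Pi.smul_apply, h2]
    · filter_upwards [Lp.coeFn_smul c a.2.1, a2] with x h1 h2
      rw [Prod.smul_snd, Prod.smul_fst, h1, Pi.smul_apply, h2]
      unfold gradient
      rw [fderiv_fun_const_smul ((hφ.differentiable (by norm_num)) x), map_smul]
    · filter_upwards [Lp.coeFn_smul c a.2.2, a3] with x h1 h2
      rw [Prod.smul_snd, Prod.smul_snd, h1, Pi.smul_apply, h2]

theorem exist_tendsto_iff {α F : Type*} [MeasurableSpace α] {μ : Measure α} [NormedAddCommGroup F]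
    (a : ℕ → Lp F 2 μ) (b : Lp F 2 μ) (φ : ℕ → α → F) (ψ : α → F) (h : ∀ n, a n =ᵐ[μ] φ n)
    (h' : b =ᵐ[μ] ψ) :
    Tendsto a atTop (𝓝 b) ↔
      Tendsto (fun n => eLpNorm (fun x => φ n x - ψ x) 2 μ) atTop (𝓝 0) := by
  rw [Lp.tendsto_Lp_iff_tendsto_eLpNorm']
  have : (fun n => eLpNorm (⇑(a n) - ⇑b) 2 μ) = fun n => eLpNorm (fun x => φ n x - ψ x) 2 μ := by
    funext n
    refine eLpNorm_congr_ae ?_
    filter_upwards [h n, h'] with x h1 h2
    rw [Pi.sub_apply, h1, h2]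
  rw [this]

theorem exist (hN : 0 < N) (hdiv : DivStmt N) (hmk : AdmMkStmt N) (hsm : AdmSmoothStmt N) :
    ExistStmt N := by
  intro Ω β f hΩ hβ hf
  obtain ⟨D₀, hD₀⟩ := hΩ.2.1.closure.exists_norm_le
  let D := max D₀ 0
  have hD0 : 0 ≤ D := le_max_right _ _
  have hD : ∀ x ∈ closure Ω, ‖x‖ ≤ D := fun x hx => (hD₀ x hx).trans (le_max_left _ _)
  let S := (exist_sub Ω).topologicalClosure
  have hF : ∀ h ∈ S, ‖h.1‖ ^ 2 ≤ (4 * D ^ 2 + 2 * D) * (‖h.2.1‖ ^ 2 + ‖h.2.2‖ ^ 2) := by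
    intro h hh
    have hcl : IsClosed {h : Lp ℝ 2 (volume.restrict Ω) × Lp (E N) 2 (volume.restrict Ω) ×
        Lp ℝ 2 (surf Ω) | ‖h.1‖ ^ 2 ≤ (4 * D ^ 2 + 2 * D) * (‖h.2.1‖ ^ 2 + ‖h.2.2‖ ^ 2)} :=
      isClosed_le (by fun_prop) (by fun_prop)
    have hh' : h ∈ closure (exist_sub Ω).carrier := hh
    refine hcl.closure_subset_iff.2 ?_ hh'
    rintro a ⟨φ, hφ, a1, a2, a3⟩
    show ‖a.1‖ ^ 2 ≤ (4 * D ^ 2 + 2 * D) * (‖a.2.1‖ ^ 2 + ‖a.2.2‖ ^ 2)
    rw [exist_norm_sq _ _ a1, exist_norm_sq _ _ a2, exist_norm_sq _ _ a3]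
    exact exist_friedrichs hN hdiv hsm Ω hΩ D hD0 hD φ hφ
  obtain ⟨v, hv, hw⟩ := exist_abs S (exist_sub Ω).isClosed_topologicalClosure β _ hβ
    (by positivity) hF (hf.toLp f)
  have htr : IsTrace Ω v.1 v.2.1 v.2.2 := by
    obtain ⟨a, ha, hlim⟩ := mem_closure_iff_seq_limit.1
      (show v ∈ closure (exist_sub Ω).carrier from hv)
    choose φ hφ a1 a2 a3 using ha
    refine ⟨Lp.memLp _, φ, hφ, ?_, ?_, ?_⟩
    · exact (exist_tendsto_iff (fun n => (a n).1) v.1 φ v.1 a1 EventuallyEq.rfl).1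
        ((continuous_fst.tendsto v).comp hlim)
    · exact (exist_tendsto_iff (fun n => (a n).2.1) v.2.1 (fun n => gradient (φ n)) v.2.1 a2
        EventuallyEq.rfl).1 (((continuous_fst.comp continuous_snd).tendsto v).comp hlim)
    · exact (exist_tendsto_iff (fun n => (a n).2.2) v.2.2 φ v.2.2 a3 EventuallyEq.rfl).1
        (((continuous_snd.comp continuous_snd).tendsto v).comp hlim)
  refine ⟨v.1, v.2.1, v.2.2, hmk Ω _ _ _ hΩ (Lp.memLp _) (Lp.memLp _) htr, htr, ?_⟩
  intro ψ Gψ gψ h1 h2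
  obtain ⟨φ, hφ, t1, t2, t3⟩ := h2.approx
  have hmem : (h1.memL2.toLp ψ, h1.gradL2.toLp Gψ, h2.memL2.toLp gψ) ∈ S := by
    show _ ∈ closure (exist_sub Ω).carrier
    refine mem_closure_iff_seq_limit.2 ⟨fun n => ((hsm Ω (φ n) hΩ (hφ n)).1.memL2.toLp _,
      (hsm Ω (φ n) hΩ (hφ n)).1.gradL2.toLp _, (hsm Ω (φ n) hΩ (hφ n)).2.memL2.toLp _),
      fun n => ⟨φ n, hφ n, (hsm Ω (φ n) hΩ (hφ n)).1.memL2.coeFn_toLp,
        (hsm Ω (φ n) hΩ (hφ n)).1.gradL2.coeFn_toLp,
        (hsm Ω (φ n) hΩ (hφ n)).2.memL2.coeFn_toLp⟩, ?_⟩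
    refine Tendsto.prodMk_nhds ?_ (Tendsto.prodMk_nhds ?_ ?_)
    · exact (exist_tendsto_iff _ _ φ ψ (fun n => MemLp.coeFn_toLp _) (MemLp.coeFn_toLp _)).2 t1
    · exact (exist_tendsto_iff _ _ (fun n => gradient (φ n)) Gψ (fun n => MemLp.coeFn_toLp _)
        (MemLp.coeFn_toLp _)).2 t2
    · exact (exist_tendsto_iff _ _ φ gψ (fun n => MemLp.coeFn_toLp _) (MemLp.coeFn_toLp _)).2 t3
  have e := hw _ hmem
  rw [exist_inner v.2.1 _ v.2.1 Gψ EventuallyEq.rfl (MemLp.coeFn_toLp h1.gradL2),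
    exist_inner v.2.2 _ v.2.2 gψ EventuallyEq.rfl (MemLp.coeFn_toLp h2.memL2),
    exist_inner _ _ f ψ (MemLp.coeFn_toLp hf) (MemLp.coeFn_toLp h1.memL2)] at e
  simpa only [RCLike.inner_apply, conj_trivial, mul_comm] using e

end Pool.Agent.Lib.MP_54d1f6_an
end
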