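import Pool.Agent.Lib.MP_54d1f6_an.Main

-- part Pool.Agent.Lib.MP_54d1f6_an.Gap
section

/-!
The sup-convolution above the critical level is attained in a compact subset.
-/

namespace Pool.Agent.Lib.MP_54d1f6_an

open MeasureTheory Metric Set Filter Topology
open scoped RealInnerProductSpace ContDiff NNReal

variable {N : ℕ}

/-- quadratic minus a Gaussian -/
noncomputable def gapF (m b A α : ℝ) (y p x : E N) : ℝ :=
  m + b / 2 * ‖x - y‖ ^ 2 - A * Real.exp (-α * ‖x - p‖ ^ 2)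

lemma gap_contDiff (m b A α : ℝ) (y p : E N) : ContDiff ℝ 2 (gapF m b A α y p) := by
  have h : ∀ q : E N, ContDiff ℝ 2 fun x : E N => ‖x - q‖ ^ 2 := fun q =>
    (contDiff_id.sub contDiff_const).norm_sq ℝ
  exact (contDiff_const.add (contDiff_const.mul (h y))).sub
    (contDiff_const.mul (Real.contDiff_exp.comp (contDiff_const.mul (h p))))

lemma gap_sq (q x : E N) :
    HasFDerivAt (fun z : E N => ‖z - q‖ ^ 2) ((2 : ℝ) • innerSL ℝ (x - q)) x := by
  have h := ((hasFDerivAt_id x).sub_const q).norm_sq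
  refine h.congr_fderiv ?_
  ext v
  simp

lemma gap_exp (α : ℝ) (p x : E N) :
    HasFDerivAt (fun z : E N => Real.exp (-α * ‖z - p‖ ^ 2))
      ((-(2 * α * Real.exp (-α * ‖x - p‖ ^ 2))) • innerSL ℝ (x - p)) x := by
  refine (((gap_sq p x).const_mul (-α)).exp).congr_fderiv ?_
  ext v
  simp only [smul_apply, smul_eq_mul]
  ring

lemma gap_hasFDerivAt (m b A α : ℝ) (y p x : E N) :
    HasFDerivAt (gapF m b A α y p) (b • innerSL ℝ (x - y)
      + (2 * α * A * Real.exp (-α * ‖x - p‖ ^ 2)) • innerSL ℝ (x - p)) x := by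
  refine ((((gap_sq y x).const_mul (b / 2)).const_add m).sub
    ((gap_exp α p x).const_mul A)).congr_fderiv ?_
  ext v
  simp only [smul_apply, smul_eq_mul, sub_apply, add_apply]
  ring

lemma gap_norm_fderiv (m b A α : ℝ) (y p x : E N) :
    ‖fderiv ℝ (gapF m b A α y p) x‖ ≤
      |b| * ‖x - y‖ + |2 * α * A * Real.exp (-α * ‖x - p‖ ^ 2)| * ‖x - p‖ := by
  rw [(gap_hasFDerivAt m b A α y p x).fderiv]
  refine (norm_add_le _ _).trans (le_of_eq ?_)
  rw [norm_smul, norm_smul, innerSL_apply_norm, innerSL_apply_norm, Real.norm_eq_abs,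
    Real.norm_eq_abs]

lemma gap_lap (m b A α : ℝ) (y p x : E N) :
    lap (gapF m b A α y p) x = N * b - A * Real.exp (-α * ‖x - p‖ ^ 2)
      * (4 * α ^ 2 * ‖x - p‖ ^ 2 - 2 * N * α) := by
  have h : ∀ i : Fin N, fderiv ℝ (fun z => fderiv ℝ (gapF m b A α y p) z (bas i)) x (bas i)
      = b + 2 * α * A * Real.exp (-α * ‖x - p‖ ^ 2)
        - 4 * α ^ 2 * A * Real.exp (-α * ‖x - p‖ ^ 2) * (x - p) i ^ 2 := by
    intro i
    have e : (fun z => fderiv ℝ (gapF m b A α y p) z (bas i)) = fun z : E N =>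
        b * (z i - y i) + 2 * α * A * Real.exp (-α * ‖z - p‖ ^ 2) * (z i - p i) := by
      funext z
      rw [(gap_hasFDerivAt m b A α y p z).fderiv]
      simp [bas, EuclideanSpace.inner_single_right]
    have hp : HasFDerivAt (fun z : E N => z i) (EuclideanSpace.proj i : E N →L[ℝ] ℝ) x :=
      (EuclideanSpace.proj i : E N →L[ℝ] ℝ).hasFDerivAt
    have h1 := ((hp.sub_const (y i)).const_mul b).add
      (((gap_exp α p x).const_mul (2 * α * A)).mul (hp.sub_const (p i)))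
    rw [e]
    erw [h1.fderiv]
    simp [bas, EuclideanSpace.inner_single_right]
    ring
  rw [lap, Finset.sum_congr rfl fun i _ => h i, Finset.sum_sub_distrib, ← Finset.mul_sum,
    ← EuclideanSpace.real_norm_sq_eq]
  simp
  ring

lemma gap_real1 (t : ℝ) : Real.exp (-t ^ 2) * t ≤ 1 := by
  have h1 := Real.add_one_le_exp (t ^ 2)
  have h2 : Real.exp (-t ^ 2) * Real.exp (t ^ 2) = 1 := by
    rw [← Real.exp_add]; simp
  have h3 : t ≤ Real.exp (t ^ 2) := by nlinarith [sq_nonneg (t - 1), sq_nonneg t]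
  rw [← h2]
  exact mul_le_mul_of_nonneg_left h3 (Real.exp_pos _).le

lemma gap_real2 {β b s₁ η e₀ s A m r q g : ℝ} (hβ : 0 < β) (hb : 0 < b)
    (hη : η = β * s₁ - b / (2 * β)) (he₀ : 0 < e₀) (hs1 : β < s) (hA0 : 0 < A)
    (hAs : A * (3 * s) = η) (hy : s₁ < m) (hg1 : g ≤ 1) (hg2 : g * (s * q) ≤ 1) :
    b * r + 2 * s ^ 2 * A * g * q ≤ β * (m + A * e₀ + b / 2 * r ^ 2 - A * g) := by
  have hs0 : 0 < s := hβ.trans hs1
  have h1 : b * r ≤ β * (b / 2 * r ^ 2) + b / (2 * β) := by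
    have h2 : β * (b / 2 * r ^ 2) + b / (2 * β) - b * r = b / (2 * β) * (β * r - 1) ^ 2 := by
      field_simp
      ring
    have h3 : 0 ≤ b / (2 * β) * (β * r - 1) ^ 2 := by positivity
    linarith
  have h2 : 2 * s ^ 2 * A * g * q ≤ 2 * s * A := by
    have := mul_le_mul_of_nonneg_left hg2 (by positivity : 0 ≤ 2 * s * A)
    linarith
  have h3 : β * (A * g) ≤ s * A := by
    have h4 : A * g ≤ A := mul_le_of_le_one_right hA0.le hg1
    have h5 := mul_le_mul_of_nonneg_left h4 hβ.le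
    have h6 := mul_le_mul_of_nonneg_right hs1.le hA0.le
    linarith
  have h4 : β * s₁ ≤ β * m := mul_le_mul_of_nonneg_left hy.le hβ.le
  have h5 : 0 ≤ β * (A * e₀) := by positivity
  linarith

lemma gap_real3 {n s q : ℝ} (hn : 1 ≤ n) (h3 : n ≤ s * q) :
    2 * s ^ 2 ≤ 4 * (s ^ 2) ^ 2 * q ^ 2 - 2 * n * s ^ 2 := by
  have h4 : n ^ 2 ≤ (s * q) ^ 2 := pow_le_pow_left₀ (by positivity) h3 2
  have h6 : (2 : ℝ) ≤ 4 * (s * q) ^ 2 - 2 * n := by nlinarith
  have := mul_le_mul_of_nonneg_left h6 (sq_nonneg s)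
  linarith

section

variable {Ω : Set (E N)} {β b s₁ : ℝ} {W : E N → ℝ}

lemma gap_bdd (hN : 0 < N) (hB : Bornology.IsBounded Ω) (hβ : 0 < β)
    (hW : ∀ Φ : E N → ℝ, ContDiff ℝ 2 Φ → (∀ x ∈ frontier Ω, ‖fderiv ℝ Φ x‖ ≤ β * Φ x) →
      (∀ x ∈ Ω, Φ x < W x → 1 + lap Φ x < 0) → ∀ x ∈ Ω, W x ≤ Φ x) : BddAbove (W '' Ω) := by
  obtain ⟨D, hD⟩ := hB.closure.exists_norm_le
  have hN' : (1 : ℝ) ≤ N := by exact_mod_cast hN
  have h := hW (gapF (D ^ 2 + 2 * D / β) (-2) 0 0 0 0) (gap_contDiff _ _ _ _ _ _) ?_ ?_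
  · refine ⟨D ^ 2 + 2 * D / β, ?_⟩
    rintro _ ⟨x, hx, rfl⟩
    have := h x hx
    simp only [gapF, sub_zero, zero_mul] at this
    nlinarith [sq_nonneg ‖x‖]
  · intro x hx
    have h1 := hD x (frontier_subset_closure hx)
    refine (gap_norm_fderiv _ _ _ _ _ _ x).trans ?_
    simp only [gapF, sub_zero, zero_mul, mul_zero, abs_zero, add_zero, abs_neg, abs_two]
    have h2 : ‖x‖ ^ 2 ≤ D ^ 2 := pow_le_pow_left₀ (norm_nonneg _) h1 2
    have h3 : β * (2 * D / β) = 2 * D := by field_simp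
    nlinarith [mul_le_mul_of_nonneg_left h2 hβ.le]
  · intro x _ _
    rw [gap_lap]
    linarith

lemma gap_le_supc (hb : 0 < b) (hM : BddAbove (W '' Ω)) (y : E N) {x : E N} (hx : x ∈ Ω) :
    W x - b / 2 * ‖x - y‖ ^ 2 ≤ supc Ω W b y := by
  obtain ⟨M, hM⟩ := hM
  refine le_csSup ⟨M, ?_⟩ ⟨x, hx, rfl⟩
  rintro _ ⟨z, hz, rfl⟩
  have := hM ⟨z, hz, rfl⟩
  have h2 : 0 ≤ b / 2 * ‖z - y‖ ^ 2 := by positivity
  simp only
  linarith

lemma gap_local (hN : 0 < N) (hC : Cork Ω) (hβ : 0 < β) (hb : 0 < b)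
    (hs : b / (2 * β ^ 2) < s₁) (hM : BddAbove (W '' Ω))
    (hW : ∀ Φ : E N → ℝ, ContDiff ℝ 2 Φ → (∀ x ∈ frontier Ω, ‖fderiv ℝ Φ x‖ ≤ β * Φ x) →
      (∀ x ∈ Ω, Φ x < W x → 1 + lap Φ x < 0) → ∀ x ∈ Ω, W x ≤ Φ x)
    {x₀ : E N} (hx₀ : x₀ ∈ frontier Ω) :
    ∃ ρ γ : ℝ, 0 < ρ ∧ 0 < γ ∧ ∀ y, s₁ < supc Ω W b y → ∀ x ∈ Ω, x ∈ ball x₀ ρ →
      W x - b / 2 * ‖x - y‖ ^ 2 ≤ supc Ω W b y - γ := by
  obtain ⟨c, δ₀, hc, hδ₀, hC⟩ := hC x₀ hx₀
  have hN' : (1 : ℝ) ≤ N := by exact_mod_cast hN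
  obtain ⟨η, hη⟩ : ∃ η, η = β * s₁ - b / (2 * β) := ⟨_, rfl⟩
  have hη0 : 0 < η := by
    have h1 : b / (2 * β) = β * (b / (2 * β ^ 2)) := by field_simp
    rw [hη, h1]
    linarith [mul_lt_mul_of_pos_left hs hβ]
  obtain ⟨e₀, he₀⟩ : ∃ e₀, e₀ = Real.exp (-(4 * N ^ 2 / c ^ 2)) := ⟨_, rfl⟩
  have he₀0 : 0 < e₀ := he₀ ▸ Real.exp_pos _
  obtain ⟨s, hs1, hs2, hs3⟩ : ∃ s : ℝ, β < s ∧ 3 * (1 + N * b) / (2 * η * e₀) < s ∧
      N / (c * δ₀) < s := by
    refine ⟨max β (max (3 * (1 + N * b) / (2 * η * e₀)) (N / (c * δ₀))) + 1, ?_, ?_, ?_⟩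
    · linarith [le_max_left β (max (3 * (1 + N * b) / (2 * η * e₀)) (N / (c * δ₀)))]
    · linarith [le_max_right β (max (3 * (1 + N * b) / (2 * η * e₀)) (N / (c * δ₀))),
        le_max_left (3 * (1 + N * b) / (2 * η * e₀)) (N / (c * δ₀))]
    · linarith [le_max_right β (max (3 * (1 + N * b) / (2 * η * e₀)) (N / (c * δ₀))),
        le_max_right (3 * (1 + N * b) / (2 * η * e₀)) (N / (c * δ₀))]
  have hs0 : 0 < s := hβ.trans hs1
  obtain ⟨δ, hδ⟩ : ∃ δ, δ = N / (c * s) := ⟨_, rfl⟩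
  have hδ0 : 0 < δ := by rw [hδ]; positivity
  have hδ1 : δ < δ₀ := by
    rw [hδ, div_lt_iff₀ (by positivity)]
    rw [div_lt_iff₀ (by positivity)] at hs3
    linarith
  have hsδ : s * (c * δ) = N := by rw [hδ]; field_simp
  have he : e₀ = Real.exp (-s ^ 2 * (2 * δ) ^ 2) := by
    rw [he₀, hδ]
    congr 1
    field_simp
    ring
  obtain ⟨x₁, hx₁, hx₂⟩ := hC δ ⟨hδ0, hδ1⟩
  obtain ⟨A, hA⟩ : ∃ A, A = η / (3 * s) := ⟨_, rfl⟩
  have hA0 : 0 < A := by rw [hA]; positivity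
  have hAs : A * (3 * s) = η := by rw [hA]; field_simp
  have hγ : 0 < Real.exp (-s ^ 2 * (3 * δ / 2) ^ 2) - e₀ := by
    rw [he, sub_pos, Real.exp_lt_exp]
    have : 0 < s ^ 2 * δ ^ 2 := by positivity
    linarith
  refine ⟨δ / 2, A * (Real.exp (-s ^ 2 * (3 * δ / 2) ^ 2) - e₀), by positivity, by positivity,
    fun y hy x hx hxb => ?_⟩
  have h := hW (gapF (supc Ω W b y + A * e₀) b A (s ^ 2) y x₁) (gap_contDiff _ _ _ _ _ _) ?_ ?_
    x hx
  · have h1 : ‖x - x₁‖ ≤ 3 * δ / 2 := by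
      have h2 : ‖x - x₀‖ < δ / 2 := by rwa [mem_ball, dist_eq_norm] at hxb
      have h3 : x - x₁ = (x - x₀) - (x₁ - x₀) := by abel
      rw [h3]
      linarith [norm_sub_le (x - x₀) (x₁ - x₀)]
    have h2 : Real.exp (-s ^ 2 * (3 * δ / 2) ^ 2) ≤ Real.exp (-s ^ 2 * ‖x - x₁‖ ^ 2) := by
      rw [Real.exp_le_exp]
      have := pow_le_pow_left₀ (norm_nonneg _) h1 2
      linarith [mul_le_mul_of_nonneg_left this (sq_nonneg s)]
    simp only [gapF] at h
    linarith [mul_le_mul_of_nonneg_left h2 hA0.le]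
  · intro z _
    refine (gap_norm_fderiv _ _ _ _ _ _ z).trans ?_
    have hg1 : Real.exp (-s ^ 2 * ‖z - x₁‖ ^ 2) ≤ 1 := by
      rw [Real.exp_le_one_iff]
      have := sq_nonneg (s * ‖z - x₁‖)
      linarith
    have hg2 : Real.exp (-s ^ 2 * ‖z - x₁‖ ^ 2) * (s * ‖z - x₁‖) ≤ 1 := by
      have := gap_real1 (s * ‖z - x₁‖)
      rwa [mul_pow, ← neg_mul] at this
    rw [abs_of_pos hb, abs_of_pos (by positivity)]
    exact gap_real2 hβ hb hη he₀0 hs1 hA0 hAs hy hg1 hg2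
  · intro z hz hlt
    have h1 := gap_le_supc hb hM y hz
    simp only [gapF] at hlt
    rw [gap_lap]
    obtain ⟨g, hg⟩ : ∃ g, g = Real.exp (-s ^ 2 * ‖z - x₁‖ ^ 2) := ⟨_, rfl⟩
    rw [← hg] at hlt ⊢
    have h2 : e₀ < g := by
      by_contra hcon
      linarith [mul_le_mul_of_nonneg_left (not_lt.mp hcon) hA0.le]
    have h3 : (N : ℝ) ≤ s * ‖z - x₁‖ := by
      rw [← hsδ]
      exact mul_le_mul_of_nonneg_left (hx₂ z hz) hs0.le
    have h5 := gap_real3 hN' h3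
    have h6 : A * e₀ * (2 * s ^ 2) ≤ A * g * (4 * (s ^ 2) ^ 2 * ‖z - x₁‖ ^ 2 - 2 * N * s ^ 2) :=
      mul_le_mul (mul_le_mul_of_nonneg_left h2.le hA0.le) h5 (by positivity)
        (mul_pos hA0 (he₀0.trans h2)).le
    rw [div_lt_iff₀ (by positivity)] at hs2
    have h7 : 3 * (A * e₀ * (2 * s ^ 2)) = s * (2 * η * e₀) := by rw [← hAs]; ring
    linarith

end

theorem gap (hN : 0 < N) : GapStmt N := by
  intro Ω β b s₁ W hO hB hne hC hβ hb hs hc hW
  have hM := gap_bdd hN hB hβ hW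
  refine ⟨hM, ?_⟩
  have hF : IsCompact (frontier Ω) :=
    isCompact_of_isClosed_isBounded isClosed_frontier (hB.closure.subset frontier_subset_closure)
  obtain ⟨U, γ, hU, hγ, hFU, hUγ⟩ : ∃ (U : Set (E N)) (γ : ℝ), IsOpen U ∧ 0 < γ ∧ frontier Ω ⊆ U ∧
      ∀ y, s₁ < supc Ω W b y → ∀ x ∈ Ω, x ∈ U →
        W x - b / 2 * ‖x - y‖ ^ 2 ≤ supc Ω W b y - γ := by
    refine hF.induction_on (p := fun S => ∃ (U : Set (E N)) (γ : ℝ), IsOpen U ∧ 0 < γ ∧ S ⊆ U ∧
      ∀ y, s₁ < supc Ω W b y → ∀ x ∈ Ω, x ∈ U →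
        W x - b / 2 * ‖x - y‖ ^ 2 ≤ supc Ω W b y - γ) ?_ ?_ ?_ ?_
    · exact ⟨∅, 1, isOpen_empty, one_pos, Subset.rfl, fun _ _ _ _ h => h.elim⟩
    · rintro S T hST ⟨U, γ, h1, h2, h3, h4⟩
      exact ⟨U, γ, h1, h2, hST.trans h3, h4⟩
    · rintro S T ⟨U, γ, h1, h2, h3, h4⟩ ⟨U', γ', h1', h2', h3', h4'⟩
      refine ⟨U ∪ U', min γ γ', h1.union h1', lt_min h2 h2', union_subset_union h3 h3',
        fun y hy x hx hxU => ?_⟩
      rcases hxU with h | h
      · linarith [h4 y hy x hx h, min_le_left γ γ']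
      · linarith [h4' y hy x hx h, min_le_right γ γ']
    · intro x₀ hx₀
      obtain ⟨ρ, γ, h1, h2, h3⟩ := gap_local hN hC hβ hb hs hM hW hx₀
      exact ⟨ball x₀ ρ, mem_nhdsWithin_of_mem_nhds (ball_mem_nhds _ h1), ball x₀ ρ, γ,
        isOpen_ball, h2, Subset.rfl, h3⟩
  have hK : IsCompact (closure Ω \ U) := hB.isCompact_closure.diff hU
  have hKΩ : closure Ω \ U ⊆ Ω := by
    intro x hx
    by_contra h
    exact hx.2 (hFU ⟨hx.1, by rwa [hO.interior_eq]⟩)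
  refine ⟨closure Ω \ U, hK, hKΩ, fun y hy => ?_⟩
  obtain ⟨_, ⟨x', hx', rfl⟩, hlt⟩ := exists_lt_of_lt_csSup
    (hne.image fun x => W x - b / 2 * ‖x - y‖ ^ 2)
    (show supc Ω W b y - γ < supc Ω W b y by linarith)
  have hx'K : x' ∈ closure Ω \ U := ⟨subset_closure hx', fun h => by
    have := hUγ y hy x' hx' h
    simp only at hlt
    linarith⟩
  have hcont : ContinuousOn (fun x => W x - b / 2 * ‖x - y‖ ^ 2) (closure Ω \ U) :=
    (hc.mono hKΩ).sub (by fun_prop)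
  obtain ⟨x, hxK, hmax⟩ := hK.exists_isMaxOn ⟨x', hx'K⟩ hcont
  refine ⟨x, hxK, le_antisymm (csSup_le (hne.image _) ?_) (gap_le_supc hb hM y (hKΩ hxK))⟩
  rintro _ ⟨z, hz, rfl⟩
  by_cases hzU : z ∈ U
  · have h1 := hUγ y hy z hz hzU
    have h2 := hmax hx'K
    simp only [mem_ofPred_eq] at h2 hlt ⊢
    linarith
  · exact hmax (a := z) ⟨subset_closure hz, hzU⟩

end Pool.Agent.Lib.MP_54d1f6_an
end

-- part Pool.Agent.Lib.MP_54d1f6_an.Abp
section

/-!
The volume bound of Alexandrov-Bakelman-Pucci type.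
-/

namespace Pool.Agent.Lib.MP_54d1f6_an

open MeasureTheory Metric Set Filter Topology
open scoped RealInnerProductSpace ContDiff NNReal

variable {N : ℕ}

theorem abp_det (A : E N →L[ℝ] E N) (hs : ∀ v w, ⟪A v, w⟫ = ⟪v, A w⟫) (hp : ∀ v, 0 ≤ ⟪A v, v⟫)
    {m : ℝ} (hm : 0 < m) (ht : ∑ i, ⟪bas i, A (bas i)⟫ = N * m) : |A.det| ≤ m ^ N := by
  have hpos : (A : E N →ₗ[ℝ] E N).IsPositive := ⟨hs, fun v => by simpa using hp v⟩
  have hn : Module.finrank ℝ (E N) = N := by simp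
  have h1 : A.det = ∏ i, hpos.isSymmetric.eigenvalues hn i :=
    hpos.isSymmetric.det_eq_prod_eigenvalues hn
  have h2 : ∑ i, hpos.isSymmetric.eigenvalues hn i = N * m := by
    have h3 := hpos.isSymmetric.trace_eq_sum_eigenvalues hn
    rw [LinearMap.trace_eq_sum_inner _ (EuclideanSpace.basisFun (Fin N) ℝ)] at h3
    rw [← ht]
    simpa [bas] using h3.symm
  have h0 := hpos.nonneg_eigenvalues hn
  rw [h1, abs_of_nonneg (Finset.prod_nonneg fun i _ => h0 i)]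
  set l := hpos.isSymmetric.eigenvalues hn
  calc ∏ i, l i ≤ ∏ i, m * Real.exp (l i / m - 1) := by
        refine Finset.prod_le_prod (fun i _ => h0 i) fun i _ => ?_
        have h4 := Real.add_one_le_exp (l i / m - 1)
        rw [← div_le_iff₀' hm]
        linarith
    _ = m ^ N := by
        rw [Finset.prod_mul_distrib, ← Real.exp_sum, Finset.sum_sub_distrib, ← Finset.sum_div, h2]
        simp [hm.ne']

theorem abp_line {φ ψ : ℝ → ℝ} {c : ℝ} (h1 : ∀ᶠ t in 𝓝 (0 : ℝ), HasDerivAt φ (ψ t) t)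
    (h2 : HasDerivAt ψ c 0) (hm : IsLocalMax φ 0) : c ≤ 0 := by
  by_contra hc
  push Not at hc
  have e1 : deriv φ =ᶠ[𝓝 0] ψ := h1.mono fun t ht => ht.deriv
  have e2 : deriv (deriv φ) 0 = c := by rw [e1.deriv_eq, h2.deriv]
  have h3 : IsLocalMin φ 0 :=
    isLocalMin_of_deriv_deriv_pos (e2 ▸ hc) hm.deriv_eq_zero h1.self_of_nhds.continuousAt
  have e3 : φ =ᶠ[𝓝 0] fun _ => φ 0 := by
    filter_upwards [hm, h3] with t a b using le_antisymm a b
  have e4 : deriv (deriv φ) 0 = 0 := by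
    rw [e3.deriv.deriv_eq]
    simp
  linarith

theorem abp_max {Ω : Set (E N)} {b : ℝ} {W : E N → ℝ} (hΩ : IsOpen Ω) (hW : ContDiffOn ℝ 2 W Ω)
    {x y : E N} (hx : x ∈ Ω)
    (hm : ∀ z ∈ Ω, W z - b / 2 * ‖z - y‖ ^ 2 ≤ W x - b / 2 * ‖x - y‖ ^ 2) (v : E N) :
    fderiv ℝ W x v = b * ⟪x - y, v⟫ ∧ fderiv ℝ (fderiv ℝ W) x v v ≤ b * ‖v‖ ^ 2 := by
  have hl : ∀ t : ℝ, HasDerivAt (fun t : ℝ => x + t • v) v t := fun t => by
    simpa using ((hasDerivAt_id t).smul_const v).const_add x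
  have hev : ∀ᶠ t in 𝓝 (0 : ℝ), x + t • v ∈ Ω :=
    (hl 0).continuousAt.preimage_mem_nhds (hΩ.mem_nhds (by simpa using hx))
  have h1 : ∀ᶠ t in 𝓝 (0 : ℝ), HasDerivAt (fun t : ℝ => W (x + t • v) - b / 2 * ‖x + t • v - y‖ ^ 2)
      (fderiv ℝ W (x + t • v) v - b * ⟪x + t • v - y, v⟫) t := by
    filter_upwards [hev] with t ht
    have a1 := ((hW.contDiffAt (hΩ.mem_nhds ht)).differentiableAt
      two_ne_zero).hasFDerivAt.comp_hasDerivAt t (hl t)
    have a2 := (((hl t).sub_const y).norm_sq).const_mul (b / 2)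
    refine (a1.sub a2).congr_deriv ?_
    ring
  have hD : DifferentiableAt ℝ (fderiv ℝ W) x :=
    ((hW.fderiv_of_isOpen (m := 1) hΩ le_rfl).contDiffAt (hΩ.mem_nhds hx)).differentiableAt
      one_ne_zero
  have h2 : HasDerivAt (fun t : ℝ => fderiv ℝ W (x + t • v) v - b * ⟪x + t • v - y, v⟫)
      (fderiv ℝ (fderiv ℝ W) x v v - b * ‖v‖ ^ 2) 0 := by
    have a1 := (hD.hasFDerivAt.comp_hasDerivAt_of_eq 0 (hl 0) (by simp)).clm_apply
      (hasDerivAt_const 0 v)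
    have a2 := (((hl 0).sub_const y).inner ℝ (hasDerivAt_const 0 v)).const_mul b
    refine (a1.sub a2).congr_deriv ?_
    simp
  have hmax : IsLocalMax (fun t : ℝ => W (x + t • v) - b / 2 * ‖x + t • v - y‖ ^ 2) 0 := by
    filter_upwards [hev] with t ht
    simpa using hm _ ht
  have h3 := hmax.hasDerivAt_eq_zero h1.self_of_nhds
  have h4 := abp_line h1 h2 hmax
  simp only [zero_smul, add_zero] at h3
  exact ⟨by linarith, by linarith⟩

theorem abp (hN : 0 < N) : AbpStmt N := by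
  intro Ω b W U hΩ hb hW hlap hU
  set J : (E N →L[ℝ] ℝ) →L[ℝ] E N :=
    (InnerProductSpace.toDual ℝ (E N)).symm.toContinuousLinearEquiv.toContinuousLinearMap with hJ
  have hJi : ∀ (φ : E N →L[ℝ] ℝ) (w : E N), ⟪J φ, w⟫ = φ w := fun φ w =>
    InnerProductSpace.toDual_symm_apply
  set T : E N → E N := fun x => x - b⁻¹ • J (fderiv ℝ W x) with hT
  set T' : E N → E N →L[ℝ] E N := fun x =>
    ContinuousLinearMap.id ℝ (E N) - b⁻¹ • J.comp (fderiv ℝ (fderiv ℝ W) x) with hT'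
  have hT'i : ∀ x v w, ⟪T' x v, w⟫ = ⟪v, w⟫ - b⁻¹ * fderiv ℝ (fderiv ℝ W) x v w := fun x v w => by
    simp [hT', inner_sub_left, inner_smul_left, hJi]
  have hD : ∀ x ∈ Ω, DifferentiableAt ℝ (fderiv ℝ W) x := fun x hx =>
    ((hW.fderiv_of_isOpen (m := 1) hΩ le_rfl).contDiffAt (hΩ.mem_nhds hx)).differentiableAt
      one_ne_zero
  set Γ : Set (E N) := Ω ∩ fderiv ℝ (fderiv ℝ W) ⁻¹' {A | ∀ v, A v v ≤ b * ‖v‖ ^ 2} with hΓ
  have hΓm : MeasurableSet Γ := by
    refine hΩ.measurableSet.inter (measurable_fderiv ℝ _ (IsClosed.measurableSet ?_))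
    rw [ofPred_forall]
    exact isClosed_iInter fun v => isClosed_le (by fun_prop) continuous_const
  have hTd : ∀ x ∈ Γ, HasFDerivWithinAt T (T' x) Γ x := fun x hx =>
    ((hasFDerivAt_id x).sub ((J.hasFDerivAt.comp x (hD x hx.1).hasFDerivAt).const_smul
      b⁻¹)).hasFDerivWithinAt
  have hUT : U ⊆ T '' Γ := fun y hy => by
    obtain ⟨x, hx, hm⟩ := hU y hy
    refine ⟨x, ⟨hx, fun v => (abp_max hΩ hW hx hm v).2⟩, ?_⟩
    have h1 : J (fderiv ℝ W x) = b • (x - y) := by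
      refine ext_inner_right ℝ fun v => ?_
      rw [hJi, (abp_max hΩ hW hx hm v).1, real_inner_smul_left]
    simp [hT, h1, smul_smul, hb.ne']
  have hNr : (0 : ℝ) < N := by exact_mod_cast hN
  have hdet : ∀ x ∈ Γ, |(T' x).det| ≤ (1 + 1 / (N * b)) ^ N := fun x hx => by
    have hsym := (hW.contDiffAt (hΩ.mem_nhds hx.1)).isSymmSndFDerivAt (by simp)
    refine abp_det _ (fun v w => ?_) (fun v => ?_) (by positivity) ?_
    · rw [real_inner_comm (T' x w) v, hT'i, hT'i, hsym v w, real_inner_comm]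
    · rw [hT'i, real_inner_self_eq_norm_sq, sub_nonneg, inv_mul_le_iff₀ hb]
      exact hx.2 v
    · have h1 : ∀ i, fderiv ℝ (fun y => fderiv ℝ W y (bas i)) x (bas i) =
          fderiv ℝ (fderiv ℝ W) x (bas i) (bas i) := fun i => by
        rw [fderiv_clm_apply (hD x hx.1) (differentiableAt_const _)]
        simp
      have h2 := hlap x hx.1
      simp only [lap, h1] at h2
      have h3 : ∀ i : Fin N, ⟪bas i, T' x (bas i)⟫ =
          1 - b⁻¹ * fderiv ℝ (fderiv ℝ W) x (bas i) (bas i) := fun i => by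
        rw [real_inner_comm, hT'i, real_inner_self_eq_norm_sq]
        simp [bas]
      simp only [h3]
      rw [Finset.sum_sub_distrib, ← Finset.mul_sum, h2]
      simp only [Finset.sum_const, Finset.card_univ, Fintype.card_fin, nsmul_eq_mul]
      field_simp
      ring
  calc volume U ≤ volume (T '' Γ) := measure_mono hUT
    _ ≤ ∫⁻ x in Γ, ENNReal.ofReal |(T' x).det| :=
      addHaar_image_le_lintegral_abs_det_fderiv volume hΓm hTd
    _ ≤ ∫⁻ _ in Γ, ENNReal.ofReal ((1 + 1 / (N * b)) ^ N) :=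
      setLIntegral_mono' hΓm fun x hx => ENNReal.ofReal_le_ofReal (hdet x hx)
    _ ≤ _ := by
      rw [setLIntegral_const]
      gcongr
      exact inter_subset_left

end Pool.Agent.Lib.MP_54d1f6_an
end

-- part Pool.Agent.Lib.MP_54d1f6_an.Sub
section

/-!
The sup-convolution is a Lipschitz discrete subsolution.
-/

namespace Pool.Agent.Lib.MP_54d1f6_an

open MeasureTheory Metric Set Filter Topology
open scoped RealInnerProductSpace ContDiff NNReal

variable {N : ℕ}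

lemma sub_mono {g g' : ℝ → ℝ} {a b : ℝ} (h : ∀ s ∈ Icc a b, HasDerivAt g (g' s) s)
    (h0 : ∀ s ∈ Icc a b, 0 ≤ g' s) : MonotoneOn g (Icc a b) :=
  monotoneOn_of_deriv_nonneg (convex_Icc a b)
    (fun s hs => (h s hs).continuousAt.continuousWithinAt)
    (fun s hs => (h s (interior_subset hs)).differentiableAt.differentiableWithinAt)
    (fun s hs => by rw [(h s (interior_subset hs)).deriv]; exact h0 s (interior_subset hs))

lemma sub_second_diff {φ φ₁ φ₂ : ℝ → ℝ} {τ c : ℝ} (hτ : 0 ≤ τ)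
    (h1 : ∀ s ∈ Icc (-τ) τ, HasDerivAt φ (φ₁ s) s)
    (h2 : ∀ s ∈ Icc (-τ) τ, HasDerivAt φ₁ (φ₂ s) s) (hc : ∀ s ∈ Icc (-τ) τ, c ≤ φ₂ s) :
    c * τ ^ 2 ≤ φ τ + φ (-τ) - 2 * φ 0 := by
  have k : MonotoneOn (fun s => φ₁ s - c * s) (Icc (-τ) τ) :=
    sub_mono (g' := fun s => φ₂ s - c * 1)
      (fun s hs => (h2 s hs).sub ((hasDerivAt_id s).const_mul c))
      (fun s hs => by have := hc s hs; linarith)
  have g : MonotoneOn (fun s => φ s + φ (-s) - c * s ^ 2) (Icc 0 τ) := by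
    refine sub_mono (g' := fun s => φ₁ s + φ₁ (-s) * (-1) - c * (2 * s)) (fun s hs => ?_)
      (fun s hs => ?_)
    · have a : s ∈ Icc (-τ) τ := ⟨by linarith [hs.1], hs.2⟩
      have b : -s ∈ Icc (-τ) τ := ⟨by linarith [hs.2], by linarith [hs.1]⟩
      refine ((h1 s a).add ((h1 (-s) b).comp s (hasDerivAt_neg s))).sub ?_
      simpa using (hasDerivAt_pow 2 s).const_mul c
    · have a : s ∈ Icc (-τ) τ := ⟨by linarith [hs.1], hs.2⟩
      have b : -s ∈ Icc (-τ) τ := ⟨by linarith [hs.2], by linarith [hs.1]⟩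
      have := k b a (by linarith [hs.1])
      simp only at this
      linarith
  have := g ⟨le_rfl, hτ⟩ ⟨hτ, le_rfl⟩ hτ
  simp only [neg_zero] at this
  linarith

lemma sub_norm_bas (i : Fin N) : ‖(bas i : E N)‖ = 1 := by simp [bas]

lemma sub_taylor {Ω K : Set (E N)} {W : E N → ℝ} (hΩ : IsOpen Ω) (hW : ContDiffOn ℝ 2 W Ω)
    (hK : IsCompact K) (hKΩ : K ⊆ Ω) {ε : ℝ} (hε : 0 < ε) :
    ∃ δ : ℝ, 0 < δ ∧ ∀ τ ∈ Ioo 0 δ, ∀ x ∈ K, ∀ i : Fin N,
      x + τ • bas i ∈ Ω ∧ x - τ • bas i ∈ Ω ∧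
      (fderiv ℝ (fun y => fderiv ℝ W y (bas i)) x (bas i) - ε) * τ ^ 2 ≤
        W (x + τ • bas i) + W (x - τ • bas i) - 2 * W x := by
  obtain ⟨δ₁, hδ₁, hK1⟩ := hK.exists_cthickening_subset_open hΩ hKΩ
  have hK2 : IsCompact (cthickening δ₁ K) := hK.cthickening
  have hd1 : ∀ i : Fin N, ContDiffOn ℝ 1 (fun y => fderiv ℝ W y (bas i)) Ω := fun i =>
    (hW.fderiv_of_isOpen hΩ (m := 1) (by norm_num)).clm_apply contDiffOn_const
  have hd2 : ∀ i : Fin N,
      ContinuousOn (fun z => fderiv ℝ (fun y => fderiv ℝ W y (bas i)) z (bas i)) Ω := fun i =>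
    ((hd1 i).continuousOn_fderiv_of_isOpen hΩ le_rfl).clm_apply continuousOn_const
  have hu : ∀ i : Fin N, ∃ δ > 0, ∀ x ∈ cthickening δ₁ K, ∀ z ∈ cthickening δ₁ K, dist x z < δ →
      dist (fderiv ℝ (fun y => fderiv ℝ W y (bas i)) x (bas i))
        (fderiv ℝ (fun y => fderiv ℝ W y (bas i)) z (bas i)) < ε := fun i =>
    Metric.uniformContinuousOn_iff.1
      (hK2.uniformContinuousOn_of_continuous ((hd2 i).mono hK1)) ε hε
  choose d hd0 hd using hu
  obtain ⟨δ₂, hδ₂, hδ₂'⟩ : ∃ δ₂ > 0, ∀ i, δ₂ ≤ d i := by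
    have : ∀ᶠ t in 𝓝[>] (0 : ℝ), ∀ i, t ≤ d i :=
      eventually_all.2 fun i => (eventually_le_nhds (hd0 i)).filter_mono nhdsWithin_le_nhds
    obtain ⟨t, ht, ht'⟩ := (this.and self_mem_nhdsWithin).exists
    exact ⟨t, ht', ht⟩
  refine ⟨min δ₁ δ₂, lt_min hδ₁ hδ₂, fun τ hτ x hx i => ?_⟩
  have hτ1 : τ < δ₁ := hτ.2.trans_le (min_le_left _ _)
  have hτ2 : τ < d i := hτ.2.trans_le ((min_le_right _ _).trans (hδ₂' i))
  have hdist : ∀ s ∈ Icc (-τ) τ, dist (x + s • bas i) x ≤ τ := by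
    intro s hs
    rw [dist_eq_norm, add_sub_cancel_left, norm_smul, sub_norm_bas, mul_one]
    exact abs_le.2 hs
  have hmem : ∀ s ∈ Icc (-τ) τ, x + s • bas i ∈ cthickening δ₁ K := fun s hs =>
    mem_cthickening_of_dist_le _ x _ _ hx ((hdist s hs).trans hτ1.le)
  have hline : ∀ s : ℝ, HasDerivAt (fun s : ℝ => x + s • bas i) (bas i) s := fun s => by
    simpa using ((hasDerivAt_id s).smul_const (bas i)).const_add x
  have key := sub_second_diff (φ := fun s => W (x + s • bas i))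
    (φ₁ := fun s => fderiv ℝ W (x + s • bas i) (bas i))
    (φ₂ := fun s => fderiv ℝ (fun y => fderiv ℝ W y (bas i)) (x + s • bas i) (bas i))
    (c := fderiv ℝ (fun y => fderiv ℝ W y (bas i)) x (bas i) - ε) hτ.1.le
    (fun s hs => by
      have hz := hK1 (hmem s hs)
      exact ((hW.contDiffAt (hΩ.mem_nhds hz)).differentiableAt
        (by norm_num)).hasFDerivAt.comp_hasDerivAt s (hline s))
    (fun s hs => by
      have hz := hK1 (hmem s hs)
      exact (((hd1 i).contDiffAt (hΩ.mem_nhds hz)).differentiableAt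
        (by norm_num)).hasFDerivAt.comp_hasDerivAt s (hline s))
    (fun s hs => by
      have := hd i _ (hmem s hs) x (self_subset_cthickening _ hx) ((hdist s hs).trans_lt hτ2)
      rw [Real.dist_eq, abs_lt] at this
      linarith [this.1])
  have m1 := hK1 (hmem τ ⟨by linarith [hτ.1], le_rfl⟩)
  have m2 := hK1 (hmem (-τ) ⟨le_rfl, by linarith [hτ.1]⟩)
  simp only [neg_smul, ← sub_eq_add_neg, zero_smul, add_zero] at key m2
  exact ⟨m1, m2, key⟩

theorem sub (hN : 0 < N) : SubStmt N := by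
  intro Ω K b s₁ W hΩ hbd hne hb hW hlap hbdd hK hKΩ hcont
  have hN' : (0 : ℝ) < N := by exact_mod_cast hN
  obtain ⟨M, hM⟩ := hbdd
  have hM' : ∀ x ∈ Ω, W x ≤ M := fun x hx => hM ⟨x, hx, rfl⟩
  have hle : ∀ y, ∀ z ∈ Ω, W z - b / 2 * ‖z - y‖ ^ 2 ≤ supc Ω W b y := by
    intro y z hz
    refine le_csSup ⟨M, ?_⟩ ⟨z, hz, rfl⟩
    rintro _ ⟨x, hx, rfl⟩
    have := hM' x hx
    have : 0 ≤ b / 2 * ‖x - y‖ ^ 2 := by positivity
    show W x - b / 2 * ‖x - y‖ ^ 2 ≤ M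
    linarith
  -- contact points are at bounded distance
  obtain ⟨D, hD⟩ : ∃ D : ℝ, ∀ y, s₁ < supc Ω W b y → ∃ x ∈ K,
      supc Ω W b y = W x - b / 2 * ‖x - y‖ ^ 2 ∧ ‖x - y‖ ≤ D := by
    refine ⟨1 + 2 / b * (M - s₁), fun y hy => ?_⟩
    obtain ⟨x, hx, hxe⟩ := hcont y hy
    refine ⟨x, hx, hxe, ?_⟩
    have h1 := hM' x (hKΩ hx)
    have h2 : ‖x - y‖ ^ 2 ≤ 2 / b * (M - s₁) := by
      have : b / 2 * ‖x - y‖ ^ 2 ≤ M - s₁ := by linarith
      calc ‖x - y‖ ^ 2 = 2 / b * (b / 2 * ‖x - y‖ ^ 2) := by field_simp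
        _ ≤ 2 / b * (M - s₁) := by gcongr
    nlinarith [sq_nonneg (‖x - y‖ - 1)]
  refine ⟨?_, ?_, fun ε hε => ?_⟩
  · set L : ℝ := |M - s₁| + b / 2 * (2 * |D| + 1) with hL
    have hL0 : 0 ≤ L := by positivity
    refine ⟨⟨L, hL0⟩, LipschitzWith.of_le_add_mul _ fun y y' => ?_⟩
    show max (supc Ω W b y) s₁ ≤ max (supc Ω W b y') s₁ + L * dist y y'
    have h0 : 0 ≤ L * dist y y' := by positivity
    by_cases hy : s₁ < supc Ω W b y
    · obtain ⟨x, hx, hxe, hxD⟩ := hD y hy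
      rw [max_eq_left hy.le]
      have h1 := le_max_left (supc Ω W b y') s₁
      have h2 := le_max_right (supc Ω W b y') s₁
      by_cases hd : dist y y' ≤ 1
      · have h3 := hle y' x (hKΩ hx)
        have h4 : ‖x - y'‖ ≤ ‖x - y‖ + dist y y' := by
          rw [dist_eq_norm]; exact norm_sub_le_norm_sub_add_norm_sub _ _ _
        have h5 : ‖x - y'‖ ^ 2 ≤ (‖x - y‖ + dist y y') ^ 2 := by gcongr
        have h6 : ‖x - y‖ ≤ |D| := hxD.trans (le_abs_self _)
        have h7 : (‖x - y‖ + dist y y') ^ 2 - ‖x - y‖ ^ 2 ≤ (2 * |D| + 1) * dist y y' := by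
          nlinarith [dist_nonneg (x := y) (y := y')]
        have h8 : b / 2 * ((2 * |D| + 1) * dist y y') ≤ L * dist y y' := by
          rw [hL, add_mul, mul_assoc]
          have : 0 ≤ |M - s₁| * dist y y' := by positivity
          linarith
        have h9 : b / 2 * (‖x - y'‖ ^ 2 - ‖x - y‖ ^ 2) ≤ b / 2 * ((2 * |D| + 1) * dist y y') := by
          gcongr; linarith
        linarith
      · push Not at hd
        have h3 := hM' x (hKΩ hx)
        have h4 : 0 ≤ b / 2 * ‖x - y‖ ^ 2 := by positivity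
        have h5 : L ≤ L * dist y y' := le_mul_of_one_le_right hL0 hd.le
        have h6 : 0 ≤ b / 2 * (2 * |D| + 1) := by positivity
        have h7 := le_abs_self (M - s₁)
        linarith
    · push Not at hy
      rw [max_eq_right hy]
      linarith [le_max_right (supc Ω W b y') s₁]
  · refine (hK.isBounded.cthickening (δ := D)).subset fun y hy => ?_
    obtain ⟨x, hx, -, hxD⟩ := hD y hy
    exact mem_cthickening_of_dist_le _ x _ _ hx (by rwa [dist_comm, dist_eq_norm])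
  · set κ : ℝ := N * b / (1 + N * b) with hκ
    have hκ0 : 0 < κ := by positivity
    have hκ1 : κ ≤ 1 := by rw [hκ, div_le_one (by positivity)]; linarith
    obtain ⟨δ, hδ, H⟩ := sub_taylor hΩ hW hK hKΩ (show 0 < ε / N by positivity)
    refine ⟨δ, hδ, fun t ht y hy => ?_⟩
    obtain ⟨x, hx, hxe⟩ := hcont y hy
    have hκt : κ * t ∈ Ioo 0 δ :=
      ⟨mul_pos hκ0 ht.1, (mul_le_of_le_one_left ht.1.le hκ1).trans_lt ht.2⟩
    have step : ∀ i : Fin N,
        (fderiv ℝ (fun y => fderiv ℝ W y (bas i)) x (bas i) - ε / N) * (κ * t) ^ 2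
          - b * ((1 - κ) * t) ^ 2 ≤
        supc Ω W b (y + t • bas i) + supc Ω W b (y - t • bas i) - 2 * supc Ω W b y := by
      intro i
      obtain ⟨m1, m2, m3⟩ := H _ hκt x hx i
      have a1 := hle (y + t • bas i) _ m1
      have a2 := hle (y - t • bas i) _ m2
      have e1 : x + (κ * t) • bas i - (y + t • bas i) = (x - y) - ((1 - κ) * t) • bas i := by
        module
      have e2 : x - (κ * t) • bas i - (y - t • bas i) = (x - y) + ((1 - κ) * t) • bas i := by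
        module
      rw [e1] at a1
      rw [e2] at a2
      have par := parallelogram_law_with_norm ℝ (x - y) (((1 - κ) * t) • (bas i : E N))
      rw [norm_smul, sub_norm_bas, mul_one, Real.norm_eq_abs] at par
      have e3 : |(1 - κ) * t| ^ 2 = ((1 - κ) * t) ^ 2 := sq_abs _
      have e4 : b / 2 * ‖x - y - ((1 - κ) * t) • bas i‖ ^ 2 +
          b / 2 * ‖x - y + ((1 - κ) * t) • bas i‖ ^ 2 =
          b * ‖x - y‖ ^ 2 + b * ((1 - κ) * t) ^ 2 := by
        rw [← e3]; linear_combination b / 2 * par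
      rw [hxe]
      linarith
    refine le_trans ?_ (Finset.sum_le_sum fun i _ => step i)
    have hl := hlap x (hKΩ hx)
    unfold lap at hl
    rw [Finset.sum_sub_distrib, ← Finset.sum_mul, Finset.sum_sub_distrib, hl]
    simp only [Finset.sum_const, Finset.card_univ, Fintype.card_fin, nsmul_eq_mul]
    have e5 : (N : ℝ) * (ε / N) = ε := by field_simp
    have e6 : κ ^ 2 + N * b * (1 - κ) ^ 2 = κ := by rw [hκ]; field_simp; ring
    have e7 : κ ^ 2 ≤ 1 := by nlinarith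
    rw [e5]
    have e8 : ε * κ ^ 2 * t ^ 2 ≤ ε * t ^ 2 := by
      have : ε * κ ^ 2 ≤ ε := by nlinarith
      gcongr
    have e9 : (-1 - ε) * (κ * t) ^ 2 - N * (b * ((1 - κ) * t) ^ 2) =
        -((κ ^ 2 + N * b * (1 - κ) ^ 2) * t ^ 2) - ε * κ ^ 2 * t ^ 2 := by ring
    rw [e9, e6]
    linarith

end Pool.Agent.Lib.MP_54d1f6_an
end

-- part Pool.Agent.Lib.MP_54d1f6_an.HL
section

/-!
The Hardy-Littlewood step: properties of the Schwarz rearrangement and the double layer cake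
formula.
-/

namespace Pool.Agent.Lib.MP_54d1f6_an

open MeasureTheory Metric Set Filter Topology
open scoped ENNReal

variable {N : ℕ}

theorem hl_layer {X : Type*} [MeasurableSpace X] (ν : Measure X) {f : X → ℝ}
    (hf : AEMeasurable f ν) :
    ∫⁻ x, ENNReal.ofReal (f x) ∂ν = ∫⁻ t in Ioi (0 : ℝ), ν {x | t < f x} := by
  have h := lintegral_eq_lintegral_meas_lt ν (f := fun x => max (f x) 0)
    (Eventually.of_forall fun x => le_max_right _ _) (hf.max aemeasurable_const)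
  simp only [ENNReal.ofReal_max, ENNReal.ofReal_zero, zero_le, sup_of_le_left] at h
  rw [h]
  refine setLIntegral_congr_fun measurableSet_Ioi fun t ht => ?_
  have : {x | t < max (f x) 0} = {x | t < f x} := by
    ext x
    simp only [mem_ofPred_eq, lt_max_iff, or_iff_left_iff_imp]
    exact fun h => absurd ht (not_lt.2 h.le)
  simp only [this]

theorem hl_layer2 {X : Type*} [MeasurableSpace X] (ν : Measure X) {f g : X → ℝ}
    (hf : AEMeasurable f ν) (hg : AEMeasurable g ν) :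
    ∫⁻ x, ENNReal.ofReal (f x) * ENNReal.ofReal (g x) ∂ν =
      ∫⁻ s in Ioi (0 : ℝ), ∫⁻ t in Ioi (0 : ℝ), ν ({x | t < g x} ∩ {x | s < f x}) := by
  have h1 := lintegral_withDensity_eq_lintegral_mul₀ (μ := ν) hg.ennreal_ofReal hf.ennreal_ofReal
  have h2 := hl_layer (ν.withDensity fun x => ENNReal.ofReal (g x))
    (hf.mono' (withDensity_absolutelyContinuous ν _))
  have h3 : ∫⁻ x, ENNReal.ofReal (f x) * ENNReal.ofReal (g x) ∂ν =
      ∫⁻ x, ((fun x => ENNReal.ofReal (g x)) * fun x => ENNReal.ofReal (f x)) x ∂ν :=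
    lintegral_congr fun x => by simp [mul_comm]
  rw [h3, ← h1, h2]
  refine lintegral_congr fun s => ?_
  have hs : NullMeasurableSet {x | s < f x} ν := nullMeasurableSet_lt aemeasurable_const hf
  rw [withDensity_apply₀ _ hs, hl_layer _ hg.restrict]
  exact lintegral_congr fun t => Measure.restrict_apply₀' hs

/-- the set whose infimum is the decreasing rearrangement -/
def hlSet (Ω : Set (E N)) (f : E N → ℝ) (σ : ℝ) : Set ℝ :=
  {t : ℝ | 0 ≤ t ∧ volume {x | x ∈ Ω ∧ t < f x} < ENNReal.ofReal σ}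

theorem hl_mu {Ω : Set (E N)} (hΩ : MeasurableSet Ω) (f : E N → ℝ) (t : ℝ) :
    volume {x | x ∈ Ω ∧ t < f x} = (volume.restrict Ω) {x | t < f x} := by
  rw [Measure.restrict_apply' hΩ]
  congr 1
  ext x
  simp [and_comm]

theorem hl_nonempty {Ω : Set (E N)} (hΩ : MeasurableSet Ω) (hfin : volume Ω ≠ ⊤) {f : E N → ℝ}
    (hf : AEMeasurable f (volume.restrict Ω)) {σ : ℝ} (hσ : 0 < σ) : (hlSet Ω f σ).Nonempty := by
  have h := tendsto_measure_iInter_atTop (μ := volume.restrict Ω)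
    (s := fun n : ℕ => {x | (n : ℝ) < f x})
    (fun n => nullMeasurableSet_lt aemeasurable_const hf)
    (fun n m hnm x (hx : (m : ℝ) < f x) => show (n : ℝ) < f x from
      lt_of_le_of_lt (Nat.cast_le.2 hnm) hx)
    ⟨0, ne_top_of_le_ne_top (by simpa using hfin) (measure_mono (subset_univ _))⟩
  have he : (⋂ n : ℕ, {x | (n : ℝ) < f x}) = ∅ := by
    refine eq_empty_of_forall_notMem fun x hx => ?_
    obtain ⟨n, hn⟩ := exists_nat_ge (f x)
    exact absurd (mem_iInter.1 hx n) (not_lt.2 hn)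
  rw [he, measure_empty] at h
  obtain ⟨n, hn⟩ := (h.eventually (gt_mem_nhds (ENNReal.ofReal_pos.2 hσ))).exists
  exact ⟨n, Nat.cast_nonneg n, by rw [hl_mu hΩ]; exact hn⟩

theorem hl_bdd (Ω : Set (E N)) (f : E N → ℝ) (σ : ℝ) : BddBelow (hlSet Ω f σ) :=
  ⟨0, fun _ ht => ht.1⟩

theorem hl_rearr_nonneg (Ω : Set (E N)) (f : E N → ℝ) (σ : ℝ) : 0 ≤ rearr Ω f σ :=
  Real.sInf_nonneg fun _ ht => ht.1

theorem hl_le_of_lt {Ω : Set (E N)} {f : E N → ℝ} {σ s : ℝ} (hs : 0 ≤ s)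
    (h : s < rearr Ω f σ) : ENNReal.ofReal σ ≤ volume {x | x ∈ Ω ∧ s < f x} := by
  by_contra hc
  exact absurd h (not_lt.2 (csInf_le (hl_bdd Ω f σ) ⟨hs, not_le.1 hc⟩))

theorem hl_lt_of_lt {Ω : Set (E N)} {f : E N → ℝ} {σ s : ℝ} (hne : (hlSet Ω f σ).Nonempty)
    (h : ENNReal.ofReal σ < volume {x | x ∈ Ω ∧ s < f x}) : s < rearr Ω f σ := by
  have hm : Monotone fun n : ℕ => {x | x ∈ Ω ∧ s + 1 / ((n : ℝ) + 1) < f x} := by
    intro n m hnm x hx
    refine ⟨hx.1, lt_of_le_of_lt ?_ hx.2⟩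
    have : (n : ℝ) ≤ m := Nat.cast_le.2 hnm
    gcongr
  have hu : {x | x ∈ Ω ∧ s < f x} = ⋃ n : ℕ, {x | x ∈ Ω ∧ s + 1 / ((n : ℝ) + 1) < f x} := by
    ext x
    simp only [mem_ofPred_eq, mem_iUnion]
    constructor
    · rintro ⟨h1, h2⟩
      obtain ⟨n, hn⟩ := exists_nat_one_div_lt (sub_pos.2 h2)
      exact ⟨n, h1, by linarith⟩
    · rintro ⟨n, h1, h2⟩
      have : (0 : ℝ) < 1 / ((n : ℝ) + 1) := by positivity
      exact ⟨h1, by linarith⟩
  rw [hu, hm.measure_iUnion, lt_iSup_iff] at h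
  obtain ⟨n, hn⟩ := h
  have hp : (0 : ℝ) < 1 / ((n : ℝ) + 1) := by positivity
  refine lt_of_lt_of_le (by linarith : s < s + 1 / ((n : ℝ) + 1)) (le_csInf hne fun t ht => ?_)
  by_contra hc
  refine absurd (ht.2.trans hn) (not_lt.2 (measure_mono fun x hx => ⟨hx.1, ?_⟩))
  exact (not_le.1 hc).trans hx.2

theorem hl_omega_pos : 0 < (volume (ball (0 : E N) 1)).toReal :=
  ENNReal.toReal_pos (measure_ball_pos _ _ one_pos).ne' measure_ball_lt_top.ne

theorem hl_radius (hN : 0 < N) {m : ℝ≥0∞} (hm : m ≠ ⊤) : ∃ r : ℝ, 0 ≤ r ∧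
    volume (closedBall (0 : E N) r) = m ∧ volume (ball (0 : E N) r) = m ∧
      (volume (ball (0 : E N) 1)).toReal * r ^ N = m.toReal := by
  have hω := hl_omega_pos (N := N)
  set ω := (volume (ball (0 : E N) 1)).toReal with hωd
  have h0 : 0 ≤ m.toReal / ω := by positivity
  have hr : ω * ((m.toReal / ω) ^ ((N : ℝ)⁻¹)) ^ N = m.toReal := by
    rw [Real.rpow_inv_natCast_pow h0 hN.ne']
    field_simp
  have : Nontrivial (E N) := Module.nontrivial_of_finrank_pos (R := ℝ) (by simpa using hN)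
  have hv : ENNReal.ofReal (((m.toReal / ω) ^ ((N : ℝ)⁻¹)) ^ Module.finrank ℝ (E N)) *
      volume (ball (0 : E N) 1) = m := by
    rw [← ENNReal.ofReal_toReal (measure_ball_lt_top (x := (0 : E N)) (r := 1)).ne, ← hωd,
      ← ENNReal.ofReal_mul (by positivity), finrank_euclideanSpace_fin, mul_comm, hr,
      ENNReal.ofReal_toReal hm]
  refine ⟨(m.toReal / ω) ^ ((N : ℝ)⁻¹), by positivity, ?_, ?_, hr⟩
  · rw [Measure.addHaar_closedBall _ _ (by positivity), hv]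
  · rw [Measure.addHaar_ball _ _ (by positivity), hv]

theorem hl_upper (hN : 0 < N) {Ω : Set (E N)} (hfin : volume Ω ≠ ⊤) (f : E N → ℝ) {s : ℝ}
    (hs : 0 ≤ s) : volume {x | s < schwarz Ω f x} ≤ volume {x | x ∈ Ω ∧ s < f x} := by
  have hm : volume {x | x ∈ Ω ∧ s < f x} ≠ ⊤ :=
    ne_top_of_le_ne_top hfin (measure_mono fun x hx => hx.1)
  obtain ⟨r, hr, h1, -, h3⟩ := hl_radius hN hm
  rw [← h1]
  refine measure_mono fun x hx => ?_
  have h := hl_le_of_lt hs hx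
  rw [ENNReal.ofReal_le_iff_le_toReal hm, ← h3] at h
  have h' := le_of_mul_le_mul_left h hl_omega_pos
  rw [mem_closedBall_zero_iff]
  exact (pow_le_pow_iff_left₀ (norm_nonneg _) hr hN.ne').1 h'

theorem hl_lower (hN : 0 < N) {Ω : Set (E N)} (hΩ : MeasurableSet Ω) (hfin : volume Ω ≠ ⊤)
    {f : E N → ℝ} (hf : AEMeasurable f (volume.restrict Ω)) (s : ℝ) {B : Set (E N)}
    (hB : ∀ x ∈ B, ∀ y : E N, ‖y‖ ≤ ‖x‖ → y ∈ B) :
    min (volume {x | x ∈ Ω ∧ s < f x}) (volume B) ≤ volume (B ∩ {x | s < schwarz Ω f x}) := by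
  have hm : volume {x | x ∈ Ω ∧ s < f x} ≠ ⊤ :=
    ne_top_of_le_ne_top hfin (measure_mono fun x hx => hx.1)
  obtain ⟨r, hr, -, h2, h3⟩ := hl_radius hN hm
  have : Nontrivial (E N) := Module.nontrivial_of_finrank_pos (R := ℝ) (by simpa using hN)
  have key : ∀ x ∈ ball (0 : E N) r \ {0}, s < schwarz Ω f x := by
    rintro x ⟨hx, hx0⟩
    have hp : 0 < ‖x‖ := norm_pos_iff.2 hx0
    have hσ : 0 < (volume (ball (0 : E N) 1)).toReal * ‖x‖ ^ N :=
      mul_pos hl_omega_pos (by positivity)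
    refine hl_lt_of_lt (hl_nonempty hΩ hfin hf hσ) ?_
    rw [ENNReal.ofReal_lt_iff_lt_toReal hσ.le hm, ← h3]
    exact mul_lt_mul_of_pos_left
      (pow_lt_pow_left₀ (mem_ball_zero_iff.1 hx) hp.le hN.ne') hl_omega_pos
  by_cases hc : B ⊆ ball (0 : E N) r
  · refine (min_le_right _ _).trans ?_
    rw [← measure_sdiff_null (s := B) (measure_singleton (0 : E N))]
    exact measure_mono fun x hx => ⟨hx.1, key x ⟨hc hx.1, hx.2⟩⟩
  · obtain ⟨y, hy, hy'⟩ := not_subset.1 hc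
    refine (min_le_left _ _).trans ?_
    rw [← h2, ← measure_sdiff_null (s := ball (0 : E N) r) (measure_singleton (0 : E N))]
    refine measure_mono fun x hx => ⟨hB y hy x ?_, key x hx⟩
    rw [mem_ball_zero_iff, not_lt] at hy'
    exact (mem_ball_zero_iff.1 hx.1).le.trans hy'

theorem hl_meas (hN : 0 < N) {Ω : Set (E N)} (hΩ : MeasurableSet Ω) (hfin : volume Ω ≠ ⊤)
    {f : E N → ℝ} (hf : AEMeasurable f (volume.restrict Ω)) :
    AEMeasurable (schwarz Ω f) volume := by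
  have : Nontrivial (E N) := Module.nontrivial_of_finrank_pos (R := ℝ) (by simpa using hN)
  have ha : Antitone fun u : ℝ => rearr Ω f (Real.exp u) := fun u v huv =>
    csInf_le_csInf (hl_bdd Ω f _) (hl_nonempty hΩ hfin hf (Real.exp_pos u)) fun t ht =>
      ⟨ht.1, ht.2.trans_le (ENNReal.ofReal_le_ofReal (Real.exp_le_exp.2 huv))⟩
  have hm : Measurable fun x : E N =>
      rearr Ω f (Real.exp (Real.log ((volume (ball (0 : E N) 1)).toReal * ‖x‖ ^ N))) :=
    ha.measurable.comp (Real.measurable_log.comp (by fun_prop))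
  refine hm.aemeasurable.congr ?_
  have h0 : ∀ᵐ x : E N, x ≠ 0 := by
    rw [ae_iff]
    simp
  filter_upwards [h0] with x hx
  have hp : 0 < ‖x‖ := norm_pos_iff.2 hx
  rw [Real.exp_log (mul_pos hl_omega_pos (by positivity))]
  rfl

theorem hl (hN : 0 < N) : HLStmt N := by
  intro Ω β R f W hΩ hβ hR hvol hf hf0 hW hle
  have hfin : volume Ω ≠ ⊤ := hvol ▸ measure_ball_lt_top.ne
  have hfm : AEMeasurable f (volume.restrict Ω) := hf.aestronglyMeasurable.aemeasurable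
  have hWm : AEMeasurable W (volume.restrict Ω) := hW.aestronglyMeasurable.aemeasurable
  have hsm : AEMeasurable (schwarz Ω f) (volume.restrict (ball (0 : E N) R)) :=
    (hl_meas hN hΩ hfin hfm).restrict
  have hs0 : ∀ x, 0 ≤ schwarz Ω f x := fun x => hl_rearr_nonneg _ _ _
  have hN' : (0 : ℝ) < N := Nat.cast_pos.2 hN
  have hL2 : MemLp (schwarz Ω f) 2 (volume.restrict (ball (0 : E N) R)) := by
    rw [memLp_two_iff_integrable_sq hsm.aestronglyMeasurable]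
    refine ⟨(hsm.pow_const 2).aestronglyMeasurable, ?_⟩
    rw [hasFiniteIntegral_iff_ofReal (Eventually.of_forall fun x => sq_nonneg _)]
    refine lt_of_le_of_lt ?_
      ((memLp_two_iff_integrable_sq hf.aestronglyMeasurable).1 hf).lintegral_lt_top
    rw [hl_layer _ (hsm.pow_const 2), hl_layer _ (hfm.pow_const 2)]
    refine lintegral_mono fun t => ?_
    by_cases ht : 0 ≤ t
    · calc (volume.restrict (ball (0 : E N) R)) {x | t < schwarz Ω f x ^ 2}
          ≤ volume {x | √t < schwarz Ω f x} :=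
            (Measure.restrict_apply_le _ _).trans (measure_mono fun x hx =>
              (Real.sqrt_lt' (lt_of_le_of_ne (hs0 x) fun h => by
                have hx' : t < schwarz Ω f x ^ 2 := hx
                rw [← h] at hx'
                linarith)).2 hx)
        _ ≤ volume {x | x ∈ Ω ∧ √t < f x} := hl_upper hN hfin f (Real.sqrt_nonneg t)
        _ = (volume.restrict Ω) {x | √t < f x} := hl_mu hΩ f _
        _ ≤ (volume.restrict Ω) {x | t < f x ^ 2} := measure_mono fun x hx =>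
            (Real.sqrt_lt' ((Real.sqrt_nonneg t).trans_lt hx)).1 hx
    · have h1 : ∀ g : E N → ℝ, {x | t < g x ^ 2} = univ := fun g =>
        eq_univ_of_forall fun x => (not_le.1 ht).trans_le (sq_nonneg _)
      simp only [h1, Measure.restrict_apply_univ, hvol, le_refl]
  refine ⟨hL2, ?_⟩
  have : IsFiniteMeasure (volume.restrict (ball (0 : E N) R)) :=
    isFiniteMeasure_restrict.2 measure_ball_lt_top.ne
  have hwc : Continuous (wB N β R) := by unfold wB; fun_prop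
  have hw0 : ∀ x ∈ ball (0 : E N) R, 0 ≤ wB N β R x ∧ wB N β R x ≤ R / (N * β) + R ^ 2 / (2 * N) := by
    intro x hx
    have h1 : ‖x‖ ^ 2 ≤ R ^ 2 := pow_le_pow_left₀ (norm_nonneg _) (mem_ball_zero_iff.1 hx).le 2
    have h2 : 0 ≤ R ^ 2 - ‖x‖ ^ 2 := sub_nonneg.2 h1
    refine ⟨by unfold wB; positivity, ?_⟩
    unfold wB
    gcongr
    exact sub_le_self _ (sq_nonneg _)
  have hwL : MemLp (wB N β R) 2 (volume.restrict (ball (0 : E N) R)) :=
    MemLp.of_bound hwc.aestronglyMeasurable _ <| by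
      filter_upwards [ae_restrict_mem measurableSet_ball] with x hx
      rw [Real.norm_of_nonneg (hw0 x hx).1]
      exact (hw0 x hx).2
  have i1 : Integrable (fun x => f x * W x) (volume.restrict Ω) := hf.integrable_mul hW
  have i2 : Integrable (fun x => schwarz Ω f x * wB N β R x)
      (volume.restrict (ball (0 : E N) R)) := hL2.integrable_mul hwL
  rw [integral_eq_lintegral_pos_part_sub_lintegral_neg_part i1,
    integral_eq_lintegral_of_nonneg_ae (by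
      filter_upwards [ae_restrict_mem measurableSet_ball] with x hx
      exact mul_nonneg (hs0 x) (hw0 x hx).1) i2.aestronglyMeasurable]
  refine (sub_le_self _ ENNReal.toReal_nonneg).trans
    (ENNReal.toReal_mono i2.lintegral_lt_top.ne ?_)
  have e1 : ∫⁻ x in Ω, ENNReal.ofReal (f x * W x) =
      ∫⁻ x in Ω, ENNReal.ofReal (f x) * ENNReal.ofReal (W x) :=
    lintegral_congr_ae (by filter_upwards [hf0] with x hx using ENNReal.ofReal_mul hx)
  have e2 : ∫⁻ x in ball (0 : E N) R, ENNReal.ofReal (schwarz Ω f x * wB N β R x) =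
      ∫⁻ x in ball (0 : E N) R, ENNReal.ofReal (schwarz Ω f x) * ENNReal.ofReal (wB N β R x) :=
    lintegral_congr fun x => ENNReal.ofReal_mul (hs0 x)
  rw [e1, e2, hl_layer2 _ hfm hWm, hl_layer2 _ hsm hwc.measurable.aemeasurable]
  refine lintegral_mono fun s => setLIntegral_mono' measurableSet_Ioi fun t ht => ?_
  have hB : ∀ x ∈ {x | x ∈ ball (0 : E N) R ∧ t < wB N β R x}, ∀ y : E N, ‖y‖ ≤ ‖x‖ →
      y ∈ {x | x ∈ ball (0 : E N) R ∧ t < wB N β R x} := by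
    rintro x ⟨h1, h2⟩ y hy
    refine ⟨mem_ball_zero_iff.2 (hy.trans_lt (mem_ball_zero_iff.1 h1)), h2.trans_le ?_⟩
    unfold wB
    gcongr
  refine le_trans (le_min ?_ ?_) ((hl_lower hN hΩ hfin hfm s hB).trans ?_)
  · rw [hl_mu hΩ]
    exact measure_mono inter_subset_right
  · refine le_trans ?_ (hle t (le_of_lt ht))
    rw [hl_mu hΩ]
    exact measure_mono inter_subset_left
  · rw [Measure.restrict_apply' measurableSet_ball]
    exact measure_mono fun x hx => ⟨⟨hx.1.2, hx.2⟩, hx.1.1⟩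

end Pool.Agent.Lib.MP_54d1f6_an
end
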