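import Pool.Agent.Lib.MP_54d1f6_an.Main

-- part Pool.Agent.Lib.MP_54d1f6_an.Trace
section

/-!
Existence of traces, and the ball is a Lipschitz domain.
-/

namespace Pool.Agent.Lib.MP_54d1f6_an

open MeasureTheory Metric Set Filter Topology
open scoped RealInnerProductSpace ContDiff NNReal ENNReal

variable {N : ℕ}

lemma trace_sqrt_lip {R a b : ℝ} (hR : 0 < R) (_ha : 0 ≤ a) (hb : 0 ≤ b) (ha' : a ≤ R / 2)
    (hb' : b ≤ R / 2) : √(R ^ 2 - a ^ 2) ≤ √(R ^ 2 - b ^ 2) + |a - b| := by
  have h1 : R / 2 ≤ √(R ^ 2 - b ^ 2) := Real.le_sqrt_of_sq_le (by nlinarith)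
  have h2 : √(R ^ 2 - b ^ 2) ^ 2 = R ^ 2 - b ^ 2 := Real.sq_sqrt (by nlinarith)
  refine Real.sqrt_le_iff.2 ⟨by positivity, ?_⟩
  have h3 : b - a ≤ |a - b| := by rw [abs_sub_comm]; exact le_abs_self _
  have h4 := abs_nonneg (a - b)
  nlinarith [mul_le_mul_of_nonneg_right h1 h4, mul_le_mul_of_nonneg_left h3 (add_nonneg _ha hb),
    mul_le_mul_of_nonneg_right (show a + b ≤ R by linarith) h4]

theorem trace_ball_lip {R : ℝ} (hR : 0 < R) : IsLipschitzDomain (ball (0 : E N) R) := by
  refine ⟨isOpen_ball, isBounded_ball, fun x₀ hx₀ => ?_⟩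
  rw [frontier_ball _ hR.ne'] at hx₀
  have hx : ‖x₀‖ = R := by simpa using hx₀
  set e : E N := R⁻¹ • x₀ with he
  have he1 : ‖e‖ = 1 := by
    rw [he, norm_smul, hx, Real.norm_of_nonneg (by positivity)]; field_simp
  have hee : ⟪e, e⟫ = 1 := by rw [real_inner_self_eq_norm_sq, he1]; norm_num
  have hx0 : x₀ = R • e := by rw [he, smul_smul]; simp [hR.ne']
  clear_value e
  set p : E N → E N := fun x => x - ⟪x, e⟫ • e with hp
  have hpy : ∀ x, ‖x‖ ^ 2 = ⟪x, e⟫ ^ 2 + ‖p x‖ ^ 2 := by
    intro x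
    simp only [hp]
    rw [norm_sub_sq_real, norm_smul, he1, inner_smul_right, Real.norm_eq_abs, mul_one, sq_abs]
    ring
  have hple : ∀ x, ‖p x‖ ≤ ‖x‖ := fun x =>
    abs_le_of_sq_le_sq' (by nlinarith [hpy x, sq_nonneg ⟪x, e⟫]) (norm_nonneg _) |>.2
  have hpsub : ∀ x y, p x - p y = p (x - y) := by
    intro x y
    simp only [hp, inner_sub_left, sub_smul]
    abel
  refine ⟨R / 2, e, fun x => √(R ^ 2 - (min ‖p x‖ (R / 2)) ^ 2), 1, by positivity, he1,
    LipschitzWith.of_le_add_mul _ fun x y => ?_, fun x t => ?_, fun x hxb => ?_⟩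
  · refine (trace_sqrt_lip hR (b := min ‖p y‖ (R / 2)) (le_min (norm_nonneg _) (by positivity))
      (le_min (norm_nonneg _) (by positivity)) (min_le_right _ _) (min_le_right _ _)).trans ?_
    have h1 : |min ‖p x‖ (R / 2) - min ‖p y‖ (R / 2)| ≤ |‖p x‖ - ‖p y‖| :=
      (abs_min_sub_min_le_max _ _ _ _).trans (by simp)
    have h2 := abs_norm_sub_norm_le (p x) (p y)
    rw [hpsub] at h2
    have h3 := hple (x - y)
    rw [dist_eq_norm]
    simp only [NNReal.coe_one, one_mul]
    linarith
  · have : p (x + t • e) = p x := by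
      simp only [hp, inner_add_left, inner_smul_left, hee, add_smul]
      simp
    simp only [this]
  · have h1 : ‖x - x₀‖ < R / 2 := by rwa [mem_ball, dist_eq_norm] at hxb
    have h2 : p x₀ = 0 := by
      simp only [hp]
      rw [hx0, inner_smul_left, hee]
      simp
    have h3 : ‖p x‖ < R / 2 := by
      have := hple (x - x₀)
      rw [← hpsub, h2, sub_zero] at this
      linarith
    have h4 : 0 < ⟪x, e⟫ := by
      have a := abs_real_inner_le_norm (x - x₀) e
      rw [he1, mul_one, inner_sub_left, hx0, inner_smul_left, hee, ← hx0] at a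
      have := (abs_le.1 a).1
      simp only [conj_trivial, mul_one] at this
      linarith
    simp only [min_eq_left h3.le]
    rw [mem_ball_zero_iff, Real.lt_sqrt h4.le, ← sq_lt_sq₀ (norm_nonneg _) hR.le, hpy x]
    constructor <;> intro h <;> linarith

theorem trace_exists (hlip : LipStmt N) (hsm : AdmSmoothStmt N) (hti : TraceIneqStmt N)
    (hden : DensityStmt N) {Ω : Set (E N)} (hΩ : IsLipschitzDomain Ω) {u : E N → ℝ}
    {G : E N → E N} (hu : IsH1 Ω u G) : ∃ g, IsTrace Ω u G g := by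
  obtain ⟨φ, hφ, h1, h2⟩ := hden Ω u G hΩ hu
  obtain ⟨C, hC⟩ := hti Ω hΩ
  have hn := (hlip Ω hΩ).1
  have hA : ∀ n, Adm Ω (φ n) (gradient (φ n)) (φ n) := fun n => hsm Ω _ hn (hφ n)
  have hm : ∀ n, MemLp (φ n) 2 (surf Ω) := fun n => (hA n).2.memL2
  have hcs : CauchySeq fun n => (hm n).toLp (φ n) := by
    rw [Lp.cauchySeq_Lp_iff_cauchySeq_eLpNorm]
    set a : ℕ → ℝ≥0∞ := fun n => eLpNorm (fun x => φ n x - u x) 2 (volume.restrict Ω)
    set b : ℕ → ℝ≥0∞ := fun n =>
      eLpNorm (fun x => gradient (φ n) x - G x) 2 (volume.restrict Ω)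
    have f1 : Tendsto (Prod.fst : ℕ × ℕ → ℕ) atTop atTop := by
      rw [← prod_atTop_atTop_eq]; exact tendsto_fst
    have f2 : Tendsto (Prod.snd : ℕ × ℕ → ℕ) atTop atTop := by
      rw [← prod_atTop_atTop_eq]; exact tendsto_snd
    have lim : Tendsto (fun q : ℕ × ℕ => (C : ℝ≥0∞) * ((a q.1 + a q.2) + (b q.1 + b q.2))) atTop
        (𝓝 0) := by
      have := ENNReal.Tendsto.const_mul (a := (C : ℝ≥0∞))
        (((h1.comp f1).add (h1.comp f2)).add ((h2.comp f1).add (h2.comp f2)))
        (Or.inr ENNReal.coe_ne_top)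
      simpa using this
    refine tendsto_of_tendsto_of_tendsto_of_le_of_le tendsto_const_nhds lim (fun _ => bot_le)
      fun q => ?_
    have e : eLpNorm (⇑((hm q.1).toLp (φ q.1)) - ⇑((hm q.2).toLp (φ q.2))) 2 (surf Ω) =
        eLpNorm (fun x => φ q.1 x - φ q.2 x) 2 (surf Ω) := by
      refine eLpNorm_congr_ae ?_
      filter_upwards [(hm q.1).coeFn_toLp, (hm q.2).coeFn_toLp] with x a b
      simp [a, b]
    rw [e]
    refine (hC _ ((hφ q.1).sub (hφ q.2))).trans ?_
    gcongr
    · have e1 : (fun x => φ q.1 x - φ q.2 x) =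
          (fun x => φ q.1 x - u x) - fun x => φ q.2 x - u x := by
        funext x; simp
      rw [e1]
      exact eLpNorm_sub_le ((hA q.1).1.memL2.sub hu.memL2).1 ((hA q.2).1.memL2.sub hu.memL2).1
        (by simp)
    · have e1 : (gradient fun x => φ q.1 x - φ q.2 x) =
          (fun x => gradient (φ q.1) x - G x) - fun x => gradient (φ q.2) x - G x := by
        funext x
        simp only [gradient, Pi.sub_apply]
        rw [fderiv_fun_sub ((hφ q.1).differentiable (by simp) x)
          ((hφ q.2).differentiable (by simp) x), map_sub]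
        abel
      rw [e1]
      exact eLpNorm_sub_le ((hA q.1).1.gradL2.sub hu.gradL2).1 ((hA q.2).1.gradL2.sub hu.gradL2).1
        (by simp)
  obtain ⟨g, hg⟩ := cauchySeq_tendsto_of_complete hcs
  refine ⟨g, Lp.memLp g, φ, hφ, h1, h2, ?_⟩
  rw [Lp.tendsto_Lp_iff_tendsto_eLpNorm'] at hg
  refine hg.congr fun n => eLpNorm_congr_ae ?_
  filter_upwards [(hm n).coeFn_toLp] with x a
  simp [a]

theorem trace_robin (hlip : LipStmt N) (hsm : AdmSmoothStmt N) (hti : TraceIneqStmt N)
    (hden : DensityStmt N) {Ω : Set (E N)} (hΩ : IsLipschitzDomain Ω) {β : ℝ} {f u : E N → ℝ}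
    (hu : IsWeakSolution β Ω f u) : IsRobinSolution β Ω f u := by
  obtain ⟨G, h1, h2⟩ := hu
  obtain ⟨g, hg⟩ := trace_exists hlip hsm hti hden hΩ h1
  exact ⟨G, g, h1, hg, h2 g hg⟩

end Pool.Agent.Lib.MP_54d1f6_an
end

-- part Pool.Agent.Lib.MP_54d1f6_an.Moll
section

/-!
Approximate identities converge in `L2`.
-/

namespace Pool.Agent.Lib.MP_54d1f6_an

open MeasureTheory Metric Set Filter Topology
open scoped RealInnerProductSpace ContDiff NNReal ENNReal

section

variable {N : ℕ} {V : Type} [NormedAddCommGroup V]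

lemma moll_sq {X : Type} [MeasurableSpace X] (f : X → V) (μ : Measure X) :
    eLpNorm f 2 μ ^ (2 : ℝ) = ∫⁻ x, ‖f x‖ₑ ^ (2 : ℝ) ∂μ := by
  simpa using eLpNorm_nnreal_pow_eq_lintegral (f := f) (μ := μ) (p := 2) (by norm_num)

/-- continuity of translations in `L2` -/
lemma moll_trans {F : E N → V} (hF : MemLp F 2 volume) :
    Tendsto (fun z : E N => eLpNorm (fun x => F (x - z) - F x) 2 volume) (𝓝 0) (𝓝 0) := by
  have : Fact ((1 : ℝ≥0∞) ≤ 2) := ⟨by norm_num⟩
  let g : E N → C(E N, E N) := fun z => ⟨fun x => x - z, by fun_prop⟩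
  have hg : Continuous g := ContinuousMap.continuous_of_continuous_uncurry g (by
    simp only [g, Function.uncurry_def, ContinuousMap.coe_mk]; fun_prop)
  have hm : ∀ z, MeasurePreserving (g z) volume volume := fun z =>
    measurePreserving_sub_right volume z
  have hc : Continuous fun z => Lp.compMeasurePreserving (g z) (hm z) (hF.toLp F) :=
    (continuous_const (y := hF.toLp F)).compMeasurePreservingLp hg hm (by norm_num)
  have h1 : ∀ z, (Lp.compMeasurePreserving (g z) (hm z) (hF.toLp F) : E N → V) =ᵐ[volume]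
      fun x => F (x - z) := fun z =>
    (Lp.coeFn_compMeasurePreserving _ (hm z)).trans
      ((hm z).quasiMeasurePreserving.ae_eq_comp hF.coeFn_toLp)
  have h2 : ∀ z, eLpNorm (fun x => F (x - z) - F x) 2 volume =
      edist (Lp.compMeasurePreserving (g z) (hm z) (hF.toLp F))
        (Lp.compMeasurePreserving (g 0) (hm 0) (hF.toLp F)) := fun z => by
    rw [Lp.edist_def]
    refine eLpNorm_congr_ae ?_
    filter_upwards [h1 z, h1 0] with x a b
    rw [Pi.sub_apply, a, b, sub_zero]
  simp only [h2]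
  have h3 := (hc.edist (continuous_const
    (y := Lp.compMeasurePreserving (g 0) (hm 0) (hF.toLp F)))).tendsto 0
  simpa using h3

variable [NormedSpace ℝ V] [CompleteSpace V]

/-- Jensen type bound for an average -/
lemma moll_point {X : Type} [MeasurableSpace X] (ν : Measure X) [IsProbabilityMeasure ν]
    {G : X → V} (hG : AEStronglyMeasurable G ν) (c : V) :
    ‖(∫ z, G z ∂ν) - c‖ₑ ^ (2 : ℝ) ≤ ∫⁻ z, ‖G z - c‖ₑ ^ (2 : ℝ) ∂ν := by
  have hm : AEStronglyMeasurable (fun z => G z - c) ν := hG.sub aestronglyMeasurable_const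
  rw [← moll_sq]
  refine ENNReal.rpow_le_rpow ?_ (by norm_num)
  refine le_trans ?_ (eLpNorm_le_eLpNorm_of_exponent_le (p := 1) (by norm_num) hm)
  by_cases hi : Integrable (fun z => G z - c) ν
  · have hi2 : Integrable G ν := (hi.add (integrable_const c)).congr (Eventually.of_forall fun z => by simp)
    have h1 : (∫ z, G z ∂ν) - c = ∫ z, (G z - c) ∂ν := by
      rw [integral_sub hi2 (integrable_const c)]; simp
    rw [h1, eLpNorm_one_eq_lintegral_enorm]
    exact enorm_integral_le_lintegral_enorm _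
  · have h1 : eLpNorm (fun z => G z - c) 1 ν = ⊤ := by
      by_contra h
      exact hi (memLp_one_iff_integrable.1 ⟨hm, lt_top_iff_ne_top.2 h⟩)
    rw [h1]
    exact le_top

lemma moll_bound {F : E N → V} (hF : StronglyMeasurable F) {k : E N → ℝ} (hk : Continuous k)
    (h0 : ∀ z, 0 ≤ k z) (h1 : ∫ z, k z = 1) {ε : ℝ≥0∞}
    (hε : ∀ z, k z ≠ 0 → eLpNorm (fun x => F (x - z) - F x) 2 volume ≤ ε) :
    eLpNorm (fun x => (∫ z, k (x - z) • F z) - F x) 2 volume ≤ ε := by
  have hkm : Measurable fun z => ENNReal.ofReal (k z) := hk.measurable.ennreal_ofReal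
  set ν : Measure (E N) := volume.withDensity fun z => ENNReal.ofReal (k z) with hν
  have hki : Integrable k := Integrable.of_integral_ne_zero (by rw [h1]; norm_num)
  have : IsProbabilityMeasure ν := ⟨by
    rw [hν, withDensity_apply _ MeasurableSet.univ, Measure.restrict_univ,
      ← ofReal_integral_eq_lintegral_ofReal hki (Eventually.of_forall h0), h1]
    simp⟩
  have h2 : ∀ x, ∫ z, k (x - z) • F z = ∫ z, F (x - z) ∂ν := fun x => by
    rw [hν, integral_withDensity_eq_integral_toReal_smul hkm (by simp),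
      ← integral_sub_left_eq_self (fun z => k (x - z) • F z) volume x]
    simp [h0]
  have hm : StronglyMeasurable fun q : E N × E N => F (q.1 - q.2) - F q.1 :=
    (hF.comp_measurable (by fun_prop)).sub (hF.comp_measurable (by fun_prop))
  rw [← ENNReal.rpow_le_rpow_iff (z := 2) (by norm_num), moll_sq]
  calc _ ≤ ∫⁻ x, ∫⁻ z, ‖F (x - z) - F x‖ₑ ^ (2 : ℝ) ∂ν := by
        refine lintegral_mono fun x => ?_
        simp only [h2]
        exact moll_point ν (hF.comp_measurable (by fun_prop)).aestronglyMeasurable _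
    _ = ∫⁻ z, (∫⁻ x, ‖F (x - z) - F x‖ₑ ^ (2 : ℝ)) ∂ν :=
        lintegral_lintegral_swap (hm.enorm.pow_const _).aemeasurable
    _ ≤ ∫⁻ _, ε ^ (2 : ℝ) ∂ν := by
        refine lintegral_mono_ae ?_
        rw [hν, ae_withDensity_iff hkm]
        refine Eventually.of_forall fun z hz => ?_
        rw [← moll_sq]
        exact ENNReal.rpow_le_rpow (hε z fun h => hz (by simp [h])) (by norm_num)
    _ = _ := by simp

end

theorem moll (N : ℕ) (V : Type) [NormedAddCommGroup V] [NormedSpace ℝ V] [CompleteSpace V] :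
    MollStmt N V := by
  intro F k r hF hk h0 h1 hr hr0
  have hae : F =ᵐ[volume] hF.1.mk F := hF.1.ae_eq_mk
  have hF' : MemLp (hF.1.mk F) 2 volume := hF.ae_eq hae
  have h2 : ∀ n, eLpNorm (fun x => (∫ z, k n (x - z) • F z) - F x) 2 volume =
      eLpNorm (fun x => (∫ z, k n (x - z) • hF.1.mk F z) - hF.1.mk F x) 2 volume := fun n => by
    refine eLpNorm_congr_ae ?_
    filter_upwards [hae] with x hx
    rw [hx, integral_congr_ae (g := fun z => k n (x - z) • hF.1.mk F z)]
    filter_upwards [hae] with z hz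
    rw [hz]
  simp only [h2]
  rw [ENNReal.tendsto_nhds_zero]
  intro ε hε
  obtain ⟨δ, hδ, h3⟩ := Metric.eventually_nhds_iff.1
    (ENNReal.tendsto_nhds_zero.1 (moll_trans hF') ε hε)
  filter_upwards [hr0.eventually (gt_mem_nhds hδ)] with n hn
  refine moll_bound hF.1.stronglyMeasurable_mk (hk n) (h0 n) (h1 n) fun z hz => h3 ?_
  rw [dist_zero_right]
  exact (hr n z hz).trans_lt hn

end Pool.Agent.Lib.MP_54d1f6_an
end

-- part Pool.Agent.Lib.MP_54d1f6_an.Density
section

/-!
Density of `C1` functions of the whole space in `H1` of a Lipschitz domain.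
-/

namespace Pool.Agent.Lib.MP_54d1f6_an

open MeasureTheory Metric Set Filter Topology
open scoped RealInnerProductSpace ContDiff NNReal Convolution

variable {N : ℕ}

/-- measurable functions tending to zero in `L2` -/
def DenZ (Ω : Set (E N)) (a : ℕ → E N → ℝ) : Prop :=
  (∀ n, AEStronglyMeasurable (a n) (volume.restrict Ω)) ∧
    Tendsto (fun n => eLpNorm (a n) 2 (volume.restrict Ω)) atTop (𝓝 0)

lemma DenZ.add {Ω : Set (E N)} {a b : ℕ → E N → ℝ} (ha : DenZ Ω a) (hb : DenZ Ω b) :
    DenZ Ω fun n x => a n x + b n x := by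
  refine ⟨fun n => (ha.1 n).add (hb.1 n), ?_⟩
  have h := ha.2.add hb.2
  rw [add_zero] at h
  exact tendsto_of_tendsto_of_tendsto_of_le_of_le tendsto_const_nhds h (fun _ => zero_le)
    fun n => eLpNorm_add_le (ha.1 n) (hb.1 n) (by norm_num)

lemma DenZ.mul {Ω : Set (E N)} {a : ℕ → E N → ℝ} (ha : DenZ Ω a) (c : ℝ) :
    DenZ Ω fun n x => c * a n x := by
  refine ⟨fun n => (ha.1 n).const_mul c, ?_⟩
  have h := ENNReal.Tendsto.const_mul (a := ‖c‖ₑ) ha.2 (Or.inr enorm_ne_top)
  rw [mul_zero] at h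
  exact h.congr fun n => (eLpNorm_const_smul c (a n) 2 _).symm

lemma DenZ.of_le {V : Type} [NormedAddCommGroup V] {Ω : Set (E N)} (hΩ : MeasurableSet Ω)
    {a : ℕ → E N → ℝ} (ha : DenZ Ω a) {f : ℕ → E N → V} (h : ∀ n, ∀ x ∈ Ω, ‖f n x‖ ≤ a n x) :
    Tendsto (fun n => eLpNorm (f n) 2 (volume.restrict Ω)) atTop (𝓝 0) :=
  tendsto_of_tendsto_of_tendsto_of_le_of_le tendsto_const_nhds ha.2 (fun _ => zero_le)
    fun n => eLpNorm_mono_ae_real (ae_restrict_of_forall_mem hΩ (h n))

/-- approximation of the function on `Ω` and of the gradient on `Ω ∩ S` -/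
def DenGood (Ω : Set (E N)) (u : E N → ℝ) (G : E N → E N) (S : Set (E N)) : Prop :=
  ∃ φ a : ℕ → E N → ℝ, (∀ n, ContDiff ℝ 1 (φ n)) ∧ DenZ Ω a ∧
    (∀ n, ∀ x ∈ Ω, ‖φ n x - u x‖ ≤ a n x) ∧
    ∀ n, ∀ x ∈ Ω, x ∈ S → ‖gradient (φ n) x - G x‖ ≤ a n x

lemma den_conv {V : Type} [NormedAddCommGroup V] [NormedSpace ℝ V] (F : E N → V) (k : E N → ℝ) :
    (fun x => ∫ z, k (x - z) • F z) = F ⋆[(ContinuousLinearMap.lsmul ℝ ℝ).flip, volume] k := rfl

lemma den_smooth {V : Type} [NormedAddCommGroup V] [NormedSpace ℝ V] [CompleteSpace V]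
    {F : E N → V} (hF : MemLp F 2 volume) {k : E N → ℝ} (hk : ContDiff ℝ 1 k)
    (hc : HasCompactSupport k) : ContDiff ℝ 1 fun x => ∫ z, k (x - z) • F z := by
  rw [den_conv]
  exact hc.contDiff_convolution_right _ (hF.locallyIntegrable (by norm_num)) hk

lemma den_moll {V : Type} [NormedAddCommGroup V] [NormedSpace ℝ V] [CompleteSpace V]
    (h : MollStmt N V) (Ω : Set (E N)) {F : E N → V} (hF : MemLp F 2 volume) {c : ℕ → E N}
    (ρ : ∀ n, ContDiffBump (c n)) (hr : Tendsto (fun n => ‖c n‖ + (ρ n).rOut) atTop (𝓝 0)) :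
    DenZ Ω fun n x => ‖(∫ z, (ρ n).normed volume (x - z) • F z) - F x‖ := by
  refine ⟨fun n => (((den_smooth hF (ρ n).contDiff_normed
    (ρ n).hasCompactSupport_normed).continuous.aestronglyMeasurable.sub hF.1).norm).restrict, ?_⟩
  have h1 := h F (fun n => (ρ n).normed volume) _ hF (fun n => (ρ n).continuous_normed)
    (fun n z => (ρ n).nonneg_normed z) (fun n => (ρ n).integral_normed) (fun n z hz => ?_) hr
  · refine tendsto_of_tendsto_of_tendsto_of_le_of_le tendsto_const_nhds h1 (fun _ => zero_le)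
      fun n => ?_
    simp only [eLpNorm_norm]
    exact eLpNorm_restrict_le _ _ _ _
  · have h2 : z ∈ Function.support ((ρ n).normed volume) := hz
    rw [(ρ n).support_normed_eq, mem_ball_iff_norm] at h2
    have h3 := norm_add_le (c n) (z - c n)
    rw [add_sub_cancel] at h3
    linarith

/-- the gradient of the regularisation is the regularisation of the weak gradient -/
lemma den_grad {Ω : Set (E N)} (hΩ : MeasurableSet Ω) {u : E N → ℝ} {G : E N → E N}
    (hu : IsH1 Ω u G) {c : E N} (ρ : ContDiffBump c) {x : E N}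
    (hx : closedBall (x - c) ρ.rOut ⊆ Ω) :
    gradient (fun x => ∫ z, ρ.normed volume (x - z) • Ω.indicator u z) x =
      ∫ z, ρ.normed volume (x - z) • Ω.indicator G z := by
  have hU := ((memLp_indicator_iff_restrict hΩ).2 hu.memL2).locallyIntegrable (by norm_num)
  have hH := ((memLp_indicator_iff_restrict hΩ).2 hu.gradL2).locallyIntegrable (by norm_num)
  have hc := ρ.hasCompactSupport_normed (μ := volume)
  have hk : ContDiff ℝ 1 (ρ.normed volume) := ρ.contDiff_normed
  refine ext_inner_right ℝ fun v => ?_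
  rw [inner_gradient_left, den_conv,
    (hc.hasFDerivAt_convolution_right _ hU hk x).fderiv,
    convolution_precompR_apply _ hU (hc.fderiv ℝ) (hk.continuous_fderiv one_ne_zero), ← den_conv]
  have hts : tsupport (fun z => ρ.normed volume (x - z)) ⊆ closedBall (x - c) ρ.rOut := by
    refine closure_minimal (fun z hz => ?_) isClosed_closedBall
    have h2 : x - z ∈ Function.support (ρ.normed volume) := hz
    rw [ρ.support_normed_eq, mem_ball_iff_norm] at h2
    rw [mem_closedBall_iff_norm', show x - c - z = x - z - c by abel]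
    exact h2.le
  have hw := hu.weak (fun z => ρ.normed volume (x - z))
    (ρ.contDiff_normed.comp (contDiff_const.sub contDiff_id))
    ((isCompact_closedBall _ _).of_isClosed_subset (isClosed_tsupport _) hts) (hts.trans hx) v
  have hd : ∀ z, fderiv ℝ (fun z => ρ.normed volume (x - z)) z v =
      -fderiv ℝ (ρ.normed volume) (x - z) v := fun z => by
    have h3 : HasFDerivAt (fun z => ρ.normed volume (x - z)) _ z :=
      (hk.differentiable one_ne_zero (x - z)).hasFDerivAt.comp z ((hasFDerivAt_id z).const_sub x)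
    rw [h3.fderiv]
    simp
  simp only [hd, mul_neg, integral_neg, neg_inj] at hw
  have hi : Integrable (fun z => ρ.normed volume (x - z) • Ω.indicator G z) :=
    hc.convolutionExists_right (ContinuousLinearMap.lsmul ℝ ℝ).flip hH hk.continuous x
  rw [real_inner_comm, ← integral_inner hi]
  calc _ = ∫ z in Ω, u z * fderiv ℝ (ρ.normed volume) (x - z) v := by
        rw [← integral_indicator hΩ]
        refine integral_congr_ae (Eventually.of_forall fun z => ?_)
        by_cases hz : z ∈ Ω <;> simp [hz, mul_comm]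
    _ = _ := by
        rw [hw, ← integral_indicator hΩ]
        refine integral_congr_ae (Eventually.of_forall fun z => ?_)
        by_cases hz : z ∈ Ω <;> simp [hz, real_inner_smul_right, real_inner_comm]

lemma den_local (h1 : MollStmt N ℝ) (h2 : MollStmt N (E N)) {Ω S : Set (E N)}
    (hΩ : MeasurableSet Ω) {u : E N → ℝ} {G : E N → E N} (hu : IsH1 Ω u G) {e : E N} {c t₀ : ℝ}
    (hc : 0 < c) (ht : 0 < t₀)
    (h : ∀ t ∈ Ioo 0 t₀, ∀ x ∈ Ω, x ∈ S → closedBall (x - t • e) (c * t) ⊆ Ω) :
    DenGood Ω u G S := by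
  have hU := (memLp_indicator_iff_restrict hΩ).2 hu.memL2
  have hH := (memLp_indicator_iff_restrict hΩ).2 hu.gradL2
  let t : ℕ → ℝ := fun n => t₀ / 2 * (1 / (n + 1))
  have ht0 : ∀ n, t n ∈ Ioo 0 t₀ := fun n => ⟨by positivity, by
    have : 1 / ((n : ℝ) + 1) ≤ 1 := by
      rw [div_le_one (by positivity)]
      linarith [n.cast_nonneg (α := ℝ)]
    simp only [t]
    nlinarith⟩
  let ρ : ∀ n, ContDiffBump (t n • e) := fun n =>
    ⟨c * t n / 2, c * t n, by have := (ht0 n).1; positivity,
      half_lt_self (mul_pos hc (ht0 n).1)⟩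
  have hr : Tendsto (fun n => ‖t n • e‖ + (ρ n).rOut) atTop (𝓝 0) := by
    have h3 : Tendsto t atTop (𝓝 0) := by
      have := tendsto_one_div_add_atTop_nhds_zero_nat.const_mul (t₀ / 2)
      rwa [mul_zero] at this
    simpa using (h3.smul_const e).norm.add (h3.const_mul c)
  refine ⟨fun n x => ∫ z, (ρ n).normed volume (x - z) • Ω.indicator u z, _,
    fun n => den_smooth hU (ρ n).contDiff_normed (ρ n).hasCompactSupport_normed,
    (den_moll h1 Ω hU ρ hr).add (den_moll h2 Ω hH ρ hr), fun n x hx => ?_, fun n x hx hS => ?_⟩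
  · rw [indicator_of_mem hx]
    exact le_add_of_nonneg_right (norm_nonneg _)
  · rw [den_grad hΩ hu (ρ n) (h _ (ht0 n) x hx hS), indicator_of_mem hx G]
    exact le_add_of_nonneg_left (norm_nonneg _)

lemma den_glue {Ω S : Set (E N)} {u : E N → ℝ} {G : E N → E N} {x₀ : E N} {δ : ℝ} (hδ : 0 < δ)
    (h1 : DenGood Ω u G S) (h2 : DenGood Ω u G (ball x₀ δ)) :
    DenGood Ω u G (ball x₀ (δ / 2) ∪ S) := by
  obtain ⟨φ, a, hφ, ha, hφ1, hφ2⟩ := h1
  obtain ⟨ψ, a', hψ, ha', hψ1, hψ2⟩ := h2
  let b : ContDiffBump x₀ := ⟨δ / 2, δ, half_pos hδ, half_lt_self hδ⟩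
  have hb : ContDiff ℝ 1 b := b.contDiff
  obtain ⟨M, hM⟩ := (b.hasCompactSupport.fderiv ℝ).exists_bound_of_continuous
    (hb.continuous_fderiv one_ne_zero)
  have hM0 : 0 ≤ M := (norm_nonneg _).trans (hM 0)
  refine ⟨fun n x => φ n x + b x * (ψ n x - φ n x), _,
    fun n => (hφ n).add (hb.mul ((hψ n).sub (hφ n))), (ha.add ha').mul (1 + M),
    fun n x hx => ?_, fun n x hx hS => ?_⟩
  · have e1 := hφ1 n x hx
    have e2 := hψ1 n x hx
    have e3 := b.nonneg (x := x)
    have e4 := b.le_one (x := x)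
    have e5 := (norm_nonneg _).trans e1
    have e6 := (norm_nonneg _).trans e2
    rw [show φ n x + b x * (ψ n x - φ n x) - u x =
      (1 - b x) * (φ n x - u x) + b x * (ψ n x - u x) by ring]
    refine (norm_add_le _ _).trans ?_
    rw [norm_mul, norm_mul, Real.norm_of_nonneg e3, Real.norm_of_nonneg (by linarith)]
    have e7 := mul_le_mul (show 1 - b x ≤ 1 by linarith) e1 (norm_nonneg _) zero_le_one
    have e8 := mul_le_mul e4 e2 (norm_nonneg _) zero_le_one
    nlinarith
  · have e1 := hφ1 n x hx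
    have e2 := hψ1 n x hx
    have e3 := b.nonneg (x := x)
    have e4 := b.le_one (x := x)
    have e5 := (norm_nonneg _).trans e1
    have e6 := (norm_nonneg _).trans e2
    have hg : gradient (fun x => φ n x + b x * (ψ n x - φ n x)) x - G x =
        (1 - b x) • (gradient (φ n) x - G x) + b x • (gradient (ψ n) x - G x) +
          (ψ n x - φ n x) • gradient b x := by
      refine ext_inner_right ℝ fun v => ?_
      have d1 := ((hφ n).differentiable one_ne_zero x).hasFDerivAt
      have d2 := ((hψ n).differentiable one_ne_zero x).hasFDerivAt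
      have d3 := (hb.differentiable one_ne_zero x).hasFDerivAt
      have d4 : HasFDerivAt (fun x => φ n x + b x * (ψ n x - φ n x)) _ x :=
        d1.add (d3.mul (d2.sub d1))
      simp only [inner_add_left, inner_sub_left, real_inner_smul_left, inner_gradient_left,
        d4.fderiv]
      simp
      ring
    have e7 : ‖(1 - b x) • (gradient (φ n) x - G x)‖ ≤ a n x := by
      rcases hS with hS | hS
      · rw [b.one_of_mem_closedBall (ball_subset_closedBall hS)]
        simpa using e5
      · rw [norm_smul, Real.norm_of_nonneg (by linarith)]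
        have := mul_le_mul (show 1 - b x ≤ 1 by linarith) (hφ2 n x hx hS) (norm_nonneg _)
          zero_le_one
        linarith
    have e8 : ‖b x • (gradient (ψ n) x - G x)‖ ≤ a' n x := by
      by_cases hS' : x ∈ ball x₀ δ
      · rw [norm_smul, Real.norm_of_nonneg e3]
        have := mul_le_mul e4 (hψ2 n x hx hS') (norm_nonneg _) zero_le_one
        linarith
      · rw [b.zero_of_le_dist (not_lt.1 hS')]
        simpa using e6
    have e9 : ‖(ψ n x - φ n x) • gradient b x‖ ≤ (a n x + a' n x) * M := by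
      rw [norm_smul, gradient, LinearIsometryEquiv.norm_map]
      refine mul_le_mul ?_ (hM x) (norm_nonneg _) (by linarith)
      rw [show ψ n x - φ n x = (ψ n x - u x) - (φ n x - u x) by ring]
      refine (norm_sub_le _ _).trans ?_
      linarith
    rw [hg]
    refine (norm_add₃_le).trans ?_
    linarith

lemma den_ball {Ω : Set (E N)} (hΩ : IsLipschitzDomain Ω) {x₀ : E N} (hx₀ : x₀ ∈ closure Ω) :
    ∃ (δ c t₀ : ℝ) (e : E N), 0 < δ ∧ 0 < c ∧ 0 < t₀ ∧ ∀ t ∈ Ioo 0 t₀, ∀ x ∈ Ω, x ∈ ball x₀ δ →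
      closedBall (x - t • e) (c * t) ⊆ Ω := by
  by_cases hx : x₀ ∈ Ω
  · obtain ⟨r, hr, h⟩ := Metric.isOpen_iff.1 hΩ.1 x₀ hx
    refine ⟨r / 2, 1, r / 2, 0, half_pos hr, one_pos, half_pos hr, fun t ht x _ hxb z hz => h ?_⟩
    rw [smul_zero, sub_zero, one_mul, mem_closedBall] at hz
    rw [mem_ball] at hxb ⊢
    linarith [dist_triangle z x x₀, ht.2]
  obtain ⟨r, e, γ, L, hr, he, hγ, hinv, h⟩ := hΩ.2.2 x₀ (by rw [hΩ.1.frontier_eq]; exact ⟨hx₀, hx⟩)
  have hL0 : (0 : ℝ) ≤ L := L.2
  refine ⟨r / 2, 1 / (1 + L), r / 4, e, half_pos hr, by positivity, by positivity,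
    fun t ht x hxΩ hxb z hz => ?_⟩
  have ht0 := ht.1
  rw [mem_closedBall, one_div, le_inv_mul_iff₀ (by positivity)] at hz
  have h0 := dist_nonneg (x := z) (y := x - t • e)
  have h1 : dist (x - t • e) x = t := by
    rw [dist_eq_norm, sub_sub_cancel_left, norm_neg, norm_smul, he, mul_one,
      Real.norm_of_nonneg ht0.le]
  have h2 := (h x (ball_subset_ball (half_le_self hr.le) hxb)).1 hxΩ
  refine (h z ?_).2 ?_
  · rw [mem_ball] at hxb ⊢
    nlinarith [dist_triangle4 z (x - t • e) x x₀, ht.2]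
  · have h3 := hγ.dist_le_mul z (x - t • e)
    rw [show γ (x - t • e) = γ x by rw [← hinv x (-t), neg_smul, sub_eq_add_neg],
      Real.dist_eq] at h3
    have h4 := abs_real_inner_le_norm (z - (x - t • e)) e
    rw [inner_sub_left, inner_sub_left, real_inner_smul_left, real_inner_self_eq_norm_sq, he,
      ← dist_eq_norm] at h4
    have h5 := neg_abs_le (γ z - γ x)
    have h6 := le_abs_self (⟪z, e⟫ - (⟪x, e⟫ - t * 1 ^ 2))
    linarith

theorem density (_hN : 0 < N) (h1 : MollStmt N ℝ) (h2 : MollStmt N (E N)) : DensityStmt N := by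
  classical
  intro Ω u G hΩ hu
  have hm := hΩ.1.measurableSet
  have hloc : ∀ x ∈ closure Ω, ∃ δ : ℝ, 0 < δ ∧ DenGood Ω u G (ball x δ) := fun x hx => by
    obtain ⟨δ, c, t₀, e, hδ, hc, ht, h⟩ := den_ball hΩ hx
    exact ⟨δ, hδ, den_local h1 h2 hm hu hc ht h⟩
  choose! δ hδ hgood using hloc
  obtain ⟨s, hs, hcov⟩ := hΩ.2.1.isCompact_closure.elim_nhds_subcover
    (fun x => ball x (δ x / 2)) fun x hx => ball_mem_nhds x (half_pos (hδ x hx))
  have hall : ∀ s : Finset (E N), (∀ x ∈ s, x ∈ closure Ω) →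
      DenGood Ω u G (⋃ x ∈ s, ball x (δ x / 2)) := by
    intro s
    induction s using Finset.induction_on with
    | empty => exact fun _ => den_local h1 h2 hm hu (e := 0) one_pos one_pos (by simp)
    | insert x s _ ih =>
      intro h
      rw [Finset.set_biUnion_insert]
      have hx := h x (Finset.mem_insert_self x s)
      exact den_glue (hδ x hx) (ih fun y hy => h y (Finset.mem_insert_of_mem hy)) (hgood x hx)
  obtain ⟨φ, a, hφ, ha, hφ1, hφ2⟩ := hall s hs
  exact ⟨φ, hφ, ha.of_le hm hφ1, ha.of_le hm fun n x hx => hφ2 n x hx (hcov (subset_closure hx))⟩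

end Pool.Agent.Lib.MP_54d1f6_an
end

-- part Pool.Agent.Lib.MP_54d1f6_an.Iso
section

/-!
The sharp L1 Sobolev inequality for Lipschitz functions, from the Brunn-Minkowski inequality.
-/

namespace Pool.Agent.Lib.MP_54d1f6_an

open MeasureTheory Metric Set Filter Topology
open scoped RealInnerProductSpace ContDiff NNReal

variable {N : ℕ}

/-- supremum of `g` over the ball of radius `r` -/
noncomputable def iso_sup (g : E N → ℝ) (r : ℝ) (x : E N) : ℝ := sSup (g '' ball x r)

theorem iso_bound {g : E N → ℝ} {L : ℝ≥0} (hg : LipschitzWith L g) {r : ℝ} {x y : E N}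
    (hy : y ∈ ball x r) : g y ≤ g x + L * r := by
  have h1 := hg.le_add_mul y x
  have h2 : dist y x < r := hy
  have h3 : (L : ℝ) * dist y x ≤ L * r := mul_le_mul_of_nonneg_left h2.le L.2
  linarith

theorem iso_bdd {g : E N → ℝ} {L : ℝ≥0} (hg : LipschitzWith L g) (r : ℝ) (x : E N) :
    BddAbove (g '' ball x r) :=
  ⟨g x + L * r, by rintro _ ⟨y, hy, rfl⟩; exact iso_bound hg hy⟩

theorem iso_sup_le {g : E N → ℝ} {r : ℝ} (hr : 0 < r) {x : E N} {c : ℝ}
    (h : ∀ y ∈ ball x r, g y ≤ c) : iso_sup g r x ≤ c :=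
  csSup_le ⟨g x, x, mem_ball_self hr, rfl⟩ (by rintro _ ⟨y, hy, rfl⟩; exact h y hy)

theorem iso_le_sup {g : E N → ℝ} {L : ℝ≥0} (hg : LipschitzWith L g) {r : ℝ} {x y : E N}
    (hy : y ∈ ball x r) : g y ≤ iso_sup g r x :=
  le_csSup (iso_bdd hg r x) ⟨y, hy, rfl⟩

theorem iso_open {g : E N → ℝ} {L : ℝ≥0} (hg : LipschitzWith L g) {r : ℝ} (hr : 0 < r) (t : ℝ) :
    IsOpen {x | t < iso_sup g r x} := by
  have : {x | t < iso_sup g r x} = ⋃ y ∈ {y | t < g y}, ball y r := by
    ext x
    simp only [mem_ofPred_eq, mem_iUnion, exists_prop]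
    constructor
    · intro h
      by_contra hc
      push Not at hc
      refine absurd h (not_lt.2 (iso_sup_le hr fun y hy => ?_))
      by_contra hlt
      exact hc y (not_le.1 hlt) (mem_ball_comm.1 hy)
    · rintro ⟨y, h1, h2⟩
      exact h1.trans_le (iso_le_sup hg (mem_ball_comm.1 h2))
  rw [this]
  exact isOpen_biUnion fun _ _ => isOpen_ball

theorem iso_meas {g : E N → ℝ} {L : ℝ≥0} (hg : LipschitzWith L g) {r : ℝ} (hr : 0 < r) :
    Measurable (iso_sup g r) :=
  measurable_of_Ioi fun t => (iso_open hg hr t).measurableSet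

theorem iso_vol_ball {ρ : ℝ} (hρ : 0 < ρ) :
    volume (ball (0 : E N) ρ) = ENNReal.ofReal (ρ ^ N * (volume (ball (0 : E N) 1)).toReal) := by
  rw [Measure.addHaar_ball_of_pos _ _ hρ, finrank_euclideanSpace_fin,
    ENNReal.ofReal_mul (by positivity), ENNReal.ofReal_toReal measure_ball_lt_top.ne]

/-- growth of the volume of a parallel set -/
theorem iso_growth (hN : 0 < N) (hbm : BMStmt N) (A C : Set (E N)) (a r : ℝ)
    (hA : MeasurableSet A) (hC : MeasurableSet C) (hfin : volume A ≠ ⊤) (ha : 0 < a) (hr : 0 < r)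
    (hAC : ∀ x ∈ A, ball x r ⊆ C) (hv : volume (ball (0 : E N) a) ≤ volume A) :
    volume A + ENNReal.ofReal (N * (volume (ball (0 : E N) 1)).toReal * a ^ (N - 1) * r) ≤
      volume C := by
  set w := (volume (ball (0 : E N) 1)).toReal with hw
  have hwpos : 0 < w :=
    ENNReal.toReal_pos (measure_ball_pos volume _ one_pos).ne' measure_ball_lt_top.ne
  have hApos : 0 < volume A := (measure_ball_pos volume _ ha).trans_le hv
  have hne : A.Nonempty := nonempty_of_measure_ne_zero hApos.ne'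
  have hV : 0 < (volume A).toReal := ENNReal.toReal_pos hApos.ne' hfin
  set ρ := ((volume A).toReal / w) ^ ((N : ℝ)⁻¹) with hρ
  have hq : 0 < (volume A).toReal / w := div_pos hV hwpos
  have hρpos : 0 < ρ := Real.rpow_pos_of_pos hq _
  have hρN : ρ ^ N = (volume A).toReal / w := Real.rpow_inv_natCast_pow hq.le hN.ne'
  have hρV : ρ ^ N * w = (volume A).toReal := by rw [hρN]; field_simp
  have hball : volume (ball (0 : E N) ρ) = volume A := by
    rw [iso_vol_ball hρpos, ← hw, hρV, ENNReal.ofReal_toReal hfin]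
  have haρ : a ≤ ρ := by
    by_contra hlt
    push Not at hlt
    have h1 : ρ ^ N < a ^ N := pow_lt_pow_left₀ hlt hρpos.le hN.ne'
    rw [← hball, iso_vol_ball ha, iso_vol_ball hρpos, ← hw,
      ENNReal.ofReal_le_ofReal_iff (by positivity)] at hv
    nlinarith
  have h2 := hbm A C ρ r hA hC hne hρpos.le hr hAC hball.le
  refine le_trans ?_ h2
  rw [← hball, iso_vol_ball hρpos, iso_vol_ball (add_pos hρpos hr), ← hw,
    ← ENNReal.ofReal_add (by positivity) (by positivity)]
  apply ENNReal.ofReal_le_ofReal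
  have h3 := pow_add_mul_le_add_pow hρpos.le (by positivity : 0 ≤ 2 * ρ + r) N
  have h4 : a ^ (N - 1) ≤ ρ ^ (N - 1) := pow_le_pow_left₀ ha.le haρ _
  have h5 : (N : ℝ) * a ^ (N - 1) * r ≤ N * ρ ^ (N - 1) * r := by gcongr
  nlinarith

/-- the layer cake step -/
theorem iso_layer (hN : 0 < N) (hbm : BMStmt N) {g : E N → ℝ} {L : ℝ≥0} {h a r : ℝ}
    (hg : LipschitzWith L g) (h0 : ∀ y, 0 ≤ g y) (hb : Bornology.IsBounded {y | 0 < g y})
    (hh : 0 < h) (ha : 0 < a) (hr : 0 < r)
    (hv : volume (ball (0 : E N) a) ≤ volume {y | h ≤ g y}) :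
    (∫⁻ y, ENNReal.ofReal (g y)) +
      ENNReal.ofReal (h * (N * (volume (ball (0 : E N) 1)).toReal * a ^ (N - 1) * r)) ≤
      ∫⁻ y, ENNReal.ofReal (iso_sup g r y) := by
  set c := N * (volume (ball (0 : E N) 1)).toReal * a ^ (N - 1) * r with hc
  have hge : ∀ y, g y ≤ iso_sup g r y := fun y => iso_le_sup hg (mem_ball_self hr)
  rw [lintegral_eq_lintegral_meas_lt volume (Eventually.of_forall h0)
      hg.continuous.measurable.aemeasurable,
    lintegral_eq_lintegral_meas_lt volume (Eventually.of_forall fun y => (h0 y).trans (hge y))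
      (iso_meas hg hr).aemeasurable]
  have e1 : ENNReal.ofReal (h * c) =
      ∫⁻ t in Ioi (0 : ℝ), (Ioo 0 h).indicator (fun _ => ENNReal.ofReal c) t := by
    rw [lintegral_indicator measurableSet_Ioo, setLIntegral_const,
      Measure.restrict_apply measurableSet_Ioo,
      inter_eq_self_of_subset_left Ioo_subset_Ioi_self, Real.volume_Ioo, sub_zero,
      ENNReal.ofReal_mul hh.le, mul_comm]
  rw [e1, ← lintegral_add_right _ (measurable_const.indicator measurableSet_Ioo)]
  refine lintegral_mono fun t => ?_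
  by_cases ht : t ∈ Ioo 0 h
  · rw [indicator_of_mem ht]
    have hsub : {y | t < g y} ⊆ {y | 0 < g y} := fun y hy => ht.1.trans hy
    refine iso_growth hN hbm _ _ a r
      (isOpen_lt continuous_const hg.continuous).measurableSet (iso_open hg hr t).measurableSet
      (hb.subset hsub).measure_lt_top.ne ha hr (fun x hx y hy => ?_) (hv.trans (measure_mono ?_))
    · exact lt_of_lt_of_le hx (iso_le_sup hg (mem_ball_comm.1 hy))
    · exact fun y hy => ht.2.trans_le hy
  · rw [indicator_of_notMem ht, add_zero]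
    exact measure_mono fun y hy => lt_of_lt_of_le hy (hge y)

theorem iso (hN : 0 < N) (hbm : BMStmt N) : IsoStmt N := by
  intro g L h a hg h0 hb hh ha hv
  set c := N * (volume (ball (0 : E N) 1)).toReal * a ^ (N - 1) with hc
  obtain ⟨R, hR⟩ := hb.subset_ball (0 : E N)
  have hzero : ∀ x, x ∉ closedBall (0 : E N) (R + 1) → ∀ y ∈ ball x 1, g y = 0 := by
    intro x hx y hy
    by_contra hne
    have h1 : y ∈ ball (0 : E N) R := hR (lt_of_le_of_ne (h0 y) (Ne.symm hne))
    apply hx
    rw [mem_ball] at h1 hy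
    rw [mem_closedBall]
    have := dist_triangle x y 0
    rw [dist_comm x y] at this
    linarith
  set B : E N → ℝ := (closedBall (0 : E N) (R + 1)).indicator fun _ => (L : ℝ) with hB
  have hBint : Integrable B volume :=
    (integrable_indicator_iff measurableSet_closedBall).2
      (integrableOn_const measure_closedBall_lt_top.ne)
  have hDm : Measurable fun y => ‖fderiv ℝ g y‖ := (measurable_fderiv ℝ g).norm
  have hDint : Integrable (fun y => ‖fderiv ℝ g y‖) volume := by
    refine hBint.mono' hDm.aestronglyMeasurable (Eventually.of_forall fun x => ?_)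
    rw [norm_norm]
    by_cases hx : x ∈ closedBall (0 : E N) (R + 1)
    · rw [hB, indicator_of_mem hx]; exact norm_fderiv_le_of_lipschitz ℝ hg
    · rw [hB, indicator_of_notMem hx]
      have : g =ᶠ[𝓝 x] fun _ => 0 :=
        mem_of_superset (ball_mem_nhds x one_pos) fun y hy => hzero x hx y hy
      rw [this.fderiv_eq]; simp
  have hgint : Integrable g volume := by
    refine hg.continuous.integrable_of_hasCompactSupport
      (HasCompactSupport.intro (isCompact_closedBall (0 : E N) (R + 1)) fun x hx => ?_)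
    exact hzero x hx x (mem_ball_self one_pos)
  set r : ℕ → ℝ := fun n => 1 / ((n : ℝ) + 1) with hr
  have hrpos : ∀ n, 0 < r n := fun n => Nat.one_div_pos_of_nat
  have hr1 : ∀ n, r n ≤ 1 := fun n => by
    rw [hr]; exact div_le_one_of_le₀ (by linarith [Nat.cast_nonneg (α := ℝ) n]) (by positivity)
  set F : ℕ → E N → ℝ := fun n x => (iso_sup g (r n) x - g x) / r n with hF
  have hFm : ∀ n, Measurable (F n) := fun n =>
    ((iso_meas hg (hrpos n)).sub hg.continuous.measurable).div_const _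
  have hF0 : ∀ n x, 0 ≤ F n x := fun n x =>
    div_nonneg (sub_nonneg.2 (iso_le_sup hg (mem_ball_self (hrpos n)))) (hrpos n).le
  have hFB : ∀ n x, F n x ≤ B x := by
    intro n x
    rw [hF, div_le_iff₀ (hrpos n), sub_le_iff_le_add']
    by_cases hx : x ∈ closedBall (0 : E N) (R + 1)
    · rw [hB, indicator_of_mem hx]
      exact iso_sup_le (hrpos n) fun y hy => iso_bound hg hy
    · rw [hB, indicator_of_notMem hx, zero_mul, add_zero]
      refine iso_sup_le (hrpos n) fun y hy => ?_
      rw [hzero x hx y (ball_subset_ball (hr1 n) hy)]; exact h0 x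
  have hFint : ∀ n, Integrable (F n) volume := fun n =>
    hBint.mono' (hFm n).aestronglyMeasurable (Eventually.of_forall fun x => by
      rw [Real.norm_of_nonneg (hF0 n x)]; exact hFB n x)
  have hlow : ∀ n, h * c ≤ ∫ x, F n x := by
    intro n
    have h1 := iso_layer hN hbm hg h0 hb hh ha (hrpos n) hv
    have h2 : ∀ x, iso_sup g (r n) x = g x + r n * F n x := fun x => by
      rw [hF]; field_simp [(hrpos n).ne']; ring
    have h3 : ∫⁻ y, ENNReal.ofReal (iso_sup g (r n) y) =
        (∫⁻ y, ENNReal.ofReal (g y)) + ∫⁻ y, ENNReal.ofReal (r n * F n y) := by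
      rw [← lintegral_add_left hg.continuous.measurable.ennreal_ofReal]
      refine lintegral_congr fun y => ?_
      rw [h2, ENNReal.ofReal_add (h0 y) (mul_nonneg (hrpos n).le (hF0 n y))]
    rw [h3, ENNReal.add_le_add_iff_left hgint.lintegral_lt_top.ne,
      ← ofReal_integral_eq_lintegral_ofReal ((hFint n).const_mul _)
        (Eventually.of_forall fun y => mul_nonneg (hrpos n).le (hF0 n y)),
      ENNReal.ofReal_le_ofReal_iff
        (integral_nonneg fun y => mul_nonneg (hrpos n).le (hF0 n y)),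
      integral_const_mul, ← hc] at h1
    have h4 : r n * (h * c) ≤ r n * ∫ x, F n x := by linarith
    exact le_of_mul_le_mul_left h4 (hrpos n)
  set H : ℕ → E N → ℝ := fun n x => max (F n x - ‖fderiv ℝ g x‖) 0 with hH
  have hHm : ∀ n, Measurable (H n) := fun n => ((hFm n).sub hDm).max measurable_const
  have hHB : ∀ n x, ‖H n x‖ ≤ B x := fun n x => by
    rw [Real.norm_of_nonneg (le_max_right _ _)]
    exact max_le (by linarith [hFB n x, norm_nonneg (fderiv ℝ g x)]) ((hF0 n x).trans (hFB n x))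
  have hHint : ∀ n, Integrable (H n) volume := fun n =>
    hBint.mono' (hHm n).aestronglyMeasurable (Eventually.of_forall (hHB n))
  have hlim : Tendsto (fun n => ∫ x, H n x) atTop (𝓝 (∫ _ : E N, (0 : ℝ))) := by
    refine tendsto_integral_of_dominated_convergence B (fun n => (hHm n).aestronglyMeasurable)
      hBint (fun n => Eventually.of_forall (hHB n)) ?_
    filter_upwards [hg.ae_differentiableAt (μ := volume)] with x hx
    rw [Metric.tendsto_atTop]
    intro ε hε
    have h1 := hx.hasFDerivAt.isLittleO.def (half_pos hε)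
    obtain ⟨δ, hδ, h2⟩ := Metric.eventually_nhds_iff.1 h1
    obtain ⟨n₀, hn₀⟩ := (Metric.tendsto_atTop.1 (tendsto_one_div_add_atTop_nhds_zero_nat (𝕜 := ℝ))) δ hδ
    refine ⟨n₀, fun n hn => ?_⟩
    have h3 : r n < δ := by
      have := hn₀ n hn
      rw [Real.dist_eq, sub_zero] at this
      exact (le_abs_self _).trans_lt this
    have h4 : iso_sup g (r n) x ≤ g x + (‖fderiv ℝ g x‖ + ε / 2) * r n := by
      refine iso_sup_le (hrpos n) fun y hy => ?_
      have h5 := h2 ((mem_ball.1 hy).trans h3)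
      have h6 : ‖y - x‖ ≤ r n := by rw [← dist_eq_norm]; exact (mem_ball.1 hy).le
      have h7 := (fderiv ℝ g x).le_opNorm (y - x)
      have h8 := le_abs_self (g y - g x - fderiv ℝ g x (y - x))
      have h9 := le_abs_self (fderiv ℝ g x (y - x))
      rw [Real.norm_eq_abs] at h5 h7
      have h10 : (‖fderiv ℝ g x‖ + ε / 2) * ‖y - x‖ ≤ (‖fderiv ℝ g x‖ + ε / 2) * r n :=
        mul_le_mul_of_nonneg_left h6 (by positivity)
      nlinarith
    have h11 : F n x ≤ ‖fderiv ℝ g x‖ + ε / 2 := by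
      rw [hF, div_le_iff₀ (hrpos n)]; linarith
    rw [Real.dist_eq, sub_zero, abs_of_nonneg (le_max_right _ _)]
    exact max_lt (by linarith) hε
  rw [integral_zero] at hlim
  have hle : ∀ n, h * c - ∫ y, ‖fderiv ℝ g y‖ ≤ ∫ x, H n x := by
    intro n
    have h1 : ∫ x, (F n x - ‖fderiv ℝ g x‖) ≤ ∫ x, H n x :=
      integral_mono ((hFint n).sub hDint) (hHint n) fun x => le_max_left _ _
    rw [integral_sub (hFint n) hDint] at h1
    linarith [hlow n]
  have := ge_of_tendsto' hlim hle
  linarith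

end Pool.Agent.Lib.MP_54d1f6_an
end

-- part Pool.Agent.Lib.MP_54d1f6_an.Tal
section

/-!
Dirichlet Talenti estimate for a discrete subsolution.
-/

namespace Pool.Agent.Lib.MP_54d1f6_an

open MeasureTheory Metric Set Filter Topology
open scoped RealInnerProductSpace ContDiff NNReal

variable {N : ℕ}

/-- truncation between the levels `s` and `s + h` -/
noncomputable def tal_tr (s h x : ℝ) : ℝ := min (max (x - s) 0) h

theorem tal_tr_mono (s h : ℝ) {x y : ℝ} (hxy : x ≤ y) :
    0 ≤ tal_tr s h y - tal_tr s h x ∧ tal_tr s h y - tal_tr s h x ≤ y - x := by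
  unfold tal_tr
  simp only [min_def, max_def]
  split_ifs <;> constructor <;> linarith

theorem tal_tr_sq (s h x y : ℝ) :
    (tal_tr s h y - tal_tr s h x) ^ 2 ≤ (tal_tr s h y - tal_tr s h x) * (y - x) := by
  rcases le_total x y with hxy | hxy
  · obtain ⟨h1, h2⟩ := tal_tr_mono s h hxy
    nlinarith
  · obtain ⟨h1, h2⟩ := tal_tr_mono s h hxy
    nlinarith

theorem tal_tr_abs (s h x y : ℝ) : |tal_tr s h y - tal_tr s h x| ≤ |y - x| := by
  rcases le_total x y with hxy | hxy
  · obtain ⟨h1, h2⟩ := tal_tr_mono s h hxy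
    rw [abs_of_nonneg h1, abs_of_nonneg (by linarith)]
    exact h2
  · obtain ⟨h1, h2⟩ := tal_tr_mono s h hxy
    rw [abs_sub_comm, abs_sub_comm y, abs_of_nonneg h1, abs_of_nonneg (by linarith)]
    exact h2

theorem tal_tr_nonneg (s : ℝ) {h : ℝ} (hh : 0 < h) (x : ℝ) : 0 ≤ tal_tr s h x :=
  le_min (le_max_right _ _) hh.le

theorem tal_tr_le (s h x : ℝ) : tal_tr s h x ≤ h := min_le_right _ _

theorem tal_tr_zero {s h x : ℝ} (hh : 0 < h) (hx : x ≤ s) : tal_tr s h x = 0 := by
  unfold tal_tr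
  rw [max_eq_right (by linarith), min_eq_left hh.le]

theorem tal_tr_top {s h x : ℝ} (hx : s + h ≤ x) : tal_tr s h x = h :=
  min_eq_right ((by linarith : h ≤ x - s).trans (le_max_left _ _))

theorem tal_lip {S : E N → ℝ} {L : ℝ≥0} (hS : LipschitzWith L S) (s h : ℝ) :
    LipschitzWith L fun y => tal_tr s h (S y) :=
  LipschitzWith.of_dist_le_mul fun x y => by
    refine le_trans ?_ (hS.dist_le_mul x y)
    rw [Real.dist_eq, Real.dist_eq]
    exact tal_tr_abs s h _ _

theorem tal_bas_norm (i : Fin N) : ‖(bas i : E N)‖ = 1 := by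
  simp [bas]

/-- summation by parts in one direction -/
theorem tal_parts {g S : E N → ℝ} (hg : Continuous g) (hc : HasCompactSupport g)
    (hS : Continuous S) (v : E N) :
    Integrable (fun y => g y * (S (y + v) + S (y - v) - 2 * S y)) ∧
    Integrable (fun y => (g (y + v) - g y) * (S (y + v) - S y)) ∧
    ∫ y, g y * (S (y + v) + S (y - v) - 2 * S y) =
      -∫ y, (g (y + v) - g y) * (S (y + v) - S y) := by
  have i1 : Integrable (fun y => g y * (S (y + v) - S y)) :=
    Continuous.integrable_of_hasCompactSupport (by fun_prop) hc.mul_right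
  have i2 : Integrable (fun y => g y * (S (y - v) - S y)) :=
    Continuous.integrable_of_hasCompactSupport (by fun_prop) hc.mul_right
  have i3 := i2.comp_add_right v
  have e3 := integral_add_right_eq_self (μ := volume) (fun y => g y * (S (y - v) - S y)) v
  simp only [add_sub_cancel_right] at i3 e3
  have e1 : (fun y => g y * (S (y + v) + S (y - v) - 2 * S y)) =
      fun y => g y * (S (y + v) - S y) + g y * (S (y - v) - S y) := by
    funext y
    ring
  have e2 : (fun y => (g (y + v) - g y) * (S (y + v) - S y)) =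
      fun y => -(g y * (S (y + v) - S y) + g (y + v) * (S y - S (y + v))) := by
    funext y
    ring
  rw [e1, e2]
  refine ⟨i1.add i2, (i1.add i3).neg, ?_⟩
  rw [integral_neg, neg_neg, integral_add i1 i2, integral_add i1 i3, e3]

theorem tal_sq_int {g : E N → ℝ} (hg : Continuous g) (hc : HasCompactSupport g) (v : E N) :
    Integrable (fun y => (g (y + v) - g y) ^ 2) := by
  have h1 : HasCompactSupport fun y => g (y + v) :=
    hc.comp_homeomorph (Homeomorph.addRight v)
  have h2 : HasCompactSupport fun y => g (y + v) - g y := h1.sub hc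
  refine Continuous.integrable_of_hasCompactSupport (by fun_prop) ?_
  simp only [sq]
  exact h2.mul_right

/-- limit of the discrete energies -/
theorem tal_lim {g : E N → ℝ} {L : ℝ≥0} (hg : LipschitzWith L g) {ρ : ℝ}
    (hρ : ∀ y, ρ < ‖y‖ → g y = 0) :
    Tendsto (fun t : ℝ => ∫ y, ∑ i, (t⁻¹ • (g (y + t • bas i) - g y)) ^ 2) (𝓝[>] 0)
      (𝓝 (∫ y, ‖fderiv ℝ g y‖ ^ 2)) := by
  have hc := hg.continuous
  apply tendsto_integral_filter_of_dominated_convergence
    ((closedBall (0 : E N) (ρ + 1)).indicator fun _ => (N : ℝ) * (L : ℝ) ^ 2)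
  · filter_upwards with t
    exact Continuous.aestronglyMeasurable (by fun_prop)
  · filter_upwards [Ioc_mem_nhdsGT zero_lt_one] with t ht
    filter_upwards with y
    have hn : ∀ i : Fin N, ‖t • (bas i : E N)‖ = t := fun i => by
      rw [norm_smul, tal_bas_norm, mul_one, Real.norm_eq_abs, abs_of_pos ht.1]
    rw [Real.norm_eq_abs, abs_of_nonneg (Finset.sum_nonneg fun i _ => sq_nonneg _)]
    by_cases hy : y ∈ closedBall (0 : E N) (ρ + 1)
    · rw [indicator_of_mem hy]
      have h1 : ∀ i : Fin N, (t⁻¹ • (g (y + t • bas i) - g y)) ^ 2 ≤ (L : ℝ) ^ 2 := fun i => by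
        have h2 := hg.norm_sub_le (y + t • bas i) y
        rw [add_sub_cancel_left, hn, Real.norm_eq_abs] at h2
        rw [← sq_abs]
        refine pow_le_pow_left₀ (abs_nonneg _) ?_ 2
        rw [smul_eq_mul, abs_mul, abs_of_pos (inv_pos.2 ht.1), inv_mul_le_iff₀ ht.1]
        linarith
      refine (Finset.sum_le_sum fun i _ => h1 i).trans ?_
      simp
    · rw [indicator_of_notMem hy]
      rw [mem_closedBall_zero_iff, not_le] at hy
      refine (Finset.sum_eq_zero fun i _ => ?_).le
      have h3 : ‖y‖ ≤ ‖y + t • bas i‖ + ‖t • (bas i : E N)‖ := by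
        simpa using norm_sub_le (y + t • bas i) (t • bas i)
      rw [hn] at h3
      rw [hρ y (by linarith), hρ _ (by linarith [ht.2])]
      simp
  · rw [integrable_indicator_iff measurableSet_closedBall]
    exact integrableOn_const measure_closedBall_lt_top.ne
  · filter_upwards [hg.ae_differentiableAt (μ := volume)] with y hy
    rw [(EuclideanSpace.basisFun (Fin N) ℝ).norm_dual]
    refine tendsto_finsetSum _ fun i _ => ?_
    rw [EuclideanSpace.basisFun_apply]
    exact (hy.hasFDerivAt.hasLineDerivAt (bas i)).tendsto_slope_zero_right.pow 2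

theorem tal_pow {r r' : ℝ} (h0 : 0 ≤ r') (h1 : r' ≤ r) (n : ℕ) :
    r ^ n - r' ^ n ≤ n * r ^ (n - 1) * (r - r') := by
  have h := abs_pow_sub_pow_le r r' n
  rw [abs_of_nonneg (sub_nonneg.2 h1), abs_of_nonneg h0, abs_of_nonneg (h0.trans h1),
    max_eq_left h1] at h
  linarith [le_abs_self (r ^ n - r' ^ n)]

theorem tal_ball (hN : 0 < N) {ρ : ℝ} (hρ : 0 ≤ ρ) :
    volume.real (ball (0 : E N) ρ) = (volume (ball (0 : E N) 1)).toReal * ρ ^ N := by
  have : Nontrivial (E N) := Module.nontrivial_of_finrank_pos (R := ℝ) (by simpa using hN)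
  rw [measureReal_def, Measure.addHaar_ball _ _ hρ, ENNReal.toReal_mul,
    ENNReal.toReal_ofReal (by positivity), finrank_euclideanSpace_fin, mul_comm]

theorem tal_omega : 0 < (volume (ball (0 : E N) 1)).toReal :=
  ENNReal.toReal_pos (measure_ball_pos _ _ one_pos).ne' measure_ball_lt_top.ne

/-- the energy bound -/
theorem tal_energy {S : E N → ℝ} {L : ℝ≥0} {s₁ κ : ℝ} (hS : LipschitzWith L S) (hκ : 0 < κ)
    (hb : Bornology.IsBounded {y | s₁ < S y})
    (hsub : ∀ ε : ℝ, 0 < ε → ∃ t₀ : ℝ, 0 < t₀ ∧ ∀ t ∈ Ioo 0 t₀, ∀ y, s₁ < S y →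
      -((κ + ε) * t ^ 2) ≤ ∑ i, (S (y + t • bas i) + S (y - t • bas i) - 2 * S y))
    {s h : ℝ} (hs : s₁ ≤ s) (hh : 0 < h) :
    ∫ y, ‖fderiv ℝ (fun y => tal_tr s h (S y)) y‖ ^ 2 ≤ κ * (h * volume.real {y | s < S y}) := by
  set g : E N → ℝ := fun y => tal_tr s h (S y) with hgdef
  have hg : LipschitzWith L g := tal_lip hS s h
  obtain ⟨ρ, hρ⟩ := hb.subset_closedBall 0
  have hz : ∀ y, ¬ s₁ < S y → g y = 0 := fun y hy => tal_tr_zero hh (by linarith [not_lt.1 hy])
  have hρ' : ∀ y, ρ < ‖y‖ → g y = 0 := fun y hy => hz y fun h1 => by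
    have := mem_closedBall_zero_iff.1 (hρ h1)
    linarith
  have hc : HasCompactSupport g :=
    HasCompactSupport.intro (isCompact_closedBall (0 : E N) ρ) fun y hy =>
      hρ' y (not_le.1 fun h1 => hy (mem_closedBall_zero_iff.2 h1))
  have hgi : Integrable g := hg.continuous.integrable_of_hasCompactSupport hc
  have hmeas : MeasurableSet {y | s < S y} :=
    (isOpen_lt continuous_const hS.continuous).measurableSet
  have hfin : volume {y | s < S y} ≠ ⊤ :=
    ((measure_mono fun y (hy : s < S y) => (hs.trans_lt hy : s₁ < S y)).trans_lt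
      hb.measure_lt_top).ne
  have hI : ∫ y, g y ≤ h * volume.real {y | s < S y} := by
    have h1 : ∫ y, g y ≤ ∫ y, {y | s < S y}.indicator (fun _ => h) y := by
      refine integral_mono hgi ((integrable_indicator_iff hmeas).2 (integrableOn_const hfin))
        fun y => ?_
      by_cases hy : s < S y
      · rw [indicator_of_mem (show y ∈ {y | s < S y} from hy)]
        exact tal_tr_le _ _ _
      · rw [indicator_of_notMem (show y ∉ {y | s < S y} from hy)]
        exact (tal_tr_zero hh (not_lt.1 hy)).le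
    rw [integral_indicator_const _ hmeas, smul_eq_mul, mul_comm] at h1
    exact h1
  have hm0 : 0 ≤ h * volume.real {y | s < S y} := mul_nonneg hh.le measureReal_nonneg
  have key : ∀ ε : ℝ, 0 < ε → ∫ y, ‖fderiv ℝ g y‖ ^ 2 ≤
      (κ + ε) * (h * volume.real {y | s < S y}) := by
    intro ε hε
    obtain ⟨t₀, ht₀, hT⟩ := hsub ε hε
    refine le_of_tendsto (tal_lim hg hρ') ?_
    filter_upwards [Ioo_mem_nhdsGT ht₀] with t ht
    have ht2 : 0 < t ^ 2 := pow_pos ht.1 2
    have p := fun i : Fin N => tal_parts hg.continuous hc hS.continuous (t • bas i)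
    have a1 : -((κ + ε) * t ^ 2) * ∫ y, g y ≤
        ∑ i, ∫ y, g y * (S (y + t • bas i) + S (y - t • bas i) - 2 * S y) := by
      rw [← integral_finsetSum _ fun i _ => (p i).1, ← integral_const_mul]
      refine integral_mono (hgi.const_mul _) (integrable_finsetSum _ fun i _ => (p i).1)
        fun y => ?_
      simp only
      rw [← Finset.mul_sum, mul_comm]
      by_cases hy : s₁ < S y
      · exact mul_le_mul_of_nonneg_left (hT t ht y hy) (tal_tr_nonneg s hh _)
      · rw [hz y hy]
        simp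
    have a2 : ∀ i : Fin N, ∫ y, (g (y + t • bas i) - g y) ^ 2 ≤
        -∫ y, g y * (S (y + t • bas i) + S (y - t • bas i) - 2 * S y) := fun i => by
      rw [(p i).2.2, neg_neg]
      exact integral_mono (tal_sq_int hg.continuous hc _) (p i).2.1 fun y => tal_tr_sq s h _ _
    have a3 : ∫ y, ∑ i, (t⁻¹ • (g (y + t • bas i) - g y)) ^ 2 =
        (t ^ 2)⁻¹ * ∑ i, ∫ y, (g (y + t • bas i) - g y) ^ 2 := by
      rw [← integral_finsetSum _ fun i _ => tal_sq_int hg.continuous hc _, ← integral_const_mul]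
      refine integral_congr_ae (Eventually.of_forall fun y => ?_)
      simp only [smul_eq_mul, mul_pow, inv_pow, Finset.mul_sum]
    have a4 := Finset.sum_le_sum fun i (_ : i ∈ Finset.univ) => a2 i
    rw [Finset.sum_neg_distrib] at a4
    rw [a3, inv_mul_le_iff₀ ht2]
    have a5 : (κ + ε) * t ^ 2 * ∫ y, g y ≤ (κ + ε) * t ^ 2 * (h * volume.real {y | s < S y}) :=
      mul_le_mul_of_nonneg_left hI (by positivity)
    linarith
  refine le_of_forall_pos_le_add fun δ hδ => ?_
  have := key (δ / (h * volume.real {y | s < S y} + 1)) (by positivity)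
  have h2 : δ / (h * volume.real {y | s < S y} + 1) * (h * volume.real {y | s < S y}) ≤ δ := by
    rw [div_mul_eq_mul_div, div_le_iff₀ (by positivity)]
    nlinarith
  linarith

/-- one step between two levels -/
theorem tal_step (hN : 0 < N) (hiso : IsoStmt N) {S : E N → ℝ} {L : ℝ≥0} {s₁ κ : ℝ}
    (hS : LipschitzWith L S) (hκ : 0 < κ) (hb : Bornology.IsBounded {y | s₁ < S y})
    (hsub : ∀ ε : ℝ, 0 < ε → ∃ t₀ : ℝ, 0 < t₀ ∧ ∀ t ∈ Ioo 0 t₀, ∀ y, s₁ < S y →
      -((κ + ε) * t ^ 2) ≤ ∑ i, (S (y + t • bas i) + S (y - t • bas i) - 2 * S y))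
    {s h r r' a : ℝ} (hs : s₁ ≤ s) (hh : 0 < h) (ha : 0 < a) (har : a ≤ r') (hrr : r' ≤ r)
    (hr : (volume (ball (0 : E N) 1)).toReal * r ^ N = volume.real {y | s < S y})
    (hr' : (volume (ball (0 : E N) 1)).toReal * r' ^ N = volume.real {y | s + h < S y}) :
    2 * N * h / κ ≤ r ^ 2 - r' ^ 2 + h * (N * (4 * N + 1) / (κ * a)) * (r - r') := by
  have hE := tal_energy hS hκ hb hsub hs hh
  set g : E N → ℝ := fun y => tal_tr s h (S y) with hgdef
  set w := (volume (ball (0 : E N) 1)).toReal with hw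
  have hw0 : 0 < w := tal_omega
  have hg : LipschitzWith L g := tal_lip hS s h
  have hr'0 : 0 < r' := ha.trans_le har
  have hr0 : 0 < r := hr'0.trans_le hrr
  have hNr : (1 : ℝ) ≤ N := by exact_mod_cast hN
  have hmeas : ∀ σ : ℝ, MeasurableSet {y | σ < S y} := fun σ =>
    (isOpen_lt continuous_const hS.continuous).measurableSet
  have hfin : ∀ σ : ℝ, s₁ ≤ σ → volume {y | σ < S y} ≠ ⊤ := fun σ hσ =>
    ((measure_mono fun y (hy : σ < S y) => (hσ.trans_lt hy : s₁ < S y)).trans_lt
      hb.measure_lt_top).ne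
  have b1 := hiso g L h r' hg (fun y => tal_tr_nonneg s hh _)
    (hb.subset fun y (hy : 0 < g y) => by
      by_contra h1
      have h2 : g y = 0 := tal_tr_zero hh (hs.trans' (not_lt.1 h1))
      linarith) hh hr'0 (by
      refine le_trans ?_ (measure_mono (s := {y | s + h < S y}) fun y (hy : s + h < S y) =>
        (tal_tr_top hy.le).ge)
      rw [← ENNReal.toReal_le_toReal measure_ball_lt_top.ne (hfin _ (by linarith)),
        ← measureReal_def, ← measureReal_def, tal_ball hN hr'0.le, hr'])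
  set A : Set (E N) := {y | s < S y} \ {y | s + h < S y} with hA
  have hAm : MeasurableSet A := (hmeas _).diff (hmeas _)
  have hAf : volume A ≠ ⊤ := ((measure_mono sdiff_subset).trans_lt (hfin s hs).lt_top).ne
  have hAv : volume.real A = w * r ^ N - w * r' ^ N := by
    have h1 : {y | s + h < S y} ⊆ {y | s < S y} :=
      fun y (hy : s + h < S y) => (by linarith : s < S y)
    rw [hA, measureReal_sdiff h1 (hmeas _) (hfin s hs), hr, hr']
  have hD : ∀ y, y ∉ A → fderiv ℝ g y = 0 := by
    intro y hy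
    by_cases h1 : s < S y
    · have h2 : s + h < S y := by
        by_contra h3
        exact hy ⟨h1, h3⟩
      refine IsLocalMax.fderiv_eq_zero (Eventually.of_forall fun z => ?_)
      exact (tal_tr_le _ _ _).trans (tal_tr_top h2.le).ge
    · refine IsLocalMin.fderiv_eq_zero (Eventually.of_forall fun z => ?_)
      exact (tal_tr_zero hh (not_lt.1 h1)).le.trans (tal_tr_nonneg s hh _)
  have hDL : ∀ y, ‖fderiv ℝ g y‖ ≤ L := fun y => norm_fderiv_le_of_lipschitz ℝ hg
  have hind : ∀ c : ℝ, Integrable (A.indicator fun _ => c) := fun c =>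
    (integrable_indicator_iff hAm).2 (integrableOn_const hAf)
  have hmD : Measurable fun y => ‖fderiv ℝ g y‖ := (measurable_fderiv ℝ g).norm
  have i1 : Integrable fun y => ‖fderiv ℝ g y‖ := by
    refine (hind L).mono' hmD.aestronglyMeasurable (Eventually.of_forall fun y => ?_)
    by_cases hy : y ∈ A
    · rw [indicator_of_mem hy, norm_norm]
      exact hDL y
    · rw [indicator_of_notMem hy, hD y hy]
      simp
  have i2 : Integrable fun y => ‖fderiv ℝ g y‖ ^ 2 := by
    refine (hind ((L : ℝ) ^ 2)).mono' (hmD.pow_const 2).aestronglyMeasurable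
      (Eventually.of_forall fun y => ?_)
    by_cases hy : y ∈ A
    · rw [indicator_of_mem hy, norm_pow, norm_norm]
      exact pow_le_pow_left₀ (norm_nonneg _) (hDL y) 2
    · rw [indicator_of_notMem hy, hD y hy]
      simp
  set lam := κ * r / N with hlam
  have hl0 : 0 < lam := by positivity
  have b2 : ∫ y, ‖fderiv ℝ g y‖ ≤
      ∫ y, (A.indicator (fun _ => lam / 2) y + (2 * lam)⁻¹ * ‖fderiv ℝ g y‖ ^ 2) := by
    refine integral_mono i1 ((hind _).add (i2.const_mul _)) fun y => ?_
    by_cases hy : y ∈ A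
    · simp only [indicator_of_mem hy]
      have h1 : lam / 2 + (2 * lam)⁻¹ * ‖fderiv ℝ g y‖ ^ 2 - ‖fderiv ℝ g y‖ =
          (2 * lam)⁻¹ * (‖fderiv ℝ g y‖ - lam) ^ 2 := by
        field_simp
        ring
      have h2 : 0 ≤ (2 * lam)⁻¹ * (‖fderiv ℝ g y‖ - lam) ^ 2 := by positivity
      linarith
    · simp only [indicator_of_notMem hy, hD y hy]
      simp
  rw [integral_add (hind _) (i2.const_mul _), integral_indicator_const _ hAm, integral_const_mul,
    hAv, smul_eq_mul] at b2
  rw [← hr] at hE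
  have b3 : (2 * lam)⁻¹ * ∫ y, ‖fderiv ℝ g y‖ ^ 2 ≤ (2 * lam)⁻¹ * (κ * (h * (w * r ^ N))) :=
    mul_le_mul_of_nonneg_left hE (by positivity)
  obtain ⟨m, rfl⟩ : ∃ m, N = m + 1 := ⟨N - 1, by omega⟩
  have p1 := tal_pow hr'0.le hrr (m + 1)
  rw [Nat.add_sub_cancel] at p1 b1
  set n : ℝ := ((m + 1 : ℕ) : ℝ) with hn
  set P := r ^ m with hP
  have hP0 : 0 < P := by positivity
  have q1 : r ^ (m + 1) = P * r := pow_succ r m
  have q2 : r' ^ (m + 1) ≤ r' ^ m * r := by
    rw [pow_succ]
    exact mul_le_mul_of_nonneg_left hrr (by positivity)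
  have b4 : (2 * lam)⁻¹ * (κ * (h * (w * r ^ (m + 1)))) = w * (h * n * P / 2) := by
    rw [q1, hlam]
    field_simp
  have b5 : (w * r ^ (m + 1) - w * r' ^ (m + 1)) * (lam / 2) ≤
      w * (κ * r * P * (r - r') / 2) := by
    have c1 : (w * r ^ (m + 1) - w * r' ^ (m + 1)) * (lam / 2) ≤
        w * (n * P * (r - r')) * (lam / 2) := by
      rw [← mul_sub]
      exact mul_le_mul_of_nonneg_right (mul_le_mul_of_nonneg_left p1 hw0.le) (by positivity)
    refine c1.trans (le_of_eq ?_)
    rw [hlam]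
    field_simp
  have b6 : h * n * r' ^ m ≤ κ * r * P * (r - r') / 2 + h * n * P / 2 := by
    refine le_of_mul_le_mul_left ?_ hw0
    rw [mul_add]
    linarith
  have hn0 : 0 < n := by linarith
  set d := r - r' with hd
  have hd0 : 0 ≤ d := sub_nonneg.2 hrr
  have b7 : h * n * (r - 2 * n * d) ≤ κ * r ^ 2 * d := by
    refine le_of_mul_le_mul_left ?_ hP0
    have c1 := mul_le_mul_of_nonneg_right b6 hr0.le
    have c2 : h * n * (P * r - n * P * d) ≤ h * n * (r' ^ m * r) :=
      mul_le_mul_of_nonneg_left (by linarith) (by positivity)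
    nlinarith
  have b8 : h * n * (2 * r ^ 2 - (4 * n + 1) * r * d) ≤ κ * r ^ 2 * (r ^ 2 - r' ^ 2) := by
    have c1 := mul_le_mul_of_nonneg_right b7 (show 0 ≤ r + r' by linarith)
    have c2 : r' = r - d := by rw [hd]; ring
    have c3 : 0 ≤ h * n * (2 * n * d ^ 2) := by positivity
    rw [c2] at c1 ⊢
    nlinarith
  have b9 : h * n * (4 * n + 1) * d / r ≤ h * n * (4 * n + 1) * d / a :=
    div_le_div_of_nonneg_left (by positivity) ha (har.trans hrr)
  have b10 : 2 * n * h - h * n * (4 * n + 1) * d / r ≤ κ * (r ^ 2 - r' ^ 2) := by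
    refine le_of_mul_le_mul_left ?_ (pow_pos hr0 2)
    have c1 : r ^ 2 * (2 * n * h - h * n * (4 * n + 1) * d / r) =
        h * n * (2 * r ^ 2 - (4 * n + 1) * r * d) := by
      field_simp
    rw [c1]
    linarith
  rw [div_le_iff₀ hκ]
  have c4 : (r ^ 2 - r' ^ 2 + h * (n * (4 * n + 1) / (κ * a)) * d) * κ =
      κ * (r ^ 2 - r' ^ 2) + h * n * (4 * n + 1) * d / a := by
    field_simp
  rw [c4]
  linarith

theorem tal (hN : 0 < N) (hiso : IsoStmt N) : TalStmt N := by
  intro S L s₁ κ R₁ hS hκ hR hb hsub hvol s a hs ha hva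
  set w := (volume (ball (0 : E N) 1)).toReal with hw
  have hw0 : 0 < w := tal_omega
  have hfin : ∀ σ : ℝ, s₁ ≤ σ → volume {y | σ < S y} ≠ ⊤ := fun σ hσ =>
    ((measure_mono fun y (hy : σ < S y) => (hσ.trans_lt hy : s₁ < S y)).trans_lt
      hb.measure_lt_top).ne
  have hex : ∀ σ : ℝ, ∃ r : ℝ, 0 ≤ r ∧ w * r ^ N = volume.real {y | σ < S y} := fun σ => by
    have h0 : 0 ≤ volume.real {y | σ < S y} / w := div_nonneg measureReal_nonneg hw0.le
    refine ⟨(volume.real {y | σ < S y} / w) ^ ((N : ℝ)⁻¹), Real.rpow_nonneg h0 _, ?_⟩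
    rw [Real.rpow_inv_natCast_pow h0 hN.ne']
    field_simp
  choose r hr0 hr using hex
  have hcmp : ∀ x y : ℝ, 0 ≤ y → w * x ^ N ≤ w * y ^ N → x ≤ y := fun x y hy h =>
    le_of_pow_le_pow_left₀ hN.ne' hy (le_of_mul_le_mul_left h hw0)
  have hmono : ∀ σ τ : ℝ, s₁ ≤ σ → σ ≤ τ → r τ ≤ r σ := fun σ τ h1 h2 => by
    refine hcmp _ _ (hr0 σ) ?_
    rw [hr, hr]
    exact measureReal_mono (fun y (hy : τ < S y) => (h2.trans_lt hy : σ < S y)) (hfin σ h1)
  have hra : a ≤ r s := by
    refine hcmp _ _ (hr0 s) ?_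
    rw [hr, ← tal_ball hN ha.le]
    exact ENNReal.toReal_mono (hfin s hs) hva
  have hrR : r s₁ ≤ R₁ := by
    refine hcmp _ _ hR ?_
    rw [hr, ← tal_ball hN hR]
    exact ENNReal.toReal_mono measure_ball_lt_top.ne hvol
  have e1 : a ^ 2 ≤ r s ^ 2 := pow_le_pow_left₀ ha.le hra 2
  have e2 : r s₁ ^ 2 ≤ R₁ ^ 2 := pow_le_pow_left₀ (hr0 _) hrR 2
  rcases hs.eq_or_lt with rfl | hlt
  · simp only [sub_self, mul_zero, zero_div, add_zero]
    linarith
  set C : ℝ := N * (4 * N + 1) / (κ * a) with hC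
  have hC0 : 0 ≤ C := by positivity
  have main : ∀ n : ℕ, 0 < n → a ^ 2 + 2 * N * (s - s₁) / κ ≤ R₁ ^ 2 + (s - s₁) / n * C * R₁ := by
    intro n hn
    have hn' : (0 : ℝ) < n := by exact_mod_cast hn
    set h := (s - s₁) / n with hh
    have hh0 : 0 < h := div_pos (by linarith) hn'
    have ind : ∀ j : ℕ, j ≤ n → j * (2 * N * h / κ) ≤
        r s₁ ^ 2 - r (s₁ + j * h) ^ 2 + h * C * (r s₁ - r (s₁ + j * h)) := by
      intro j
      induction j with
      | zero => simp
      | succ j ih =>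
        intro hj
        have f1 := ih (by omega)
        have f0 : 0 ≤ (j : ℝ) * h := by positivity
        have f2 : s₁ + ((j + 1 : ℕ) : ℝ) * h = s₁ + j * h + h := by
          push_cast
          ring
        have f3 : s₁ + j * h + h ≤ s := by
          have f4 : ((j + 1 : ℕ) : ℝ) ≤ n := by exact_mod_cast hj
          have f5 : (n : ℝ) * h = s - s₁ := by
            rw [hh]
            field_simp
          have f6 := mul_le_mul_of_nonneg_right f4 hh0.le
          linarith
        have f7 := tal_step hN hiso hS hκ hb hsub (s := s₁ + j * h) (by linarith) hh0 ha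
          (hra.trans (hmono _ _ (by linarith) f3)) (hmono _ _ (by linarith) (by linarith))
          (hr _) (hr _)
        rw [f2]
        push_cast
        linarith
    have g1 := ind n le_rfl
    have g2 : (n : ℝ) * h = s - s₁ := by
      rw [hh]
      field_simp
    have g3 : (n : ℝ) * (2 * N * h / κ) = 2 * N * (s - s₁) / κ := by
      rw [← g2]
      ring
    rw [g2, g3, add_sub_cancel] at g1
    have g4 : h * C * (r s₁ - r s) ≤ h * C * R₁ :=
      mul_le_mul_of_nonneg_left (by linarith [hr0 s]) (by positivity)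
    linarith
  have lim : Tendsto (fun n : ℕ => R₁ ^ 2 + (s - s₁) / n * C * R₁) atTop
      (𝓝 (R₁ ^ 2 + 0 * C * R₁)) :=
    (((tendsto_const_div_atTop_nhds_zero_nat (s - s₁)).mul_const C).mul_const R₁).const_add _
  have fin := ge_of_tendsto lim ((eventually_gt_atTop 0).mono main)
  simpa using fin

end Pool.Agent.Lib.MP_54d1f6_an
end
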