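import Pool.Agent.Lib.MP_54d1f6_an.Main

-- part Pool.Agent.Lib.MP_54d1f6_an.Dir
section

/-!
The divergence inequality in one direction.
-/

namespace Pool.Agent.Lib.MP_54d1f6_an

open MeasureTheory Metric Set Filter Topology
open scoped RealInnerProductSpace ContDiff NNReal ENNReal

variable {N : ℕ}

/-- orthogonal projection along `e` -/
noncomputable def dir_pi (e x : E N) : E N := x - ⟪x, e⟫ • e

theorem dir_pi_lip {e : E N} (he : ‖e‖ = 1) : LipschitzWith 1 (dir_pi e) := by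
  refine LipschitzWith.of_dist_le_mul fun x y => ?_
  rw [NNReal.coe_one, one_mul, dist_eq_norm, dist_eq_norm]
  have h1 : dir_pi e x - dir_pi e y = (x - y) - ⟪x - y, e⟫ • e := by
    unfold dir_pi
    rw [inner_sub_left, sub_smul]
    abel
  rw [h1]
  refine le_of_sq_le_sq ?_ (norm_nonneg _)
  rw [norm_sub_sq_real, real_inner_smul_right, norm_smul, he, mul_one, Real.norm_eq_abs, sq_abs]
  nlinarith [sq_nonneg ⟪x - y, e⟫]

theorem dir_pi_add {e : E N} (he : ‖e‖ = 1) (x : E N) (s : ℝ) :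
    dir_pi e (x + s • e) = dir_pi e x := by
  unfold dir_pi
  rw [inner_add_left, real_inner_smul_left, real_inner_self_eq_norm_sq, he, add_smul]
  simp

theorem dir_image_le {e : E N} (he : ‖e‖ = 1) (A : Set (E N)) :
    (μHE[N - 1] : Measure (E N)) (dir_pi e '' A) ≤ (μHE[N - 1] : Measure (E N)) A := by
  have h := (dir_pi_lip he).hausdorffMeasure_image_le (d := ((N - 1 : ℕ) : ℝ)) (by positivity) A
  rw [Measure.euclideanHausdorffMeasure_def, Measure.smul_apply, Measure.smul_apply]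
  rw [ENNReal.coe_one, ENNReal.one_rpow, one_mul] at h
  exact smul_le_smul_left _ h

/-- the volume of a cylinder over the projection of a set -/
theorem dir_cyl {e : E N} (he : ‖e‖ = 1) (A : Set (E N)) (c h : ℝ) :
    volume {y : E N | dir_pi e y ∈ dir_pi e '' A ∧ ⟪y, e⟫ ∈ Icc c (c + h)} ≤
      ENNReal.ofReal h * (μHE[N - 1] : Measure (E N)) A := by
  set μ : Measure (E N) := μHE[N - 1] with hμ
  set P := toMeasurable μ (dir_pi e '' A) with hP
  set C : Set (E N) := {y : E N | dir_pi e y ∈ P ∧ ⟪y, e⟫ ∈ Icc c (c + h)} with hC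
  have hin : Measurable fun y : E N => ⟪y, e⟫ := by fun_prop
  have hCm : MeasurableSet C :=
    ((dir_pi_lip he).continuous.measurable (measurableSet_toMeasurable _ _)).inter
      (hin measurableSet_Icc)
  have he0 : e ≠ 0 := by
    intro h0
    rw [h0, norm_zero] at he
    exact zero_ne_one he
  have h1 := EuclideanGeometry.euclideanHausdorffMeasure_eq_lintegral (0 : E N) he0 hCm
  rw [InnerProductSpace.euclideanHausdorffMeasure_eq_volume, finrank_euclideanSpace_fin,
    ← ofReal_norm, he, ENNReal.ofReal_one, one_mul, ← hμ] at h1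
  have h2 : ∀ x : ℝ, μ (C ∩ AffineSubspace.mk' (x • e +ᵥ (0 : E N)) (ℝ ∙ e)ᗮ) ≤
      (Icc c (c + h)).indicator (fun _ => μ P) x := by
    intro x
    have hx : ∀ y ∈ C ∩ AffineSubspace.mk' (x • e +ᵥ (0 : E N)) (ℝ ∙ e)ᗮ, ⟪y, e⟫ = x := by
      intro y hy
      have h3 := hy.2
      rw [SetLike.mem_coe, AffineSubspace.mem_mk', Submodule.mem_orthogonal_singleton_iff_inner_left,
        vadd_eq_add, add_zero, vsub_eq_sub, inner_sub_left, real_inner_smul_left,
        real_inner_self_eq_norm_sq, he] at h3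
      linarith
    by_cases hxI : x ∈ Icc c (c + h)
    · rw [indicator_of_mem hxI, ← measure_preimage_add μ (-(x • e)) P]
      refine measure_mono fun y hy => ?_
      have h4 := hy.1.1
      unfold dir_pi at h4
      rw [hx y hy] at h4
      rw [mem_preimage, neg_add_eq_sub]
      exact h4
    · rw [indicator_of_notMem hxI]
      have : C ∩ AffineSubspace.mk' (x • e +ᵥ (0 : E N)) (ℝ ∙ e)ᗮ = ∅ := by
        refine eq_empty_of_forall_notMem fun y hy => hxI ?_
        rw [← hx y hy]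
        exact hy.1.2
      rw [this, measure_empty]
  calc volume {y : E N | dir_pi e y ∈ dir_pi e '' A ∧ ⟪y, e⟫ ∈ Icc c (c + h)}
      ≤ volume C := measure_mono fun y hy => ⟨subset_toMeasurable _ _ hy.1, hy.2⟩
    _ ≤ ∫⁻ x : ℝ, (Icc c (c + h)).indicator (fun _ => μ P) x := by
        rw [h1]; exact lintegral_mono h2
    _ = μ P * ENNReal.ofReal h := by
        rw [lintegral_indicator measurableSet_Icc, setLIntegral_const, Real.volume_Icc,
          add_sub_cancel_left]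
    _ ≤ ENNReal.ofReal h * μ A := by
        rw [mul_comm, hP, measure_toMeasurable]
        exact mul_le_mul_right (dir_image_le he A) _

/-- the set swept out by `A` -/
def dir_sw (e : E N) (t : ℝ) (A : Set (E N)) : Set (E N) :=
  {y | ∃ x ∈ A, ∃ s ∈ Icc (0 : ℝ) t, y = x + s • e}

theorem dir_sw_le {e : E N} (he : ‖e‖ = 1) {A : Set (E N)} {u : E N} {δ : ℝ} (t : ℝ)
    (hA : A ⊆ ball u δ) :
    volume (dir_sw e t A) ≤ ENNReal.ofReal (2 * δ + t) * (μHE[N - 1] : Measure (E N)) A := by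
  refine le_trans (measure_mono ?_) (dir_cyl he A (⟪u, e⟫ - δ) (2 * δ + t))
  rintro y ⟨x, hx, s, hs, rfl⟩
  refine ⟨⟨x, hx, (dir_pi_add he x s).symm⟩, ?_⟩
  have h1 : |⟪x - u, e⟫| ≤ ‖x - u‖ * ‖e‖ := abs_real_inner_le_norm _ _
  have h2 : ‖x - u‖ < δ := by simpa [dist_eq_norm] using hA hx
  rw [he, mul_one, inner_sub_left, abs_le] at h1
  rw [inner_add_left, real_inner_smul_left, real_inner_self_eq_norm_sq, he]
  constructor
  · linarith [hs.1, h1.1]
  · linarith [hs.2, h1.2]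

theorem dir_unif {K : Set (E N)} (hK : IsCompact K) {g : E N → ℝ} (hg : Continuous g) {η : ℝ}
    (hη : 0 < η) : ∃ ρ : ℝ, 0 < ρ ∧ ∀ x ∈ K, ∀ y, dist x y < ρ → |g x - g y| < η := by
  have h := hK.uniformContinuousAt_of_continuousAt g (fun _ _ => hg.continuousAt)
    (dist_mem_uniformity hη)
  obtain ⟨ρ, hρ, h2⟩ := mem_uniformity_dist.1 h
  exact ⟨ρ, hρ, fun x hx y hxy => by simpa [Real.dist_eq] using h2 hxy hx⟩

/-- the integral over the swept set -/
theorem dir_strip {e : E N} (he : ‖e‖ = 1) {K : Set (E N)} (hK : IsCompact K) {φ : E N → ℝ}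
    (hφ : Continuous φ) {η : ℝ} (hη : 0 < η) : ∃ t₀ : ℝ, 0 < t₀ ∧ ∀ t ∈ Ioo 0 t₀,
      ∫⁻ y in dir_sw e t K, ENNReal.ofReal (φ y) ≤
        ENNReal.ofReal ((1 + η) * t) *
          ∫⁻ x in K, ENNReal.ofReal (φ x + η) ∂(μHE[N - 1] : Measure (E N)) := by
  set μ : Measure (E N) := μHE[N - 1] with hμ
  obtain ⟨ρ, hρ, hu⟩ := dir_unif hK hφ hη
  refine ⟨ρ / (1 + η), by positivity, fun t ht => ?_⟩
  have ht0 : 0 < t := ht.1
  have ht1 : (1 + η) * t < ρ := by
    have := ht.2
    rw [lt_div_iff₀ (by positivity)] at this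
    linarith
  set δ : ℝ := η * t / 2 with hδ
  have hδ0 : 0 < δ := by positivity
  have hδ1 : 2 * δ + t = (1 + η) * t := by rw [hδ]; ring
  set u := TopologicalSpace.denseSeq (E N) with hu'
  set B : ℕ → Set (E N) := fun n => ball (u n) δ with hB
  set A : ℕ → Set (E N) := fun n => K ∩ disjointed B n with hA
  have hAB : ∀ n, A n ⊆ ball (u n) δ := fun n x hx => disjointed_subset B n hx.2
  have hAm : ∀ n, MeasurableSet (A n) := fun n =>
    hK.measurableSet.inter (MeasurableSet.disjointed (fun _ => measurableSet_ball) n)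
  have hAd : Pairwise (Function.onFun Disjoint A) := fun i j hij =>
    (disjoint_disjointed B hij).mono inter_subset_right inter_subset_right
  have hAU : ⋃ n, A n = K := by
    rw [hA, ← inter_iUnion, iUnion_disjointed]
    refine inter_eq_left.2 fun x _ => ?_
    obtain ⟨n, hn⟩ := (TopologicalSpace.denseRange_denseSeq (E N)).exists_dist_lt x hδ0
    exact mem_iUnion.2 ⟨n, hn⟩
  have hsub : dir_sw e t K ⊆ ⋃ n, dir_sw e t (A n) := by
    rintro y ⟨x, hx, s, hs, rfl⟩
    rw [← hAU] at hx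
    obtain ⟨n, hn⟩ := mem_iUnion.1 hx
    exact mem_iUnion.2 ⟨n, x, hn, s, hs, rfl⟩
  have hn : ∀ n, ∫⁻ y in dir_sw e t (A n), ENNReal.ofReal (φ y) ≤
      ENNReal.ofReal ((1 + η) * t) * ∫⁻ x in A n, ENNReal.ofReal (φ x + η) ∂μ := by
    intro n
    set M : ℝ≥0∞ := ⨆ y ∈ dir_sw e t (A n), ENNReal.ofReal (φ y) with hM
    have hM1 : ∀ x ∈ A n, M ≤ ENNReal.ofReal (φ x + η) := by
      intro x hx
      refine iSup₂_le ?_
      rintro y ⟨x', hx', s, hs, rfl⟩
      refine ENNReal.ofReal_le_ofReal ?_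
      have h1 : dist x (x' + s • e) < ρ := by
        have h2 : dist x' (x' + s • e) ≤ t := by
          rw [dist_self_add_right, norm_smul, he, mul_one, Real.norm_eq_abs, abs_of_nonneg hs.1]
          exact hs.2
        have h3 := dist_triangle_right x x' (u n)
        have h4 := dist_triangle x x' (x' + s • e)
        have h5 : dist x (u n) < δ := hAB n hx
        have h6 : dist x' (u n) < δ := hAB n hx'
        linarith
      have := abs_lt.1 (hu x hx.1 _ h1)
      linarith [this.1]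
    calc ∫⁻ y in dir_sw e t (A n), ENNReal.ofReal (φ y)
        ≤ ∫⁻ _ in dir_sw e t (A n), M :=
          setLIntegral_mono measurable_const fun y hy =>
            le_iSup₂ (f := fun y (_ : y ∈ dir_sw e t (A n)) => ENNReal.ofReal (φ y)) y hy
      _ = M * volume (dir_sw e t (A n)) := setLIntegral_const _ _
      _ ≤ M * (ENNReal.ofReal ((1 + η) * t) * μ (A n)) := by
          rw [← hδ1]
          exact mul_le_mul_right (dir_sw_le he t (hAB n)) _
      _ = ENNReal.ofReal ((1 + η) * t) * ∫⁻ _ in A n, M ∂μ := by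
          rw [setLIntegral_const]; ring
      _ ≤ _ := by
          refine mul_le_mul_right (setLIntegral_mono ?_ hM1) _
          exact (hφ.measurable.add_const η).ennreal_ofReal
  calc ∫⁻ y in dir_sw e t K, ENNReal.ofReal (φ y)
      ≤ ∫⁻ y in ⋃ n, dir_sw e t (A n), ENNReal.ofReal (φ y) := lintegral_mono_set hsub
    _ ≤ ∑' n, ∫⁻ y in dir_sw e t (A n), ENNReal.ofReal (φ y) := lintegral_iUnion_le _ _
    _ ≤ ∑' n, ENNReal.ofReal ((1 + η) * t) * ∫⁻ x in A n, ENNReal.ofReal (φ x + η) ∂μ :=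
        ENNReal.tsum_le_tsum hn
    _ = _ := by rw [ENNReal.tsum_mul_left, ← lintegral_iUnion hAm hAd, hAU]

theorem dir_shift {Ω : Set (E N)} (hΩ : IsOpen Ω) (e : E N) {t : ℝ} (ht : 0 ≤ t) :
    (fun x => x + t • e) '' Ω ⊆ Ω ∪ dir_sw e t (frontier Ω) := by
  rintro _ ⟨x, hx, rfl⟩
  by_contra hcon
  rw [mem_union, not_or] at hcon
  have hc : IsPreconnected ((fun s : ℝ => x + s • e) '' Icc 0 t) :=
    isPreconnected_Icc.image _ (by fun_prop)
  have h1 : (fun s : ℝ => x + s • e) '' Icc 0 t ⊆ Ω ∪ (closure Ω)ᶜ := by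
    rintro _ ⟨s, hs, rfl⟩
    by_contra h2
    rw [mem_union, not_or, mem_compl_iff, not_not] at h2
    refine hcon.2 ⟨x + s • e, ?_, t - s, ⟨by linarith [hs.2], by linarith [hs.1]⟩, ?_⟩
    · rw [hΩ.frontier_eq]
      exact ⟨h2.2, h2.1⟩
    · show x + t • e = x + s • e + (t - s) • e
      rw [sub_smul]; abel
  have h3 := hc.subset_left_of_subset_union hΩ isClosed_closure.isOpen_compl
    (disjoint_compl_right_iff_subset.2 subset_closure) h1
    ⟨x, ⟨0, ⟨le_rfl, ht⟩, by simp⟩, hx⟩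
  exact hcon.1 (h3 ⟨t, ⟨ht, le_rfl⟩, rfl⟩)

theorem dir_int {Ω : Set (E N)} (hb : Bornology.IsBounded Ω) {g : E N → ℝ} (hg : Continuous g) :
    IntegrableOn g Ω :=
  (hg.continuousOn.integrableOn_compact hb.isCompact_closure).mono_set subset_closure

theorem dir_int_surf {Ω : Set (E N)} (hΩ : Nice Ω) {g : E N → ℝ} (hg : Continuous g) :
    Integrable g (surf Ω) := by
  have hK : IsCompact (frontier Ω) :=
    hΩ.2.1.isCompact_closure.of_isClosed_subset isClosed_frontier frontier_subset_closure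
  obtain ⟨M, hM⟩ := hK.exists_bound_of_continuousOn hg.continuousOn
  refine Measure.integrableOn_of_bounded (M := M) hΩ.2.2.ne hg.aestronglyMeasurable ?_
  exact (ae_restrict_iff' hK.measurableSet).2 (Eventually.of_forall hM)

/-- the difference quotient form of the inequality -/
theorem dir_diff {Ω : Set (E N)} (hΩ : Nice Ω) {φ : E N → ℝ} (hφ : Continuous φ)
    (h0 : ∀ x, 0 ≤ φ x) {e : E N} (he : ‖e‖ = 1) {η : ℝ} (hη : 0 < η) :
    ∃ t₀ : ℝ, 0 < t₀ ∧ ∀ t ∈ Ioo 0 t₀, (∫ x in Ω, φ (x + t • e)) ≤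
      (∫ x in Ω, φ x) + (1 + η) * t * ∫ x, (φ x + η) ∂(surf Ω) := by
  have hK : IsCompact (frontier Ω) :=
    hΩ.2.1.isCompact_closure.of_isClosed_subset isClosed_frontier frontier_subset_closure
  obtain ⟨t₀, ht₀, h⟩ := dir_strip he hK hφ hη
  refine ⟨t₀, ht₀, fun t ht => ?_⟩
  have ht0 : 0 < t := ht.1
  have hc : Continuous fun x => φ (x + t • e) := by fun_prop
  have hc' : Continuous fun x => φ x + η := by fun_prop
  have p1 : 0 ≤ ∫ x in Ω, φ x := integral_nonneg h0
  have h0' : ∀ x, 0 ≤ φ x + η := fun x => add_nonneg (h0 x) hη.le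
  have p2 : 0 ≤ ∫ x, (φ x + η) ∂(surf Ω) := integral_nonneg h0'
  have p3 : 0 ≤ (1 + η) * t := by positivity
  rw [← ENNReal.ofReal_le_ofReal_iff (add_nonneg p1 (mul_nonneg p3 p2)),
    ENNReal.ofReal_add p1 (mul_nonneg p3 p2), ENNReal.ofReal_mul p3,
    ofReal_integral_eq_lintegral_ofReal (dir_int hΩ.2.1 hc) (Eventually.of_forall fun x => h0 _),
    ofReal_integral_eq_lintegral_ofReal (dir_int hΩ.2.1 hφ) (Eventually.of_forall h0),
    ofReal_integral_eq_lintegral_ofReal (dir_int_surf hΩ hc') (Eventually.of_forall h0'),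
    (measurePreserving_add_right volume (t • e)).setLIntegral_comp_emb
      (measurableEmbedding_addRight (t • e)) (fun y => ENNReal.ofReal (φ y)) Ω]
  exact (lintegral_mono_set (dir_shift hΩ.1 e ht0.le)).trans
    ((lintegral_union_le _ _ _).trans (add_le_add le_rfl (h t ht)))

theorem dir (hN : 0 < N) : DirStmt N := by
  intro Ω φ e hΩ hφ h0 he
  have _ := hN
  have hc : Continuous φ := hφ.continuous
  have hd : Differentiable ℝ φ := hφ.differentiable one_ne_zero
  have hg : Continuous fun x => fderiv ℝ φ x e :=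
    (hφ.continuous_fderiv one_ne_zero).clm_apply continuous_const
  have key : ∀ η : ℝ, 0 < η → ∫ x in Ω, fderiv ℝ φ x e ≤
      (1 + η) * ((∫ x, φ x ∂(surf Ω)) + ∫ _, η ∂(surf Ω)) + ∫ _ in Ω, η := by
    intro η hη
    obtain ⟨t₀, ht₀, h1⟩ := dir_diff hΩ hc h0 he hη
    obtain ⟨ρ, hρ, h2⟩ := dir_unif hΩ.2.1.isCompact_closure hg hη
    set t : ℝ := min t₀ ρ / 2 with ht
    have hm : 0 < min t₀ ρ := lt_min ht₀ hρ
    have ht0 : 0 < t := by positivity
    have ht1 : t < t₀ := by linarith [min_le_left t₀ ρ]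
    have ht2 : t < ρ := by linarith [min_le_right t₀ ρ]
    have h3 := h1 t ⟨ht0, ht1⟩
    have h4 : ∀ x ∈ Ω, φ x + t * (fderiv ℝ φ x e - η) ≤ φ (x + t • e) := by
      intro x hx
      have hder : ∀ s : ℝ, HasDerivAt (fun s : ℝ => φ (x + s • e))
          (fderiv ℝ φ (x + s • e) e) s := by
        intro s
        have h5 : HasDerivAt (fun s : ℝ => x + s • e) e s := by
          simpa using ((hasDerivAt_id s).smul_const e).const_add x
        exact (hd _).hasFDerivAt.comp_hasDerivAt s h5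
      obtain ⟨s, hs, h6⟩ := exists_hasDerivAt_eq_slope (fun s : ℝ => φ (x + s • e))
        (fun s => fderiv ℝ φ (x + s • e) e) ht0 (by fun_prop) (fun s _ => hder s)
      have h7 : dist x (x + s • e) < ρ := by
        rw [dist_self_add_right, norm_smul, he, mul_one, Real.norm_eq_abs, abs_of_pos hs.1]
        linarith [hs.2]
      have h8 := abs_lt.1 (h2 x (subset_closure hx) _ h7)
      rw [zero_smul, add_zero, sub_zero, eq_div_iff ht0.ne'] at h6
      nlinarith [h8.2]
    have i1 : IntegrableOn φ Ω := dir_int hΩ.2.1 hc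
    have i2 : IntegrableOn (fun x => fderiv ℝ φ x e) Ω := dir_int hΩ.2.1 hg
    have i3 : IntegrableOn (fun _ : E N => η) Ω := dir_int hΩ.2.1 continuous_const
    have h9 : ∫ x in Ω, (φ x + t * (fderiv ℝ φ x e - η)) ≤ ∫ x in Ω, φ (x + t • e) :=
      setIntegral_mono_on (dir_int hΩ.2.1 (by fun_prop)) (dir_int hΩ.2.1 (by fun_prop))
        hΩ.1.measurableSet h4
    have i4 : IntegrableOn (fun x => t * (fderiv ℝ φ x e - η)) Ω := dir_int hΩ.2.1 (by fun_prop)
    rw [integral_add i1 i4, integral_const_mul, integral_sub i2 i3] at h9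
    rw [integral_add (dir_int_surf hΩ hc) (dir_int_surf hΩ continuous_const)] at h3
    have h10 : t * ((∫ x in Ω, fderiv ℝ φ x e) - ∫ _ in Ω, η) ≤
        t * ((1 + η) * ((∫ x, φ x ∂(surf Ω)) + ∫ _, η ∂(surf Ω))) := by linarith
    have := le_of_mul_le_mul_left h10 ht0
    linarith
  simp only [integral_const, smul_eq_mul] at key
  have hlim : Tendsto (fun η : ℝ => (1 + η) * ((∫ x, φ x ∂(surf Ω)) + (surf Ω).real univ * η) +
      (volume.restrict Ω).real univ * η) (𝓝[>] 0) (𝓝 (∫ x, φ x ∂(surf Ω))) := by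
    refine Tendsto.mono_left ?_ nhdsWithin_le_nhds
    refine Continuous.tendsto' (by fun_prop) 0 _ (by simp)
  exact ge_of_tendsto hlim (eventually_mem_nhdsWithin.mono fun η hη => key η hη)

end Pool.Agent.Lib.MP_54d1f6_an
end

-- part Pool.Agent.Lib.MP_54d1f6_an.Div
section

/-!
The divergence inequality for vector fields from the one-directional inequality.
-/

namespace Pool.Agent.Lib.MP_54d1f6_an

open MeasureTheory Metric Set Filter Topology
open scoped RealInnerProductSpace ContDiff NNReal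

variable {N : ℕ}

theorem div_fin {Ω : Set (E N)} (h : Nice Ω) : IsFiniteMeasure (surf Ω) :=
  ⟨by rw [surf, Measure.restrict_apply_univ]; exact h.2.2⟩

theorem div_int_vol {Ω : Set (E N)} (h : Nice Ω) {f : E N → ℝ} (hf : Continuous f) :
    IntegrableOn f Ω volume :=
  (hf.continuousOn.integrableOn_compact h.2.1.isCompact_closure).mono_set subset_closure

theorem div_int_surf {F : Type} [NormedAddCommGroup F] {Ω : Set (E N)} (h : Nice Ω) {f : E N → F}
    (hf : Continuous f) : Integrable f (surf Ω) := by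
  have := div_fin h
  have hc : IsCompact (frontier Ω) :=
    h.2.1.isCompact_closure.of_isClosed_subset isClosed_frontier frontier_subset_closure
  have h1 : IntegrableOn f (frontier Ω) (surf Ω) :=
    ContinuousOn.integrableOn_compact' hc isClosed_frontier.measurableSet hf.continuousOn
  have h2 : (surf Ω).restrict (frontier Ω) = surf Ω := by
    rw [surf, Measure.restrict_restrict isClosed_frontier.measurableSet, inter_self]
  rwa [IntegrableOn, h2] at h1

theorem div_cont_fderiv {F : Type} [NormedAddCommGroup F] [NormedSpace ℝ F] {ψ : E N → F}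
    (hψ : ContDiff ℝ 1 ψ) (e : E N) : Continuous fun x => fderiv ℝ ψ x e :=
  (hψ.continuous_fderiv (by simp)).clm_apply continuous_const

theorem div_signed (hdir : DirStmt N) {Ω : Set (E N)} (h : Nice Ω) {ψ : E N → ℝ}
    (hψ : ContDiff ℝ 1 ψ) {e : E N} (he : ‖e‖ = 1) :
    ∫ x in Ω, fderiv ℝ ψ x e ≤ ∫ x, |ψ x| ∂(surf Ω) := by
  have := div_fin h
  have key : ∀ δ : ℝ, 0 < δ → ∫ x in Ω, fderiv ℝ ψ x e ≤
      ∫ x, |ψ x| ∂(surf Ω) + δ * (surf Ω).real univ := by
    intro δ hδ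
    set s : E N → ℝ := fun x => √(ψ x ^ 2 + δ ^ 2) with hs
    have hsC : ContDiff ℝ 1 s :=
      ((hψ.pow 2).add contDiff_const).sqrt fun x => by positivity
    have hs1 : ∀ x, |ψ x| ≤ s x := fun x => Real.abs_le_sqrt (by nlinarith [sq_nonneg δ])
    have hs2 : ∀ x, s x ≤ |ψ x| + δ := fun x => by
      refine Real.sqrt_le_iff.mpr ⟨by positivity, ?_⟩
      nlinarith [abs_nonneg (ψ x), sq_abs (ψ x)]
    have hA : ContDiff ℝ 1 fun x => s x + ψ x := hsC.add hψ
    have hB : ContDiff ℝ 1 fun x => s x - ψ x := hsC.sub hψ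
    have a1 := hdir Ω _ e h hA (fun x => by linarith [hs1 x, neg_abs_le (ψ x)]) he
    have a2 := hdir Ω _ (-e) h hB (fun x => by linarith [hs1 x, le_abs_self (ψ x)])
      (by rw [norm_neg, he])
    have d1 : Differentiable ℝ s := hsC.differentiable (by simp)
    have d2 : Differentiable ℝ ψ := hψ.differentiable (by simp)
    have e1 : ∀ x, fderiv ℝ (fun x => s x + ψ x) x e = fderiv ℝ s x e + fderiv ℝ ψ x e := fun x => by
      rw [fderiv_fun_add (d1 x) (d2 x)]; rfl
    have e2 : ∀ x, fderiv ℝ (fun x => s x - ψ x) x (-e) =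
        fderiv ℝ ψ x e - fderiv ℝ s x e := fun x => by
      rw [fderiv_fun_sub (d1 x) (d2 x), map_neg, sub_apply]; ring
    simp only [e1] at a1
    simp only [e2] at a2
    have i1 := div_int_vol h (div_cont_fderiv hsC e)
    have i2 := div_int_vol h (div_cont_fderiv hψ e)
    have j1 := div_int_surf h hsC.continuous
    have j2 := div_int_surf h hψ.continuous
    rw [integral_add i1 i2, integral_add j1 j2] at a1
    rw [integral_sub i2 i1, integral_sub j1 j2] at a2
    have j3 : ∫ x, s x ∂(surf Ω) ≤ ∫ x, (|ψ x| + δ) ∂(surf Ω) :=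
      integral_mono j1 (j2.abs.add (integrable_const δ)) hs2
    rw [integral_add j2.abs (integrable_const δ), integral_const, smul_eq_mul] at j3
    linarith
  refine le_of_forall_pos_le_add fun ε hε => ?_
  have hm : 0 ≤ (surf Ω).real univ := measureReal_nonneg
  have h1 := key (ε / ((surf Ω).real univ + 1)) (by positivity)
  have h2 : ε / ((surf Ω).real univ + 1) * (surf Ω).real univ ≤ ε := by
    rw [div_mul_eq_mul_div, div_le_iff₀ (by positivity)]
    nlinarith
  linarith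

theorem div_vec (hdir : DirStmt N) {Ω : Set (E N)} (h : Nice Ω) {ψ : E N → ℝ}
    (hψ : ContDiff ℝ 1 ψ) (p : E N) :
    ∫ x in Ω, fderiv ℝ ψ x p ≤ ‖p‖ * ∫ x, |ψ x| ∂(surf Ω) := by
  rcases eq_or_ne p 0 with rfl | hp
  · simp
  have hn : 0 < ‖p‖ := norm_pos_iff.mpr hp
  have h1 := div_signed hdir h hψ (e := ‖p‖⁻¹ • p) (by
    rw [norm_smul, norm_inv, norm_norm, inv_mul_cancel₀ hn.ne'])
  simp only [map_smul, smul_eq_mul] at h1
  rw [integral_const_mul] at h1
  have h2 := mul_le_mul_of_nonneg_left h1 hn.le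
  rwa [← mul_assoc, mul_inv_cancel₀ hn.ne', one_mul] at h2

theorem div_sum_bas (p : E N) : ∑ i, p i • bas i = p := by
  ext j
  simp [bas, Pi.single_apply]

theorem div_norm_bas (i : Fin N) : ‖(bas i : E N)‖ = 1 := by
  simp [bas]

theorem div_cont {W : E N → E N} (hW : ContDiff ℝ 1 W) : Continuous (divg W) := by
  unfold divg
  refine continuous_finsetSum _ fun i _ => ?_
  exact (EuclideanSpace.proj (𝕜 := ℝ) i).continuous.comp (div_cont_fderiv hW (bas i))

theorem div_smul {φ : E N → ℝ} {Y : E N → E N} {x : E N} (hφ : DifferentiableAt ℝ φ x)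
    (hY : DifferentiableAt ℝ Y x) :
    divg (fun y => φ y • Y y) x = fderiv ℝ φ x (Y x) + φ x * divg Y x := by
  unfold divg
  rw [fderiv_fun_smul hφ hY]
  conv_rhs => rw [← div_sum_bas (Y x), map_sum, Finset.mul_sum, ← Finset.sum_add_distrib]
  refine Finset.sum_congr rfl fun i _ => ?_
  simp
  ring

theorem div_add {X Y : E N → E N} {x : E N} (hX : DifferentiableAt ℝ X x)
    (hY : DifferentiableAt ℝ Y x) :
    divg (fun y => X y + Y y) x = divg X x + divg Y x := by
  unfold divg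
  rw [fderiv_fun_add hX hY, ← Finset.sum_add_distrib]
  rfl

theorem div_lam_add {Ω : Set (E N)} (h : Nice Ω) {X Y : E N → E N} (hX : ContDiff ℝ 1 X)
    (hY : ContDiff ℝ 1 Y) :
    ∫ x in Ω, divg (fun y => X y + Y y) x = (∫ x in Ω, divg X x) + ∫ x in Ω, divg Y x := by
  rw [← integral_add (div_int_vol h (div_cont hX)) (div_int_vol h (div_cont hY))]
  refine integral_congr_ae (Eventually.of_forall fun x => ?_)
  exact div_add (hX.differentiable (by simp) x) (hY.differentiable (by simp) x)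

theorem div_crude (hdir : DirStmt N) {Ω : Set (E N)} (h : Nice Ω) {Z : E N → E N}
    (hZ : ContDiff ℝ 1 Z) : ∫ x in Ω, divg Z x ≤ N * ∫ x, ‖Z x‖ ∂(surf Ω) := by
  have hc : ∀ i : Fin N, ContDiff ℝ 1 fun y => Z y i := fun i =>
    (EuclideanSpace.proj (𝕜 := ℝ) i).contDiff.comp hZ
  have e1 : ∀ x, divg Z x = ∑ i, fderiv ℝ (fun y => Z y i) x (bas i) := by
    intro x
    refine Finset.sum_congr rfl fun i _ => ?_
    have h1 : HasFDerivAt (fun y => Z y i)
        ((EuclideanSpace.proj (𝕜 := ℝ) i).comp (fderiv ℝ Z x)) x :=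
      (EuclideanSpace.proj (𝕜 := ℝ) i).hasFDerivAt.comp x
        (hZ.differentiable (by simp) x).hasFDerivAt
    rw [h1.fderiv]
    rfl
  simp only [e1]
  rw [integral_finsetSum _ fun i _ => div_int_vol h (div_cont_fderiv (hc i) (bas i))]
  have h2 : ∀ i ∈ (Finset.univ : Finset (Fin N)),
      ∫ x in Ω, fderiv ℝ (fun y => Z y i) x (bas i) ≤ ∫ x, ‖Z x‖ ∂(surf Ω) := by
    intro i _
    refine (div_signed hdir h (hc i) (div_norm_bas i)).trans ?_
    refine integral_mono (div_int_surf h (hc i).continuous).abs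
      (div_int_surf h hZ.continuous).norm fun x => ?_
    exact PiLp.norm_apply_le (Z x) i
  refine (Finset.sum_le_sum h2).trans ?_
  simp

/-- approximation by fields with controlled total divergence -/
def div_P (Ω : Set (E N)) (f : E N → E N) : Prop :=
  ∀ ε : ℝ, 0 < ε → ∃ W : E N → E N, ContDiff ℝ 1 W ∧ ∫ x, ‖f x - W x‖ ∂(surf Ω) ≤ ε ∧
    ∫ x in Ω, divg W x ≤ ∫ x, ‖f x‖ ∂(surf Ω) + ε

theorem div_mono_add {μ : Measure (E N)} {a b c : E N → ℝ} (ha : Integrable a μ)
    (hb : Integrable b μ) (hc : Integrable c μ) (H : ∀ x, a x ≤ b x + c x) :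
    ∫ x, a x ∂μ ≤ ∫ x, b x ∂μ + ∫ x, c x ∂μ := by
  rw [← integral_add hb hc]
  exact integral_mono ha (hb.add hc) H

theorem div_tri {μ : Measure (E N)} {f g k : E N → E N} (hf : Integrable f μ)
    (hg : Integrable g μ) (hk : Integrable k μ) :
    ∫ x, ‖f x - k x‖ ∂μ ≤ ∫ x, ‖f x - g x‖ ∂μ + ∫ x, ‖g x - k x‖ ∂μ := by
  refine div_mono_add (hf.sub hk).norm (hf.sub hg).norm (hg.sub hk).norm fun x => ?_
  exact norm_sub_le_norm_sub_add_norm_sub _ _ _

theorem div_P_close {Ω : Set (E N)} (h : Nice Ω) {f : E N → E N} (hf : Integrable f (surf Ω))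
    (H : ∀ ε : ℝ, 0 < ε → ∃ g : E N → E N, Integrable g (surf Ω) ∧ div_P Ω g ∧
      ∫ x, ‖f x - g x‖ ∂(surf Ω) ≤ ε) : div_P Ω f := by
  intro ε hε
  obtain ⟨g, hg, hP, hfg⟩ := H (ε / 2) (by positivity)
  obtain ⟨W, hW, h1, h2⟩ := hP (ε / 2) (by positivity)
  have t1 := div_tri hf hg (div_int_surf h hW.continuous)
  have t2 : ∫ x, ‖g x‖ ∂(surf Ω) ≤ ∫ x, ‖f x‖ ∂(surf Ω) + ∫ x, ‖f x - g x‖ ∂(surf Ω) := by
    refine div_mono_add hg.norm hf.norm (hf.sub hg).norm fun x => ?_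
    exact norm_le_insert (f x) (g x)
  exact ⟨W, hW, by linarith, by linarith⟩

theorem div_P_ind (hdir : DirStmt N) {Ω : Set (E N)} (h : Nice Ω) (c : E N) {s : Set (E N)}
    (hs : MeasurableSet s) : div_P Ω (s.indicator fun _ => c) := by
  have := div_fin h
  intro ε hε
  have hi : Integrable (s.indicator fun _ => (1 : ℝ)) (surf Ω) :=
    (integrable_const (1 : ℝ)).indicator hs
  have hc : 0 ≤ ‖c‖ := norm_nonneg c
  set η : ℝ := ε / (‖c‖ + 1) with hη
  have hη0 : 0 < η := by positivity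
  have hη1 : ‖c‖ * η ≤ ε := by
    rw [hη, ← mul_div_assoc, div_le_iff₀ (by positivity)]
    nlinarith
  obtain ⟨χ, -, hχ, hle⟩ := (memLp_one_iff_integrable.mpr hi).exist_eLpNorm_sub_le
    (by simp) le_rfl hη0
  have hχ1 : ContDiff ℝ 1 χ := hχ.of_le (by simp)
  have jχ := div_int_surf h hχ1.continuous
  have h1 : ∫ x, ‖s.indicator (fun _ => (1 : ℝ)) x - χ x‖ ∂(surf Ω) ≤ η := by
    have h2 := ofReal_integral_norm_eq_lintegral_enorm (hi.sub jχ)
    rw [eLpNorm_one_eq_lintegral_enorm, ← h2, ENNReal.ofReal_le_ofReal_iff hη0.le] at hle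
    exact hle
  have e0 : ∀ x, s.indicator (fun _ => c) x = s.indicator (fun _ => (1 : ℝ)) x • c := fun x => by
    by_cases hx : x ∈ s <;> simp [hx]
  refine ⟨fun x => χ x • c, hχ1.smul contDiff_const, ?_, ?_⟩
  · have e1 : ∀ x, ‖s.indicator (fun _ => c) x - χ x • c‖ =
        ‖c‖ * ‖s.indicator (fun _ => (1 : ℝ)) x - χ x‖ := fun x => by
      rw [e0, ← sub_smul, norm_smul, mul_comm]
    simp only [e1]
    rw [integral_const_mul]
    exact (mul_le_mul_of_nonneg_left h1 hc).trans hη1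
  · have e1 : ∀ x, divg (fun y => χ y • c) x = fderiv ℝ χ x c := fun x => by
      rw [div_smul (hχ1.differentiable (by simp) x) (differentiableAt_const c)]
      simp [divg]
    have e2 : ∀ x, ‖s.indicator (fun _ => c) x‖ =
        ‖c‖ * ‖s.indicator (fun _ => (1 : ℝ)) x‖ := fun x => by
      rw [e0, norm_smul, mul_comm]
    simp only [e1, e2]
    rw [integral_const_mul]
    refine (div_vec hdir h hχ1 c).trans ?_
    have t2 : ∫ x, |χ x| ∂(surf Ω) ≤ ∫ x, ‖s.indicator (fun _ => (1 : ℝ)) x‖ ∂(surf Ω) +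
        ∫ x, ‖s.indicator (fun _ => (1 : ℝ)) x - χ x‖ ∂(surf Ω) := by
      refine div_mono_add jχ.abs hi.norm (hi.sub jχ).norm fun x => ?_
      exact norm_le_insert (s.indicator (fun _ => (1 : ℝ)) x) (χ x)
    have t3 := mul_le_mul_of_nonneg_left t2 hc
    have t4 := mul_le_mul_of_nonneg_left h1 hc
    linarith

theorem div_P_add {Ω : Set (E N)} (h : Nice Ω) {f g : E N → E N}
    (hd : Disjoint (Function.support f) (Function.support g)) (hf : Integrable f (surf Ω))
    (hg : Integrable g (surf Ω)) (pf : div_P Ω f) (pg : div_P Ω g) : div_P Ω (f + g) := by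
  intro ε hε
  obtain ⟨W, hW, a1, a2⟩ := pf (ε / 2) (by positivity)
  obtain ⟨V, hV, b1, b2⟩ := pg (ε / 2) (by positivity)
  have jW := div_int_surf h hW.continuous
  have jV := div_int_surf h hV.continuous
  refine ⟨fun x => W x + V x, hW.add hV, ?_, ?_⟩
  · have t : ∫ x, ‖(f + g) x - (W x + V x)‖ ∂(surf Ω) ≤
        ∫ x, ‖f x - W x‖ ∂(surf Ω) + ∫ x, ‖g x - V x‖ ∂(surf Ω) := by
      refine div_mono_add ((hf.add hg).sub (jW.add jV)).norm
        (hf.sub jW).norm (hg.sub jV).norm fun x => ?_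
      have : (f + g) x - (W x + V x) = (f x - W x) + (g x - V x) := by
        rw [Pi.add_apply]; abel
      simp only [this]
      exact norm_add_le _ _
    linarith
  · have e1 : ∀ x, ‖(f + g) x‖ = ‖f x‖ + ‖g x‖ := fun x => by
      by_cases hx : f x = 0
      · simp [hx]
      · have : g x = 0 := by
          by_contra h2
          exact Set.disjoint_left.mp hd hx h2
        simp [this]
    simp only [e1]
    rw [integral_add hf.norm hg.norm, div_lam_add h hW hV]
    linarith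

theorem div_P_all (hdir : DirStmt N) {Ω : Set (E N)} (h : Nice Ω) {f : E N → E N}
    (hf : Integrable f (surf Ω)) : div_P Ω f := by
  refine Integrable.induction (μ := surf Ω) (div_P Ω) (fun c s hs _ => div_P_ind hdir h c hs)
    (fun f g hd hf hg pf pg => div_P_add h hd hf hg pf pg) ?_ ?_ hf
  · refine isClosed_of_closure_subset fun f hf => ?_
    refine div_P_close h (L1.integrable_coeFn f) fun ε hε => ?_
    obtain ⟨g, hg, hfg⟩ := Metric.mem_closure_iff.mp hf ε hε
    refine ⟨g, L1.integrable_coeFn g, hg, ?_⟩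
    rw [L1.dist_eq_integral_dist] at hfg
    simp only [dist_eq_norm] at hfg
    exact hfg.le
  · intro f g hfg hf pf
    refine div_P_close h (hf.congr hfg) fun ε hε => ⟨f, hf, pf, ?_⟩
    have : ∫ x, ‖g x - f x‖ ∂(surf Ω) = ∫ _x, (0 : ℝ) ∂(surf Ω) :=
      integral_congr_ae (hfg.mono fun x hx => by simp [hx])
    rw [this]
    simpa using hε.le

theorem div_field (hdir : DirStmt N) {Ω : Set (E N)} (h : Nice Ω) {X : E N → E N}
    (hX : ContDiff ℝ 1 X) : ∫ x in Ω, divg X x ≤ ∫ x, ‖X x‖ ∂(surf Ω) := by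
  refine le_of_forall_pos_le_add fun ε hε => ?_
  have hN : (0 : ℝ) ≤ N := by positivity
  obtain ⟨W, hW, h1, h2⟩ := div_P_all hdir h (div_int_surf h hX.continuous) (ε / (N + 1))
    (by positivity)
  have h3 := div_crude hdir h (hX.sub hW)
  have h4 := div_lam_add h hW (hX.sub hW)
  have e : (fun y => W y + (X y - W y)) = X := by
    funext y; abel
  rw [e] at h4
  have h5 := mul_le_mul_of_nonneg_left h1 hN
  have h6 : ε / (N + 1) + N * (ε / (N + 1)) = ε := by field_simp; ring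
  linarith

theorem div (hN : 0 < N) (hdir : DirStmt N) : DivStmt N := by
  intro Ω φ Y h hφ hY
  have _h0 := hN
  have h1 := div_field hdir h (X := fun y => φ y • Y y) (hφ.smul hY)
  have e1 : ∀ x, divg (fun y => φ y • Y y) x = ⟪gradient φ x, Y x⟫ + φ x * divg Y x := fun x => by
    rw [div_smul (hφ.differentiable (by simp) x) (hY.differentiable (by simp) x), gradient,
      InnerProductSpace.toDual_symm_apply]
  have e2 : ∀ x, ‖φ x • Y x‖ = |φ x| * ‖Y x‖ := fun x => by rw [norm_smul, Real.norm_eq_abs]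
  simp only [e1, e2] at h1
  exact h1

end Pool.Agent.Lib.MP_54d1f6_an
end

-- part Pool.Agent.Lib.MP_54d1f6_an.Weyl
section

/-!
The Weyl lemma for the torsion equation.
-/

namespace Pool.Agent.Lib.MP_54d1f6_an

open MeasureTheory Metric Set Filter Topology
open scoped RealInnerProductSpace ContDiff NNReal Convolution

variable {N : ℕ}

theorem weyl_d1 {φ : E N → ℝ} (hφ : ContDiff ℝ ∞ φ) (v : E N) :
    ContDiff ℝ ∞ fun y => fderiv ℝ φ y v :=
  (hφ.fderiv_right (m := ∞) (by simp)).clm_apply contDiff_const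

theorem weyl_lap_smooth {φ : E N → ℝ} (hφ : ContDiff ℝ ∞ φ) : ContDiff ℝ ∞ (lap φ) :=
  ContDiff.sum fun i _ => weyl_d1 (weyl_d1 hφ (bas i)) (bas i)

theorem weyl_lap_supp {φ : E N → ℝ} (hc : HasCompactSupport φ) : HasCompactSupport (lap φ) := by
  have h : lap φ = ∑ i : Fin N, fun x => fderiv ℝ (fun y => fderiv ℝ φ y (bas i)) x (bas i) := by
    funext x
    simp [lap]
  rw [h]
  exact HasCompactSupport.finset_sum fun i _ =>
    (hc.fderiv_apply ℝ (bas i)).fderiv_apply ℝ (bas i)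

theorem weyl_ibp {f g : E N → ℝ} (hf : ContDiff ℝ ∞ f) (hg : ContDiff ℝ ∞ g)
    (hc : HasCompactSupport g) (v : E N) :
    ∫ x, f x * fderiv ℝ g x v = -∫ x, fderiv ℝ f x v * g x :=
  integral_mul_fderiv_eq_neg_fderiv_mul_of_integrable
    (((weyl_d1 hf v).continuous.mul hg.continuous).integrable_of_hasCompactSupport hc.mul_left)
    ((hf.continuous.mul (weyl_d1 hg v).continuous).integrable_of_hasCompactSupport
      (hc.fderiv_apply ℝ v).mul_left)
    ((hf.continuous.mul hg.continuous).integrable_of_hasCompactSupport hc.mul_left)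
    (fun x _ => hf.differentiable (by simp) x) (fun x _ => hg.differentiable (by simp) x)

theorem weyl_green {u ψ : E N → ℝ} (hu : ContDiff ℝ ∞ u) (hψ : ContDiff ℝ ∞ ψ)
    (hc : HasCompactSupport ψ) : ∫ x, u x * lap ψ x = ∫ x, lap u x * ψ x := by
  simp only [lap, Finset.mul_sum, Finset.sum_mul]
  rw [integral_finsetSum, integral_finsetSum]
  · refine Finset.sum_congr rfl fun i _ => ?_
    rw [weyl_ibp hu (weyl_d1 hψ _) (hc.fderiv_apply ℝ _), weyl_ibp (weyl_d1 hu _) hψ hc, neg_neg]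
  · exact fun i _ => ((weyl_d1 (weyl_d1 hu _) _).continuous.mul
      hψ.continuous).integrable_of_hasCompactSupport hc.mul_left
  · exact fun i _ => (hu.continuous.mul
      (weyl_d1 (weyl_d1 hψ _) _).continuous).integrable_of_hasCompactSupport
      ((hc.fderiv_apply ℝ _).fderiv_apply ℝ _).mul_left

theorem weyl_lap_congr {f g : E N → ℝ} {x : E N} (h : f =ᶠ[𝓝 x] g) : lap f x = lap g x := by
  refine Finset.sum_congr rfl fun i _ => ?_
  have h2 : (fun y => fderiv ℝ f y (bas i)) =ᶠ[𝓝 x] fun y => fderiv ℝ g y (bas i) :=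
    (h.fderiv (𝕜 := ℝ)).mono fun y hy => by simp only [hy]
  rw [h2.fderiv_eq]

theorem weyl_sq (x y : E N) :
    HasFDerivAt (fun y : E N => ‖y - x‖ ^ 2) (2 • innerSL ℝ (y - x)) y := by
  have h := ((hasFDerivAt_id (𝕜 := ℝ) y).sub_const x).norm_sq
  simpa using h

theorem weyl_radial_d1 {Q : ℝ → ℝ} (hQ : ContDiff ℝ ∞ Q) (x y v : E N) :
    fderiv ℝ (fun y : E N => Q (‖y - x‖ ^ 2)) y v =
      deriv Q (‖y - x‖ ^ 2) * (2 * ⟪y - x, v⟫) := by
  have h := ((hQ.differentiable (by simp) (‖y - x‖ ^ 2)).hasDerivAt).comp_hasFDerivAt y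
    (weyl_sq x y)
  have h2 : fderiv ℝ (fun y : E N => Q (‖y - x‖ ^ 2)) y = _ := h.fderiv
  rw [h2]
  simp [inner_sub_left]

theorem weyl_radial {Q : ℝ → ℝ} (hQ : ContDiff ℝ ∞ Q) (x y : E N) :
    lap (fun y : E N => Q (‖y - x‖ ^ 2)) y =
      4 * ‖y - x‖ ^ 2 * deriv (deriv Q) (‖y - x‖ ^ 2) + 2 * N * deriv Q (‖y - x‖ ^ 2) := by
  have hQ' : ContDiff ℝ ∞ (deriv Q) := (contDiff_infty_iff_deriv.1 hQ).2
  have key : ∀ i : Fin N, fderiv ℝ (fun y => fderiv ℝ (fun y : E N => Q (‖y - x‖ ^ 2)) y (bas i))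
      y (bas i) = 4 * (y - x) i ^ 2 * deriv (deriv Q) (‖y - x‖ ^ 2) +
        2 * deriv Q (‖y - x‖ ^ 2) := by
    intro i
    simp only [weyl_radial_d1 hQ]
    have h1 := ((hQ'.differentiable (by simp) (‖y - x‖ ^ 2)).hasDerivAt).comp_hasFDerivAt y
      (weyl_sq x y)
    have h2 : HasFDerivAt (fun y : E N => 2 * ⟪y - x, bas i⟫) ((2 : ℝ) • innerSL ℝ (bas i)) y := by
      have h3 := (((innerSL ℝ (bas i)).hasFDerivAt (x := y)).sub_const ⟪bas i, x⟫).const_mul 2
      refine h3.congr_of_eventuallyEq (Eventually.of_forall fun z => ?_)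
      simp [inner_sub_left, real_inner_comm]
    have h4 : fderiv ℝ (fun y : E N => deriv Q (‖y - x‖ ^ 2) * (2 * ⟪y - x, bas i⟫)) y = _ :=
      (h1.mul h2).fderiv
    rw [h4]
    simp [bas, EuclideanSpace.inner_single_right]
    ring
  simp only [lap, key, Finset.sum_add_distrib, Finset.sum_const, Finset.card_univ,
    Fintype.card_fin, nsmul_eq_mul, ← Finset.sum_mul, ← Finset.mul_sum]
  rw [EuclideanSpace.real_norm_sq_eq (y - x)]
  ring

theorem weyl_q (N : ℕ) : ∃ q : ℝ → ℝ, ContDiff ℝ ∞ q ∧ (∀ s, 1 ≤ s → q s = s ^ (-(N : ℝ) / 2)) ∧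
    (∀ s, 0 ≤ s → 0 ≤ 4 * s * deriv q s + 2 * N * q s) ∧
    (∀ s, 1 < s → 4 * s * deriv q s + 2 * N * q s = 0) ∧
    ∃ s, 0 < s ∧ 4 * s * deriv q s + 2 * N * q s ≠ 0 := by
  set χ : ℝ → ℝ := fun s => Real.smoothTransition (2 * s - 1) with hχ
  have hχs : ContDiff ℝ ∞ χ := Real.smoothTransition.contDiff.comp (by fun_prop)
  have hχm : Monotone χ := fun a b h => Real.smoothTransition.monotone (by linarith)
  have hχ0 : ∀ s, s ≤ 1 / 2 → χ s = 0 := fun s hs =>
    Real.smoothTransition.zero_of_nonpos (by linarith)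
  have hχ1 : ∀ s, 1 ≤ s → χ s = 1 := fun s hs =>
    Real.smoothTransition.one_of_one_le (by linarith)
  have hz : ∀ s, s < 1 / 2 → (fun s => χ s * s ^ (-(N : ℝ) / 2)) =ᶠ[𝓝 s] fun _ => 0 :=
    fun s hs => (eventually_lt_nhds hs).mono fun t ht => by simp [hχ0 t ht.le]
  have hd : ∀ s, 0 < s → 4 * s * deriv (fun s => χ s * s ^ (-(N : ℝ) / 2)) s +
      2 * N * (χ s * s ^ (-(N : ℝ) / 2)) = 4 * s * deriv χ s * s ^ (-(N : ℝ) / 2) := by
    intro s hs
    have h1 : deriv (fun s => χ s * s ^ (-(N : ℝ) / 2)) s = _ :=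
      ((hχs.differentiable (by simp) s).hasDerivAt.mul
        (Real.hasDerivAt_rpow_const (p := -(N : ℝ) / 2) (Or.inl hs.ne'))).deriv
    rw [h1, Real.rpow_sub_one hs.ne']
    field_simp
    ring
  refine ⟨fun s => χ s * s ^ (-(N : ℝ) / 2), ?_, fun s hs => by simp [hχ1 s hs], ?_, ?_, ?_⟩
  · refine contDiff_iff_contDiffAt.2 fun s => ?_
    rcases lt_or_ge s (1 / 2) with hs | hs
    · exact contDiffAt_const.congr_of_eventuallyEq (hz s hs)
    · exact hχs.contDiffAt.mul (Real.contDiffAt_rpow_const_of_ne (by linarith))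
  · intro s hs
    rcases hs.eq_or_lt with rfl | hs
    · simp [hχ0 0 (by norm_num)]
    · rw [hd s hs]
      have := hχm.deriv_nonneg (x := s)
      positivity
  · intro s hs
    rw [hd s (by linarith)]
    have h1 : χ =ᶠ[𝓝 s] fun _ => 1 := (eventually_gt_nhds hs).mono fun t ht => hχ1 t ht.le
    rw [h1.deriv_eq]
    simp
  · obtain ⟨s, hs, h⟩ := exists_deriv_eq_slope χ (show (1 / 2 : ℝ) < 1 by norm_num)
      hχs.continuous.continuousOn (hχs.differentiable (by simp)).differentiableOn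
    have hs0 : 0 < s := by linarith [hs.1]
    refine ⟨s, hs0, ?_⟩
    rw [hd s hs0, h, hχ1 1 le_rfl, hχ0 _ le_rfl]
    positivity

theorem weyl_kernel (hN : 0 < N) : ∃ k : E N → ℝ, ContDiff ℝ ∞ k ∧ (∀ z, 1 < ‖z‖ → k z = 0) ∧
    ∫ z, k z = 1 ∧ ∀ d δ : ℝ, 0 < d → d ≤ δ → ∀ x : E N, ∃ Θ : E N → ℝ, ContDiff ℝ ∞ Θ ∧
      (∀ y, δ < ‖x - y‖ → Θ y = 0) ∧
      ∀ y, lap Θ y = (d ^ N)⁻¹ * k (d⁻¹ • (x - y)) - (δ ^ N)⁻¹ * k (δ⁻¹ • (x - y)) := by
  obtain ⟨q, hq, hq1, hq0, hqz, s₀, hs₀, hqs⟩ := weyl_q N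
  have hq' : ContDiff ℝ ∞ (deriv q) := (contDiff_infty_iff_deriv.1 hq).2
  set ρ : ℝ → ℝ := fun s => 4 * s * deriv q s + 2 * N * q s with hρ
  have hρs : ContDiff ℝ ∞ ρ := by fun_prop
  have hk : ContDiff ℝ ∞ fun z : E N => ρ (‖z‖ ^ 2) := hρs.comp (contDiff_norm_sq ℝ)
  have hkz : ∀ z : E N, 1 < ‖z‖ → ρ (‖z‖ ^ 2) = 0 := fun z hz => hqz _ (by nlinarith)
  have hkc : HasCompactSupport fun z : E N => ρ (‖z‖ ^ 2) :=
    HasCompactSupport.intro (isCompact_closedBall 0 1) fun z hz => hkz z (by simpa using hz)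
  have hc : 0 < ∫ z : E N, ρ (‖z‖ ^ 2) := by
    refine hk.continuous.integral_pos_of_hasCompactSupport_nonneg_nonzero
      (x := EuclideanSpace.single ⟨0, hN⟩ (√s₀)) hkc (fun z => hq0 _ (by positivity)) ?_
    simpa [Real.sq_sqrt hs₀.le] using hqs
  set c := ∫ z : E N, ρ (‖z‖ ^ 2) with hcdef
  refine ⟨fun z => c⁻¹ * ρ (‖z‖ ^ 2), contDiff_const.mul hk, fun z hz => by simp [hkz z hz],
    by rw [integral_const_mul, inv_mul_cancel₀ hc.ne'], fun d δ hd hdδ x => ?_⟩
  have hδ : 0 < δ := hd.trans_le hdδ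
  have hsc : ∀ d : ℝ, 0 < d → ∀ t, d ^ 2 ≤ t → (d ^ N)⁻¹ * q (t / d ^ 2) = t ^ (-(N : ℝ) / 2) := by
    intro d hd t ht
    have hd2 : 0 < d ^ 2 := by positivity
    rw [hq1 _ ((one_le_div hd2).2 ht), Real.div_rpow (hd2.le.trans ht) hd2.le,
      ← Real.rpow_natCast d 2, ← Real.rpow_mul hd.le,
      show ((2 : ℕ) : ℝ) * (-(N : ℝ) / 2) = -(N : ℝ) by push_cast; ring, Real.rpow_neg hd.le,
      Real.rpow_natCast]
    field_simp
  set g : ℝ → ℝ := fun t => c⁻¹ * ((d ^ N)⁻¹ * q (t / d ^ 2) - (δ ^ N)⁻¹ * q (t / δ ^ 2)) with hg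
  have hgs : ContDiff ℝ ∞ g := by fun_prop
  have hQd : deriv (fun s => ∫ t in δ ^ 2..s, g t) = g :=
    funext fun s => hgs.continuous.deriv_integral _ _ _
  have hQ : ContDiff ℝ ∞ fun s => ∫ t in δ ^ 2..s, g t := by
    refine contDiff_infty_iff_deriv.2 ⟨fun s => ?_, by rw [hQd]; exact hgs⟩
    exact (hgs.continuous.integral_hasStrictDerivAt _ _).hasDerivAt.differentiableAt
  refine ⟨fun y => (fun s => ∫ t in δ ^ 2..s, g t) (‖y - x‖ ^ 2),
    hQ.comp ((contDiff_norm_sq ℝ).comp (contDiff_id.sub contDiff_const)), fun y hy => ?_,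
    fun y => ?_⟩
  · rw [norm_sub_rev] at hy
    have h1 : δ ^ 2 ≤ ‖y - x‖ ^ 2 := by gcongr
    refine (intervalIntegral.integral_congr (g := fun _ => 0) fun t ht => ?_).trans (by simp)
    rw [uIcc_of_le h1] at ht
    have h2 : d ^ 2 ≤ δ ^ 2 := by gcongr
    simp only [hg]
    rw [hsc d hd t (h2.trans ht.1), hsc δ hδ t ht.1, sub_self, mul_zero]
  · rw [weyl_radial hQ, hQd]
    have hn : ∀ d : ℝ, 0 < d → ‖d⁻¹ • (x - y)‖ ^ 2 = ‖y - x‖ ^ 2 / d ^ 2 := by
      intro d hd
      rw [norm_smul, norm_sub_rev, Real.norm_eq_abs, abs_of_pos (inv_pos.2 hd)]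
      field_simp
    have hdq : ∀ d s : ℝ, HasDerivAt (fun t => q (t / d ^ 2)) (deriv q (s / d ^ 2) / d ^ 2) s := by
      intro d s
      have h := (hq.differentiable (by simp) (s / d ^ 2)).hasDerivAt.comp s
        ((hasDerivAt_id s).div_const (d ^ 2))
      rw [mul_one_div] at h
      exact h
    have h3 : deriv g (‖y - x‖ ^ 2) = _ :=
      ((((hdq d _).const_mul (d ^ N)⁻¹).sub ((hdq δ _).const_mul (δ ^ N)⁻¹)).const_mul c⁻¹).deriv
    rw [h3]
    simp only [hg, hρ, hn d hd, hn δ hδ]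
    ring

theorem weyl_local (hN : 0 < N) {Ω : Set (E N)} {h : E N → ℝ} (hh : LocallyIntegrable h volume)
    (H : ∀ ψ : E N → ℝ, ContDiff ℝ ∞ ψ → HasCompactSupport ψ → tsupport ψ ⊆ Ω →
      ∫ x, h x * lap ψ x = 0) {x₀ : E N} {δ : ℝ} (hδ : 0 < δ) (hΩ : ball x₀ (2 * δ) ⊆ Ω) :
    ∃ V : E N → ℝ, ContDiff ℝ ∞ V ∧ ∀ᵐ x, x ∈ ball x₀ δ → V x = h x := by
  obtain ⟨k, hk, hkz, hk1, hΘ⟩ := weyl_kernel hN
  have hks : ∀ d : ℝ, ContDiff ℝ ∞ fun z : E N => (d ^ N)⁻¹ * k (d⁻¹ • z) := fun d => by fun_prop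
  have hkd : ∀ d : ℝ, 0 < d → ∀ z : E N, d < ‖z‖ → (d ^ N)⁻¹ * k (d⁻¹ • z) = 0 := by
    intro d hd z hz
    rw [hkz, mul_zero]
    rwa [norm_smul, Real.norm_eq_abs, abs_of_pos (inv_pos.2 hd), ← div_eq_inv_mul, one_lt_div hd]
  have hkc : HasCompactSupport fun z : E N => (δ ^ N)⁻¹ * k (δ⁻¹ • z) :=
    HasCompactSupport.intro (isCompact_closedBall 0 δ) fun z hz => hkd δ hδ z (by simpa using hz)
  obtain ⟨M, hM⟩ : ∃ M, ∀ z, ‖k z‖ ≤ M := hk.continuous.bounded_above_of_compact_support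
    (HasCompactSupport.intro (isCompact_closedBall 0 1) fun z hz => hkz z (by simpa using hz))
  refine ⟨h ⋆[ContinuousLinearMap.mul ℝ ℝ, volume] fun z : E N => (δ ^ N)⁻¹ * k (δ⁻¹ • z),
    hkc.contDiff_convolution_right _ hh (hks δ), ?_⟩
  filter_upwards [(Besicovitch.vitaliFamily volume).ae_tendsto_average_norm_sub hh] with x hx hxb
  have hint : ∀ d : ℝ, 0 < d → Integrable fun y => h y * ((d ^ N)⁻¹ * k (d⁻¹ • (x - y))) := by
    intro d hd
    refine hh.integrable_smul_right_of_hasCompactSupport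
      ((hks d).continuous.comp (continuous_const.sub continuous_id)) ?_
    exact HasCompactSupport.intro (isCompact_closedBall x d) fun y hy =>
      hkd d hd _ (by simpa [dist_eq_norm'] using hy)
  have heq : ∀ d : ℝ, 0 < d → d ≤ δ → ∫ y, ((d ^ N)⁻¹ * k (d⁻¹ • (x - y))) • h y =
      ∫ y, h y * ((δ ^ N)⁻¹ * k (δ⁻¹ • (x - y))) := by
    intro d hd hdδ
    obtain ⟨Θ, h1, h2, h3⟩ := hΘ d δ hd hdδ x
    have h4 : ∀ y, y ∉ closedBall x δ → Θ y = 0 := fun y hy =>
      h2 y (by simpa [dist_eq_norm'] using hy)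
    have h5 := H Θ h1 (HasCompactSupport.intro (isCompact_closedBall x δ) h4) (by
      refine (closure_minimal (Function.support_subset_iff'.2 h4)
        isClosed_closedBall).trans (Subset.trans (fun y hy => ?_) hΩ)
      rw [mem_ball] at hxb ⊢
      linarith [dist_triangle y x x₀, mem_closedBall.1 hy])
    simp only [h3, mul_sub] at h5
    rw [integral_sub (hint d hd) (hint δ hδ), sub_eq_zero] at h5
    rw [← h5]
    simp only [smul_eq_mul, mul_comm]
  have hlim : Tendsto (fun d : ℝ => ∫ y, ((d ^ N)⁻¹ * k (d⁻¹ • (x - y))) • h y) (𝓝[>] 0)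
      (𝓝 (h x)) := by
    refine tendsto_integral_smul_of_tendsto_average_norm_sub
      (M * (volume (ball (0 : E N) 1)).toReal) (hx.comp (Besicovitch.tendsto_filterAt volume x))
      (Eventually.of_forall fun d => hh.integrableOn_isCompact (isCompact_closedBall _ _)) ?_ ?_ ?_
    · refine tendsto_const_nhds.congr' ?_
      filter_upwards [self_mem_nhdsWithin] with d hd
      have hd' : 0 < d := hd
      rw [integral_sub_left_eq_self (fun z : E N => (d ^ N)⁻¹ * k (d⁻¹ • z)), integral_const_mul,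
        Measure.integral_comp_inv_smul_of_nonneg volume k hd'.le, hk1]
      simp [hd'.ne']
    · filter_upwards [self_mem_nhdsWithin] with d hd y hy
      by_contra hy'
      exact hy (hkd d hd _ (by simpa [dist_eq_norm'] using hy'))
    · filter_upwards [self_mem_nhdsWithin] with d hd y
      have hd' : 0 < d := hd
      have hω : 0 < (volume (ball (0 : E N) 1)).toReal :=
        ENNReal.toReal_pos (measure_ball_pos _ _ one_pos).ne' measure_ball_lt_top.ne
      rw [Measure.real, Measure.addHaar_closedBall _ _ hd'.le, ENNReal.toReal_mul,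
        ENNReal.toReal_ofReal (by positivity), finrank_euclideanSpace_fin,
        mul_div_mul_right _ _ hω.ne', abs_mul, abs_of_pos (by positivity), div_eq_inv_mul]
      exact mul_le_mul_of_nonneg_left (hM _) (by positivity)
  refine tendsto_nhds_unique (l := 𝓝[>] (0 : ℝ)) (tendsto_const_nhds.congr' ?_) hlim
  filter_upwards [Ioc_mem_nhdsGT hδ] with d hd
  rw [heq d hd.1 hd.2]
  rfl

theorem weyl_out {Ω : Set (E N)} {ψ : E N → ℝ} (h : tsupport ψ ⊆ Ω) {x : E N} (hx : x ∉ Ω) :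
    ψ x = 0 ∧ lap ψ x = 0 := by
  have h1 : ψ =ᶠ[𝓝 x] fun _ => 0 := notMem_tsupport_iff_eventuallyEq.1 fun h2 => hx (h h2)
  exact ⟨h1.eq_of_nhds, by rw [weyl_lap_congr h1]; simp [lap]⟩

theorem weyl_local2 (hN : 0 < N) {Ω : Set (E N)} {w : E N → ℝ} (hΩ : IsOpen Ω)
    (hw : IntegrableOn w Ω)
    (H : ∀ ψ : E N → ℝ, ContDiff ℝ ∞ ψ → HasCompactSupport ψ → tsupport ψ ⊆ Ω →
      ∫ x in Ω, w x * lap ψ x = -∫ x in Ω, ψ x) {x₀ : E N} (hx₀ : x₀ ∈ Ω) :
    ∃ (δ : ℝ) (V : E N → ℝ), 0 < δ ∧ ContDiff ℝ ∞ V ∧ (∀ᵐ x, x ∈ ball x₀ δ → V x = w x) ∧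
      lap V x₀ = -1 := by
  obtain ⟨r, hr, hrΩ⟩ := Metric.isOpen_iff.1 hΩ x₀ hx₀
  have hi : Integrable (Ω.indicator w) := hw.integrable_indicator hΩ.measurableSet
  have H1 : ∀ ψ : E N → ℝ, ContDiff ℝ ∞ ψ → HasCompactSupport ψ → tsupport ψ ⊆ Ω →
      ∫ x, Ω.indicator w x * lap ψ x = -∫ x, ψ x := by
    intro ψ h1 h2 h3
    rw [← setIntegral_eq_integral_of_forall_compl_eq_zero fun x hx => (weyl_out h3 hx).1,
      ← H ψ h1 h2 h3, ← integral_indicator hΩ.measurableSet]
    simp only [indicator_mul_left]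
  have hN' : (N : ℝ) ≠ 0 := by exact_mod_cast hN.ne'
  have hQ : ContDiff ℝ ∞ fun s : ℝ => s / (2 * N) := by fun_prop
  have hu : ContDiff ℝ ∞ fun y : E N => ‖y - x₀‖ ^ 2 / (2 * N) :=
    hQ.comp ((contDiff_norm_sq ℝ).comp (contDiff_id.sub contDiff_const))
  have hul : ∀ y, lap (fun y : E N => ‖y - x₀‖ ^ 2 / (2 * N)) y = 1 := by
    intro y
    have h1 : deriv (fun s : ℝ => s / (2 * N)) = fun _ => (1 / (2 * N) : ℝ) := by
      funext s
      simp
    rw [weyl_radial hQ, h1, deriv_const, mul_zero, zero_add]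
    field_simp
  obtain ⟨V, hV, hVe⟩ := weyl_local hN (Ω := Ω)
    (h := fun y => Ω.indicator w y + ‖y - x₀‖ ^ 2 / (2 * N))
    (hi.locallyIntegrable.add hu.continuous.locallyIntegrable) (fun ψ h1 h2 h3 => by
      simp only [add_mul]
      rw [integral_add, H1 ψ h1 h2 h3, weyl_green hu h1 h2]
      · simp [hul]
      · exact hi.locallyIntegrable.integrable_smul_right_of_hasCompactSupport
          (weyl_lap_smooth h1).continuous (weyl_lap_supp h2)
      · exact (hu.continuous.mul (weyl_lap_smooth h1).continuous).integrable_of_hasCompactSupport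
          (weyl_lap_supp h2).mul_left) (x₀ := x₀) (half_pos hr) (by rwa [mul_div_cancel₀ _ two_ne_zero])
  have hb : ball x₀ (r / 2) ⊆ Ω := (ball_subset_ball (by linarith)).trans hrΩ
  have hW := hV.sub hu
  have hWe : ∀ᵐ x, x ∈ ball x₀ (r / 2) → V x - ‖x - x₀‖ ^ 2 / (2 * N) = w x :=
    hVe.mono fun x hx hxb => by rw [hx hxb, indicator_of_mem (hb hxb), add_sub_cancel_right]
  refine ⟨r / 2, _, half_pos hr, hW, hWe, ?_⟩
  obtain ⟨W, hWd⟩ : ∃ W : E N → ℝ, W = fun x => V x - ‖x - x₀‖ ^ 2 / (2 * N) := ⟨_, rfl⟩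
  have hWe' : ∀ᵐ x, x ∈ ball x₀ (r / 2) → W x = w x := by
    rw [hWd]
    exact hWe
  rw [← hWd] at hW ⊢
  have hc : Continuous fun x => lap W x + 1 := (weyl_lap_smooth hW).continuous.add continuous_const
  have h0 := isOpen_ball.ae_eq_zero_of_integral_contDiff_smul_eq_zero (μ := volume)
    (hc.locallyIntegrable.locallyIntegrableOn (ball x₀ (r / 2))) fun ψ h1 h2 h3 => by
      have h4 : Integrable fun x => lap W x * ψ x := ((weyl_lap_smooth hW).continuous.mul
        h1.continuous).integrable_of_hasCompactSupport h2.mul_left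
      simp only [smul_eq_mul, mul_comm (ψ _), add_mul, one_mul]
      rw [integral_add h4 (h1.continuous.integrable_of_hasCompactSupport h2), ← weyl_green hW h1 h2,
        ← eq_neg_iff_add_eq_zero, ← H1 ψ h1 h2 (h3.trans hb)]
      refine integral_congr_ae (hWe'.mono fun x hx => ?_)
      by_cases hxb : x ∈ ball x₀ (r / 2)
      · simp only [hx hxb, indicator_of_mem (hb hxb)]
      · simp only [(weyl_out h3 hxb).2, mul_zero]
  exact eq_neg_iff_add_eq_zero.2 (Measure.eqOn_open_of_ae_eq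
    ((ae_restrict_iff' measurableSet_ball).2 h0) isOpen_ball hc.continuousOn continuousOn_const
    (mem_ball_self (half_pos hr)))

theorem weyl (hN : 0 < N) : WeylStmt N := by
  intro Ω w hΩ hw H
  choose! δ V hδ hV hVe hVl using fun x₀ (hx₀ : x₀ ∈ Ω) => weyl_local2 hN hΩ hw H hx₀
  have key : ∀ x ∈ Ω, ∀ y ∈ Ω, EqOn (V y) (V x) (ball x (δ x) ∩ ball y (δ y)) := by
    intro x hx y hy
    refine Measure.eqOn_open_of_ae_eq (μ := volume) ?_ (isOpen_ball.inter isOpen_ball)
      (hV y hy).continuous.continuousOn (hV x hx).continuous.continuousOn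
    refine (ae_restrict_iff' (isOpen_ball.inter isOpen_ball).measurableSet).2 ?_
    filter_upwards [hVe x hx, hVe y hy] with z h1 h2 hz
    rw [h1 hz.1, h2 hz.2]
  have key2 : ∀ x ∈ Ω, (fun y => V y y) =ᶠ[𝓝 x] V x := by
    intro x hx
    filter_upwards [hΩ.mem_nhds hx, ball_mem_nhds x (hδ x hx)] with y hy hyb
    exact key x hx y hy ⟨hyb, mem_ball_self (hδ y hy)⟩
  refine ⟨fun y => V y y, fun x hx => ?_, ?_, fun x hx => ?_⟩
  · exact (((hV x hx).of_le (by norm_cast)).contDiffAt.congr_of_eventuallyEq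
      (key2 x hx)).contDiffWithinAt
  · refine (ae_restrict_iff' hΩ.measurableSet).2 (measure_null_of_locally_null _ fun x hx => ?_)
    have hx' : x ∈ Ω := by
      by_contra h
      exact hx fun h' => absurd h' h
    refine ⟨_, inter_mem_nhdsWithin _ (ball_mem_nhds x (hδ x hx')),
      measure_mono_null (fun y hy => ?_) (ae_iff.1 (hVe x hx'))⟩
    exact fun h => hy.1 fun hy' => (key x hx' y hy' ⟨hy.2, mem_ball_self (hδ y hy')⟩).trans (h hy.2)
  · rw [weyl_lap_congr (key2 x hx), hVl x hx]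

end Pool.Agent.Lib.MP_54d1f6_an
end
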