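import Pool.Agent.Lib.MP_54d1f6_an.Main
import Pool.Agent.Lib.MP_54d1f6_an.Tal



import Pool.Agent.Lib.MP_54d1f6_an.Weyl



import Pool.Agent.Lib.MP_54d1f6_an.Exist


import Pool.Agent.Lib.MP_54d1f6_an.HL







/-!
The L1 comparison, all steps put together.
-/

namespace Pool.Agent.Lib.MP_54d1f6_an

open MeasureTheory Metric

variable {N : ℕ}

theorem final (hN : 0 < N) {β : ℝ} (hβ : 0 < β) {Ω : Set (E N)} (hΩ : IsLipschitzDomain Ω)
    {f : E N → ℝ} (hf : MemLp f 2 (volume.restrict Ω))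
    (hf0 : ∀ᵐ x ∂(volume.restrict Ω), 0 ≤ f x) {R : ℝ} (hR : 0 < R)
    (hvol : volume (ball (0 : E N) R) = volume Ω) {u v : E N → ℝ}
    (hu : IsWeakSolution β Ω f u) (hv : IsWeakSolution β (ball (0 : E N) R) (schwarz Ω f) v) :
    eLpNorm u 1 (volume.restrict Ω) ≤ eLpNorm v 1 (volume.restrict (ball (0 : E N) R)) := by
  have hdiv := div hN (dir hN)
  have hden := density hN (moll N ℝ) (moll N (E N))
  exact (main_of hN (bm hN) (tal hN (iso hN (bm hN))) (gap hN) (abp hN) (sub hN) (sph hN) (lip hN)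
    (weyl hN) (admSmooth hN) (admLin hN) (ballIneq hN hdiv (sph hN))
    (exist hN hdiv (admMk hN) (admSmooth hN))
    (compare hN (admSmooth hN) (admLin hN) (admComp hN) (admDiv hN hdiv)) (hl hN)
    hβ hΩ hf hf0 hR hvol).2.2 u v
    (trace_robin (lip hN) (admSmooth hN) (traceIneq hN) hden hΩ hu)
    (trace_robin (lip hN) (admSmooth hN) (traceIneq hN) hden (trace_ball_lip hR) hv)

end Pool.Agent.Lib.MP_54d1f6_an
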