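import Pool.Agent.Lib.MP_54d1f6_an.Defs
import Pool.Agent.Shared.BM.Slice

-- part Pool.Agent.Lib.MP_54d1f6_an.Stmts
section

/-!
Auxiliary definitions and the statements of the steps of the proof.
-/

namespace Pool.Agent.Lib.MP_54d1f6_an

open MeasureTheory Metric Set Filter Topology
open scoped RealInnerProductSpace ContDiff NNReal

variable {N : ℕ}

/-- standard basis vector -/
noncomputable def bas (i : Fin N) : E N := EuclideanSpace.single i 1

/-- divergence of a vector field -/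
noncomputable def divg (Y : E N → E N) (x : E N) : ℝ := ∑ i, fderiv ℝ Y x (bas i) i

/-- Laplacian -/
noncomputable def lap (φ : E N → ℝ) (x : E N) : ℝ :=
  ∑ i, fderiv ℝ (fun y => fderiv ℝ φ y (bas i)) x (bas i)

/-- bounded open set whose boundary has finite surface measure -/
def Nice (Ω : Set (E N)) : Prop :=
  IsOpen Ω ∧ Bornology.IsBounded Ω ∧ (μHE[N - 1] : Measure (E N)) (frontier Ω) < ⊤

/-- exterior corkscrew points at every boundary point -/
def Cork (Ω : Set (E N)) : Prop :=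
  ∀ x₀ ∈ frontier Ω, ∃ c δ₀ : ℝ, 0 < c ∧ 0 < δ₀ ∧ ∀ δ ∈ Ioo 0 δ₀, ∃ x₁ : E N,
    ‖x₁ - x₀‖ ≤ δ ∧ ∀ x ∈ Ω, c * δ ≤ ‖x - x₁‖

/-- function, weak gradient and trace -/
def Adm (Ω : Set (E N)) (u : E N → ℝ) (G : E N → E N) (g : E N → ℝ) : Prop :=
  IsH1 Ω u G ∧ IsTrace Ω u G g

/-- sup-convolution -/
noncomputable def supc (Ω : Set (E N)) (W : E N → ℝ) (b : ℝ) (y : E N) : ℝ :=
  sSup ((fun x => W x - b / 2 * ‖x - y‖ ^ 2) '' Ω)

/-- the Robin torsion function of the ball of radius `R` -/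
noncomputable def wB (N : ℕ) (β R : ℝ) (x : E N) : ℝ :=
  R / (N * β) + (R ^ 2 - ‖x‖ ^ 2) / (2 * N)

/-- Brunn-Minkowski inequality for a set and a ball -/
def BMStmt (N : ℕ) : Prop :=
  ∀ (A C : Set (E N)) (a ρ : ℝ), MeasurableSet A → MeasurableSet C → A.Nonempty → 0 ≤ a → 0 < ρ →
    (∀ x ∈ A, ball x ρ ⊆ C) → volume (ball (0 : E N) a) ≤ volume A →
      volume (ball (0 : E N) (a + ρ)) ≤ volume C

/-- sharp L1 Sobolev (coarea plus isoperimetric) inequality for a Lipschitz function -/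
def IsoStmt (N : ℕ) : Prop :=
  ∀ (g : E N → ℝ) (L : ℝ≥0) (h a : ℝ), LipschitzWith L g → (∀ y, 0 ≤ g y) →
    Bornology.IsBounded {y | 0 < g y} → 0 < h → 0 < a →
    volume (ball (0 : E N) a) ≤ volume {y | h ≤ g y} →
      h * (N * (volume (ball (0 : E N) 1)).toReal * a ^ (N - 1)) ≤ ∫ y, ‖fderiv ℝ g y‖

/-- Dirichlet Talenti estimate for a discrete subsolution -/
def TalStmt (N : ℕ) : Prop :=
  ∀ (S : E N → ℝ) (L : ℝ≥0) (s₁ κ R₁ : ℝ), LipschitzWith L S → 0 < κ → 0 ≤ R₁ →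
    Bornology.IsBounded {y | s₁ < S y} →
    (∀ ε : ℝ, 0 < ε → ∃ t₀ : ℝ, 0 < t₀ ∧ ∀ t ∈ Ioo 0 t₀, ∀ y, s₁ < S y →
      -((κ + ε) * t ^ 2) ≤ ∑ i, (S (y + t • bas i) + S (y - t • bas i) - 2 * S y)) →
    volume {y | s₁ < S y} ≤ volume (ball (0 : E N) R₁) →
    ∀ s a : ℝ, s₁ ≤ s → 0 < a → volume (ball (0 : E N) a) ≤ volume {y | s < S y} →
      a ^ 2 + 2 * N * (s - s₁) / κ ≤ R₁ ^ 2

/-- divergence inequality in one direction -/
def DirStmt (N : ℕ) : Prop :=
  ∀ (Ω : Set (E N)) (φ : E N → ℝ) (e : E N), Nice Ω → ContDiff ℝ 1 φ → (∀ x, 0 ≤ φ x) → ‖e‖ = 1 →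
    ∫ x in Ω, fderiv ℝ φ x e ≤ ∫ x, φ x ∂(surf Ω)

/-- divergence inequality -/
def DivStmt (N : ℕ) : Prop :=
  ∀ (Ω : Set (E N)) (φ : E N → ℝ) (Y : E N → E N), Nice Ω → ContDiff ℝ 1 φ → ContDiff ℝ 1 Y →
    ∫ x in Ω, (⟪gradient φ x, Y x⟫ + φ x * divg Y x) ≤ ∫ x, |φ x| * ‖Y x‖ ∂(surf Ω)

/-- upper bound for the area of the sphere -/
def SphStmt (N : ℕ) : Prop :=
  ∀ R : ℝ, 0 < R → ENNReal.ofReal R * (μHE[N - 1] : Measure (E N)) (sphere (0 : E N) R) ≤
    N * volume (ball (0 : E N) R)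

/-- consequences of the Lipschitz condition -/
def LipStmt (N : ℕ) : Prop :=
  ∀ Ω : Set (E N), IsLipschitzDomain Ω → Nice Ω ∧ Cork Ω

/-- Weyl lemma for the torsion equation -/
def WeylStmt (N : ℕ) : Prop :=
  ∀ (Ω : Set (E N)) (w : E N → ℝ), IsOpen Ω → IntegrableOn w Ω →
    (∀ ψ : E N → ℝ, ContDiff ℝ ∞ ψ → HasCompactSupport ψ → tsupport ψ ⊆ Ω →
      ∫ x in Ω, w x * lap ψ x = -∫ x in Ω, ψ x) →
    ∃ W : E N → ℝ, ContDiffOn ℝ 2 W Ω ∧ (∀ᵐ x ∂(volume.restrict Ω), W x = w x) ∧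
      ∀ x ∈ Ω, lap W x = -1

/-- the approximation property alone gives the weak gradient identity -/
def AdmMkStmt (N : ℕ) : Prop :=
  ∀ (Ω : Set (E N)) (u : E N → ℝ) (G : E N → E N) (g : E N → ℝ), Nice Ω →
    MemLp u 2 (volume.restrict Ω) → MemLp G 2 (volume.restrict Ω) → IsTrace Ω u G g →
      IsH1 Ω u G

/-- smooth functions are admissible -/
def AdmSmoothStmt (N : ℕ) : Prop :=
  ∀ (Ω : Set (E N)) (φ : E N → ℝ), Nice Ω → ContDiff ℝ 1 φ → Adm Ω φ (gradient φ) φ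

/-- linear combinations -/
def AdmLinStmt (N : ℕ) : Prop :=
  ∀ (Ω : Set (E N)) (u u' : E N → ℝ) (G G' : E N → E N) (g g' : E N → ℝ) (a a' : ℝ), Nice Ω →
    Adm Ω u G g → Adm Ω u' G' g' →
      Adm Ω (fun x => a * u x + a' * u' x) (fun x => a • G x + a' • G' x)
        (fun x => a * g x + a' * g' x)

/-- chain rule -/
def AdmCompStmt (N : ℕ) : Prop :=
  ∀ (Ω : Set (E N)) (u : E N → ℝ) (G : E N → E N) (g : E N → ℝ) (θ : ℝ → ℝ) (M : ℝ), Nice Ω →
    Adm Ω u G g → ContDiff ℝ 1 θ → (∀ t, |deriv θ t| ≤ M) →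
      Adm Ω (fun x => θ (u x)) (fun x => deriv θ (u x) • G x) (fun x => θ (g x))

/-- divergence inequality for admissible functions -/
def AdmDivStmt (N : ℕ) : Prop :=
  ∀ (Ω : Set (E N)) (u : E N → ℝ) (G : E N → E N) (g : E N → ℝ) (Y : E N → E N), Nice Ω →
    Adm Ω u G g → ContDiff ℝ 1 Y →
      ∫ x in Ω, (⟪G x, Y x⟫ + u x * divg Y x) ≤ ∫ x, |g x| * ‖Y x‖ ∂(surf Ω)

/-- the reverse divergence inequality on the ball -/
def BallStmt (N : ℕ) : Prop :=
  ∀ (R : ℝ) (v : E N → ℝ) (G : E N → E N) (g : E N → ℝ), 0 < R → Adm (ball (0 : E N) R) v G g →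
    R * ∫ x, g x ∂(surf (ball (0 : E N) R)) ≤ ∫ x in ball (0 : E N) R, (⟪G x, x⟫ + N * v x)

/-- existence of weak solutions -/
def ExistStmt (N : ℕ) : Prop :=
  ∀ (Ω : Set (E N)) (β : ℝ) (f : E N → ℝ), Nice Ω → 0 < β → MemLp f 2 (volume.restrict Ω) →
    ∃ u, IsRobinSolution β Ω f u

/-- comparison with a smooth supersolution -/
def CompareStmt (N : ℕ) : Prop :=
  ∀ (Ω : Set (E N)) (β : ℝ) (f u Φ : E N → ℝ), Nice Ω → 0 < β → MemLp f 2 (volume.restrict Ω) →
    IsRobinSolution β Ω f u → ContDiff ℝ 2 Φ →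
    (∀ x ∈ frontier Ω, ‖fderiv ℝ Φ x‖ ≤ β * Φ x) →
    (∀ᵐ x ∂(volume.restrict Ω), Φ x < u x → f x + lap Φ x < 0) →
      ∀ᵐ x ∂(volume.restrict Ω), u x ≤ Φ x

/-- above the level `b / (2 β ^ 2)` the sup-convolution is attained in a compact subset -/
def GapStmt (N : ℕ) : Prop :=
  ∀ (Ω : Set (E N)) (β b s₁ : ℝ) (W : E N → ℝ), IsOpen Ω → Bornology.IsBounded Ω → Ω.Nonempty →
    Cork Ω → 0 < β → 0 < b → b / (2 * β ^ 2) < s₁ → ContinuousOn W Ω →
    (∀ Φ : E N → ℝ, ContDiff ℝ 2 Φ → (∀ x ∈ frontier Ω, ‖fderiv ℝ Φ x‖ ≤ β * Φ x) →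
      (∀ x ∈ Ω, Φ x < W x → 1 + lap Φ x < 0) → ∀ x ∈ Ω, W x ≤ Φ x) →
    BddAbove (W '' Ω) ∧ ∃ K : Set (E N), IsCompact K ∧ K ⊆ Ω ∧
      ∀ y, s₁ < supc Ω W b y → ∃ x ∈ K, supc Ω W b y = W x - b / 2 * ‖x - y‖ ^ 2

/-- ABP volume bound -/
def AbpStmt (N : ℕ) : Prop :=
  ∀ (Ω : Set (E N)) (b : ℝ) (W : E N → ℝ) (U : Set (E N)), IsOpen Ω → 0 < b →
    ContDiffOn ℝ 2 W Ω → (∀ x ∈ Ω, lap W x = -1) →
    (∀ y ∈ U, ∃ x ∈ Ω, ∀ z ∈ Ω, W z - b / 2 * ‖z - y‖ ^ 2 ≤ W x - b / 2 * ‖x - y‖ ^ 2) →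
      volume U ≤ ENNReal.ofReal ((1 + 1 / (N * b)) ^ N) * volume Ω

/-- the sup-convolution is a Lipschitz discrete subsolution -/
def SubStmt (N : ℕ) : Prop :=
  ∀ (Ω K : Set (E N)) (b s₁ : ℝ) (W : E N → ℝ), IsOpen Ω → Bornology.IsBounded Ω → Ω.Nonempty →
    0 < b → ContDiffOn ℝ 2 W Ω → (∀ x ∈ Ω, lap W x = -1) → BddAbove (W '' Ω) →
    IsCompact K → K ⊆ Ω →
    (∀ y, s₁ < supc Ω W b y → ∃ x ∈ K, supc Ω W b y = W x - b / 2 * ‖x - y‖ ^ 2) →
      (∃ L : ℝ≥0, LipschitzWith L fun y => max (supc Ω W b y) s₁) ∧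
      Bornology.IsBounded {y | s₁ < supc Ω W b y} ∧
      ∀ ε : ℝ, 0 < ε → ∃ t₀ : ℝ, 0 < t₀ ∧ ∀ t ∈ Ioo 0 t₀, ∀ y, s₁ < supc Ω W b y →
        -((N * b / (1 + N * b) + ε) * t ^ 2) ≤
          ∑ i, (supc Ω W b (y + t • bas i) + supc Ω W b (y - t • bas i) - 2 * supc Ω W b y)

/-- Hardy-Littlewood step -/
def HLStmt (N : ℕ) : Prop :=
  ∀ (Ω : Set (E N)) (β R : ℝ) (f W : E N → ℝ), MeasurableSet Ω → 0 < β → 0 < R →
    volume (ball (0 : E N) R) = volume Ω → MemLp f 2 (volume.restrict Ω) →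
    (∀ᵐ x ∂(volume.restrict Ω), 0 ≤ f x) → MemLp W 2 (volume.restrict Ω) →
    (∀ t : ℝ, 0 ≤ t → volume {x | x ∈ Ω ∧ t < W x} ≤
      volume {x | x ∈ ball (0 : E N) R ∧ t < wB N β R x}) →
      MemLp (schwarz Ω f) 2 (volume.restrict (ball (0 : E N) R)) ∧
      ∫ x in Ω, f x * W x ≤ ∫ x in ball (0 : E N) R, schwarz Ω f x * wB N β R x

end Pool.Agent.Lib.MP_54d1f6_an
end

-- part Pool.Agent.Lib.MP_54d1f6_an.BM
section

/-!
The additive Brunn-Minkowski inequality, and its special case for a set and a ball.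
-/

namespace Pool.Agent.Lib.MP_54d1f6_an

open MeasureTheory Metric Set
open scoped NNReal ENNReal
open Pool.Agent.Shared.BM (bm1 level hs vs cons cons_add volume_eq_hs volume_eq_vs measurable_hs
  measurableSet_hs measurableSet_vs lintegral_eq_iSup_min)

lemma bm_tangent {p x θ : ℝ} (hp : 0 ≤ p) (hx : 0 < x) (hθ : 0 < θ) (m : ℕ) :
    θ ^ (m + 1) * x + (m + 1) * θ ^ m * (p - x * θ) ≤ (x ^ m)⁻¹ * p ^ (m + 1) := by
  have h0 : 0 ≤ p / (x * θ) := by positivity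
  have h := one_add_mul_le_pow (a := p / (x * θ) - 1) (by linarith) (m + 1)
  rw [add_sub_cancel] at h
  have h1 := mul_le_mul_of_nonneg_left h (show 0 ≤ x * θ ^ (m + 1) by positivity)
  refine le_trans (le_of_eq ?_) (h1.trans (le_of_eq ?_))
  · push_cast
    field_simp
    ring
  · rw [div_pow, mul_pow]
    field_simp
    ring

/-- the inequality of Radon for two terms -/
lemma bm_radon (p q : ℝ≥0) {x y : ℝ≥0} (hp : 0 < p) (hx : 0 < x) (hy : 0 < y) (m : ℕ) :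
    ((x + y) ^ m)⁻¹ * (p + q) ^ (m + 1) ≤ (x ^ m)⁻¹ * p ^ (m + 1) + (y ^ m)⁻¹ * q ^ (m + 1) := by
  have hx' : (0 : ℝ) < x := hx
  have hy' : (0 : ℝ) < y := hy
  have hp' : (0 : ℝ) < p := hp
  have hθ : (0 : ℝ) < (p + q) / (x + y) := by positivity
  have h1 := bm_tangent p.2 hx' hθ m
  have h2 := bm_tangent q.2 hy' hθ m
  rw [← NNReal.coe_le_coe]
  push_cast
  refine le_trans (le_of_eq ?_) (add_le_add h1 h2)
  simp only [NNReal.val_eq_coe, div_pow]
  field_simp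
  ring

lemma bm_final {a b c μ : ℝ≥0∞} {p q x y : ℝ≥0} (hp : 0 < p) (hx : 0 < x) (hy : 0 < y) {m : ℕ}
    (ha : μ * (p ^ (m + 1) : ℝ≥0) ≤ a) (hb : μ * (q ^ (m + 1) : ℝ≥0) ≤ b)
    (h : ((x ^ m)⁻¹ : ℝ≥0) * a + ((y ^ m)⁻¹ : ℝ≥0) * b ≤ (((x + y) ^ m)⁻¹ : ℝ≥0) * c) :
    μ * ((p + q) ^ (m + 1) : ℝ≥0) ≤ c := by
  have h0 : ((((x + y) ^ m)⁻¹ : ℝ≥0) : ℝ≥0∞) ≠ 0 := by
    rw [ENNReal.coe_ne_zero]
    positivity
  refine (ENNReal.mul_le_mul_iff_right h0 ENNReal.coe_ne_top).1 (le_trans ?_ h)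
  calc _ = μ * ((((x + y) ^ m)⁻¹ * (p + q) ^ (m + 1) : ℝ≥0) : ℝ≥0∞) := by
        rw [ENNReal.coe_mul]; ring
    _ ≤ μ * (((x ^ m)⁻¹ * p ^ (m + 1) + (y ^ m)⁻¹ * q ^ (m + 1) : ℝ≥0) : ℝ≥0∞) := by
        gcongr
        exact bm_radon p q hp hx hy m
    _ = ((x ^ m)⁻¹ : ℝ≥0) * (μ * (p ^ (m + 1) : ℝ≥0)) +
        ((y ^ m)⁻¹ : ℝ≥0) * (μ * (q ^ (m + 1) : ℝ≥0)) := by
        rw [ENNReal.coe_add, ENNReal.coe_mul, ENNReal.coe_mul]; ring
    _ ≤ _ := by gcongr

/-- a bounded truncation whose supremum is a power -/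
lemma bm_trunc {α : ℝ → ℝ≥0∞} (hα : Measurable α) {r : ℝ≥0∞} (h : r < ∫⁻ t, α t) (m : ℕ) :
    ∃ (α' : ℝ → ℝ≥0∞) (x : ℝ≥0), Measurable α' ∧ (∀ t, α' t ≤ α t) ∧ 0 < x ∧ r ≤ ∫⁻ t, α' t ∧
      ⨆ t, (((x ^ (m + 1))⁻¹ : ℝ≥0) : ℝ≥0∞) * α' t = 1 := by
  rw [lintegral_eq_iSup_min hα, lt_iSup_iff] at h
  obtain ⟨k, hk⟩ := h
  have h1 : ⨆ t, min (α t) k ≠ ⊤ :=
    ne_top_of_le_ne_top (ENNReal.natCast_ne_top k) (iSup_le fun x => min_le_right _ _)
  have h2 : ⨆ t, min (α t) k ≠ 0 := fun h0 => by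
    have : (fun t => min (α t) k) = fun _ => 0 :=
      funext fun t => le_zero_iff.1 (h0 ▸ le_iSup (fun t => min (α t) k) t)
    rw [this, lintegral_zero] at hk
    exact not_lt_zero hk
  obtain ⟨M, hM⟩ : ∃ M : ℝ≥0, (M : ℝ≥0∞) = ⨆ t, min (α t) k := ⟨_, ENNReal.coe_toNNReal h1⟩
  have h3 : M ≠ 0 := by
    rintro rfl
    exact h2 hM.symm
  refine ⟨fun t => min (α t) k, M ^ (((m + 1 : ℕ) : ℝ)⁻¹), hα.min measurable_const,
    fun t => min_le_left _ _, NNReal.rpow_pos (pos_iff_ne_zero.2 h3), hk.le, ?_⟩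
  rw [← ENNReal.mul_iSup, ← hM, NNReal.rpow_inv_natCast_pow _ (Nat.succ_ne_zero m),
    ← ENNReal.coe_mul, inv_mul_cancel₀ h3, ENNReal.coe_one]

lemma bm_le {ν a : ℝ≥0∞} {X : ℝ≥0} (hX : 0 < X) (h : ν ≤ (X⁻¹ : ℝ≥0) * a) : ν * X ≤ a := by
  refine (mul_le_mul_left h _).trans (le_of_eq ?_)
  rw [mul_right_comm, ← ENNReal.coe_mul, inv_mul_cancel₀ hX.ne', ENNReal.coe_one, one_mul]

lemma bm_le' {ν a : ℝ≥0∞} {X : ℝ≥0} (hX : 0 < X) (h : ν * X ≤ a) : ν ≤ (X⁻¹ : ℝ≥0) * a := by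
  refine le_trans (le_of_eq ?_) (mul_le_mul_right h _)
  rw [mul_left_comm, ← ENNReal.coe_mul, inv_mul_cancel₀ hX.ne', ENNReal.coe_one, mul_one]

/-- Brunn-Minkowski inequality -/
theorem bm_add (n : ℕ) : ∀ {A B C : Set (E (n + 1))}, MeasurableSet A → MeasurableSet B →
    MeasurableSet C → (∀ x ∈ A, ∀ y ∈ B, x + y ∈ C) → ∀ (μ : ℝ≥0∞) (p q : ℝ≥0), 0 < p → 0 < q →
      μ * (p ^ (n + 1) : ℝ≥0) ≤ volume A → μ * (q ^ (n + 1) : ℝ≥0) ≤ volume B →
        μ * ((p + q) ^ (n + 1) : ℝ≥0) ≤ volume C := by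
  induction n with
  | zero =>
    intro A B C hA hB hC H μ p q hp hq ha hb
    rcases eq_or_ne μ 0 with rfl | h0
    · simp
    have e : ∀ X : Set (E (0 + 1)), MeasurableSet X → volume X = volume (vs X 0) := fun X hX => by
      rw [volume_eq_vs hX, volume_euclideanSpace_eq_dirac, lintegral_dirac]
    have ne : ∀ (X : Set ℝ) (r : ℝ≥0), 0 < r → μ * (r ^ (0 + 1) : ℝ≥0) ≤ volume X → X.Nonempty :=
      fun X r hr h => nonempty_of_measure_ne_zero (ne_of_gt (lt_of_lt_of_le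
        (ENNReal.mul_pos h0 (by rw [ENNReal.coe_ne_zero]; positivity)) h))
    rw [e A hA] at ha
    rw [e B hB] at hb
    rw [e C hC]
    refine bm_final (x := 1) (y := 1) hp one_pos one_pos ha hb ?_
    simp only [pow_zero, inv_one, ENNReal.coe_one, one_mul]
    refine bm1 (measurableSet_vs hA 0) (measurableSet_vs hB 0) (ne _ p hp ha) (ne _ q hq hb)
      fun s hs t ht => ?_
    have := H _ hs _ ht
    rwa [cons_add, add_zero] at this
  | succ n ih =>
    intro A B C hA hB hC H μ p q hp hq ha hb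
    refine ENNReal.mul_le_of_forall_lt fun μ' hμ R hR => (mul_le_mul_right hR.le _).trans ?_
    have lt : ∀ r : ℝ≥0, 0 < r → μ' * (r ^ (n + 1 + 1) : ℝ≥0) < μ * (r ^ (n + 1 + 1) : ℝ≥0) :=
      fun r hr => ENNReal.mul_lt_mul_left (by rw [ENNReal.coe_ne_zero]; positivity)
        ENNReal.coe_ne_top hμ
    obtain ⟨α, x, a1, a2, hx, a3, a4⟩ := bm_trunc (measurable_hs hA)
      (((lt p hp).trans_le ha).trans_eq (volume_eq_hs hA)) n
    obtain ⟨β, y, b1, b2, hy, b3, b4⟩ := bm_trunc (measurable_hs hB)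
      (((lt q hq).trans_le hb).trans_eq (volume_eq_hs hB)) n
    refine bm_final hp hx hy a3 b3 ?_
    rw [volume_eq_hs hC, ← lintegral_const_mul _ a1, ← lintegral_const_mul _ b1,
      ← lintegral_const_mul _ (measurable_hs hC)]
    refine level (a1.const_mul _) (b1.const_mul _) ((measurable_hs hC).const_mul _)
      (a4.trans b4.symm) fun t s => bm_le' (by positivity) ?_
    refine ih (measurableSet_hs hA t) (measurableSet_hs hB s) (measurableSet_hs hC (t + s))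
      (fun u hu v hv => ?_) _ x y hx hy
      ((bm_le (by positivity) (min_le_left _ _)).trans (a2 t))
      ((bm_le (by positivity) (min_le_right _ _)).trans (b2 s))
    have := H _ hu _ hv
    rwa [cons_add] at this

theorem bm {N : ℕ} (hN : 0 < N) : BMStmt N := by
  intro A C a ρ hA hC hne ha hρ H hv
  rcases ha.eq_or_lt with rfl | ha'
  · obtain ⟨x, hx⟩ := hne
    rw [zero_add, ← Measure.addHaar_ball_center volume x]
    exact measure_mono (H x hx)
  obtain ⟨n, rfl⟩ : ∃ n, N = n + 1 := ⟨N - 1, by omega⟩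
  lift a to ℝ≥0 using ha
  lift ρ to ℝ≥0 using hρ.le
  have e : ∀ r : ℝ≥0, volume (ball (0 : E (n + 1)) r) =
      volume (ball (0 : E (n + 1)) 1) * (r ^ (n + 1) : ℝ≥0) := fun r => by
    rw [Measure.addHaar_ball _ _ r.coe_nonneg, finrank_euclideanSpace_fin, mul_comm,
      ← NNReal.coe_pow, ENNReal.ofReal_coe_nnreal]
  rw [← NNReal.coe_add, e]
  refine bm_add n hA (measurableSet_ball (x := 0) (ε := ρ)) hC (fun x hx y hy => H x hx ?_) _ a ρ
    ha' hρ ((e a).symm.trans_le hv) (e ρ).ge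
  rwa [mem_ball_iff_norm, add_sub_cancel_left, ← mem_ball_zero_iff]

end Pool.Agent.Lib.MP_54d1f6_an
end

-- part Pool.Agent.Lib.MP_54d1f6_an.Stmts2
section

/-!
Statements for the existence and uniqueness of the trace on a Lipschitz domain.
-/

namespace Pool.Agent.Lib.MP_54d1f6_an

open MeasureTheory Metric Set Filter Topology
open scoped RealInnerProductSpace ContDiff NNReal

/-- trace inequality for `C1` functions -/
def TraceIneqStmt (N : ℕ) : Prop :=
  ∀ Ω : Set (E N), IsLipschitzDomain Ω → ∃ C : ℝ≥0, ∀ φ : E N → ℝ, ContDiff ℝ 1 φ →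
    eLpNorm φ 2 (surf Ω) ≤
      C * (eLpNorm φ 2 (volume.restrict Ω) + eLpNorm (gradient φ) 2 (volume.restrict Ω))

/-- approximate identities converge in `L2` -/
def MollStmt (N : ℕ) (V : Type) [NormedAddCommGroup V] [NormedSpace ℝ V] : Prop :=
  ∀ (F : E N → V) (k : ℕ → E N → ℝ) (r : ℕ → ℝ), MemLp F 2 volume → (∀ n, Continuous (k n)) →
    (∀ n z, 0 ≤ k n z) → (∀ n, ∫ z, k n z = 1) → (∀ n z, k n z ≠ 0 → ‖z‖ ≤ r n) →
    Tendsto r atTop (𝓝 0) →
      Tendsto (fun n => eLpNorm (fun x => (∫ z, k n (x - z) • F z) - F x) 2 volume) atTop (𝓝 0)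

/-- density of `C1` functions of the whole space in `H1` of a Lipschitz domain -/
def DensityStmt (N : ℕ) : Prop :=
  ∀ (Ω : Set (E N)) (u : E N → ℝ) (G : E N → E N), IsLipschitzDomain Ω → IsH1 Ω u G →
    ∃ φ : ℕ → E N → ℝ, (∀ n, ContDiff ℝ 1 (φ n)) ∧
      Tendsto (fun n => eLpNorm (fun x => φ n x - u x) 2 (volume.restrict Ω)) atTop (𝓝 0) ∧
      Tendsto (fun n => eLpNorm (fun x => gradient (φ n) x - G x) 2 (volume.restrict Ω))
        atTop (𝓝 0)

end Pool.Agent.Lib.MP_54d1f6_an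
end

-- part Pool.Agent.Lib.MP_54d1f6_an.Sph
section

/-!
The area of the sphere, and consequences of the Lipschitz condition.
-/

namespace Pool.Agent.Lib.MP_54d1f6_an

open MeasureTheory Metric Set Filter Topology
open scoped RealInnerProductSpace ContDiff NNReal Pointwise

variable {N : ℕ}

lemma sph_image_le {X Y : Type*} [EMetricSpace X] [MeasurableSpace X] [BorelSpace X]
    [EMetricSpace Y] [MeasurableSpace Y] [BorelSpace Y] {K : ℝ≥0} {f : X → Y} {s : Set X}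
    (h : LipschitzOnWith K f s) (d : ℕ) :
    (μHE[d] : Measure Y) (f '' s) ≤ (K : ENNReal) ^ d * (μHE[d] : Measure X) s := by
  have h1 := h.hausdorffMeasure_image_le (d := (d : ℝ)) (by positivity)
  rw [ENNReal.rpow_natCast] at h1
  simp only [Measure.euclideanHausdorffMeasure_def, Measure.smul_apply, ENNReal.smul_def,
    smul_eq_mul]
  rw [mul_left_comm]
  exact mul_le_mul_right h1 _

lemma sph_radial {h : ℝ} (hh : 0 < h) {x y : E N} (hx : h ≤ ‖x‖) (hy : h ≤ ‖y‖) :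
    ‖(h / ‖x‖) • x - (h / ‖y‖) • y‖ ≤ ‖x - y‖ := by
  have hx0 : 0 < ‖x‖ := hh.trans_le hx
  have hy0 : 0 < ‖y‖ := hh.trans_le hy
  refine (pow_le_pow_iff_left₀ (norm_nonneg _) (norm_nonneg _) two_ne_zero).1 ?_
  rw [norm_sub_sq_real, norm_sub_sq_real, norm_smul, norm_smul, real_inner_smul_left,
    real_inner_smul_right, Real.norm_of_nonneg (by positivity),
    Real.norm_of_nonneg (by positivity), div_mul_cancel₀ _ hx0.ne', div_mul_cancel₀ _ hy0.ne']
  have hp := real_inner_le_norm x y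
  have ha : h / ‖x‖ ≤ 1 := (div_le_one hx0).2 hx
  have hb : h / ‖y‖ ≤ 1 := (div_le_one hy0).2 hy
  have hab : h / ‖x‖ * (h / ‖y‖) ≤ 1 := mul_le_one₀ ha (by positivity) hb
  have he : h ^ 2 = h / ‖x‖ * (h / ‖y‖) * (‖x‖ * ‖y‖) := by field_simp
  have h1 : h / ‖x‖ * (h / ‖y‖) * (‖x‖ * ‖y‖ - ⟪x, y⟫) ≤ 1 * (‖x‖ * ‖y‖ - ⟪x, y⟫) :=
    mul_le_mul_of_nonneg_right hab (by linarith)
  nlinarith [sq_nonneg (‖x‖ - ‖y‖)]

/-- one slice of a cone -/
lemma sph_slice {D : Set (E N)} (hD : ∀ x ∈ D, ∀ t : ℝ, 0 < t → t • x ∈ D) {e : E N}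
    (he : ‖e‖ = 1) {c R h : ℝ} (hc : 0 < c) (hR : 0 < R) (hcap : ∀ x ∈ D, c * ‖x‖ ≤ ⟪x, e⟫)
    (hh : h ∈ Ioo 0 (c * R)) :
    ENNReal.ofReal ((h / R) ^ (N - 1)) * (μHE[N - 1] : Measure (E N)) (sphere 0 R ∩ D) ≤
      (μHE[N - 1] : Measure (E N))
        (ball 0 R ∩ D ∩ AffineSubspace.mk' (h • e +ᵥ (0 : E N)) (ℝ ∙ e)ᗮ) := by
  have h0 := hh.1
  have hq : 0 < h / R := by positivity
  have hmem : ∀ x : E N, x ∈ AffineSubspace.mk' (h • e +ᵥ (0 : E N)) (ℝ ∙ e)ᗮ ↔ ⟪x, e⟫ = h := by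
    intro x
    rw [AffineSubspace.mem_mk', Submodule.mem_orthogonal_singleton_iff_inner_left, vadd_eq_add,
      add_zero, vsub_eq_sub, inner_sub_left, real_inner_smul_left, real_inner_self_eq_norm_sq, he,
      sub_eq_zero, one_pow, mul_one]
  have hge : ∀ x ∈ ball (0 : E N) R ∩ D ∩ AffineSubspace.mk' (h • e +ᵥ (0 : E N)) (ℝ ∙ e)ᗮ,
      h ≤ ‖x‖ := fun x hx => by
    have h1 := real_inner_le_norm x e
    rw [(hmem x).1 hx.2, he, mul_one] at h1
    exact h1
  have hlip : LipschitzOnWith 1 (fun x : E N => (h / ‖x‖) • x)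
      (ball 0 R ∩ D ∩ AffineSubspace.mk' (h • e +ᵥ (0 : E N)) (ℝ ∙ e)ᗮ) :=
    LipschitzOnWith.of_dist_le_mul fun x hx y hy => by
      rw [dist_eq_norm, dist_eq_norm, NNReal.coe_one, one_mul]
      exact sph_radial h0 (hge x hx) (hge y hy)
  have h2 := sph_image_le hlip (N - 1)
  rw [ENNReal.coe_one, one_pow, one_mul] at h2
  refine le_trans ?_ h2
  have h3 := Measure.euclideanHausdorffMeasure_smul₀ (N - 1) hq.ne' (sphere (0 : E N) R ∩ D)
  have h4 : ENNReal.ofReal ((h / R) ^ (N - 1)) = ((‖h / R‖₊ ^ (N - 1) : ℝ≥0) : ENNReal) := by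
    rw [ENNReal.ofReal_pow hq.le, ENNReal.coe_pow, ← enorm_eq_nnnorm, Real.enorm_eq_ofReal hq.le]
  rw [h4, ← smul_eq_mul, ← ENNReal.smul_def, ← h3]
  refine measure_mono ?_
  rintro _ ⟨a, ⟨ha, haD⟩, rfl⟩
  rw [mem_sphere_zero_iff_norm] at ha
  have h5 := hcap a haD
  rw [ha] at h5
  have h6 : 0 < ⟪a, e⟫ := (mul_pos hc hR).trans_le h5
  have h7 : 0 < h / ⟪a, e⟫ := by positivity
  have h8 : ‖(h / ⟪a, e⟫) • a‖ = h / ⟪a, e⟫ * R := by
    rw [norm_smul, Real.norm_of_nonneg h7.le, ha]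
  refine ⟨(h / ⟪a, e⟫) • a, ⟨⟨?_, hD a haD _ h7⟩, (hmem _).2 ?_⟩, ?_⟩
  · rw [mem_ball_zero_iff, h8]
    exact mul_lt_of_lt_one_left hR ((div_lt_one h6).2 (hh.2.trans_le h5))
  · rw [real_inner_smul_left, div_mul_cancel₀ _ h6.ne']
  · simp only [h8, smul_smul]
    congr 1
    field_simp

/-- a cone inside a cap -/
lemma sph_cone (hN : 0 < N) {D : Set (E N)} (hDm : MeasurableSet D)
    (hD : ∀ x ∈ D, ∀ t : ℝ, 0 < t → t • x ∈ D) {v : E N} {c R : ℝ} (hc : 0 < c) (hR : 0 < R)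
    (hcap : ∀ x ∈ D, c * ‖x‖ * ‖v‖ < ⟪x, v⟫) :
    ENNReal.ofReal (c ^ N * R / N) * (μHE[N - 1] : Measure (E N)) (sphere 0 R ∩ D) ≤
      volume (ball (0 : E N) R ∩ D) := by
  rcases eq_or_ne v 0 with rfl | hv
  · have : D = ∅ := eq_empty_of_forall_notMem fun x hx => by simpa using hcap x hx
    simp [this]
  have hv0 : 0 < ‖v‖ := norm_pos_iff.2 hv
  have he : ‖‖v‖⁻¹ • v‖ = 1 := by
    rw [norm_smul, norm_inv, norm_norm, inv_mul_cancel₀ hv0.ne']
  have hcap' : ∀ x ∈ D, c * ‖x‖ ≤ ⟪x, ‖v‖⁻¹ • v⟫ := fun x hx => by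
    rw [real_inner_smul_right, ← div_eq_inv_mul, le_div_iff₀ hv0]
    exact (hcap x hx).le
  generalize ‖v‖⁻¹ • v = e at he hcap'
  have he0 : e ≠ 0 := by rintro rfl; simp at he
  have h1 := EuclideanGeometry.euclideanHausdorffMeasure_eq_lintegral (0 : E N) he0
    (t := ball (0 : E N) R ∩ D) (measurableSet_ball.inter hDm)
  rw [InnerProductSpace.euclideanHausdorffMeasure_eq_volume, finrank_euclideanSpace_fin,
    ← ofReal_norm_eq_enorm, he, ENNReal.ofReal_one, one_mul] at h1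
  rw [h1]
  have h2 : ENNReal.ofReal (c ^ N * R / N) =
      ∫⁻ h in Ioo 0 (c * R), ENNReal.ofReal ((h / R) ^ (N - 1)) := by
    have hcont : Continuous fun h : ℝ => (h / R) ^ (N - 1) := by fun_prop
    rw [← ofReal_integral_eq_lintegral_ofReal
      (hcont.integrableOn_Icc.mono_set Ioo_subset_Icc_self)
      (ae_restrict_of_forall_mem measurableSet_Ioo fun h hh => by
        have := hh.1
        positivity), ← integral_Ioc_eq_integral_Ioo,
      ← intervalIntegral.integral_of_le (by positivity)]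
    congr 1
    obtain ⟨n, rfl⟩ : ∃ n, N = n + 1 := ⟨N - 1, by omega⟩
    simp only [div_pow, Nat.add_sub_cancel, intervalIntegral.integral_div, integral_pow]
    push_cast
    field_simp
    ring
  rw [h2, ← lintegral_mul_const _ (by fun_prop)]
  refine le_trans ?_ (setLIntegral_le_lintegral (Ioo 0 (c * R)) _)
  exact setLIntegral_mono' measurableSet_Ioo fun h hh => sph_slice hD he hc hR hcap' hh

lemma sph_aux (hN : 0 < N) {c R : ℝ} (hc : 0 < c) (hc1 : c < 1) (hR : 0 < R) :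
    ENNReal.ofReal (c ^ N * R / N) * (μHE[N - 1] : Measure (E N)) (sphere 0 R) ≤
      volume (ball (0 : E N) R) := by
  let v : ℕ → E N := TopologicalSpace.denseSeq (E N)
  let K : ℕ → Set (E N) := fun n => {x | c * ‖x‖ * ‖v n‖ < ⟪x, v n⟫}
  have hK : ∀ n, MeasurableSet (K n) := fun n =>
    (isOpen_lt (by fun_prop) (by fun_prop)).measurableSet
  have hKs : ∀ n (x : E N) (t : ℝ), 0 < t → (t • x ∈ K n ↔ x ∈ K n) := fun n x t ht => by
    simp only [K, mem_setOf_eq, norm_smul, real_inner_smul_left, Real.norm_of_nonneg ht.le]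
    rw [show c * (t * ‖x‖) * ‖v n‖ = t * (c * ‖x‖ * ‖v n‖) by ring, mul_lt_mul_iff_right₀ ht]
  have hDs : ∀ n, ∀ x ∈ disjointed K n, ∀ t : ℝ, 0 < t → t • x ∈ disjointed K n := by
    intro n x hx t ht
    simp only [disjointed_eq_inter_compl, mem_inter_iff, mem_iInter, mem_compl_iff] at hx ⊢
    simp only [hKs _ _ _ ht]
    exact hx
  have hcov : sphere (0 : E N) R ⊆ ⋃ n, sphere (0 : E N) R ∩ disjointed K n := by
    rw [← inter_iUnion, iUnion_disjointed]
    refine fun x hx => ⟨hx, ?_⟩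
    rw [mem_sphere_zero_iff_norm] at hx
    have ho : IsOpen {w : E N | c * ‖x‖ * ‖w‖ < ⟪x, w⟫} := isOpen_lt (by fun_prop) (by fun_prop)
    obtain ⟨n, hn⟩ := (TopologicalSpace.denseRange_denseSeq (E N)).exists_mem_open ho
      ⟨x, by
        simp only [mem_setOf_eq, real_inner_self_eq_norm_sq, hx]
        nlinarith [mul_pos hR hR]⟩
    exact mem_iUnion.2 ⟨n, hn⟩
  calc _ ≤ ENNReal.ofReal (c ^ N * R / N) *
        ∑' n, (μHE[N - 1] : Measure (E N)) (sphere 0 R ∩ disjointed K n) :=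
        mul_le_mul_right ((measure_mono hcov).trans (measure_iUnion_le _)) _
    _ ≤ ∑' n, volume (ball (0 : E N) R ∩ disjointed K n) := by
        rw [← ENNReal.tsum_mul_left]
        exact ENNReal.tsum_le_tsum fun n => sph_cone hN (MeasurableSet.disjointed hK n) (hDs n)
          hc hR fun x hx => disjointed_subset K n hx
    _ = volume (⋃ n, ball (0 : E N) R ∩ disjointed K n) :=
        (measure_iUnion ((disjoint_disjointed K).mono fun i j h =>
          h.mono inter_subset_right inter_subset_right)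
          fun n => measurableSet_ball.inter (MeasurableSet.disjointed hK n)).symm
    _ ≤ _ := measure_mono (iUnion_subset fun n => inter_subset_left)

theorem sph (hN : 0 < N) : SphStmt N := by
  intro R hR
  have hN' : (0 : ℝ) < N := by exact_mod_cast hN
  have h1 : ENNReal.ofReal (R / N) * (μHE[N - 1] : Measure (E N)) (sphere 0 R) ≤
      volume (ball (0 : E N) R) := by
    have ht : Tendsto (fun c : ℝ => ENNReal.ofReal (c ^ N * R / N) *
        (μHE[N - 1] : Measure (E N)) (sphere 0 R)) (𝓝[<] 1)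
        (𝓝 (ENNReal.ofReal (R / N) * (μHE[N - 1] : Measure (E N)) (sphere 0 R))) := by
      refine ENNReal.Tendsto.mul_const (ENNReal.tendsto_ofReal ?_)
        (Or.inl (ENNReal.ofReal_pos.2 (by positivity)).ne')
      have : Continuous fun c : ℝ => c ^ N * R / N := by fun_prop
      simpa using (this.tendsto 1).mono_left nhdsWithin_le_nhds
    refine le_of_tendsto ht ?_
    filter_upwards [Ioo_mem_nhdsLT (show (0 : ℝ) < 1 by norm_num)] with c hc
    exact sph_aux hN hc.1 hc.2 hR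
  have h2 : ENNReal.ofReal R = N * ENNReal.ofReal (R / N) := by
    rw [← ENNReal.ofReal_natCast, ← ENNReal.ofReal_mul hN'.le, mul_div_cancel₀ _ hN'.ne']
  rw [h2, mul_assoc]
  exact mul_le_mul_right h1 _

/-- a bounded piece of a Lipschitz graph has finite area -/
lemma lip_graph (hN : 0 < N) {e : E N} (he : ‖e‖ = 1) {γ : E N → ℝ} {L : ℝ≥0}
    (hγ : LipschitzWith L γ) (hinv : ∀ (x : E N) (t : ℝ), γ (x + t • e) = γ x) (M : ℝ) :
    (μHE[N - 1] : Measure (E N)) {x | ‖x‖ < M ∧ ⟪x, e⟫ = γ x} < ⊤ := by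
  have he0 : e ≠ 0 := by rintro rfl; simp at he
  have : Fact (Module.finrank ℝ (E N) = N - 1 + 1) :=
    ⟨by rw [finrank_euclideanSpace_fin]; omega⟩
  have hr : Module.finrank ℝ (ℝ ∙ e)ᗮ = N - 1 := Submodule.finrank_orthogonal_span_singleton he0
  have hl : LipschitzWith (1 + L) fun z : (ℝ ∙ e)ᗮ => (z : E N) + γ z • e := by
    refine LipschitzWith.of_dist_le_mul fun x y => ?_
    have h1 := hγ.dist_le_mul (x : E N) y
    rw [Subtype.dist_eq, dist_eq_norm, add_sub_add_comm, ← sub_smul]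
    refine (norm_add_le _ _).trans ?_
    rw [norm_smul, he, mul_one, ← dist_eq_norm, ← dist_eq_norm]
    push_cast
    linarith
  have h2 := sph_image_le (hl.lipschitzOnWith (s := ball 0 (2 * M))) (N - 1)
  refine lt_of_le_of_lt (measure_mono ?_) (h2.trans_lt (ENNReal.mul_lt_top
    (ENNReal.pow_lt_top ENNReal.coe_lt_top) ?_))
  · rintro x ⟨hx, hx1⟩
    refine ⟨⟨x + (-⟪x, e⟫) • e, ?_⟩, ?_, ?_⟩
    · rw [Submodule.mem_orthogonal_singleton_iff_inner_left, inner_add_left, real_inner_smul_left,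
        real_inner_self_eq_norm_sq, he]
      ring
    · rw [mem_ball_zero_iff]
      refine (norm_add_le x ((-⟪x, e⟫) • e)).trans_lt ?_
      have h3 := abs_real_inner_le_norm x e
      rw [norm_smul, he, norm_neg, Real.norm_eq_abs]
      rw [he] at h3
      linarith
    · simp only [hinv, ← hx1]
      simp
  · rw [← hr]
    exact measure_ball_lt_top

theorem lip (hN : 0 < N) : LipStmt N := by
  rintro Ω ⟨ho, hb, hL⟩
  have hnot : ∀ x ∈ frontier Ω, x ∉ Ω := fun x hx => by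
    rw [ho.frontier_eq] at hx
    exact hx.2
  refine ⟨⟨ho, hb, ?_⟩, fun x₀ hx₀ => ?_⟩
  · have hc : IsCompact (frontier Ω) :=
      isCompact_of_isClosed_isBounded isClosed_frontier (hb.closure.subset frontier_subset_closure)
    refine hc.measure_lt_top_of_nhdsWithin fun x₀ hx₀ => ?_
    obtain ⟨r, e, γ, L, hr, he, hγ, hinv, hΩ⟩ := hL x₀ hx₀
    refine ⟨frontier Ω ∩ ball x₀ r, inter_mem_nhdsWithin _ (ball_mem_nhds _ hr), ?_⟩
    refine lt_of_le_of_lt (measure_mono ?_) (lip_graph hN he hγ hinv (‖x₀‖ + r))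
    rintro x ⟨hx, hx1⟩
    refine ⟨?_, le_antisymm ?_ (not_lt.1 fun h => hnot x hx ((hΩ x hx1).2 h))⟩
    · have h1 := norm_add_le x₀ (x - x₀)
      rw [mem_ball_iff_norm] at hx1
      rw [add_sub_cancel] at h1
      linarith
    · by_contra h
      have hc := hγ.continuous
      have ho' : IsOpen (ball x₀ r ∩ {y : E N | γ y < ⟪y, e⟫}) :=
        isOpen_ball.inter (isOpen_lt hc (by fun_prop))
      obtain ⟨y, ⟨hy, hy1⟩, hy2⟩ :=
        mem_closure_iff.1 (frontier_subset_closure hx) _ ho' ⟨hx1, not_le.1 h⟩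
      exact lt_asymm ((hΩ y hy).1 hy2) hy1
  · obtain ⟨r, e, γ, L, hr, he, hγ, hinv, hΩ⟩ := hL x₀ hx₀
    have hL0 : (0 : ℝ) ≤ L := L.2
    refine ⟨1 / (1 + L), r / 2, by positivity, by positivity, fun δ hδ => ⟨x₀ + δ • e, ?_, ?_⟩⟩
    · rw [add_sub_cancel_left, norm_smul, he, mul_one, Real.norm_of_nonneg hδ.1.le]
    intro x hx
    rw [one_div, inv_mul_le_iff₀ (by positivity)]
    have h0 : γ x₀ ≤ ⟪x₀, e⟫ := not_lt.1 fun h => hnot x₀ hx₀ ((hΩ x₀ (mem_ball_self hr)).2 h)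
    by_cases hxb : x ∈ ball x₀ r
    · have h1 := (hΩ x hxb).1 hx
      have h2 := hγ.dist_le_mul x (x₀ + δ • e)
      rw [hinv, dist_eq_norm x, Real.dist_eq] at h2
      have h3 := abs_real_inner_le_norm (x - (x₀ + δ • e)) e
      rw [inner_sub_left, inner_add_left, real_inner_smul_left, real_inner_self_eq_norm_sq,
        he] at h3
      have h4 := le_abs_self (γ x - γ x₀)
      have h5 := neg_abs_le (⟪x, e⟫ - (⟪x₀, e⟫ + δ * 1 ^ 2))
      linarith
    · rw [mem_ball_iff_norm, not_lt] at hxb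
      have h1 := norm_add_le (x - (x₀ + δ • e)) (δ • e)
      rw [show x - (x₀ + δ • e) + δ • e = x - x₀ by abel, norm_smul, he, mul_one,
        Real.norm_of_nonneg hδ.1.le] at h1
      have h2 := hδ.2
      nlinarith [norm_nonneg (x - (x₀ + δ • e))]

end Pool.Agent.Lib.MP_54d1f6_an
end

-- part Pool.Agent.Lib.MP_54d1f6_an.TraceIneq
section

/-!
The L2 trace inequality for C1 functions on a Lipschitz domain.
-/

namespace Pool.Agent.Lib.MP_54d1f6_an

open MeasureTheory Metric Set Filter Topology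
open scoped RealInnerProductSpace ContDiff NNReal ENNReal

variable {N : ℕ}

/-- Fubini along the lines parallel to `e` -/
theorem tr_fubini {e : E N} (he : ‖e‖ = 1) {H : E N → ℝ≥0∞} (hH : Measurable H) :
    ∫⁻ z : (ℝ ∙ e)ᗮ, ∫⁻ t : ℝ, H ((z : E N) + t • e) = ∫⁻ x, H x := by
  have h1 := ((ℝ ∙ e).measurePreserving_measurableEquivProd (0 : E N)).symm
  rw [InnerProductSpace.euclideanHausdorffMeasure_eq_volume] at h1
  have h2 : MeasurePreserving
      (Prod.map (LinearIsometryEquiv.toSpanUnitSingleton (𝕜 := ℝ) e he) (id : (ℝ ∙ e)ᗮ → _))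
      ((volume : Measure ℝ).prod volume) (Measure.prod volume volume) :=
    (LinearIsometryEquiv.measurePreserving _).prod (MeasurePreserving.id _)
  have h3 := (h1.comp h2).lintegral_comp hH
  have h4 := lintegral_prod_symm (μ := (volume : Measure ℝ)) (ν := (volume : Measure (ℝ ∙ e)ᗮ)) _
    (hH.comp (h1.comp h2).measurable).aemeasurable
  refine Eq.trans ?_ (h4.symm.trans h3)
  refine lintegral_congr fun z => lintegral_congr fun t => ?_
  simp [add_comm]

/-- integration over a Lipschitz graph -/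
theorem tr_graph (hN : 0 < N) {e : E N} (he : ‖e‖ = 1) {γ : E N → ℝ} {L : ℝ≥0}
    (hγ : LipschitzWith L γ) (hinv : ∀ (x : E N) (t : ℝ), γ (x + t • e) = γ x)
    {F : E N → ℝ≥0∞} (hF : Measurable F) :
    ∫⁻ x in {x | ⟪x, e⟫ = γ x}, F x ∂(μHE[N - 1] : Measure (E N)) ≤
      ((1 + L : ℝ≥0) : ℝ≥0∞) ^ (N - 1) * ∫⁻ z : (ℝ ∙ e)ᗮ, F ((z : E N) + γ z • e) := by
  have he0 : e ≠ 0 := by rintro rfl; simp at he
  have : Fact (Module.finrank ℝ (E N) = N - 1 + 1) :=
    ⟨by rw [finrank_euclideanSpace_fin]; omega⟩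
  have hr : Module.finrank ℝ (ℝ ∙ e)ᗮ = N - 1 := Submodule.finrank_orthogonal_span_singleton he0
  have hl : LipschitzWith (1 + L) fun z : (ℝ ∙ e)ᗮ => (z : E N) + γ z • e := by
    refine LipschitzWith.of_dist_le_mul fun x y => ?_
    have h1 := hγ.dist_le_mul (x : E N) y
    rw [Subtype.dist_eq, dist_eq_norm, add_sub_add_comm, ← sub_smul]
    refine (norm_add_le _ _).trans ?_
    rw [norm_smul, he, mul_one, ← dist_eq_norm, ← dist_eq_norm]
    push_cast
    linarith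
  have hm : Measurable fun z : (ℝ ∙ e)ᗮ => (z : E N) + γ z • e := hl.continuous.measurable
  have hvol : (μHE[N - 1] : Measure (ℝ ∙ e)ᗮ) = volume := by
    rw [← hr]; exact InnerProductSpace.euclideanHausdorffMeasure_eq_volume
  have hle : (μHE[N - 1] : Measure (E N)).restrict {x | ⟪x, e⟫ = γ x} ≤
      (((1 + L : ℝ≥0) : ℝ≥0∞) ^ (N - 1)) •
        Measure.map (fun z : (ℝ ∙ e)ᗮ => (z : E N) + γ z • e) volume := by
    refine Measure.le_iff.2 fun B hB => ?_
    rw [Measure.restrict_apply hB, Measure.smul_apply, Measure.map_apply hm hB, smul_eq_mul,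
      ← hvol]
    refine le_trans (measure_mono ?_) (sph_image_le (hl.lipschitzOnWith) (N - 1))
    rintro x ⟨hx, hx1⟩
    have hz : x + (-⟪x, e⟫) • e ∈ (ℝ ∙ e)ᗮ := by
      rw [Submodule.mem_orthogonal_singleton_iff_inner_left, inner_add_left, real_inner_smul_left,
        real_inner_self_eq_norm_sq, he]
      ring
    have hx2 : ⟪x, e⟫ = γ x := hx1
    have hz2 : x + (-⟪x, e⟫) • e + γ (x + (-⟪x, e⟫) • e) • e = x := by
      rw [hinv, ← hx2]; simp
    refine ⟨⟨_, hz⟩, ?_, hz2⟩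
    show x + (-⟪x, e⟫) • e + γ (x + (-⟪x, e⟫) • e) • e ∈ B
    rw [hz2]; exact hx
  refine (lintegral_mono' hle le_rfl).trans ?_
  rw [lintegral_smul_measure, lintegral_map hF hm, smul_eq_mul]

/-- the one-dimensional estimate -/
theorem tr_line {φ : E N → ℝ} (hφ : ContDiff ℝ 1 φ) {e : E N} (he : ‖e‖ = 1) (x : E N) {h : ℝ}
    (hh : 0 < h) :
    φ x ^ 2 ≤ ∫ s in (0 : ℝ)..h, (1 / h + 1) * (φ (x - s • e) ^ 2 + ‖gradient φ (x - s • e)‖ ^ 2) := by
  have hd : Differentiable ℝ φ := hφ.differentiable one_ne_zero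
  have hc : Continuous φ := hφ.continuous
  have hn : ∀ y, ‖gradient φ y‖ = ‖fderiv ℝ φ y‖ := fun y => by
    simp [gradient]
  have hg : Continuous fun y => ‖gradient φ y‖ := by
    simp only [hn]; exact (hφ.continuous_fderiv one_ne_zero).norm
  have hder : ∀ s : ℝ, HasDerivAt (fun s : ℝ => φ (x - s • e)) (-(fderiv ℝ φ (x - s • e) e)) s := by
    intro s
    have h1 : HasDerivAt (fun s : ℝ => x - s • e) (-e) s := by
      simpa using ((hasDerivAt_id s).smul_const e).const_sub x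
    have h2 := (hd (x - s • e)).hasFDerivAt.comp_hasDerivAt s h1
    rw [map_neg] at h2
    exact h2
  have hw : ∀ s : ℝ, HasDerivAt (fun s : ℝ => (s / h - 1) * φ (x - s • e) ^ 2)
      (1 / h * φ (x - s • e) ^ 2 +
        (s / h - 1) * (2 * φ (x - s • e) * -(fderiv ℝ φ (x - s • e) e))) s := by
    intro s
    have h1 : HasDerivAt (fun s : ℝ => s / h - 1) (1 / h) s :=
      ((hasDerivAt_id s).div_const h).sub_const 1
    have h2 := (hder s).pow 2
    refine (h1.mul h2).congr_deriv ?_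
    simp
  have hcont : Continuous fun s : ℝ =>
      (1 / h + 1) * (φ (x - s • e) ^ 2 + ‖gradient φ (x - s • e)‖ ^ 2) := by
    have h1 : Continuous fun s : ℝ => x - s • e := by fun_prop
    exact continuous_const.mul (((hc.comp h1).pow 2).add ((hg.comp h1).pow 2))
  have key := intervalIntegral.sub_le_integral_of_hasDeriv_right_of_le hh.le
    (fun s _ => (hw s).continuousAt.continuousWithinAt) (fun s _ => (hw s).hasDerivWithinAt)
    (hcont.integrableOn_Icc) (fun s hs => ?_)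
  · have h1 : h / h - 1 = 0 := by rw [div_self hh.ne', sub_self]
    rw [h1] at key
    simpa using key
  · have h1 : |fderiv ℝ φ (x - s • e) e| ≤ ‖gradient φ (x - s • e)‖ := by
      rw [hn, ← Real.norm_eq_abs]
      simpa [he] using (fderiv ℝ φ (x - s • e)).le_opNorm e
    have h2 : 0 ≤ s / h := div_nonneg hs.1.le hh.le
    have h3 : s / h ≤ 1 := div_le_one_of_le₀ hs.2.le hh.le
    have h4 : 0 < 1 / h := by positivity
    generalize φ (x - s • e) = a at *
    generalize fderiv ℝ φ (x - s • e) e = b at *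
    generalize ‖gradient φ (x - s • e)‖ = c at *
    generalize s / h = u at *
    generalize 1 / h = v at *
    have h5 : b ^ 2 ≤ c ^ 2 := by rw [← sq_abs b]; exact pow_le_pow_left₀ (abs_nonneg _) h1 2
    have h6 : 2 * a * b ≤ a ^ 2 + c ^ 2 := by nlinarith [sq_nonneg (a - b)]
    have h7 : (1 - u) * (2 * a * b) ≤ (1 - u) * (a ^ 2 + c ^ 2) :=
      mul_le_mul_of_nonneg_left h6 (by linarith)
    nlinarith [mul_nonneg h2 (add_nonneg (sq_nonneg a) (sq_nonneg c)),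
      mul_nonneg h4.le (sq_nonneg c)]

theorem tr_cont_grad {φ : E N → ℝ} (hφ : ContDiff ℝ 1 φ) : Continuous fun y => ‖gradient φ y‖ := by
  have hn : ∀ y, ‖gradient φ y‖ = ‖fderiv ℝ φ y‖ := fun y => by
    simp [gradient]
  simp only [hn]; exact (hφ.continuous_fderiv one_ne_zero).norm

/-- the local trace inequality -/
theorem tr_local (hN : 0 < N) {Ω : Set (E N)} (hΩ : IsLipschitzDomain Ω) {x₀ : E N}
    (hx₀ : x₀ ∈ frontier Ω) : ∃ r : ℝ, 0 < r ∧ ∃ C : ℝ≥0, ∀ φ : E N → ℝ, ContDiff ℝ 1 φ →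
      ∫⁻ x in frontier Ω ∩ ball x₀ r, ENNReal.ofReal (φ x ^ 2) ∂(μHE[N - 1] : Measure (E N)) ≤
        C * ∫⁻ x in Ω, ENNReal.ofReal (φ x ^ 2 + ‖gradient φ x‖ ^ 2) := by
  obtain ⟨ho, hb, hL⟩ := hΩ
  have hnot : ∀ x ∈ frontier Ω, x ∉ Ω := fun x hx => by
    rw [ho.frontier_eq] at hx
    exact hx.2
  obtain ⟨r, e, γ, L, hr, he, hγ, hinv, hΩ⟩ := hL x₀ hx₀
  have hgr : ∀ x ∈ frontier Ω, x ∈ ball x₀ r → ⟪x, e⟫ = γ x := by
    intro x hx hx1
    refine le_antisymm ?_ (not_lt.1 fun h => hnot x hx ((hΩ x hx1).2 h))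
    by_contra h
    have hc := hγ.continuous
    have ho' : IsOpen (ball x₀ r ∩ {y : E N | γ y < ⟪y, e⟫}) :=
      isOpen_ball.inter (isOpen_lt hc (by fun_prop))
    obtain ⟨y, ⟨hy, hy1⟩, hy2⟩ :=
      mem_closure_iff.1 (frontier_subset_closure hx) _ ho' ⟨hx1, not_le.1 h⟩
    exact lt_asymm ((hΩ y hy).1 hy2) hy1
  have hh : 0 < r / 2 := half_pos hr
  set h := r / 2 with hhdef
  have hk : 0 ≤ 1 / h + 1 := by positivity
  refine ⟨h, hh, (1 + L) ^ (N - 1) * (1 / h + 1).toNNReal, fun φ hφ => ?_⟩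
  set G : E N → ℝ := fun y => (1 / h + 1) * (φ y ^ 2 + ‖gradient φ y‖ ^ 2) with hG
  have hGc : Continuous G :=
    continuous_const.mul ((hφ.continuous.pow 2).add ((tr_cont_grad hφ).pow 2))
  have hG0 : ∀ y, 0 ≤ G y := fun y => by positivity
  set H : E N → ℝ≥0∞ := Ω.indicator fun y => ENNReal.ofReal (G y) with hH
  have hHm : Measurable H := hGc.measurable.ennreal_ofReal.indicator ho.measurableSet
  set F : E N → ℝ≥0∞ := fun x => ∫⁻ s : ℝ, H (x - s • e) with hF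
  have hFm : Measurable F := by
    apply Measurable.lintegral_prod_right' (f := fun p : E N × ℝ => H (p.1 - p.2 • e))
    exact hHm.comp (by fun_prop)
  have hpt : ∀ x ∈ frontier Ω ∩ ball x₀ h, ENNReal.ofReal (φ x ^ 2) ≤ F x := by
    rintro x ⟨hx, hx1⟩
    have h1 := tr_line hφ he x hh
    have hc : Continuous fun s : ℝ => G (x - s • e) := hGc.comp (by fun_prop)
    refine (ENNReal.ofReal_le_ofReal h1).trans ?_
    rw [intervalIntegral.integral_of_le hh.le]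
    have h2 := ofReal_integral_eq_lintegral_ofReal (μ := volume.restrict (Ioc 0 h))
      (f := fun s : ℝ => G (x - s • e))
      (hc.integrableOn_Icc.mono_set Ioc_subset_Icc_self) (Eventually.of_forall fun s => hG0 _)
    refine h2.le.trans ?_
    rw [← lintegral_indicator measurableSet_Ioc]
    refine lintegral_mono fun s => ?_
    by_cases hs : s ∈ Ioc 0 h
    · have hb1 : x - s • e ∈ ball x₀ r := by
        rw [mem_ball_iff_norm] at hx1 ⊢
        have := norm_sub_le (x - x₀) (s • e)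
        rw [norm_smul, he, mul_one, Real.norm_of_nonneg hs.1.le] at this
        rw [sub_right_comm]
        linarith [hs.2]
      have hmem : x - s • e ∈ Ω := by
        refine (hΩ _ hb1).2 ?_
        have e1 : γ (x - s • e) = γ x := by
          rw [sub_eq_add_neg, ← neg_smul, hinv]
        rw [e1, inner_sub_left, real_inner_smul_left, real_inner_self_eq_norm_sq, he,
          hgr x hx (ball_subset_ball (by linarith) hx1)]
        linarith [hs.1]
      rw [indicator_of_mem hs, hH, indicator_of_mem hmem]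
    · rw [indicator_of_notMem hs]; exact zero_le
  have hms : MeasurableSet (frontier Ω ∩ ball x₀ h) :=
    isClosed_frontier.measurableSet.inter measurableSet_ball
  calc ∫⁻ x in frontier Ω ∩ ball x₀ h, ENNReal.ofReal (φ x ^ 2) ∂(μHE[N - 1] : Measure (E N))
      ≤ ∫⁻ x in frontier Ω ∩ ball x₀ h, F x ∂(μHE[N - 1] : Measure (E N)) :=
        setLIntegral_mono' hms hpt
    _ ≤ ∫⁻ x in {x | ⟪x, e⟫ = γ x}, F x ∂(μHE[N - 1] : Measure (E N)) :=
        lintegral_mono_set fun x hx => hgr x hx.1 (ball_subset_ball (by linarith) hx.2)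
    _ ≤ ((1 + L : ℝ≥0) : ℝ≥0∞) ^ (N - 1) * ∫⁻ z : (ℝ ∙ e)ᗮ, F ((z : E N) + γ z • e) :=
        tr_graph hN he hγ hinv hFm
    _ = ((1 + L : ℝ≥0) : ℝ≥0∞) ^ (N - 1) * ∫⁻ x, H x := by
        rw [← tr_fubini he hHm]
        congr 1
        refine lintegral_congr fun z => ?_
        rw [← lintegral_sub_left_eq_self (fun t : ℝ => H ((z : E N) + t • e)) (γ z)]
        refine lintegral_congr fun s => ?_
        rw [sub_smul, add_sub_assoc]
    _ = _ := by
        rw [hH, lintegral_indicator ho.measurableSet]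
        simp only [hG, ENNReal.ofReal_mul hk]
        rw [lintegral_const_mul' _ _ ENNReal.ofReal_ne_top, ← mul_assoc]
        push_cast
        rfl

theorem tr_sq {V : Type} [NormedAddCommGroup V] (f : E N → V) (μ : Measure (E N)) :
    eLpNorm f 2 μ ^ 2 = ∫⁻ x, ENNReal.ofReal (‖f x‖ ^ 2) ∂μ := by
  have h := eLpNorm_nnreal_pow_eq_lintegral (f := f) (μ := μ) (p := 2) two_ne_zero
  simp only [ENNReal.coe_ofNat, NNReal.coe_ofNat, ENNReal.rpow_ofNat] at h
  rw [h]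
  refine lintegral_congr fun x => ?_
  rw [ENNReal.ofReal_pow (norm_nonneg _), ofReal_norm]

theorem traceIneq (hN : 0 < N) : TraceIneqStmt N := by
  intro Ω hΩ
  have hc : IsCompact (frontier Ω) :=
    isCompact_of_isClosed_isBounded isClosed_frontier
      (hΩ.2.1.closure.subset frontier_subset_closure)
  have key : ∃ C : ℝ≥0, ∀ φ : E N → ℝ, ContDiff ℝ 1 φ →
      ∫⁻ x in frontier Ω, ENNReal.ofReal (φ x ^ 2) ∂(μHE[N - 1] : Measure (E N)) ≤
        C * ∫⁻ x in Ω, ENNReal.ofReal (φ x ^ 2 + ‖gradient φ x‖ ^ 2) := by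
    refine hc.induction_on (p := fun s => ∃ C : ℝ≥0, ∀ φ : E N → ℝ, ContDiff ℝ 1 φ →
      ∫⁻ x in s, ENNReal.ofReal (φ x ^ 2) ∂(μHE[N - 1] : Measure (E N)) ≤
        C * ∫⁻ x in Ω, ENNReal.ofReal (φ x ^ 2 + ‖gradient φ x‖ ^ 2)) ?_ ?_ ?_ ?_
    · exact ⟨0, fun φ _ => by simp⟩
    · rintro s t hst ⟨C, hC⟩
      exact ⟨C, fun φ hφ => (lintegral_mono_set hst).trans (hC φ hφ)⟩
    · rintro s t ⟨C, hC⟩ ⟨D, hD⟩
      refine ⟨C + D, fun φ hφ => (lintegral_union_le _ _ _).trans ?_⟩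
      rw [ENNReal.coe_add, add_mul]
      exact add_le_add (hC φ hφ) (hD φ hφ)
    · intro x hx
      obtain ⟨r, hr, h⟩ := tr_local hN hΩ hx
      exact ⟨_, inter_mem_nhdsWithin _ (ball_mem_nhds _ hr), h⟩
  obtain ⟨C, hC⟩ := key
  refine ⟨C + 1, fun φ hφ => ?_⟩
  have h1 := hC φ hφ
  have h2 : ∫⁻ x in Ω, ENNReal.ofReal (φ x ^ 2 + ‖gradient φ x‖ ^ 2) =
      eLpNorm φ 2 (volume.restrict Ω) ^ 2 + eLpNorm (gradient φ) 2 (volume.restrict Ω) ^ 2 := by
    have hm : Measurable fun x => ENNReal.ofReal (‖φ x‖ ^ 2) :=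
      (hφ.continuous.norm.pow 2).measurable.ennreal_ofReal
    rw [tr_sq, tr_sq, ← lintegral_add_left hm]
    refine lintegral_congr fun x => ?_
    rw [ENNReal.ofReal_add (sq_nonneg _) (sq_nonneg _), Real.norm_eq_abs, sq_abs]
  have h3 : eLpNorm φ 2 (surf Ω) ^ 2 =
      ∫⁻ x in frontier Ω, ENNReal.ofReal (φ x ^ 2) ∂(μHE[N - 1] : Measure (E N)) := by
    rw [tr_sq]
    simp only [Real.norm_eq_abs, sq_abs]
    rfl
  rw [← h3, h2] at h1
  generalize eLpNorm φ 2 (volume.restrict Ω) = a at *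
  generalize eLpNorm (gradient φ) 2 (volume.restrict Ω) = b at *
  refine (ENNReal.pow_le_pow_left_iff two_ne_zero).1 (h1.trans ?_)
  rw [mul_pow]
  refine mul_le_mul' ?_ ?_
  · rw [ENNReal.coe_add, ENNReal.coe_one, add_sq]
    refine le_trans ?_ (le_self_add.trans' le_add_self)
    rw [mul_one, two_mul]; exact le_self_add
  · rw [add_sq, add_right_comm]; exact le_self_add

end Pool.Agent.Lib.MP_54d1f6_an
end

-- part Pool.Agent.Lib.MP_54d1f6_an.Dist
section

/-!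
The distribution function of the Robin torsion function is bounded by that of the ball.
-/

namespace Pool.Agent.Lib.MP_54d1f6_an

open MeasureTheory Metric Set Filter Topology
open scoped RealInnerProductSpace ContDiff NNReal

variable {N : ℕ}

lemma dist_vol_ball (hN : 0 < N) {r : ℝ} (hr : 0 ≤ r) :
    volume (ball (0 : E N) r) = ENNReal.ofReal (r ^ N) * volume (ball (0 : E N) 1) := by
  have : Nontrivial (E N) := by
    have : Nonempty (Fin N) := ⟨⟨0, hN⟩⟩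
    infer_instance
  rw [Measure.addHaar_ball _ _ hr, finrank_euclideanSpace_fin]

lemma dist_exists_radius (hN : 0 < N) {A : Set (E N)} (h0 : volume A ≠ 0) (ht : volume A ≠ ⊤) :
    ∃ r : ℝ, 0 < r ∧ volume (ball (0 : E N) r) = volume A := by
  have h1 : volume (ball (0 : E N) 1) ≠ 0 := (measure_ball_pos _ _ one_pos).ne'
  have h2 : volume (ball (0 : E N) 1) ≠ ⊤ := measure_ball_lt_top.ne
  set c : ℝ := (volume A / volume (ball (0 : E N) 1)).toReal with hc
  have hq0 : volume A / volume (ball (0 : E N) 1) ≠ 0 := by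
    simp [ENNReal.div_eq_zero_iff, h0, h2]
  have hqt : volume A / volume (ball (0 : E N) 1) ≠ ⊤ := ENNReal.div_ne_top ht h1
  have hc0 : 0 < c := ENNReal.toReal_pos hq0 hqt
  refine ⟨c ^ ((N : ℝ)⁻¹), by positivity, ?_⟩
  rw [dist_vol_ball hN (by positivity), Real.rpow_inv_natCast_pow hc0.le hN.ne', hc,
    ENNReal.ofReal_toReal hqt, ENNReal.div_mul_cancel h1 h2]

lemma dist_le_of_vol (hN : 0 < N) {r R : ℝ} (hr : 0 ≤ r) (hR : 0 ≤ R)
    (h : volume (ball (0 : E N) r) ≤ volume (ball (0 : E N) R)) : r ≤ R := by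
  have h1 : volume (ball (0 : E N) 1) ≠ 0 := (measure_ball_pos _ _ one_pos).ne'
  have h2 : volume (ball (0 : E N) 1) ≠ ⊤ := measure_ball_lt_top.ne
  rw [dist_vol_ball hN hr, dist_vol_ball hN hR, ENNReal.mul_le_mul_iff_left h1 h2,
    ENNReal.ofReal_le_ofReal_iff (by positivity)] at h
  exact (pow_le_pow_iff_left₀ hr hR hN.ne').1 h

theorem dist_bound (hN : 0 < N) (hbm : BMStmt N) (htal : TalStmt N) (hgap : GapStmt N)
    (habp : AbpStmt N) (hsub : SubStmt N) {Ω : Set (E N)} (hΩ : IsOpen Ω)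
    (hbd : Bornology.IsBounded Ω) (hc : Cork Ω) {β R : ℝ} (hβ : 0 < β) (hR : 0 < R)
    (hvol : volume (ball (0 : E N) R) = volume Ω) {W : E N → ℝ} (hW : ContDiffOn ℝ 2 W Ω)
    (hlap : ∀ x ∈ Ω, lap W x = -1)
    (hP : ∀ Φ : E N → ℝ, ContDiff ℝ 2 Φ → (∀ x ∈ frontier Ω, ‖fderiv ℝ Φ x‖ ≤ β * Φ x) →
      (∀ x ∈ Ω, Φ x < W x → 1 + lap Φ x < 0) → ∀ x ∈ Ω, W x ≤ Φ x) (t : ℝ) :
    volume {x | x ∈ Ω ∧ t < W x} ≤ volume {x | x ∈ ball (0 : E N) R ∧ t < wB N β R x} := by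
  have hN' : (0 : ℝ) < N := by exact_mod_cast hN
  set A : Set (E N) := {x | x ∈ Ω ∧ t < W x} with hA
  rcases A.eq_empty_or_nonempty with hAe | hAn
  · simp [hAe]
  have hne : Ω.Nonempty := ⟨hAn.some, hAn.some_mem.1⟩
  have hAΩ : volume A ≤ volume (ball (0 : E N) R) := hvol ▸ measure_mono fun x hx => hx.1
  by_cases ht : t ≤ R / (N * β)
  · refine hAΩ.trans (measure_mono fun x hx => ⟨hx, ?_⟩)
    have hx' : ‖x‖ < R := by simpa using hx
    have : ‖x‖ ^ 2 < R ^ 2 := by nlinarith [norm_nonneg x]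
    have : 0 < (R ^ 2 - ‖x‖ ^ 2) / (2 * N) := div_pos (by linarith) (by positivity)
    unfold wB
    linarith
  push Not at ht
  have hAo : IsOpen A := hW.continuousOn.isOpen_inter_preimage hΩ (isOpen_Ioi (a := t))
  obtain ⟨r, hr, hrA⟩ := dist_exists_radius hN (hAo.measure_pos volume hAn).ne'
    (hAΩ.trans_lt measure_ball_lt_top).ne
  have hrR : r ≤ R := dist_le_of_vol hN hr.le hR.le (hrA ▸ hAΩ)
  set b : ℝ := β * R / N with hb
  have hb0 : 0 < b := by positivity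
  set l : ℝ := 1 + 1 / (N * b) with hl
  have hl0 : 0 < l := by positivity
  set s₀ : ℝ := b / (2 * β ^ 2) with hs₀
  set ρ : ℝ := r / (N * b) with hρ
  have hρ0 : 0 < ρ := by positivity
  set s : ℝ := t - b / 2 * ρ ^ 2 with hs
  have hvm : R / (N * β) - s₀ = R ^ 2 / (2 * N ^ 2 * b) := by
    rw [hs₀, hb]; field_simp; ring
  have hρ2 : b / 2 * ρ ^ 2 = r ^ 2 / (2 * N ^ 2 * b) := by
    rw [hρ]; field_simp
  have hss : s₀ < s := by
    have : r ^ 2 / (2 * N ^ 2 * b) ≤ R ^ 2 / (2 * N ^ 2 * b) := by gcongr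
    rw [hs, hρ2]; linarith
  have key : ∀ s₁, s₀ < s₁ → s₁ ≤ s → (r + ρ) ^ 2 + 2 * N * (s - s₁) * l ≤ (l * R) ^ 2 := by
    intro s₁ h1 h2
    obtain ⟨hbdd, K, hK, hKΩ, hcont⟩ :=
      hgap Ω β b s₁ W hΩ hbd hne hc hβ hb0 h1 hW.continuousOn hP
    obtain ⟨⟨L, hL⟩, hbU, hdis⟩ := hsub Ω K b s₁ W hΩ hbd hne hb0 hW hlap hbdd hK hKΩ hcont
    have hle : ∀ y, ∀ z ∈ Ω, W z - b / 2 * ‖z - y‖ ^ 2 ≤ supc Ω W b y := by
      intro y z hz
      refine le_csSup ?_ ⟨z, hz, rfl⟩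
      obtain ⟨M, hM⟩ := hbdd
      refine ⟨M, ?_⟩
      rintro _ ⟨x, hx, rfl⟩
      have := hM ⟨x, hx, rfl⟩
      have : 0 ≤ b / 2 * ‖x - y‖ ^ 2 := by positivity
      show W x - b / 2 * ‖x - y‖ ^ 2 ≤ M
      linarith
    have hset : ∀ s', s₁ ≤ s' →
        {y | s' < max (supc Ω W b y) s₁} = {y | s' < supc Ω W b y} := by
      intro s' hs'
      ext y
      simp only [mem_ofPred_eq, lt_max_iff, or_iff_left (not_lt.2 hs')]
    have hU : volume {y | s₁ < supc Ω W b y} ≤ volume (ball (0 : E N) (l * R)) := by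
      refine (habp Ω b W _ hΩ hb0 hW hlap fun y hy => ?_).trans (le_of_eq ?_)
      · obtain ⟨x, hx, hxe⟩ := hcont y hy
        exact ⟨x, hKΩ hx, fun z hz => hxe ▸ hle y z hz⟩
      · rw [← hvol, dist_vol_ball hN hR.le, dist_vol_ball hN (by positivity : 0 ≤ l * R),
          mul_pow, ENNReal.ofReal_mul (by positivity), mul_assoc]
    have hκ : 0 < N * b / (1 + N * b) := by positivity
    have hmeas : MeasurableSet {y | s < supc Ω W b y} := by
      rw [← hset s h2]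
      exact (isOpen_lt continuous_const hL.continuous).measurableSet
    have hBM := hbm A {y | s < supc Ω W b y} r ρ hAo.measurableSet hmeas hAn hr.le hρ0
      (fun x hx y hy => by
        have h3 : ‖x - y‖ < ρ := by rw [mem_ball, dist_comm, dist_eq_norm] at hy; exact hy
        have h4 : ‖x - y‖ ^ 2 < ρ ^ 2 := by nlinarith [norm_nonneg (x - y)]
        have h5 := hle y x hx.1
        have h6 := hx.2
        show s < supc Ω W b y
        nlinarith) hrA.le
    have := htal (fun y => max (supc Ω W b y) s₁) L s₁ (N * b / (1 + N * b)) (l * R) hL hκ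
      (by positivity) (by rw [hset s₁ le_rfl]; exact hbU) (fun ε hε => by
        obtain ⟨t₀, ht₀, H⟩ := hdis ε hε
        refine ⟨t₀, ht₀, fun τ hτ y hy => ?_⟩
        have hy' : s₁ < supc Ω W b y := by simpa using hy
        refine (H τ hτ y hy').trans (Finset.sum_le_sum fun i _ => ?_)
        rw [max_eq_left hy'.le]
        have := le_max_left (supc Ω W b (y + τ • bas i)) s₁
        have := le_max_left (supc Ω W b (y - τ • bas i)) s₁
        linarith) (by rw [hset s₁ le_rfl]; exact hU) s (r + ρ) h2 (by positivity)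
      (by rw [hset s h2]; exact hBM)
    have e : 2 * N * (s - s₁) / (N * b / (1 + N * b)) = 2 * N * (s - s₁) * l := by
      rw [hl]; field_simp; ring
    rwa [e] at this
  have key2 : (r + ρ) ^ 2 + 2 * N * (s - s₀) * l ≤ (l * R) ^ 2 := by
    have hcont : ContinuousAt (fun s₁ : ℝ => (r + ρ) ^ 2 + 2 * N * (s - s₁) * l) s₀ := by
      fun_prop
    refine le_of_tendsto (hcont.tendsto.mono_left (nhdsWithin_le_nhds (s := Ioi s₀))) ?_
    filter_upwards [Ioo_mem_nhdsGT hss] with s₁ h1 using key s₁ h1.1 h1.2.le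
  have hrl : r + ρ = l * r := by rw [hρ, hl]; field_simp
  have key3 : r ^ 2 + 2 * N * (t - R / (N * β)) ≤ R ^ 2 := by
    rw [hrl] at key2
    have e1 : s - s₀ = (t - R / (N * β)) + (R ^ 2 - r ^ 2) / (2 * N ^ 2 * b) := by
      rw [hs, hρ2, sub_div]; linarith
    have e2 : 2 * N * ((R ^ 2 - r ^ 2) / (2 * N ^ 2 * b)) = (l - 1) * (R ^ 2 - r ^ 2) := by
      rw [hl]; field_simp; ring
    have e3 : l * (l * r ^ 2 + 2 * N * (s - s₀)) ≤ l * (l * R ^ 2) := by nlinarith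
    have e4 := le_of_mul_le_mul_left e3 hl0
    rw [e1, mul_add, e2] at e4
    linarith
  rw [← hrA]
  refine measure_mono fun x hx => ?_
  have hx' : ‖x‖ < r := by simpa using hx
  refine ⟨by simpa using hx'.trans_le hrR, ?_⟩
  have h1 : ‖x‖ ^ 2 < r ^ 2 := by nlinarith [norm_nonneg x]
  unfold wB
  have : t - R / (N * β) < (R ^ 2 - ‖x‖ ^ 2) / (2 * N) := by
    rw [lt_div_iff₀ (by positivity)]; linarith
  linarith

end Pool.Agent.Lib.MP_54d1f6_an
end

-- part Pool.Agent.Lib.MP_54d1f6_an.Main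
section

/-!
Assembly of the L1 comparison from the statements of the steps.
-/

namespace Pool.Agent.Lib.MP_54d1f6_an

open MeasureTheory Metric Set Filter Topology
open scoped RealInnerProductSpace ContDiff NNReal

variable {N : ℕ}

lemma main_finite {Ω : Set (E N)} (h : Nice Ω) : IsFiniteMeasure (volume.restrict Ω) :=
  isFiniteMeasure_restrict.2 h.2.1.measure_lt_top.ne

lemma main_fderiv_normSq (c d : ℝ) (x : E N) :
    HasFDerivAt (fun y : E N => c - d * ‖y‖ ^ 2) (-(2 * d) • innerSL ℝ x) x := by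
  have h := ((hasStrictFDerivAt_norm_sq x).hasFDerivAt.const_mul d).const_sub c
  refine h.congr_fderiv ?_
  ext v
  simp
  ring

lemma main_lap_normSq (c d : ℝ) (x : E N) :
    lap (fun y : E N => c - d * ‖y‖ ^ 2) x = -(2 * d * N) := by
  unfold lap
  have h1 : ∀ i : Fin N, (fun y : E N => fderiv ℝ (fun y : E N => c - d * ‖y‖ ^ 2) y (bas i)) =
      fun y => -(2 * d) * innerSL ℝ (bas i) y := by
    intro i
    funext y
    rw [(main_fderiv_normSq c d y).fderiv]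
    simp [real_inner_comm]
  have h2 : ∀ i : Fin N, fderiv ℝ (fun y : E N => -(2 * d) * innerSL ℝ (bas i) y) x (bas i) =
      -(2 * d) := by
    intro i
    rw [((innerSL ℝ (bas i)).hasFDerivAt.const_mul (-(2 * d))).fderiv]
    simp [bas]
  simp only [h1, h2]
  simp
  ring

lemma main_neg_sol (hlin : AdmLinStmt N) {Ω : Set (E N)} (hΩ : Nice Ω) {β : ℝ} {f u : E N → ℝ}
    (hu : IsRobinSolution β Ω f u) : IsRobinSolution β Ω (fun x => -f x) (fun x => -u x) := by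
  obtain ⟨G, g, h1, h2, h3⟩ := hu
  have := hlin Ω u u G G g g (-1) 0 hΩ ⟨h1, h2⟩ ⟨h1, h2⟩
  simp only [neg_mul, one_mul, zero_mul, add_zero, neg_smul, one_smul, zero_smul] at this
  refine ⟨_, _, this.1, this.2, fun φ Gφ gφ a b => ?_⟩
  have := h3 φ Gφ gφ a b
  simp only [inner_neg_left, neg_mul, integral_neg]
  linarith

lemma main_nonneg (hN : 0 < N) (hlin : AdmLinStmt N) (hcmp : CompareStmt N) {Ω : Set (E N)}
    (hΩ : Nice Ω) {β : ℝ} (hβ : 0 < β) {f u : E N → ℝ} (hf : MemLp f 2 (volume.restrict Ω))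
    (hf0 : ∀ᵐ x ∂(volume.restrict Ω), 0 ≤ f x) (hu : IsRobinSolution β Ω f u) :
    ∀ᵐ x ∂(volume.restrict Ω), 0 ≤ u x := by
  have hN' : (0 : ℝ) < N := by exact_mod_cast hN
  obtain ⟨D, hD0, hD⟩ := (hΩ.2.1.closure).subset_closedBall_lt 0 0
  set C : ℝ := D ^ 2 + 2 * D / β with hC
  have key : ∀ ε : ℝ, 0 < ε → ∀ᵐ x ∂(volume.restrict Ω), -u x ≤ ε * C - ε * ‖x‖ ^ 2 := by
    intro ε hε
    refine hcmp Ω β (fun x => -f x) (fun x => -u x) (fun x => ε * C - ε * ‖x‖ ^ 2) hΩ hβ hf.neg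
      (main_neg_sol hlin hΩ hu) (contDiff_const.sub (contDiff_const.mul (contDiff_norm_sq ℝ)))
      (fun x hx => ?_) ?_
    · have hx' : ‖x‖ ≤ D := by simpa using hD (frontier_subset_closure hx)
      rw [(main_fderiv_normSq (ε * C) ε x).fderiv, norm_smul, innerSL_apply_norm, norm_neg,
        Real.norm_of_nonneg (by positivity)]
      have h1 : ‖x‖ ^ 2 ≤ D ^ 2 := by gcongr
      have h2 : β * (ε * C - ε * ‖x‖ ^ 2) = ε * (2 * D + β * (D ^ 2 - ‖x‖ ^ 2)) := by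
        rw [hC]; field_simp; ring
      rw [h2]
      have : 0 ≤ β * (D ^ 2 - ‖x‖ ^ 2) := mul_nonneg hβ.le (by linarith)
      nlinarith
    · filter_upwards [hf0] with x hx _
      rw [main_lap_normSq]
      have : 0 < 2 * ε * N := by positivity
      linarith
  have h2 : ∀ᵐ x ∂(volume.restrict Ω), ∀ n : ℕ,
      -u x ≤ 1 / ((n : ℝ) + 1) * C - 1 / ((n : ℝ) + 1) * ‖x‖ ^ 2 :=
    ae_all_iff.2 fun n => key _ (by positivity)
  filter_upwards [h2] with x hx
  have ht : Tendsto (fun n : ℕ => 1 / ((n : ℝ) + 1) * C - 1 / ((n : ℝ) + 1) * ‖x‖ ^ 2) atTop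
      (𝓝 (0 * C - 0 * ‖x‖ ^ 2)) :=
    (tendsto_one_div_add_atTop_nhds_zero_nat.mul_const _).sub
      (tendsto_one_div_add_atTop_nhds_zero_nat.mul_const _)
  have := ge_of_tendsto' ht hx
  linarith

lemma main_inner_gradient (ψ : E N → ℝ) (x v : E N) :
    ⟪v, gradient ψ x⟫ = ∑ i, fderiv ℝ ψ x (bas i) * ⟪v, bas i⟫ := by
  have h : ∀ z : E N, ⟪gradient ψ x, z⟫ = fderiv ℝ ψ x z := fun z => by
    simp [gradient]
  rw [real_inner_comm, h]
  conv_lhs => rw [← (EuclideanSpace.basisFun (Fin N) ℝ).sum_repr' v]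
  rw [map_sum]
  refine Finset.sum_congr rfl fun i _ => ?_
  rw [map_smul, smul_eq_mul, mul_comm, real_inner_comm]
  simp [bas]

lemma main_weak (hsm : AdmSmoothStmt N) {Ω : Set (E N)} (hΩ : Nice Ω) {β : ℝ} {w : E N → ℝ}
    (hw : IsRobinSolution β Ω (fun _ => 1) w) (ψ : E N → ℝ) (hψ : ContDiff ℝ ∞ ψ)
    (hc : HasCompactSupport ψ) (hs : tsupport ψ ⊆ Ω) :
    ∫ x in Ω, w x * lap ψ x = -∫ x in Ω, ψ x := by
  have := main_finite hΩ
  obtain ⟨G, g, h1, h2, h3⟩ := hw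
  have hA := hsm Ω ψ hΩ (hψ.of_le (by simp))
  have e1 := h3 ψ _ _ hA.1 hA.2
  have e2 : ∫ x, g x * ψ x ∂(surf Ω) = 0 := by
    refine integral_eq_zero_of_ae ?_
    unfold surf
    filter_upwards [ae_restrict_mem isClosed_frontier.measurableSet] with x hx
    have : x ∉ tsupport ψ := fun h => by
      rw [hΩ.1.frontier_eq] at hx
      exact hx.2 (hs h)
    simp [image_eq_zero_of_notMem_tsupport this]
  simp only [e2, mul_zero, add_zero, one_mul] at e1
  have hd : ∀ i : Fin N, ContDiff ℝ ∞ fun y => fderiv ℝ ψ y (bas i) := fun i =>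
    (hψ.fderiv_right (m := ∞) (by simp)).clm_apply contDiff_const
  have hdc : ∀ i : Fin N, HasCompactSupport fun y => fderiv ℝ ψ y (bas i) := fun i =>
    hc.fderiv_apply ℝ (bas i)
  have hds : ∀ i : Fin N, tsupport (fun y => fderiv ℝ ψ y (bas i)) ⊆ Ω := fun i =>
    (tsupport_fderiv_apply_subset ℝ (bas i)).trans hs
  have hint : ∀ {a b : E N → ℝ}, MemLp a 2 (volume.restrict Ω) → Continuous b →
      HasCompactSupport b → Integrable (fun x => a x * b x) (volume.restrict Ω) := by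
    intro a b ha hb hbc
    exact ha.integrable_mul ((hb.memLp_of_hasCompactSupport (p := 2) hbc).restrict Ω)
  have hG : ∀ i : Fin N, MemLp (fun x => ⟪G x, bas i⟫) 2 (volume.restrict Ω) := fun i =>
    h1.gradL2.inner_const (bas i)
  rw [← e1]
  simp only [lap, Finset.mul_sum, main_inner_gradient]
  rw [integral_finsetSum _ fun i _ => hint h1.memL2
      (((hd i).continuous_fderiv (by simp)).clm_apply continuous_const)
      ((hdc i).fderiv_apply ℝ (bas i)),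
    integral_finsetSum _ fun i _ => by
      simpa only [mul_comm] using hint (hG i) (hd i).continuous (hdc i),
    ← Finset.sum_neg_distrib]
  exact Finset.sum_congr rfl fun i _ => h1.weak _ (hd i) (hdc i) (hds i) (bas i)

lemma main_wB (β R : ℝ) : wB N β R =
    fun x : E N => (R / (N * β) + R ^ 2 / (2 * N)) - 1 / (2 * N) * ‖x‖ ^ 2 := by
  funext x
  unfold wB
  ring

theorem main_of (hN : 0 < N) (hbm : BMStmt N) (htal : TalStmt N) (hgap : GapStmt N)
    (habp : AbpStmt N) (hsub : SubStmt N) (hsph : SphStmt N) (hlip : LipStmt N)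
    (hweyl : WeylStmt N) (hsm : AdmSmoothStmt N) (hlin : AdmLinStmt N) (hball : BallStmt N)
    (hex : ExistStmt N) (hcmp : CompareStmt N) (hhl : HLStmt N)
    {β : ℝ} (hβ : 0 < β) {Ω : Set (E N)} (hΩ : IsLipschitzDomain Ω) {f : E N → ℝ}
    (hf : MemLp f 2 (volume.restrict Ω)) (hf0 : ∀ᵐ x ∂(volume.restrict Ω), 0 ≤ f x)
    {R : ℝ} (hR : 0 < R) (hvol : volume (ball (0 : E N) R) = volume Ω) :
    (∃ u, IsRobinSolution β Ω f u) ∧
    (∃ v, IsRobinSolution β (ball (0 : E N) R) (schwarz Ω f) v) ∧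
    ∀ u v : E N → ℝ, IsRobinSolution β Ω f u →
      IsRobinSolution β (ball (0 : E N) R) (schwarz Ω f) v →
        eLpNorm u 1 (volume.restrict Ω) ≤ eLpNorm v 1 (volume.restrict (ball (0 : E N) R)) := by
  have hN' : (0 : ℝ) < N := by exact_mod_cast hN
  obtain ⟨hn, hck⟩ := hlip Ω hΩ
  have := main_finite hn
  have hnB : Nice (ball (0 : E N) R) := by
    refine ⟨isOpen_ball, isBounded_ball, ?_⟩
    rw [frontier_ball _ hR.ne']
    by_contra hcon
    have h1 := hsph R hR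
    rw [not_lt_top_iff.1 hcon, ENNReal.mul_top (by simpa using hR)] at h1
    exact absurd h1 (not_le.2 (ENNReal.mul_lt_top (by simp) measure_ball_lt_top))
  have := main_finite hnB
  have h1 : MemLp (fun _ : E N => (1 : ℝ)) 2 (volume.restrict Ω) := memLp_const 1
  obtain ⟨w, hw⟩ := hex Ω β _ hn hβ h1
  have hw2 : MemLp w 2 (volume.restrict Ω) := by
    obtain ⟨G, g, h, -⟩ := hw
    exact h.memL2
  obtain ⟨W, hW, hWw, hlap⟩ := hweyl Ω w hn.1 (hw2.integrable (by simp)) (main_weak hsm hn hw)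
  have hP : ∀ Φ : E N → ℝ, ContDiff ℝ 2 Φ → (∀ x ∈ frontier Ω, ‖fderiv ℝ Φ x‖ ≤ β * Φ x) →
      (∀ x ∈ Ω, Φ x < W x → 1 + lap Φ x < 0) → ∀ x ∈ Ω, W x ≤ Φ x := by
    intro Φ hΦ a b
    have c := hcmp Ω β _ w Φ hn hβ h1 hw hΦ a (by
      filter_upwards [hWw, ae_restrict_mem hn.1.measurableSet] with x hx hx' h
      exact b x hx' (hx ▸ h))
    by_contra hcon
    push Not at hcon
    obtain ⟨x, hx, hx'⟩ := hcon
    have ho : IsOpen (Ω ∩ (fun y => W y - Φ y) ⁻¹' Ioi 0) :=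
      (hW.continuousOn.sub hΦ.continuous.continuousOn).isOpen_inter_preimage hn.1 isOpen_Ioi
    have hpos := ho.measure_pos volume ⟨x, hx, by simpa using hx'⟩
    have c2 : ∀ᵐ y ∂(volume.restrict Ω), W y ≤ Φ y := by
      filter_upwards [c, hWw] with y h h'
      rwa [h']
    rw [ae_restrict_iff' hn.1.measurableSet, ae_iff] at c2
    refine hpos.ne' (measure_mono_null (fun y hy => ?_) c2)
    have : 0 < W y - Φ y := hy.2
    simp only [mem_ofPred_eq, Classical.not_imp, not_le]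
    exact ⟨hy.1, by linarith⟩
  have hW2 : MemLp W 2 (volume.restrict Ω) := hw2.ae_eq (hWw.mono fun x hx => hx.symm)
  obtain ⟨hs2, hHL⟩ := hhl Ω β R f W hn.1.measurableSet hβ hR hvol hf hf0 hW2 fun t _ =>
    dist_bound hN hbm htal hgap habp hsub hn.1 hn.2.1 hck hβ hR hvol hW hlap hP t
  refine ⟨hex Ω β f hn hβ hf, hex _ β _ hnB hβ hs2, fun u v hu hv => ?_⟩
  have hu0 := main_nonneg hN hlin hcmp hn hβ hf hf0 hu
  obtain ⟨G, g, a1, a2, a3⟩ := hu
  obtain ⟨Gw, gw, b1, b2, b3⟩ := hw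
  obtain ⟨Gv, gv, c1, c2, c3⟩ := hv
  have e1 : ∫ x in Ω, u x = ∫ x in Ω, f x * W x := by
    have p := a3 w Gw gw b1 b2
    have q := b3 u G g a1 a2
    simp only [one_mul] at q
    have r : ∫ x in Ω, f x * W x = ∫ x in Ω, f x * w x :=
      integral_congr_ae (hWw.mono fun x hx => by simp [hx])
    rw [← q, r, ← p]
    simp only [real_inner_comm, mul_comm]
  have hB : ContDiff ℝ 1 (wB N β R) := by
    rw [main_wB]
    exact contDiff_const.sub (contDiff_const.mul (contDiff_norm_sq ℝ))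
  have hgB : ∀ x : E N, gradient (wB N β R) x = -(1 / N : ℝ) • x := by
    intro x
    rw [main_wB]
    refine HasGradientAt.gradient ?_
    rw [hasGradientAt_iff_hasFDerivAt]
    refine (main_fderiv_normSq (R / (N * β) + R ^ 2 / (2 * N)) (1 / (2 * N)) x).congr_fderiv ?_
    ext z
    have : 2 * (1 / (2 * (N : ℝ))) = 1 / N := by field_simp
    rw [this]
    simp
  have e2 : ∫ x in ball (0 : E N) R, schwarz Ω f x * wB N β R x ≤ ∫ x in ball (0 : E N) R, v x := by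
    have hA := hsm _ _ hnB hB
    rw [← c3 _ _ _ hA.1 hA.2]
    have p := hball R v Gv gv hR ⟨c1, c2⟩
    have q : ∫ x, gv x * wB N β R x ∂(surf (ball (0 : E N) R)) =
        R / (N * β) * ∫ x, gv x ∂(surf (ball (0 : E N) R)) := by
      rw [← integral_const_mul]
      refine integral_congr_ae ?_
      unfold surf
      filter_upwards [ae_restrict_mem isClosed_frontier.measurableSet] with x hx
      rw [frontier_ball _ hR.ne'] at hx
      have hx' : ‖x‖ = R := by simpa using hx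
      simp [wB, hx', mul_comm]
    have hid : MemLp (fun x : E N => x) 2 (volume.restrict (ball (0 : E N) R)) := by
      refine MemLp.of_bound aestronglyMeasurable_id R ?_
      filter_upwards [ae_restrict_mem measurableSet_ball] with x hx
      exact (mem_ball_zero_iff.1 hx).le
    have i1 : Integrable (fun x => ⟪Gv x, x⟫) (volume.restrict (ball (0 : E N) R)) := by
      refine Integrable.mono' (c1.gradL2.norm.integrable_mul hid.norm)
        (c1.gradL2.aestronglyMeasurable.inner hid.aestronglyMeasurable)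
        (Eventually.of_forall fun x => norm_inner_le_norm _ _)
    rw [integral_add i1 ((c1.memL2.integrable (by simp)).const_mul _), integral_const_mul] at p
    simp only [hgB, inner_smul_right]
    rw [integral_const_mul, q]
    have r1 : β * (R / (N * β) * ∫ x, gv x ∂(surf (ball (0 : E N) R))) =
        1 / N * (R * ∫ x, gv x ∂(surf (ball (0 : E N) R))) := by field_simp
    rw [r1]
    have r2 := mul_le_mul_of_nonneg_left p (by positivity : (0 : ℝ) ≤ 1 / N)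
    have r3 : 1 / (N : ℝ) * (N * ∫ x in ball (0 : E N) R, v x) = ∫ x in ball (0 : E N) R, v x := by
      field_simp
    rw [mul_add, r3] at r2
    linarith
  have iu := a1.memL2.integrable (by simp)
  have iv := c1.memL2.integrable (by simp)
  rw [eLpNorm_one_eq_lintegral_enorm, eLpNorm_one_eq_lintegral_enorm,
    ← ofReal_integral_norm_eq_lintegral_enorm iu, ← ofReal_integral_norm_eq_lintegral_enorm iv]
  refine ENNReal.ofReal_le_ofReal ?_
  calc ∫ x in Ω, ‖u x‖ = ∫ x in Ω, u x :=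
        integral_congr_ae (hu0.mono fun x hx => Real.norm_of_nonneg hx)
    _ ≤ ∫ x in ball (0 : E N) R, v x := e1.le.trans (hHL.trans e2)
    _ ≤ ∫ x in ball (0 : E N) R, ‖v x‖ := integral_mono iv iv.norm fun x => le_abs_self _

end Pool.Agent.Lib.MP_54d1f6_an
end
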